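import Pool.Agent.H984R3.Per.Defs

/-!
P18: no long open path near the boundary of the box.
-/

namespace H984P

open H974 Finset H342P

/-- A crossing of a long rectangle crosses sub-rectangles. -/
theorem layL_sub {a b c d a' b' : ℤ} {F : Finset Edg} (h1 : a ≤ a') (h2 : a' < b') (h3 : b' ≤ b)
    (h : LRc a b c d F) : LRc a' b' c d F := by
  obtain ⟨y, y', hy, hy', hr⟩ := h
  obtain ⟨y1, y2, k1, k2, k3, -⟩ := sub_LR (a := a') (b := b') (c := c) (d := d) h2
    (by rintro x y ⟨-, h⟩ _ _; simp only [mem_coe, mem_LRE_true] at h; omega)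
    (by rintro x y ⟨-, h⟩ _ _; simp only [mem_coe, mem_LRE_false] at h; omega) hr h1 h3
  exact ⟨y1, y2, k1, k2, k3.mono (by rintro e ⟨⟨h5, -⟩, h6⟩; exact ⟨h5, h6⟩)⟩

/-- A long thin rectangle is crossed with exponentially small probability. -/
theorem layL_thin {a c R : ℤ} (hR : 1 ≤ R) (S : Finset Edg) (K : ℕ)
    (hS : LRE a (a + K * (R + 1)) c (c + R) ⊆ S) :
    Pr (fun _ => (1/2:ℝ)) S (fun F => ∀ i < K,
      LRc (a + (i:ℤ) * (R + 1)) (a + ((i:ℤ) + 1) * (R + 1)) c (c + R) F) ≤ (1/2) ^ K := by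
  have hok : Ok (fun _ : Edg => (1/2:ℝ)) := fun _ => ⟨by norm_num, by norm_num⟩
  induction K with
  | zero => simpa using Pr_le_one hok _ _
  | succ K ih =>
    have hK0 : (0:ℤ) ≤ (K:ℤ) * (R + 1) := by positivity
    have e0 : ((K + 1 : ℕ) : ℤ) * (R + 1) = (K:ℤ) * (R + 1) + (R + 1) := by push_cast; ring
    have e00 : ((K : ℤ) + 1) * (R + 1) = (K:ℤ) * (R + 1) + (R + 1) := by ring
    rw [e0] at hS
    have hS1 : LRE a (a + K * (R + 1)) c (c + R) ⊆ S := by
      refine Finset.Subset.trans ?_ hS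
      rintro ⟨x, y, _ | _⟩ h
      · simp only [mem_LRE_false] at h ⊢; omega
      · simp only [mem_LRE_true] at h ⊢; omega
    have hS2 : LRE (a + (K:ℤ) * (R + 1)) (a + ((K:ℤ) + 1) * (R + 1)) c (c + R) ⊆ S := by
      refine Finset.Subset.trans ?_ hS
      rw [e00]
      rintro ⟨x, y, _ | _⟩ h
      · simp only [mem_LRE_false] at h ⊢; omega
      · simp only [mem_LRE_true] at h ⊢; omega
    have ih' := ih hS1
    set T := S.filter (fun e => e.1 < a + (K:ℤ) * (R + 1)) with hT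
    set T' := S.filter (fun e => ¬ e.1 < a + (K:ℤ) * (R + 1)) with hT'
    have h1 : Pr (fun _ => (1/2:ℝ)) S (fun F => ∀ i < K + 1,
        LRc (a + (i:ℤ) * (R + 1)) (a + ((i:ℤ) + 1) * (R + 1)) c (c + R) F) =
        Pr (fun _ => (1/2:ℝ)) S (fun F => (∀ i < K,
          LRc (a + (i:ℤ) * (R + 1)) (a + ((i:ℤ) + 1) * (R + 1)) c (c + R) F) ∧
          LRc (a + (K:ℤ) * (R + 1)) (a + ((K:ℤ) + 1) * (R + 1)) c (c + R) F) := by
      apply Pr_congr
      intro F _
      constructor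
      · intro h
        exact ⟨fun i hi => h i (by omega), h K (by omega)⟩
      · rintro ⟨h2, h3⟩ i hi
        rcases Nat.lt_succ_iff_lt_or_eq.mp hi with h4 | h4
        · exact h2 i h4
        · rw [h4]; exact h3
    rw [h1, Pr_indep (S := T) (T := T') (Finset.filter_subset _ _) (Finset.filter_subset _ _)
      (Finset.disjoint_filter_filter_not _ _ _)]
    · have h2 : Pr (fun _ => (1/2:ℝ)) S (fun F =>
          LRc (a + (K:ℤ) * (R + 1)) (a + ((K:ℤ) + 1) * (R + 1)) c (c + R) F) ≤ 1/2 := by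
        rw [pr_LRc _ hS2]
        have h3 := hh_half R (by omega)
        have e1 : (a + ((K:ℤ) + 1) * (R + 1)) - (a + (K:ℤ) * (R + 1)) = R + 1 := by ring
        have e2 : c + R - c = R := by ring
        rw [e1, e2, h3]
      rw [pow_succ]
      exact mul_le_mul ih' h2 (Pr_nonneg hok _ _) (by positivity)
    · intro F _
      have key : ∀ i < K, (LRc (a + (i:ℤ) * (R + 1)) (a + ((i:ℤ) + 1) * (R + 1)) c (c + R) F ↔
          LRc (a + (i:ℤ) * (R + 1)) (a + ((i:ℤ) + 1) * (R + 1)) c (c + R) (F ∩ T)) := by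
        intro i hi
        apply LRc_local
        have h5 : ((i:ℤ) + 1) * (R + 1) ≤ (K:ℤ) * (R + 1) := by
          apply mul_le_mul_of_nonneg_right _ (by omega)
          exact_mod_cast hi
        have hi0 : (0:ℤ) ≤ (i:ℤ) * (R + 1) := by positivity
        intro e he
        rw [hT, Finset.mem_filter]
        constructor
        · apply hS1
          obtain ⟨x, y, t⟩ := e
          cases t
          · rw [mem_LRE_false] at he ⊢; omega
          · rw [mem_LRE_true] at he ⊢; omega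
        · obtain ⟨x, y, t⟩ := e
          cases t
          · rw [mem_LRE_false] at he; simp only; omega
          · rw [mem_LRE_true] at he; simp only; omega
      constructor
      · intro h i hi
        exact (key i hi).mp (h i hi)
      · intro h i hi
        exact (key i hi).mpr (h i hi)
    · intro F _
      apply LRc_local
      intro e he
      rw [hT', Finset.mem_filter]
      refine ⟨hS2 he, ?_⟩
      obtain ⟨x, y, t⟩ := e
      cases t
      · rw [mem_LRE_false] at he; simp only; omega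
      · rw [mem_LRE_true] at he; simp only; omega

theorem layL_long {a c R : ℤ} (hR : 1 ≤ R) (S : Finset Edg) (K : ℕ) (hK : 1 ≤ K)
    (hS : LRE a (a + K * (R + 1)) c (c + R) ⊆ S) :
    Pr (fun _ => (1/2:ℝ)) S (LRc a (a + K * (R + 1)) c (c + R)) ≤ (1/2) ^ K := by
  have hok : Ok (fun _ : Edg => (1/2:ℝ)) := fun _ => ⟨by norm_num, by norm_num⟩
  refine le_trans (Pr_mono hok ?_) (layL_thin hR S K hS)
  intro F _ h i hi
  have h5 : ((i:ℤ) + 1) * (R + 1) ≤ (K:ℤ) * (R + 1) := by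
    apply mul_le_mul_of_nonneg_right _ (by omega)
    exact_mod_cast hi
  have hi0 : (0:ℤ) ≤ (i:ℤ) * (R + 1) := by positivity
  have e00 : ((i : ℤ) + 1) * (R + 1) = (i:ℤ) * (R + 1) + (R + 1) := by ring
  exact layL_sub (by omega) (by omega) (by omega) h

/-- The layer. -/
def LayS (n : ℕ) (R : ℤ) : Set Edg := {e | H342P.bdist n (src e) < R ∧ H342P.bdist n (tgt e) < R}

theorem layL_swap (n : ℕ) (u : Vtx) : bdist n (u.2, u.1) = bdist n u := by
  unfold bdist
  exact min_comm _ _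

/-- An endpoint of a nontrivial path in a box is in the box. -/
theorem layL_end {F : Finset Edg} {n : ℕ} (hF : F ⊆ RE 0 n 0 n) {G : Set Edg} (hG : G ⊆ ↑F)
    {u v : Vtx} (h : Reach G u v) (hne : u ≠ v) : inR 0 n 0 n u := by
  rcases Relation.ReflTransGen.cases_head h with h1 | ⟨w, h1, -⟩
  · exact absurd h1 hne
  · obtain ⟨e, he, hc⟩ := h1
    have hm : e ∈ RE 0 n 0 n := hF (by exact_mod_cast hG he)
    obtain ⟨x, y, t⟩ := e
    unfold inR
    cases t
    · rw [mem_RE_false] at hm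
      simp only [src_mk, tgt_false] at hc
      rcases hc with ⟨h3, h4⟩ | ⟨h3, h4⟩
      · rw [← h3]; simp only; omega
      · rw [← h4]; simp only; omega
    · rw [mem_RE_true] at hm
      simp only [src_mk, tgt_true] at hc
      rcases hc with ⟨h3, h4⟩ | ⟨h3, h4⟩
      · rw [← h3]; simp only; omega
      · rw [← h4]; simp only; omega

/-- A wide path in the layer crosses a long rectangle. -/
theorem layL_cross {n K : ℕ} {R w : ℤ} (hR : 1 ≤ R) (hK : 1 ≤ K)
    (hw : K * (R + 1) + 4 * R ≤ w) {F : Finset Edg} (hF : F ⊆ RE 0 n 0 n) {u v : Vtx}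
    (huv : u.1 + w ≤ v.1) (h : Reach (↑F ∩ LayS n R) u v) :
    ∃ a ∈ Finset.Icc (0:ℤ) n, a + K * (R + 1) ≤ n ∧
      (LRc a (a + K * (R + 1)) 0 (0 + R) F ∨
        LRc a (a + K * (R + 1)) (n - R) (n - R + R) F) := by
  have hK0 : (1:ℤ) * (R + 1) ≤ (K:ℤ) * (R + 1) := by
    apply mul_le_mul_of_nonneg_right _ (by omega)
    exact_mod_cast hK
  have hne : u ≠ v := by rintro rfl; omega
  have hu := layL_end hF Set.inter_subset_left h hne
  have hv := layL_end hF Set.inter_subset_left h.symm hne.symm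
  unfold inR at hu hv
  set L : ℤ := (K:ℤ) * (R + 1) with hL
  set a : ℤ := max u.1 R with ha
  have ha1 : u.1 ≤ a := le_max_left _ _
  have ha2 : R ≤ a := le_max_right _ _
  have ha3 : a ≤ u.1 + R := max_le (by omega) (by omega)
  have hab : a + L ≤ v.1 - R := by omega
  have hab' : a + L ≤ n - R := by omega
  have hlt : a < a + L := by omega
  obtain ⟨y1, y2, k1, k2, k3, -⟩ := sub_LR (a := a) (b := a + L) (c := 0) (d := n) hlt
    (by
      rintro x y ⟨h, -⟩ _ _
      have := hF (by exact_mod_cast h : ((x, y, true) : Edg) ∈ F)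
      rw [mem_RE_true] at this; omega)
    (by
      rintro x y ⟨h, -⟩ _ _
      have := hF (by exact_mod_cast h : ((x, y, false) : Edg) ∈ F)
      rw [mem_RE_false] at this; omega) h ha1 (by omega : a + L ≤ v.1)
  -- every edge is on one side
  have hside : ∀ e : Edg, e ∈ (↑F ∩ LayS n R) ∩ (↑(LRE a (a + L) 0 n) : Set Edg) →
      ((src e).2 < R ∧ (tgt e).2 < R ∧ e ∈ LRE a (a + L) 0 (0 + R)) ∨
      ((n:ℤ) - R < (src e).2 ∧ (n:ℤ) - R < (tgt e).2 ∧
        e ∈ LRE a (a + L) (n - R) (n - R + R)) := by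
    rintro ⟨x, y, t⟩ ⟨⟨-, hl⟩, hm⟩
    have hm' : ((x, y, t) : Edg) ∈ LRE a (a + L) 0 n := by exact_mod_cast hm
    unfold LayS bdist at hl
    simp only [Set.mem_setOf_eq] at hl
    cases t
    · simp only [src_mk, tgt_false] at hl ⊢
      rw [mem_LRE_false] at hm' ⊢
      rw [mem_LRE_false]
      omega
    · simp only [src_mk, tgt_true] at hl ⊢
      rw [mem_LRE_true] at hm' ⊢
      rw [mem_LRE_true]
      omega
  have key : ∀ z, Reach ((↑F ∩ LayS n R) ∩ (↑(LRE a (a + L) 0 n) : Set Edg)) (a, y1) z →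
      z = (a, y1) ∨ (z.2 < R ∧ y1 < R ∧ Reach (↑F ∩ ↑(LRE a (a + L) 0 (0 + R))) (a, y1) z) ∨
      ((n:ℤ) - R < z.2 ∧ (n:ℤ) - R < y1 ∧
        Reach (↑F ∩ ↑(LRE a (a + L) (n - R) (n - R + R))) (a, y1) z) := by
    intro z hz
    induction hz with
    | refl => exact Or.inl rfl
    | @tail z z' _ hs ih =>
      obtain ⟨e, he, hc⟩ := hs
      have hs := hside e he
      have heF := he.1.1
      right
      rcases ih with ih | ih | ih
      · subst ih
        rcases hs with ⟨s1, s2, s3⟩ | ⟨s1, s2, s3⟩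
        · left
          have hadj : Adj (↑F ∩ ↑(LRE a (a + L) 0 (0 + R))) (a, y1) z' :=
            ⟨e, ⟨heF, by exact_mod_cast s3⟩, hc⟩
          rcases hc with ⟨h3, h4⟩ | ⟨h3, h4⟩
          · rw [h4] at s2; rw [h3] at s1; exact ⟨s2, s1, hadj.reach⟩
          · rw [h4] at s2; rw [h3] at s1; exact ⟨s1, s2, hadj.reach⟩
        · right
          have hadj : Adj (↑F ∩ ↑(LRE a (a + L) (n - R) (n - R + R))) (a, y1) z' :=
            ⟨e, ⟨heF, by exact_mod_cast s3⟩, hc⟩
          rcases hc with ⟨h3, h4⟩ | ⟨h3, h4⟩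
          · rw [h4] at s2; rw [h3] at s1; exact ⟨s2, s1, hadj.reach⟩
          · rw [h4] at s2; rw [h3] at s1; exact ⟨s1, s2, hadj.reach⟩
      · obtain ⟨i1, i2, i3⟩ := ih
        rcases hs with ⟨s1, s2, s3⟩ | ⟨s1, s2, s3⟩
        · left
          have hadj : Adj (↑F ∩ ↑(LRE a (a + L) 0 (0 + R))) z z' :=
            ⟨e, ⟨heF, by exact_mod_cast s3⟩, hc⟩
          rcases hc with ⟨h3, h4⟩ | ⟨h3, h4⟩
          · rw [h4] at s2; exact ⟨s2, i2, i3.trans hadj.reach⟩
          · rw [h3] at s1; exact ⟨s1, i2, i3.trans hadj.reach⟩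
        · exfalso
          rcases hc with ⟨h3, h4⟩ | ⟨h3, h4⟩
          · rw [h3] at s1; omega
          · rw [h4] at s2; omega
      · obtain ⟨i1, i2, i3⟩ := ih
        rcases hs with ⟨s1, s2, s3⟩ | ⟨s1, s2, s3⟩
        · exfalso
          rcases hc with ⟨h3, h4⟩ | ⟨h3, h4⟩
          · rw [h3] at s1; omega
          · rw [h4] at s2; omega
        · right
          have hadj : Adj (↑F ∩ ↑(LRE a (a + L) (n - R) (n - R + R))) z z' :=
            ⟨e, ⟨heF, by exact_mod_cast s3⟩, hc⟩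
          rcases hc with ⟨h3, h4⟩ | ⟨h3, h4⟩
          · rw [h4] at s2; exact ⟨s2, i2, i3.trans hadj.reach⟩
          · rw [h3] at s1; exact ⟨s1, i2, i3.trans hadj.reach⟩
  refine ⟨a, by rw [Finset.mem_Icc]; omega, by omega, ?_⟩
  rcases key _ k3 with h1 | ⟨h1, h2, h3⟩ | ⟨h1, h2, h3⟩
  · exfalso
    simp only [Prod.mk.injEq] at h1
    omega
  · left
    exact ⟨y1, y2, by simp only at h1; omega, by simp only at h1; omega, h3⟩
  · right
    exact ⟨y1, y2, by simp only at h1; omega, by simp only at h1; omega, h3⟩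

/-- Wide paths. -/
theorem layL_x {n m : ℕ} {R w : ℤ} (hR : 1 ≤ R) (hw : (m + 1) * (R + 1) + 4 * R ≤ w) :
    Pr (fun _ => (1/2:ℝ)) (RE 0 n 0 n) (fun F => ∃ u v : Vtx, w ≤ |u.1 - v.1| ∧
      Reach (↑F ∩ LayS n R) u v) ≤ ((n:ℝ) + 1) * (1/2) ^ m := by
  have hok : Ok (fun _ : Edg => (1/2:ℝ)) := fun _ => ⟨by norm_num, by norm_num⟩
  set J : Finset ℤ := (Finset.Icc (0:ℤ) n).filter (fun a => a + (m + 1 : ℕ) * (R + 1) ≤ n) with hJ
  have hcard : (J.card : ℝ) ≤ (n:ℝ) + 1 := by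
    have h1 : J.card ≤ (Finset.Icc (0:ℤ) n).card := Finset.card_filter_le _ _
    have h2 : (Finset.Icc (0:ℤ) n).card = n + 1 := by simp
    rw [h2] at h1
    exact_mod_cast h1
  have hR0 : 0 ≤ ((m + 1 : ℕ):ℤ) * (R + 1) := by positivity
  refine le_trans (Pr_mono hok (B := fun F => ∃ a ∈ J,
      (LRc a (a + (m + 1 : ℕ) * (R + 1)) 0 (0 + R) F ∨
        LRc a (a + (m + 1 : ℕ) * (R + 1)) (n - R) (n - R + R) F)) ?_) ?_
  · rintro F hF ⟨u, v, huv, hr⟩
    have hw' : ((m + 1 : ℕ):ℤ) * (R + 1) + 4 * R ≤ w := by push_cast; exact hw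
    rcases le_total u.1 v.1 with h1 | h1
    · rw [abs_sub_comm, abs_of_nonneg (by omega)] at huv
      obtain ⟨a, k1, k2, k3⟩ := layL_cross hR (by omega : 1 ≤ m + 1) hw' hF
        (by omega : u.1 + w ≤ v.1) hr
      exact ⟨a, by rw [hJ, Finset.mem_filter]; exact ⟨k1, k2⟩, k3⟩
    · rw [abs_of_nonneg (by omega)] at huv
      obtain ⟨a, k1, k2, k3⟩ := layL_cross hR (by omega : 1 ≤ m + 1) hw' hF
        (by omega : v.1 + w ≤ u.1) hr.symm
      exact ⟨a, by rw [hJ, Finset.mem_filter]; exact ⟨k1, k2⟩, k3⟩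
  · refine le_trans (Pr_exists_le hok _ J _) ?_
    have hb : ∀ a ∈ J, Pr (fun _ => (1/2:ℝ)) (RE 0 n 0 n) (fun F =>
        (LRc a (a + (m + 1 : ℕ) * (R + 1)) 0 (0 + R) F ∨
        LRc a (a + (m + 1 : ℕ) * (R + 1)) (n - R) (n - R + R) F)) ≤ (1/2) ^ m := by
      intro a ha
      rw [hJ, Finset.mem_filter, Finset.mem_Icc] at ha
      have hRn : R ≤ n := by
        have : (1:ℤ) * (R + 1) ≤ ((m + 1 : ℕ):ℤ) * (R + 1) := by
          apply mul_le_mul_of_nonneg_right _ (by omega)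
          push_cast; omega
        omega
      refine le_trans (Pr_or_le hok _ _ _) ?_
      have p1 := layL_long (a := a) (c := 0) hR (RE 0 n 0 n) (m + 1) (by omega) (by
        rintro ⟨x, y, _ | _⟩ h
        · simp only [mem_LRE_false, mem_RE_false] at h ⊢; omega
        · simp only [mem_LRE_true, mem_RE_true] at h ⊢; omega)
      have p2 := layL_long (a := a) (c := n - R) hR (RE 0 n 0 n) (m + 1) (by omega) (by
        rintro ⟨x, y, _ | _⟩ h
        · simp only [mem_LRE_false, mem_RE_false] at h ⊢; omega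
        · simp only [mem_LRE_true, mem_RE_true] at h ⊢; omega)
      rw [pow_succ] at p1 p2
      have := add_le_add p1 p2
      linarith
    refine le_trans (Finset.sum_le_sum hb) ?_
    rw [Finset.sum_const, nsmul_eq_mul]
    exact mul_le_mul_of_nonneg_right hcard (by positivity)

theorem layer_prob {n m : ℕ} {R w : ℤ} (hR : 1 ≤ R) (hw : 2 * (m + 2) * (R + 1) + 4 * R ≤ w) :
    Pr (fun _ => (1/2:ℝ)) (RE 0 n 0 n) (fun F => LayEv n R w (↑F)) ≤
      4 * ((n:ℝ) + 1) * (1/2) ^ m := by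
  have hok : Ok (fun _ : Edg => (1/2:ℝ)) := fun _ => ⟨by norm_num, by norm_num⟩
  have hw' : ((m:ℤ) + 1) * (R + 1) + 4 * R ≤ w := by
    have h1 : 0 ≤ ((m:ℤ) + 3) * (R + 1) := by positivity
    linarith
  have hA := layL_x (n := n) hR hw'
  have hB : Pr (fun _ => (1/2:ℝ)) (RE 0 n 0 n) (fun F => ∃ u v : Vtx, w ≤ |u.2 - v.2| ∧
      Reach (↑F ∩ LayS n R) u v) ≤ ((n:ℝ) + 1) * (1/2) ^ m := by
    refine le_trans ?_ hA
    have h1 : RE 0 (n:ℤ) 0 n = tps.mp (RE 0 n 0 n) := by rw [tps_RE]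
    conv_rhs => rw [h1, LSym.pr]
    apply Pr_mono hok
    rintro F _ ⟨u, v, huv, hr⟩
    have h2 := tps.reach hr
    refine ⟨tps.ψ u, tps.ψ v, huv, h2.mono ?_⟩
    rintro _ ⟨e, ⟨he1, he2⟩, rfl⟩
    constructor
    · rw [LSym.coe_mp]; exact ⟨e, he1, rfl⟩
    · unfold LayS at he2 ⊢
      simp only [Set.mem_setOf_eq] at he2 ⊢
      obtain ⟨x, y, t⟩ := e
      cases t
      · simp only [src_mk, tgt_false, tps_φ, Bool.not_false, tgt_true] at he2 ⊢
        exact ⟨(layL_swap n (x, y)).trans_lt he2.1, (layL_swap n (x, y + 1)).trans_lt he2.2⟩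
      · simp only [src_mk, tgt_true, tps_φ, Bool.not_true, tgt_false] at he2 ⊢
        exact ⟨(layL_swap n (x, y)).trans_lt he2.1, (layL_swap n (x + 1, y)).trans_lt he2.2⟩
  have hC : Pr (fun _ => (1/2:ℝ)) (RE 0 n 0 n) (fun F => LayEv n R w (↑F)) ≤
      Pr (fun _ => (1/2:ℝ)) (RE 0 n 0 n) (fun F => ∃ u v : Vtx, w ≤ |u.1 - v.1| ∧
      Reach (↑F ∩ LayS n R) u v) +
      Pr (fun _ => (1/2:ℝ)) (RE 0 n 0 n) (fun F => ∃ u v : Vtx, w ≤ |u.2 - v.2| ∧
      Reach (↑F ∩ LayS n R) u v) := by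
    refine le_trans (Pr_mono hok ?_) (Pr_or_le hok _ _ _)
    rintro F _ ⟨u, v, huv | huv, hr⟩
    · exact Or.inl ⟨u, v, huv, hr⟩
    · exact Or.inr ⟨u, v, huv, hr⟩
  have hpos : 0 ≤ ((n:ℝ) + 1) * (1/2) ^ m := by positivity
  linarith

end H984P
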