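import Pool.Agent.H984R3.Per.Defs

/-!
P2: elementary properties of orbits and strands (proofs by helper640).
-/

namespace H984P

open H974 Finset H342P

theorem nxt_bij (F : Set Edg) : Function.Bijective (nxt F) := by
  constructor
  · rintro ⟨⟨x, y⟩, k⟩ ⟨⟨x', y'⟩, k'⟩ h
    by_cases h1 : ae ((x, y), k) ∈ F <;> by_cases h2 : ae ((x', y'), k') ∈ F
    · rw [nxt_open h1, nxt_open h2] at h
      cases k <;> cases k' <;> simp_all
    · rw [nxt_open h1, nxt_closed h2] at h
      cases k <;> cases k' <;> simp only [mv_ne, mv_nw, mv_sw, mv_se, rt_ne, rt_nw, rt_sw, rt_se,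
        Prod.mk.injEq, reduceCtorEq, and_false, and_true] at h
      all_goals
        obtain ⟨rfl, rfl⟩ := h
        simp at h1 h2
        contradiction
    · rw [nxt_closed h1, nxt_open h2] at h
      cases k <;> cases k' <;> simp only [mv_ne, mv_nw, mv_sw, mv_se, rt_ne, rt_nw, rt_sw, rt_se,
        Prod.mk.injEq, reduceCtorEq, and_false, and_true] at h
      all_goals
        obtain ⟨rfl, rfl⟩ := h
        simp at h1 h2
        contradiction
    · rw [nxt_closed h1, nxt_closed h2] at h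
      cases k <;> cases k' <;> simp_all
  · rintro ⟨⟨x, y⟩, k⟩
    cases k
    · by_cases h : ((x, y, false) : Edg) ∈ F
      · exact ⟨((x, y + 1), .se), by rw [nxt_open (by simpa using h)]; simp⟩
      · exact ⟨((x, y), .nw), by rw [nxt_closed (by simpa using h)]; simp⟩
    · by_cases h : ((x - 1, y, true) : Edg) ∈ F
      · exact ⟨((x - 1, y), .ne), by rw [nxt_open (by simpa using h)]; simp⟩
      · exact ⟨((x, y), .sw), by rw [nxt_closed (by simpa using h)]; simp⟩
    · by_cases h : ((x, y - 1, false) : Edg) ∈ F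
      · exact ⟨((x, y - 1), .nw), by rw [nxt_open (by simpa using h)]; simp⟩
      · exact ⟨((x, y), .se), by rw [nxt_closed (by simpa using h)]; simp⟩
    · by_cases h : ((x, y, true) : Edg) ∈ F
      · exact ⟨((x + 1, y), .sw), by rw [nxt_open (by simpa using h)]; simp⟩
      · exact ⟨((x, y), .ne), by rw [nxt_closed (by simpa using h)]; simp⟩

theorem nxt_fst (F : Set Edg) (σ : St) :
    |(nxt F σ).1.1 - σ.1.1| ≤ 1 ∧ |(nxt F σ).1.2 - σ.1.2| ≤ 1 := by
  obtain ⟨⟨x, y⟩, k⟩ := σ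
  by_cases h : ae ((x, y), k) ∈ F
  · rw [nxt_open h]
    cases k <;> simp
  · rw [nxt_closed h]
    cases k <;> simp

theorem p2_ends (σ : St) : (src (ae σ) = σ.1 ∧ tgt (ae σ) = (mv σ).1) ∨
    (src (ae σ) = (mv σ).1 ∧ tgt (ae σ) = σ.1) := by
  obtain ⟨⟨x, y⟩, k⟩ := σ
  cases k <;> simp

theorem p2_rt_fst (σ : St) : (rt σ).1 = σ.1 := by
  obtain ⟨⟨x, y⟩, k⟩ := σ
  cases k <;> simp

theorem p2_face_mv (σ : St) : face (mv σ) = face σ := by
  obtain ⟨⟨x, y⟩, k⟩ := σ
  cases k <;> simp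

theorem p2_dends (σ : St) : (dsrc (ae σ) = face σ ∧ dtgt (ae σ) = face (rt σ)) ∨
    (dsrc (ae σ) = face (rt σ) ∧ dtgt (ae σ) = face σ) := by
  obtain ⟨⟨x, y⟩, k⟩ := σ
  cases k <;> simp

theorem orb_reach {F W : Set Edg} {σ : St} {T : ℕ} (hW : ∀ s < T, ae (orb F σ s) ∈ W)
    {s : ℕ} (hs : s ≤ T) : Reach (F ∩ W) σ.1 (orb F σ s).1 := by
  induction s with
  | zero => exact Reach.refl _ _
  | succ s ih =>
    have ih' := ih (by omega)
    rw [orb_succ]
    by_cases h : ae (orb F σ s) ∈ F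
    · rw [nxt_open h]
      refine ih'.trans (Adj.reach ⟨ae (orb F σ s), ⟨h, hW s (by omega)⟩, ?_⟩)
      exact p2_ends _
    · rw [nxt_closed h, p2_rt_fst]
      exact ih'

theorem orb_dreach {F W : Set Edg} {σ : St} {T : ℕ} (hW : ∀ s < T, ae (orb F σ s) ∈ W)
    {s : ℕ} (hs : s ≤ T) : DReach (W \ F) (face σ) (face (orb F σ s)) := by
  induction s with
  | zero => exact DReach.refl _ _
  | succ s ih =>
    have ih' := ih (by omega)
    rw [orb_succ]
    by_cases h : ae (orb F σ s) ∈ F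
    · rw [nxt_open h, p2_face_mv]
      exact ih'
    · rw [nxt_closed h]
      refine ih'.trans (DAdj.reach ⟨ae (orb F σ s), ⟨hW s (by omega), h⟩, ?_⟩)
      exact p2_dends _

theorem orb_congr {F F' : Set Edg} {σ : St} {T : ℕ}
    (h : ∀ e ∈ Exm F σ T, (e ∈ F ↔ e ∈ F')) {s : ℕ} (hs : s ≤ T) :
    orb F' σ s = orb F σ s := by
  induction s with
  | zero => rfl
  | succ s ih =>
    have ih' := ih (by omega)
    rw [orb_succ, orb_succ, ih']
    have h1 := h (ae (orb F σ s)) (mem_Exm.2 ⟨s, by omega, rfl⟩)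
    by_cases h2 : ae (orb F σ s) ∈ F
    · rw [nxt_open h2, nxt_open (h1.1 h2)]
    · rw [nxt_closed h2, nxt_closed (fun h3 => h2 (h1.2 h3))]

theorem Exm_congr {F F' : Set Edg} {σ : St} {T : ℕ}
    (h : ∀ e ∈ Exm F σ T, (e ∈ F ↔ e ∈ F')) : Exm F' σ T = Exm F σ T := by
  ext e
  rw [mem_Exm, mem_Exm]
  constructor
  · rintro ⟨s, hs, rfl⟩
    exact ⟨s, hs, by rw [orb_congr h hs.le]⟩
  · rintro ⟨s, hs, rfl⟩
    exact ⟨s, hs, by rw [orb_congr h hs.le]⟩

theorem strand_congr {F F' : Set Edg} {A y0 X Y : ℤ} {T : ℕ} (hst : Strand F A y0 X Y T)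
    (h : ∀ e ∈ Exm F (st0 A y0) T, (e ∈ F ↔ e ∈ F')) (hent : ((A - 1, y0, true) : Edg) ∈ F') :
    Strand F' A y0 X Y T where
  lt := hst.lt
  ent := hent
  stay s hs := by
    rw [orb_congr h hs.le]
    exact hst.stay s hs
  tip := by
    rw [orb_congr h le_rfl]
    exact hst.tip

/-- Location of the examined edges of a strand. -/
theorem exm_loc {F : Set Edg} {A y0 X Y : ℤ} {T : ℕ} (hst : Strand F A y0 X Y T) {e : Edg}
    (he : e ∈ Exm F (st0 A y0) T) :
    A - 1 ≤ e.1 ∧ e.1 ≤ X - 1 ∧ e ≠ (A - 1, y0, true) := by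
  obtain ⟨s, hs, rfl⟩ := mem_Exm.1 he
  have hstay := hst.stay s hs
  have hnext : A ≤ (orb F (st0 A y0) (s + 1)).1.1 := by
    rcases Nat.lt_or_ge (s + 1) T with h | h
    · exact (hst.stay _ h).1
    · have : s + 1 = T := by omega
      rw [this, hst.tip]
      exact hst.lt.le
  rw [orb_succ] at hnext
  generalize orb F (st0 A y0) s = σ at hstay hnext ⊢
  obtain ⟨⟨x, y⟩, k⟩ := σ
  simp only at hstay
  obtain ⟨h1, h2⟩ := hstay
  refine ⟨?_, ?_, ?_⟩
  · cases k <;> simp <;> omega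
  · cases k <;> simp <;> omega
  · intro heq
    have hop : ae ((x, y), k) ∈ F := by rw [heq]; exact hst.ent
    rw [nxt_open hop] at hnext
    cases k <;> simp at heq hnext <;> omega

/-- The first visit of a column has the form of a tip. -/
theorem tip_of_first {F : Set Edg} {A y0 X : ℤ} {T : ℕ} (hAX : A < X)
    (hstay : ∀ s < T, A ≤ (orb F (st0 A y0) s).1.1 ∧ (orb F (st0 A y0) s).1.1 < X)
    (hT : (orb F (st0 A y0) T).1.1 = X) : ∃ Y, orb F (st0 A y0) T = ((X, Y), .nw) := by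
  rcases T with _ | s
  · exfalso
    simp only [orb_zero, st0] at hT
    omega
  · have h1 := (hstay s (by omega)).2
    rw [orb_succ] at hT ⊢
    generalize orb F (st0 A y0) s = σ at h1 hT ⊢
    obtain ⟨⟨x, y⟩, k⟩ := σ
    by_cases hop : ae ((x, y), k) ∈ F
    · rw [nxt_open hop] at hT ⊢
      cases k
      · simp only [mv_ne] at hT ⊢
        exact ⟨y, by rw [hT]⟩
      all_goals
        exfalso
        simp at hT h1
        omega
    · exfalso
      rw [nxt_closed hop, p2_rt_fst] at hT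
      simp at hT h1
      omega

end H984P
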