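import Pool.Agent.H984R3.Per.Basic

/-!
P13: strands inside an orbit which leaves a ball.
-/

namespace H984P

open H974 Finset H342P

theorem p13_step {F : Set Edg} {τ : St} {A : ℤ} (h1 : τ.1.1 = A - 1) (h2 : (nxt F τ).1.1 = A) :
    ∃ y0 : ℤ, nxt F τ = st0 A y0 ∧ ((A - 1, y0, true) : Edg) ∈ F := by
  obtain ⟨⟨x, y⟩, c⟩ := τ
  have hx : x = A - 1 := h1
  by_cases h : ae ((x, y), c) ∈ F
  · rw [nxt_open h] at h2 ⊢
    cases c with
    | ne =>
      refine ⟨y, ?_, ?_⟩
      · rw [mv_ne, hx]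
        simp [st0]
      · rw [ae_ne, hx] at h
        exact h
    | nw =>
      rw [mv_nw] at h2
      have : x = A := h2
      omega
    | sw =>
      rw [mv_sw] at h2
      have : x - 1 = A := h2
      omega
    | se =>
      rw [mv_se] at h2
      have : x = A := h2
      omega
  · exfalso
    rw [nxt_closed h] at h2
    have : x = A := by
      cases c <;> exact h2
    omega

/-- The orbit of a state which leaves a ball to the right contains a strand over any slab in the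
right half of the ball. -/
theorem exit_strand {F : Set Edg} {σ : St} {R : ℤ} {t : ℕ}
    (hfirst : ∀ s < t, ¬ Far σ.1 R (orb F σ s).1) (hx : (orb F σ t).1.1 = σ.1.1 + R)
    {A X : ℤ} (h1 : σ.1.1 < A) (h2 : A < X) (h3 : X ≤ σ.1.1 + R) :
    ∃ (y0 Y : ℤ) (T s0 : ℕ), orb F σ s0 = st0 A y0 ∧ Strand F A y0 X Y T ∧
      ∀ s ≤ T, |(orb F (st0 A y0) s).1.2 - σ.1.2| ≤ R := by
  classical
  have hstep : ∀ s, |(orb F σ (s + 1)).1.1 - (orb F σ s).1.1| ≤ 1 ∧
      |(orb F σ (s + 1)).1.2 - (orb F σ s).1.2| ≤ 1 := by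
    intro s
    rw [orb_succ]
    exact nxt_fst F _
  have hf0 : (orb F σ 0).1.1 = σ.1.1 := rfl
  have hex : ∃ s, X ≤ (orb F σ s).1.1 := ⟨t, by rw [hx]; exact h3⟩
  set t' := Nat.find hex with ht'
  have ht'X : X ≤ (orb F σ t').1.1 := Nat.find_spec hex
  have ht'lt : ∀ s < t', (orb F σ s).1.1 < X := fun s hs => not_le.1 (Nat.find_min hex hs)
  have ht't : t' ≤ t := Nat.find_min' hex (by rw [hx]; exact h3)
  have ht'0 : t' ≠ 0 := by
    intro h0
    rw [h0, hf0] at ht'X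
    omega
  have ht'eq : (orb F σ t').1.1 = X := by
    obtain ⟨m, hm⟩ := Nat.exists_eq_succ_of_ne_zero ht'0
    have h4 := ht'lt m (by omega)
    have h5 := (abs_le.1 (hstep m).1).2
    rw [hm] at ht'X ⊢
    simp only [Nat.succ_eq_add_one] at *
    omega
  set s' := Nat.findGreatest (fun s => (orb F σ s).1.1 ≤ A - 1) t' with hs'
  have hs'P : (orb F σ s').1.1 ≤ A - 1 :=
    Nat.findGreatest_spec (P := fun s => (orb F σ s).1.1 ≤ A - 1) (Nat.zero_le t')
      (by show (orb F σ 0).1.1 ≤ A - 1; rw [hf0]; omega)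
  have hs'le : s' ≤ t' := Nat.findGreatest_le t'
  have hs'ne : s' ≠ t' := by
    intro h
    rw [h, ht'eq] at hs'P
    omega
  have hs'gt : ∀ s, s' < s → s ≤ t' → A ≤ (orb F σ s).1.1 := by
    intro s hs hst
    have := Nat.findGreatest_is_greatest (P := fun s => (orb F σ s).1.1 ≤ A - 1) hs hst
    simp only [not_le] at this
    omega
  have hA1 := hs'gt (s' + 1) (by omega) (by omega)
  have hst1 := (abs_le.1 (hstep s').1).2
  have e1 : (orb F σ s').1.1 = A - 1 := by omega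
  have e2 : (nxt F (orb F σ s')).1.1 = A := by
    rw [← orb_succ]
    omega
  obtain ⟨y0, hy0, hent⟩ := p13_step e1 e2
  have hs0 : orb F σ (s' + 1) = st0 A y0 := by rw [orb_succ, hy0]
  have horb : ∀ s, orb F (st0 A y0) s = orb F σ (s + (s' + 1)) := by
    intro s
    rw [orb_add, hs0]
  have hstay : ∀ s < t' - (s' + 1), A ≤ (orb F (st0 A y0) s).1.1 ∧
      (orb F (st0 A y0) s).1.1 < X := by
    intro s hs
    rw [horb]
    exact ⟨hs'gt _ (by omega) (by omega), ht'lt _ (by omega)⟩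
  have hT : (orb F (st0 A y0) (t' - (s' + 1))).1.1 = X := by
    rw [horb, Nat.sub_add_cancel (by omega), ht'eq]
  obtain ⟨Y, hY⟩ := tip_of_first h2 hstay hT
  refine ⟨y0, Y, t' - (s' + 1), s' + 1, hs0, ⟨h2, hent, hstay, hY⟩, ?_⟩
  have hlt : ∀ s < t, |(orb F σ s).1.2 - σ.1.2| ≤ R - 1 := by
    intro s hs
    have h6 := hfirst s hs
    unfold Far at h6
    push Not at h6
    rw [abs_le]
    omega
  have hall : ∀ s ≤ t, |(orb F σ s).1.2 - σ.1.2| ≤ R := by
    intro s hs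
    rcases Nat.lt_or_eq_of_le hs with hs | hs
    · have := hlt s hs
      omega
    · have ht0 : s ≠ 0 := by omega
      obtain ⟨m, hm⟩ := Nat.exists_eq_succ_of_ne_zero ht0
      have h7 := abs_le.1 (hlt m (by omega))
      have h8 := abs_le.1 (hstep m).2
      rw [hm, abs_le]
      simp only [Nat.succ_eq_add_one]
      omega
  intro s hs
  rw [horb]
  exact hall _ (by omega)

theorem first_far {F : Set Edg} {σ : St} {R : ℤ} (hR : 1 ≤ R)
    (h : ∃ t, Far σ.1 R (orb F σ t).1) :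
    ∃ t, (∀ s < t, ¬ Far σ.1 R (orb F σ s).1) ∧
      ((orb F σ t).1.1 = σ.1.1 + R ∨ (orb F σ t).1.2 = σ.1.2 + R ∨
        (orb F σ t).1.1 = σ.1.1 - R ∨ (orb F σ t).1.2 = σ.1.2 - R) := by
  classical
  refine ⟨Nat.find h, fun s hs => Nat.find_min h hs, ?_⟩
  have h1 : Far σ.1 R (orb F σ (Nat.find h)).1 := Nat.find_spec h
  have h0 : Nat.find h ≠ 0 := by
    intro h0
    rw [h0, orb_zero] at h1
    unfold Far at h1
    omega
  obtain ⟨m, hm⟩ := Nat.exists_eq_succ_of_ne_zero h0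
  have h2 : ¬ Far σ.1 R (orb F σ m).1 := Nat.find_min h (by omega)
  have h3 : |(orb F σ (m + 1)).1.1 - (orb F σ m).1.1| ≤ 1 ∧
      |(orb F σ (m + 1)).1.2 - (orb F σ m).1.2| ≤ 1 := by
    rw [orb_succ]
    exact nxt_fst F _
  have h4 := abs_le.1 h3.1
  have h5 := abs_le.1 h3.2
  rw [hm] at h1 ⊢
  simp only [Nat.succ_eq_add_one] at h1 ⊢
  unfold Far at h1 h2
  push Not at h2
  omega

end H984P
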