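import Pool.Agent.H984R3.Per.Defs

/-!
P14: rotation by 90 degrees.
-/

namespace H984P

open H974 Finset H342P

theorem p14_mem {F : Finset Edg} {e : Edg} : rE e ∈ rM F ↔ e ∈ F := by
  simp only [rM, Finset.mem_map, Equiv.coe_toEmbedding]
  constructor
  · rintro ⟨a, ha, hae⟩
    rwa [← rE.injective hae]
  · intro h
    exact ⟨e, h, rfl⟩

theorem p14_mem' {F : Finset Edg} {e : Edg} : e ∈ rM F ↔ rE.symm e ∈ F := by
  have h := @p14_mem F (rE.symm e)
  rwa [Equiv.apply_symm_apply] at h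

theorem p14_ae (σ : St) : ae (rS σ) = rE (ae σ) := by
  obtain ⟨⟨x, y⟩, c⟩ := σ
  cases c <;> simp [rS, rV, rQ, rE, ae]

theorem p14_mv (σ : St) : mv (rS σ) = rS (mv σ) := by
  obtain ⟨⟨x, y⟩, c⟩ := σ
  cases c <;> simp [rS, rV, rQ, mv] <;> ring

theorem p14_rt (σ : St) : rt (rS σ) = rS (rt σ) := by
  obtain ⟨⟨x, y⟩, c⟩ := σ
  cases c <;> simp [rS, rV, rQ, rt]

theorem p14_nxt (F : Finset Edg) (σ : St) : nxt (↑(rM F)) (rS σ) = rS (nxt (↑F) σ) := by
  by_cases h : ae σ ∈ (↑F : Set Edg)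
  · have h1 : ae (rS σ) ∈ (↑(rM F) : Set Edg) := by
      rw [p14_ae, Finset.mem_coe, p14_mem]
      exact h
    rw [nxt_open h, nxt_open h1, p14_mv]
  · have h1 : ae (rS σ) ∉ (↑(rM F) : Set Edg) := by
      rw [p14_ae, Finset.mem_coe, p14_mem]
      exact h
    rw [nxt_closed h, nxt_closed h1, p14_rt]

theorem rot_orb (F : Finset Edg) (σ : St) (s : ℕ) :
    orb (↑(rM F)) (rS σ) s = rS (orb (↑F) σ s) := by
  induction s with
  | zero => rfl
  | succ s ih => rw [orb_succ, orb_succ, ih, p14_nxt]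

theorem rot_face (σ : St) : face (rS σ) = rF (face σ) := by
  obtain ⟨⟨x, y⟩, c⟩ := σ
  cases c <;> simp [rS, rV, rQ, rF, face]

theorem p14_ends (e : Edg) : (src (rE e) = rV (src e) ∧ tgt (rE e) = rV (tgt e)) ∨
    (src (rE e) = rV (tgt e) ∧ tgt (rE e) = rV (src e)) := by
  obtain ⟨x, y, _ | _⟩ := e
  · right
    simp [rE, rV, src, tgt]
    ring
  · left
    simp [rE, rV, src, tgt]

theorem p14_dends (e : Edg) : (dsrc (rE e) = rF (dsrc e) ∧ dtgt (rE e) = rF (dtgt e)) ∨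
    (dsrc (rE e) = rF (dtgt e) ∧ dtgt (rE e) = rF (dsrc e)) := by
  obtain ⟨x, y, _ | _⟩ := e
  · left
    simp [rE, rF, dsrc, dtgt]
  · right
    simp [rE, rF, dsrc, dtgt]

theorem p14_adj {F : Finset Edg} {u v : Vtx} :
    Adj (↑(rM F)) (rV u) (rV v) ↔ Adj (↑F : Set Edg) u v := by
  constructor
  · rintro ⟨e, he, hc⟩
    rw [Finset.mem_coe, p14_mem'] at he
    refine ⟨rE.symm e, he, ?_⟩
    have h := p14_ends (rE.symm e)
    rw [Equiv.apply_symm_apply] at h
    rcases h with ⟨h1, h2⟩ | ⟨h1, h2⟩ <;> rcases hc with ⟨h3, h4⟩ | ⟨h3, h4⟩ <;>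
      rw [h1] at h3 <;> rw [h2] at h4 <;>
      have h5 := rV.injective h3 <;> have h6 := rV.injective h4
    · exact Or.inl ⟨h5, h6⟩
    · exact Or.inr ⟨h5, h6⟩
    · exact Or.inr ⟨h6, h5⟩
    · exact Or.inl ⟨h6, h5⟩
  · rintro ⟨e, he, hc⟩
    refine ⟨rE e, ?_, ?_⟩
    · rw [Finset.mem_coe, p14_mem]
      exact he
    · rcases p14_ends e with ⟨h1, h2⟩ | ⟨h1, h2⟩ <;> rcases hc with ⟨h3, h4⟩ | ⟨h3, h4⟩ <;>
        rw [h1, h2, h3, h4] <;> simp

theorem p14_dadj {F : Finset Edg} {u v : Vtx} :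
    DAdj (↑(rM F) : Set Edg)ᶜ (rF u) (rF v) ↔ DAdj (↑F : Set Edg)ᶜ u v := by
  constructor
  · rintro ⟨e, he, hc⟩
    rw [Set.mem_compl_iff, Finset.mem_coe, p14_mem'] at he
    refine ⟨rE.symm e, he, ?_⟩
    have h := p14_dends (rE.symm e)
    rw [Equiv.apply_symm_apply] at h
    rcases h with ⟨h1, h2⟩ | ⟨h1, h2⟩ <;> rcases hc with ⟨h3, h4⟩ | ⟨h3, h4⟩ <;>
      rw [h1] at h3 <;> rw [h2] at h4 <;>
      have h5 := rF.injective h3 <;> have h6 := rF.injective h4
    · exact Or.inl ⟨h5, h6⟩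
    · exact Or.inr ⟨h5, h6⟩
    · exact Or.inr ⟨h6, h5⟩
    · exact Or.inl ⟨h6, h5⟩
  · rintro ⟨e, he, hc⟩
    refine ⟨rE e, ?_, ?_⟩
    · rw [Set.mem_compl_iff, Finset.mem_coe, p14_mem]
      exact he
    · rcases p14_dends e with ⟨h1, h2⟩ | ⟨h1, h2⟩ <;> rcases hc with ⟨h3, h4⟩ | ⟨h3, h4⟩ <;>
        rw [h1, h2, h3, h4] <;> simp

theorem rot_reach {F : Finset Edg} {u v : Vtx} :
    Reach (↑(rM F)) (rV u) (rV v) ↔ Reach (↑F : Set Edg) u v := by
  constructor
  · intro h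
    have key : ∀ w, Reach (↑(rM F)) (rV u) w → Reach (↑F : Set Edg) u (rV.symm w) := by
      intro w hw
      induction hw with
      | refl => rw [Equiv.symm_apply_apply]; exact Reach.refl _ _
      | @tail w1 w2 _ hs ih =>
        refine ih.trans (Adj.reach (p14_adj.mp ?_))
        rw [Equiv.apply_symm_apply, Equiv.apply_symm_apply]
        exact hs
    have h1 := key _ h
    rwa [Equiv.symm_apply_apply] at h1
  · intro h
    induction h with
    | refl => exact Reach.refl _ _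
    | tail _ hs ih => exact ih.trans (p14_adj.mpr hs).reach

theorem rot_dreach {F : Finset Edg} {f g : Vtx} :
    DReach (↑(rM F) : Set Edg)ᶜ (rF f) (rF g) ↔ DReach (↑F : Set Edg)ᶜ f g := by
  constructor
  · intro h
    have key : ∀ w, DReach (↑(rM F) : Set Edg)ᶜ (rF f) w →
        DReach (↑F : Set Edg)ᶜ f (rF.symm w) := by
      intro w hw
      induction hw with
      | refl => rw [Equiv.symm_apply_apply]; exact DReach.refl _ _
      | @tail w1 w2 _ hs ih =>
        refine ih.trans (DAdj.reach (p14_dadj.mp ?_))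
        rw [Equiv.apply_symm_apply, Equiv.apply_symm_apply]
        exact hs
    have h1 := key _ h
    rwa [Equiv.symm_apply_apply] at h1
  · intro h
    induction h with
    | refl => exact DReach.refl _ _
    | tail _ hs ih => exact ih.trans (p14_dadj.mpr hs).reach

theorem rot_RE (a b c d : ℤ) : rM (RE a b c d) = RE (-d) (-c) a b := by
  ext ⟨x, y, _ | _⟩
  · rw [p14_mem']
    have e : rE.symm (x, y, false) = (y, -x, true) := by simp [rE]
    rw [e, mem_RE_true, mem_RE_false]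
    omega
  · rw [p14_mem']
    have e : rE.symm (x, y, true) = (y, -x - 1, false) := by simp [rE]
    rw [e, mem_RE_true, mem_RE_false]
    omega

theorem rot_pr (q : ℝ) (S : Finset Edg) (A : Finset Edg → Prop) :
    Pr (fun _ => q) (rM S) A = Pr (fun _ => q) S (fun F => A (rM F)) :=
  Pr_map _ _ _ _

end H984P
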