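import Pool.Agent.H984R3.Per.Iter
import Pool.Agent.H984R3.Per.ExitS
import Pool.Agent.H984R3.Per.Rot
import Pool.Agent.H984R3.Per.Basic

/-!
P15: union bound over all starts and directions.
-/

namespace H984P

open H974 Finset H342P

/-- A long strand to the right with few pairs, in the box `[b, b + n] × [c, c + n]`. -/
def LT_D (n a K M : ℕ) (R b c : ℤ) (F : Finset Edg) : Prop :=
  ∃ A ∈ Finset.Icc b (b + n), ∃ y0 ∈ Finset.Icc c (c + n),
    RE (A - 60 * a) (A + 121 * a * K + 60 * a) (y0 - 2 * R - 60 * a) (y0 + 2 * R + 60 * a) ⊆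
      RE b (b + n) c (c + n) ∧
    Long' A y0 (2 * R) a K (↑F) ∧ cntA (st0 A y0) (↑F) (Bx b c n) < M

/-- A state in the bulk with few pairs, which leaves its ball at time `t`. -/
def LT_P (n a M : ℕ) (R b c : ℤ) (F : Finset Edg) (σ : St) (t : ℕ) : Prop :=
  inR (b + 3 * R + 60 * a) (b + n - 3 * R - 60 * a) (c + 3 * R + 60 * a)
    (c + n - 3 * R - 60 * a) σ.1 ∧
  (∀ s < t, ¬ Far σ.1 R (orb (↑F) σ s).1) ∧ nc4 σ (↑F) (Bx b c n) < M

theorem LT_ctr {b c : ℤ} {n a : ℕ} (ha : 1 ≤ a) {X Y : ℤ}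
    (h : Bl X Y a ⊆ RE b (b + n) c (c + n)) : ctr (X + 32 * a, Y) a ⊆ Bx b c n := by
  intro v hv
  obtain ⟨x, y⟩ := v
  simp only [ctr, mem_product, mem_Icc] at hv
  have h1 : ((x, y, true) : Edg) ∈ Bl X Y a := by
    unfold Bl
    rw [mem_RE_true]
    omega
  have h2 := h h1
  rw [mem_RE_true] at h2
  simp only [Bx, mem_product, mem_Icc]
  omega

theorem LT_one {n a K M : ℕ} {δ : ℝ} {R b c : ℤ} (ha : 1 ≤ a) (hK : 1 ≤ K) (hδ0 : 0 ≤ δ)
    (hδ1 : δ ≤ 1) (hok : AllOk n a M δ) (A y0 : ℤ) :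
    Pr (fun _ => (1/2:ℝ)) (RE b (b + n) c (c + n)) (fun F =>
      RE (A - 60 * a) (A + 121 * a * K + 60 * a) (y0 - 2 * R - 60 * a) (y0 + 2 * R + 60 * a) ⊆
        RE b (b + n) c (c + n) ∧
      Long' A y0 (2 * R) a K (↑F) ∧ cntA (st0 A y0) (↑F) (Bx b c n) < M) ≤ (1 - δ) ^ K := by
  by_cases hS : RE (A - 60 * a) (A + 121 * a * K + 60 * a) (y0 - 2 * R - 60 * a)
      (y0 + 2 * R + 60 * a) ⊆ RE b (b + n) c (c + n)
  · refine le_trans (Pr_mono (okq (by norm_num) (by norm_num)) ?_)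
      (iterate (S := RE b (b + n) c (c + n)) (B := Bx b c n) (H := 2 * R) ha hK hδ0 hδ1 hS
        (fun X Y h => LT_ctr ha h) (hok b c A y0))
    intro F _ h
    exact h.2
  · have h0 : Pr (fun _ => (1/2:ℝ)) (RE b (b + n) c (c + n)) (fun F =>
      RE (A - 60 * a) (A + 121 * a * K + 60 * a) (y0 - 2 * R - 60 * a) (y0 + 2 * R + 60 * a) ⊆
        RE b (b + n) c (c + n) ∧
      Long' A y0 (2 * R) a K (↑F) ∧ cntA (st0 A y0) (↑F) (Bx b c n) < M) = 0 := by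
      unfold Pr
      rw [Ex_congr (g := fun _ => 0) (fun F _ => ind_not_of (fun h => hS h.1)), Ex_const]
    rw [h0]
    exact pow_nonneg (by linarith) _

theorem LT_dir {n a K M : ℕ} {δ : ℝ} {R b c : ℤ} (ha : 1 ≤ a) (hK : 1 ≤ K) (hδ0 : 0 ≤ δ)
    (hδ1 : δ ≤ 1) (hok : AllOk n a M δ) :
    Pr (fun _ => (1/2:ℝ)) (RE b (b + n) c (c + n)) (LT_D n a K M R b c) ≤
      ((n:ℝ) + 1) ^ 2 * (1 - δ) ^ K := by
  have hok2 : Ok (fun _ : Edg => (1/2:ℝ)) := okq (by norm_num) (by norm_num)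
  refine le_trans (Pr_exists_le hok2 _ (Finset.Icc b (b + n)) _) ?_
  have hcard : ∀ b : ℤ, ((Finset.Icc b (b + n)).card : ℝ) = (n:ℝ) + 1 := by
    intro b
    rw [Int.card_Icc]
    have : (b + n + 1 - b).toNat = n + 1 := by omega
    rw [this]
    push_cast
    ring
  have h1 : ∀ A ∈ Finset.Icc b (b + n), Pr (fun _ => (1/2:ℝ)) (RE b (b + n) c (c + n)) (fun F =>
      ∃ y0 ∈ Finset.Icc c (c + n),
    RE (A - 60 * a) (A + 121 * a * K + 60 * a) (y0 - 2 * R - 60 * a) (y0 + 2 * R + 60 * a) ⊆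
      RE b (b + n) c (c + n) ∧
    Long' A y0 (2 * R) a K (↑F) ∧ cntA (st0 A y0) (↑F) (Bx b c n) < M) ≤
      ((n:ℝ) + 1) * (1 - δ) ^ K := by
    intro A _
    refine le_trans (Pr_exists_le hok2 _ (Finset.Icc c (c + n)) _) ?_
    refine le_trans (Finset.sum_le_card_nsmul _ _ ((1 - δ) ^ K)
      (fun y0 _ => LT_one ha hK hδ0 hδ1 hok A y0)) ?_
    rw [nsmul_eq_mul, hcard]
  refine le_trans (Finset.sum_le_card_nsmul _ _ _ h1) ?_
  rw [nsmul_eq_mul, hcard]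
  apply le_of_eq
  ring

/-! ### Deterministic part -/

open Classical in
theorem LT_cntA_le {F : Set Edg} {σ : St} {B : Finset Vtx} : cntA σ F B ≤ nc4 σ F B := by
  unfold cntA nc4
  refine le_trans ?_ (Finset.single_le_sum (f := fun q : Q4 =>
    (B.filter (fun v => Reach F σ.1 v ∧ DReach Fᶜ (face σ) (face (v, q)))).card)
    (fun q _ => Nat.zero_le _) (Finset.mem_univ Q4.ne))
  apply le_of_eq
  congr 1

open Classical in
theorem LT_nc4_le {F : Set Edg} {σ σ' : St} {B : Finset Vtx} (h1 : Reach F σ.1 σ'.1)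
    (h2 : DReach Fᶜ (face σ) (face σ')) : nc4 σ' F B ≤ nc4 σ F B := by
  unfold nc4
  apply Finset.sum_le_sum
  intro q _
  apply Finset.card_le_card
  intro v hv
  rw [mem_filter] at hv ⊢
  exact ⟨hv.1, h1.trans hv.2.1, h2.trans hv.2.2⟩

theorem LT_orb {F : Set Edg} {σ : St} (s : ℕ) :
    Reach F σ.1 (orb F σ s).1 ∧ DReach Fᶜ (face σ) (face (orb F σ s)) := by
  have h1 := orb_reach (F := F) (W := Set.univ) (σ := σ) (T := s) (fun _ _ => Set.mem_univ _) le_rfl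
  have h2 := orb_dreach (F := F) (W := Set.univ) (σ := σ) (T := s) (fun _ _ => Set.mem_univ _)
    le_rfl
  rw [Set.inter_univ] at h1
  rw [← Set.compl_eq_univ_sdiff] at h2
  exact ⟨h1, h2⟩

theorem LT_det {n a K M : ℕ} {R b c : ℤ} (ha : 1 ≤ a) (hK : 1 ≤ K)
    (hR : 121 * a * K + 2 ≤ R) {F : Finset Edg} {σ : St} {t : ℕ}
    (h : LT_P n a M R b c F σ t) (hx : (orb (↑F) σ t).1.1 = σ.1.1 + R) :
    LT_D n a K M R b c F := by
  obtain ⟨hin, hf, hM⟩ := h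
  have hK1 : (1:ℤ) ≤ K := by exact_mod_cast hK
  have ha1 : (1:ℤ) ≤ a := by exact_mod_cast ha
  have haK : (1:ℤ) ≤ a * K := by nlinarith
  have e1 : (121:ℤ) * a * K = 121 * (a * K) := by ring
  obtain ⟨P, hP⟩ : ∃ P : ℤ, P = (a:ℤ) * K := ⟨_, rfl⟩
  obtain ⟨y0, Y, T, s0, hs0, hst, hy⟩ := exit_strand (F := ↑F) (R := R) hf hx
    (A := σ.1.1 + 1) (X := σ.1.1 + 1 + 121 * a * K) (by omega) (by rw [e1]; omega)
    (by rw [e1] at hR ⊢; omega)
  have hy0 := hy 0 (Nat.zero_le _)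
  simp only [orb_zero, st0] at hy0
  rw [abs_le] at hy0
  unfold inR at hin
  rw [e1, ← hP] at hR
  rw [← hP] at haK
  refine ⟨σ.1.1 + 1, ?_, y0, ?_, ?_, ⟨Y, T, hst, ?_⟩, ?_⟩
  · rw [mem_Icc]
    omega
  · rw [mem_Icc]
    omega
  · intro e he
    rw [e1, ← hP] at he
    obtain ⟨x, y, β⟩ := e
    cases β
    · rw [mem_RE_false] at he ⊢
      omega
    · rw [mem_RE_true] at he ⊢
      omega
  · intro s hs
    have h1 := hy s hs
    rw [abs_le] at h1 ⊢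
    omega
  · obtain ⟨h1, h2⟩ := LT_orb (F := ↑F) (σ := σ) s0
    rw [hs0] at h1 h2
    exact lt_of_le_of_lt (LT_cntA_le.trans (LT_nc4_le h1 h2)) hM

theorem LT_rQ : Function.Bijective rQ := by
  constructor
  · intro x y
    cases x <;> cases y <;> simp [rQ]
  · intro y
    cases y
    · exact ⟨.se, rfl⟩
    · exact ⟨.ne, rfl⟩
    · exact ⟨.nw, rfl⟩
    · exact ⟨.sw, rfl⟩

theorem LT_nc4_rot {n : ℕ} {b c : ℤ} {F : Finset Edg} {σ : St} :
    nc4 (rS σ) (↑(rM F)) (Bx (-c - n) b n) = nc4 σ (↑F) (Bx b c n) := by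
  classical
  unfold nc4
  symm
  apply Fintype.sum_bijective rQ LT_rQ
  intro q
  apply Finset.card_equiv rV
  intro v
  simp only [mem_filter]
  have h1 : face (rV v, rQ q) = rF (face (v, q)) := rot_face (v, q)
  have h2 : (rS σ).1 = rV σ.1 := rfl
  rw [rot_face, h1, h2, rot_reach, rot_dreach]
  have h3 : v ∈ Bx b c n ↔ rV v ∈ Bx (-c - n) b n := by
    simp only [Bx, mem_product, mem_Icc, rV, Equiv.coe_fn_mk]
    omega
  rw [h3]

theorem LT_far {u w : Vtx} {m : ℤ} : Far (rV u) m (rV w) ↔ Far u m w := by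
  simp only [Far, rV, Equiv.coe_fn_mk]
  omega

theorem LT_rot {n a M : ℕ} {R b c : ℤ} {F : Finset Edg} {σ : St} {t : ℕ}
    (h : LT_P n a M R b c F σ t) : LT_P n a M R (-c - n) b (rM F) (rS σ) t := by
  obtain ⟨h1, h2, h3⟩ := h
  refine ⟨?_, ?_, ?_⟩
  · simp only [inR, rS, rV, Equiv.coe_fn_mk] at h1 ⊢
    omega
  · intro s hs
    rw [rot_orb]
    exact fun hh => h2 s hs (LT_far.1 hh)
  · rw [LT_nc4_rot]
    exact h3

/-- Every interface which passes through the bulk and is not small has many pairs. -/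
theorem low_thm {n a K M : ℕ} {δ : ℝ} {R : ℤ} (ha : 1 ≤ a) (hK : 1 ≤ K) (hδ0 : 0 ≤ δ)
    (hδ1 : δ ≤ 1) (hok : AllOk n a M δ) (hR : 121 * a * K + 2 ≤ R) :
    Pr (fun _ => (1/2:ℝ)) (RE 0 n 0 n) (fun F => ∃ σ : St,
      inR (3 * R + 60 * a) (n - 3 * R - 60 * a) (3 * R + 60 * a) (n - 3 * R - 60 * a) σ.1 ∧
      (∃ t, Far σ.1 R (orb (↑F) σ t).1) ∧ nc4 σ (↑F) (Bx 0 0 n) < M) ≤
      4 * ((n:ℝ) + 1) ^ 2 * (1 - δ) ^ K := by
  have hok2 : Ok (fun _ : Edg => (1/2:ℝ)) := okq (by norm_num) (by norm_num)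
  have hR1 : 1 ≤ R := by
    have : (0:ℤ) ≤ 121 * a * K := by positivity
    omega
  have b0 := LT_dir (R := R) (b := 0) (c := 0) ha hK hδ0 hδ1 hok
  have b1 := LT_dir (R := R) (b := -n) (c := 0) ha hK hδ0 hδ1 hok
  have b2 := LT_dir (R := R) (b := -n) (c := -n) ha hK hδ0 hδ1 hok
  have b3 := LT_dir (R := R) (b := 0) (c := -n) ha hK hδ0 hδ1 hok
  simp only [zero_add, neg_add_cancel] at b0 b1 b2 b3
  have r1 : rM (RE 0 n 0 n) = RE (-n) 0 0 n := by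
    rw [rot_RE, neg_zero]
  have r2 : rM (RE (-n) 0 0 n) = RE (-n) 0 (-n) 0 := by
    rw [rot_RE, neg_zero]
  have r3 : rM (RE (-n) 0 (-n) 0) = RE 0 n (-n) 0 := by
    rw [rot_RE, neg_zero, neg_neg]
  have p1 : Pr (fun _ => (1/2:ℝ)) (RE 0 n 0 n) (fun F => LT_D n a K M R (-n) 0 (rM F)) ≤
      ((n:ℝ) + 1) ^ 2 * (1 - δ) ^ K := by
    rw [← rot_pr, r1]
    exact b1
  have p2 : Pr (fun _ => (1/2:ℝ)) (RE 0 n 0 n) (fun F => LT_D n a K M R (-n) (-n) (rM (rM F))) ≤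
      ((n:ℝ) + 1) ^ 2 * (1 - δ) ^ K := by
    rw [← rot_pr (A := fun F => LT_D n a K M R (-n) (-n) (rM F)), r1, ← rot_pr, r2]
    exact b2
  have p3 : Pr (fun _ => (1/2:ℝ)) (RE 0 n 0 n)
      (fun F => LT_D n a K M R 0 (-n) (rM (rM (rM F)))) ≤ ((n:ℝ) + 1) ^ 2 * (1 - δ) ^ K := by
    rw [← rot_pr (A := fun F => LT_D n a K M R 0 (-n) (rM (rM F))), r1,
      ← rot_pr (A := fun F => LT_D n a K M R 0 (-n) (rM F)), r2, ← rot_pr, r3]
    exact b3
  have key : Pr (fun _ => (1/2:ℝ)) (RE 0 n 0 n) (fun F => ∃ σ : St,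
      inR (3 * R + 60 * a) (n - 3 * R - 60 * a) (3 * R + 60 * a) (n - 3 * R - 60 * a) σ.1 ∧
      (∃ t, Far σ.1 R (orb (↑F) σ t).1) ∧ nc4 σ (↑F) (Bx 0 0 n) < M) ≤
      Pr (fun _ => (1/2:ℝ)) (RE 0 n 0 n) (fun F => (LT_D n a K M R 0 0 F ∨
        LT_D n a K M R (-n) 0 (rM F)) ∨ (LT_D n a K M R (-n) (-n) (rM (rM F)) ∨
        LT_D n a K M R 0 (-n) (rM (rM (rM F))))) := by
    apply Pr_mono hok2
    rintro F _ ⟨σ, hin, hfar, hM⟩
    obtain ⟨t, ht, hex⟩ := first_far hR1 hfar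
    have q0 : LT_P n a M R 0 0 F σ t := ⟨by simpa using hin, ht, hM⟩
    have q1 := LT_rot q0
    have q2 := LT_rot q1
    have q3 := LT_rot q2
    simp only [neg_zero, zero_sub, neg_neg, sub_self] at q1 q2 q3
    rcases hex with h | h | h | h
    · exact Or.inl (Or.inl (LT_det ha hK hR q0 h))
    · refine Or.inr (Or.inr (LT_det ha hK hR q3 ?_))
      rw [rot_orb, rot_orb, rot_orb]
      simp only [rS, rV, Equiv.coe_fn_mk]
      omega
    · refine Or.inr (Or.inl (LT_det ha hK hR q2 ?_))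
      rw [rot_orb, rot_orb]
      simp only [rS, rV, Equiv.coe_fn_mk]
      omega
    · refine Or.inl (Or.inr (LT_det ha hK hR q1 ?_))
      rw [rot_orb]
      simp only [rS, rV, Equiv.coe_fn_mk]
      omega
  have u1 := Pr_or_le hok2 (RE 0 n 0 n) (fun F => LT_D n a K M R 0 0 F ∨
        LT_D n a K M R (-n) 0 (rM F)) (fun F => LT_D n a K M R (-n) (-n) (rM (rM F)) ∨
        LT_D n a K M R 0 (-n) (rM (rM (rM F))))
  have u2 := Pr_or_le hok2 (RE 0 n 0 n) (fun F => LT_D n a K M R 0 0 F)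
    (fun F => LT_D n a K M R (-n) 0 (rM F))
  have u3 := Pr_or_le hok2 (RE 0 n 0 n) (fun F => LT_D n a K M R (-n) (-n) (rM (rM F)))
    (fun F => LT_D n a K M R 0 (-n) (rM (rM (rM F))))
  have b0' : Pr (fun _ => (1/2:ℝ)) (RE 0 n 0 n) (fun F => LT_D n a K M R 0 0 F) ≤
      ((n:ℝ) + 1) ^ 2 * (1 - δ) ^ K := b0
  linarith

end H984P
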