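import Pool.Agent.H984R3.Per.Pot
import Pool.Agent.H984R3.Per.Basic

/-!
P17: the outer interface of a cluster has the extent of the cluster.
-/

namespace H984P

open H974 Finset H342P

namespace P17

theorem reach_fin {F : Finset Edg} {u v : Vtx} (h : Reach (↑F : Set Edg) u v) :
    v ∈ insert u (F.image src ∪ F.image tgt) := by
  induction h with
  | refl => simp
  | tail _ hs _ =>
    obtain ⟨e, he, h | h⟩ := hs
    · rw [← h.2]
      exact Finset.mem_insert_of_mem (Finset.mem_union_right _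
        (Finset.mem_image_of_mem _ (by exact_mod_cast he)))
    · rw [← h.1]
      exact Finset.mem_insert_of_mem (Finset.mem_union_left _
        (Finset.mem_image_of_mem _ (by exact_mod_cast he)))

theorem orb_vertex {F : Set Edg} {σ : St} (t : ℕ) : Reach F σ.1 (orb F σ t).1 := by
  have h := orb_reach (F := F) (W := Set.univ) (σ := σ) (T := t) (fun _ _ => Set.mem_univ _)
    le_rfl
  exact h.mono Set.inter_subset_left

/-- the orbit of a state of a finite configuration is periodic -/
theorem periodic (F : Finset Edg) (σ : St) : ∃ p, 0 < p ∧ orb (↑F : Set Edg) σ p = σ := by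
  have hfin : (Set.range fun t : ℕ => orb (↑F : Set Edg) σ t).Finite := by
    refine Set.Finite.subset
      ((insert σ.1 (F.image src ∪ F.image tgt) ×ˢ (Finset.univ : Finset Q4)).finite_toSet) ?_
    rintro _ ⟨t, rfl⟩
    simp only [Finset.mem_coe, Finset.mem_product, Finset.mem_univ, and_true]
    exact reach_fin (orb_vertex t)
  have hni : ¬ Function.Injective fun t : ℕ => orb (↑F : Set Edg) σ t := fun hi =>
    Set.infinite_range_of_injective hi hfin
  have : ∃ s t : ℕ, s < t ∧ orb (↑F : Set Edg) σ s = orb (↑F : Set Edg) σ t := by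
    simp only [Function.Injective, not_forall] at hni
    obtain ⟨s, t, h, hne⟩ := hni
    rcases lt_or_gt_of_ne hne with h1 | h1
    · exact ⟨s, t, h1, h⟩
    · exact ⟨t, s, h1, h.symm⟩
  obtain ⟨s, t, hst, h⟩ := this
  refine ⟨t - s, by omega, ?_⟩
  have hinj : Function.Injective ((nxt (↑F : Set Edg))^[s]) := (nxt_bij _).1.iterate s
  apply hinj
  have e : orb (↑F : Set Edg) σ t = orb (↑F : Set Edg) (orb (↑F : Set Edg) σ (t - s)) s := by
    rw [← orb_add]
    congr 1
    omega
  change (nxt (↑F : Set Edg))^[s] (orb (↑F : Set Edg) σ (t - s)) = (nxt (↑F : Set Edg))^[s] σ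
  exact (e.symm.trans h.symm)

theorem inv (F : Finset Edg) (σ τ : St) :
    τ ∈ {τ | ∃ t, orb (↑F : Set Edg) σ t = τ} ↔
      nxt (↑F : Set Edg) τ ∈ {τ | ∃ t, orb (↑F : Set Edg) σ t = τ} := by
  constructor
  · rintro ⟨t, rfl⟩
    exact ⟨t + 1, orb_succ _ _ _⟩
  · rintro ⟨t, ht⟩
    obtain ⟨p, hp, hp2⟩ := periodic F σ
    cases t with
    | succ t =>
      rw [orb_succ] at ht
      exact ⟨t, (nxt_bij _).1 ht⟩
    | zero =>
      obtain ⟨p, rfl⟩ : ∃ p', p = p' + 1 := ⟨p - 1, by omega⟩
      rw [orb_zero] at ht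
      rw [orb_succ] at hp2
      exact ⟨p, (nxt_bij _).1 (hp2.trans ht)⟩

section pot
variable {hv hf : Vtx → ZMod 2} {A : Set St} (hpot : ∀ σ : St, hv σ.1 + hf (face σ) = b2 (σ ∈ A))
  (R : Vtx → Prop) (hR : ∀ v, R v → ∀ q, (v, q) ∉ A)

include hpot hR

theorem eq_face {v : Vtx} (h : R v) (q : Q4) : hv v = hf (face (v, q)) := by
  have h1 := hpot (v, q)
  rw [b2_not_of (hR v h q)] at h1
  have h2 := zmod2_add_self (hf (face (v, q)))
  linear_combination h1 - h2

theorem row {x y : ℤ} (h : R (x, y)) (h' : R (x + 1, y)) : hv (x, y) = hv (x + 1, y) := by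
  have h1 := eq_face hpot R hR h .ne
  have h2 := eq_face hpot R hR h' .nw
  rw [face_ne] at h1
  rw [face_nw, add_sub_cancel_right] at h2
  rw [h1, h2]

theorem col {x y : ℤ} (h : R (x, y)) (h' : R (x, y + 1)) : hv (x, y) = hv (x, y + 1) := by
  have h1 := eq_face hpot R hR h .ne
  have h2 := eq_face hpot R hR h' .se
  rw [face_ne] at h1
  rw [face_se, add_sub_cancel_right] at h2
  rw [h1, h2]

theorem rows {a y : ℤ} (k : ℕ) (h : ∀ x, a ≤ x → x ≤ a + k → R (x, y)) :
    hv (a, y) = hv (a + k, y) := by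
  induction k with
  | zero => simp
  | succ k ih =>
    rw [ih fun x h1 h2 => h x h1 (by push_cast; omega)]
    have e : a + ((k + 1 : ℕ) : ℤ) = (a + k) + 1 := by push_cast; ring
    rw [e]
    exact row hpot R hR (h _ (by omega) (by push_cast; omega)) (h _ (by omega) (by push_cast; omega))

theorem cols {x a : ℤ} (k : ℕ) (h : ∀ y, a ≤ y → y ≤ a + k → R (x, y)) :
    hv (x, a) = hv (x, a + k) := by
  induction k with
  | zero => simp
  | succ k ih =>
    rw [ih fun y h1 h2 => h y h1 (by push_cast; omega)]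
    have e : a + ((k + 1 : ℕ) : ℤ) = (a + k) + 1 := by push_cast; ring
    rw [e]
    exact col hpot R hR (h _ (by omega) (by push_cast; omega)) (h _ (by omega) (by push_cast; omega))

theorem rows' {a b y : ℤ} (hab : a ≤ b) (h : ∀ x, a ≤ x → x ≤ b → R (x, y)) :
    hv (a, y) = hv (b, y) := by
  obtain ⟨k, hk⟩ := Int.eq_ofNat_of_zero_le (sub_nonneg.mpr hab)
  have e : b = a + k := by omega
  rw [e]
  exact rows hpot R hR k fun x h1 h2 => h x h1 (by omega)

theorem cols' {x a b : ℤ} (hab : a ≤ b) (h : ∀ y, a ≤ y → y ≤ b → R (x, y)) :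
    hv (x, a) = hv (x, b) := by
  obtain ⟨k, hk⟩ := Int.eq_ofNat_of_zero_le (sub_nonneg.mpr hab)
  have e : b = a + k := by omega
  rw [e]
  exact cols hpot R hR k fun x h1 h2 => h x h1 (by omega)

end pot

/-- the common argument: a connected region which avoids the orbit cannot join a vertex `w` of the
cluster to the left of the cluster -/
theorem main {F : Finset Edg} {σ : St} (hq : σ.2 = .nw)
    {w : Vtx} (hw : Reach (↑F : Set Edg) σ.1 w) (R : Vtx → Prop)
    (hR : ∀ t, ¬ R (orb (↑F : Set Edg) σ t).1) (hRl : R (σ.1.1 - 1, σ.1.2))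
    (hc : ∀ hv : Vtx → ZMod 2, (∀ x y, R (x, y) → R (x + 1, y) → hv (x, y) = hv (x + 1, y)) →
      (∀ x y, R (x, y) → R (x, y + 1) → hv (x, y) = hv (x, y + 1)) →
      hv w = hv (σ.1.1 - 1, σ.1.2)) : False := by
  obtain ⟨hv, hf, hpot, hF, -⟩ := pot_of_inv (↑F : Set Edg)
    {τ | ∃ t, orb (↑F : Set Edg) σ t = τ} (inv F σ)
  have hR' : ∀ v, R v → ∀ q, ((v, q) : St) ∉ {τ | ∃ t, orb (↑F : Set Edg) σ t = τ} := by
    rintro v hv' q ⟨t, ht⟩
    apply hR t
    rw [ht]
    exact hv'
  have h1 : hv w = hv (σ.1.1 - 1, σ.1.2) :=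
    hc hv (fun x y => row hpot R hR') (fun x y => col hpot R hR')
  have h2 : hv σ.1 = hv w := by
    clear hc h1
    induction hw with
    | refl => rfl
    | tail _ hs ih =>
      obtain ⟨e, he, h | h⟩ := hs
      · rw [ih, ← h.1, ← h.2]; exact hF e he
      · rw [ih, ← h.1, ← h.2]; exact (hF e he).symm
  have h3 := hpot σ
  rw [b2_of (show σ ∈ {τ | ∃ t, orb (↑F : Set Edg) σ t = τ} from ⟨0, rfl⟩)] at h3
  have h4 : face σ = (σ.1.1 - 1, σ.1.2) := by
    obtain ⟨⟨x, y⟩, q⟩ := σ
    subst hq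
    rfl
  have h5 := eq_face hpot R hR' hRl .ne
  rw [face_ne] at h5
  rw [h4, ← h5, ← h1, ← h2, zmod2_add_self] at h3
  exact absurd h3 (by decide)

end P17

theorem orb_extent {F : Finset Edg} {σ : St} (hq : σ.2 = .nw)
    (hleft : ∀ w, Reach (↑F : Set Edg) σ.1 w → σ.1.1 ≤ w.1) {w : Vtx}
    (hw : Reach (↑F : Set Edg) σ.1 w) :
    (∃ t, w.1 ≤ (orb (↑F) σ t).1.1) ∧ (∃ t, w.2 ≤ (orb (↑F) σ t).1.2) ∧
      (∃ t, (orb (↑F) σ t).1.2 ≤ w.2) := by
  have hwx := hleft w hw
  have hl : ∀ t, σ.1.1 ≤ (orb (↑F : Set Edg) σ t).1.1 := fun t => hleft _ (P17.orb_vertex t)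
  refine ⟨?_, ?_, ?_⟩
  · by_contra hcon
    push Not at hcon
    obtain ⟨M, hM⟩ : ∃ M : ℤ, ∀ t, (orb (↑F : Set Edg) σ t).1.2 < M := by
      obtain ⟨M, hM⟩ := (((insert σ.1 (F.image src ∪ F.image tgt)).image Prod.snd).finite_toSet).bddAbove
      refine ⟨M + 1, fun t => ?_⟩
      have := hM (show (orb (↑F : Set Edg) σ t).1.2 ∈ _ from by
        simp only [Finset.mem_coe]
        exact Finset.mem_image_of_mem _ (P17.reach_fin (P17.orb_vertex t)))
      omega
    refine P17.main hq hw (fun v => w.1 ≤ v.1 ∨ v.1 < σ.1.1 ∨ M ≤ v.2) ?_ ?_ ?_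
    · intro t
      have h1 := hcon t
      have h2 := hl t
      have h3 := hM t
      omega
    · simp
    · intro hv hrow hcol
      -- repeat the segment lemmas for `hv`
      have rows : ∀ (y a b : ℤ), a ≤ b →
          (∀ x, a ≤ x → x ≤ b → (w.1 ≤ x ∨ x < σ.1.1 ∨ M ≤ y)) → hv (a, y) = hv (b, y) := by
        intro y a b hab h
        obtain ⟨k, hk⟩ := Int.eq_ofNat_of_zero_le (sub_nonneg.mpr hab)
        have e : b = a + k := by omega
        subst e
        clear hk hab
        induction k with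
        | zero => simp
        | succ k ih =>
          rw [ih fun x h1 h2 => h x h1 (by push_cast; omega)]
          have e : a + ((k + 1 : ℕ) : ℤ) = (a + k) + 1 := by push_cast; ring
          rw [e]
          exact hrow _ _ (h _ (by omega) (by push_cast; omega)) (h _ (by omega) (by push_cast; omega))
      have cols : ∀ (x a b : ℤ), a ≤ b →
          (∀ y, a ≤ y → y ≤ b → (w.1 ≤ x ∨ x < σ.1.1 ∨ M ≤ y)) → hv (x, a) = hv (x, b) := by
        intro x a b hab h
        obtain ⟨k, hk⟩ := Int.eq_ofNat_of_zero_le (sub_nonneg.mpr hab)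
        have e : b = a + k := by omega
        subst e
        clear hk hab
        induction k with
        | zero => simp
        | succ k ih =>
          rw [ih fun x h1 h2 => h x h1 (by push_cast; omega)]
          have e : a + ((k + 1 : ℕ) : ℤ) = (a + k) + 1 := by push_cast; ring
          rw [e]
          exact hcol _ _ (h _ (by omega) (by push_cast; omega)) (h _ (by omega) (by push_cast; omega))
      have s1 := cols w.1 w.2 (max M (max w.2 σ.1.2)) (by omega) (fun y _ _ => Or.inl le_rfl)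
      have s2 := rows (max M (max w.2 σ.1.2)) (σ.1.1 - 1) w.1 (by omega)
        (fun x _ _ => Or.inr (Or.inr (le_max_left _ _)))
      have s3 := cols (σ.1.1 - 1) σ.1.2 (max M (max w.2 σ.1.2)) (by omega)
        (fun y _ _ => Or.inr (Or.inl (by omega)))
      calc hv w = hv (w.1, max M (max w.2 σ.1.2)) := s1
        _ = hv (σ.1.1 - 1, max M (max w.2 σ.1.2)) := s2.symm
        _ = hv (σ.1.1 - 1, σ.1.2) := s3.symm
  · by_contra hcon
    push Not at hcon
    have h0 : σ.1.2 < w.2 := hcon 0
    refine P17.main hq hw (fun v => v.1 < σ.1.1 ∨ w.2 ≤ v.2) ?_ ?_ ?_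
    · intro t
      have h1 := hcon t
      have h2 := hl t
      omega
    · simp
    · intro hv hrow hcol
      have rows : ∀ (y a b : ℤ), a ≤ b →
          (∀ x, a ≤ x → x ≤ b → (x < σ.1.1 ∨ w.2 ≤ y)) → hv (a, y) = hv (b, y) := by
        intro y a b hab h
        obtain ⟨k, hk⟩ := Int.eq_ofNat_of_zero_le (sub_nonneg.mpr hab)
        have e : b = a + k := by omega
        subst e
        clear hk hab
        induction k with
        | zero => simp
        | succ k ih =>
          rw [ih fun x h1 h2 => h x h1 (by push_cast; omega)]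
          have e : a + ((k + 1 : ℕ) : ℤ) = (a + k) + 1 := by push_cast; ring
          rw [e]
          exact hrow _ _ (h _ (by omega) (by push_cast; omega)) (h _ (by omega) (by push_cast; omega))
      have cols : ∀ (x a b : ℤ), a ≤ b →
          (∀ y, a ≤ y → y ≤ b → (x < σ.1.1 ∨ w.2 ≤ y)) → hv (x, a) = hv (x, b) := by
        intro x a b hab h
        obtain ⟨k, hk⟩ := Int.eq_ofNat_of_zero_le (sub_nonneg.mpr hab)
        have e : b = a + k := by omega
        subst e
        clear hk hab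
        induction k with
        | zero => simp
        | succ k ih =>
          rw [ih fun x h1 h2 => h x h1 (by push_cast; omega)]
          have e : a + ((k + 1 : ℕ) : ℤ) = (a + k) + 1 := by push_cast; ring
          rw [e]
          exact hcol _ _ (h _ (by omega) (by push_cast; omega)) (h _ (by omega) (by push_cast; omega))
      have s2 := rows w.2 (σ.1.1 - 1) w.1 (by omega) (fun x _ _ => Or.inr le_rfl)
      have s3 := cols (σ.1.1 - 1) σ.1.2 w.2 (by omega) (fun y _ _ => Or.inl (by omega))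
      calc hv w = hv (σ.1.1 - 1, w.2) := s2.symm
        _ = hv (σ.1.1 - 1, σ.1.2) := s3.symm
  · by_contra hcon
    push Not at hcon
    have h0 : w.2 < σ.1.2 := hcon 0
    refine P17.main hq hw (fun v => v.1 < σ.1.1 ∨ v.2 ≤ w.2) ?_ ?_ ?_
    · intro t
      have h1 := hcon t
      have h2 := hl t
      omega
    · simp
    · intro hv hrow hcol
      have rows : ∀ (y a b : ℤ), a ≤ b →
          (∀ x, a ≤ x → x ≤ b → (x < σ.1.1 ∨ y ≤ w.2)) → hv (a, y) = hv (b, y) := by
        intro y a b hab h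
        obtain ⟨k, hk⟩ := Int.eq_ofNat_of_zero_le (sub_nonneg.mpr hab)
        have e : b = a + k := by omega
        subst e
        clear hk hab
        induction k with
        | zero => simp
        | succ k ih =>
          rw [ih fun x h1 h2 => h x h1 (by push_cast; omega)]
          have e : a + ((k + 1 : ℕ) : ℤ) = (a + k) + 1 := by push_cast; ring
          rw [e]
          exact hrow _ _ (h _ (by omega) (by push_cast; omega)) (h _ (by omega) (by push_cast; omega))
      have cols : ∀ (x a b : ℤ), a ≤ b →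
          (∀ y, a ≤ y → y ≤ b → (x < σ.1.1 ∨ y ≤ w.2)) → hv (x, a) = hv (x, b) := by
        intro x a b hab h
        obtain ⟨k, hk⟩ := Int.eq_ofNat_of_zero_le (sub_nonneg.mpr hab)
        have e : b = a + k := by omega
        subst e
        clear hk hab
        induction k with
        | zero => simp
        | succ k ih =>
          rw [ih fun x h1 h2 => h x h1 (by push_cast; omega)]
          have e : a + ((k + 1 : ℕ) : ℤ) = (a + k) + 1 := by push_cast; ring
          rw [e]
          exact hcol _ _ (h _ (by omega) (by push_cast; omega)) (h _ (by omega) (by push_cast; omega))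
      have s2 := rows w.2 (σ.1.1 - 1) w.1 (by omega) (fun x _ _ => Or.inr le_rfl)
      have s3 := cols (σ.1.1 - 1) w.2 σ.1.2 (by omega) (fun y _ _ => Or.inl (by omega))
      calc hv w = hv (σ.1.1 - 1, w.2) := s2.symm
        _ = hv (σ.1.1 - 1, σ.1.2) := s3

namespace P17

theorem drow (G : Set Edg) (y a : ℤ) (k : ℕ)
    (h : ∀ i, a < i → i ≤ a + k → ((i, y, false) : Edg) ∈ G) : DReach G (a + k, y) (a, y) := by
  induction k with
  | zero => simpa using DReach.refl G (a, y)
  | succ k ih =>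
    refine DReach.trans ?_ (ih fun i h1 h2 => h i h1 (by push_cast; omega))
    refine (DAdj.reach ⟨(a + ((k + 1 : ℕ) : ℤ), y, false), h _ (by push_cast; omega) le_rfl,
      Or.inr ⟨?_, ?_⟩⟩)
    · rw [dsrc_false]
      congr 1
      push_cast; ring
    · rfl

theorem dcol (G : Set Edg) (x a : ℤ) (k : ℕ)
    (h : ∀ i, a < i → i ≤ a + k → ((x, i, true) : Edg) ∈ G) : DReach G (x, a + k) (x, a) := by
  induction k with
  | zero => simpa using DReach.refl G (x, a)
  | succ k ih =>
    refine DReach.trans ?_ (ih fun i h1 h2 => h i h1 (by push_cast; omega))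
    refine (DAdj.reach ⟨(x, a + ((k + 1 : ℕ) : ℤ), true), h _ (by push_cast; omega) le_rfl,
      Or.inr ⟨?_, ?_⟩⟩)
    · rw [dsrc_true]
      congr 1
      push_cast; ring
    · rfl

end P17

theorem outer_left {n : ℕ} {F : Finset Edg} (hF : F ⊆ RE 0 n 0 n) {σ : St} (hq : σ.2 = .nw)
    (hleft : ∀ w, Reach (↑F : Set Edg) σ.1 w → σ.1.1 ≤ w.1) (h0 : 0 ≤ σ.1.1) (h1 : 0 ≤ σ.1.2) :
    Outer (↑F) σ.1 (face σ) := by
  have h4 : face σ = (σ.1.1 - 1, σ.1.2) := by
    obtain ⟨⟨x, y⟩, q⟩ := σ
    subst hq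
    rfl
  rw [h4]
  unfold Outer
  have hkey : ∀ e : Edg, (src e).1 < σ.1.1 → e ∈ (EC (↑F : Set Edg) σ.1)ᶜ := by
    intro e he hmem
    have := hleft _ hmem.2
    omega
  obtain ⟨k, hk⟩ := Int.eq_ofNat_of_zero_le h0
  obtain ⟨l, hl⟩ := Int.eq_ofNat_of_zero_le h1
  have s1 := P17.drow (EC (↑F : Set Edg) σ.1)ᶜ σ.1.2 (-1) k
    (fun i h2 h3 => hkey _ (by simp only [src_mk]; omega))
  have s2 := P17.dcol (EC (↑F : Set Edg) σ.1)ᶜ (-1) (-1) (l + 1)
    (fun i h2 h3 => hkey _ (by simp only [src_mk]; omega))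
  have e1 : (-1 + (k : ℤ)) = σ.1.1 - 1 := by omega
  have e2 : (-1 + ((l + 1 : ℕ) : ℤ)) = σ.1.2 := by push_cast; omega
  rw [e1] at s1
  rw [e2] at s2
  exact s1.trans s2

end H984P
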