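import Pool.Agent.H984R3.Per.PerGe
import Pool.Agent.H984R3.Per.Extent
import Pool.Agent.H984R3.Per.Basic

/-!
P19: deterministic conclusion.
-/

namespace H984P

open H974 Finset H342P

theorem pb_ends (σ : St) : (src (ae σ) = σ.1 ∧ tgt (ae σ) = (mv σ).1) ∨
    (src (ae σ) = (mv σ).1 ∧ tgt (ae σ) = σ.1) := by
  obtain ⟨⟨x, y⟩, q⟩ := σ
  cases q <;> simp

theorem pb_edge {n : ℕ} {F : Finset Edg} (hF : F ⊆ RE 0 n 0 n) {e : Edg} (he : e ∈ F) :
    inR 0 n 0 n (src e) ∧ inR 0 n 0 n (tgt e) := by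
  have h := hF he
  obtain ⟨x, y, t⟩ := e
  cases t
  · rw [mem_RE_false] at h
    simp only [src_mk, tgt_false, inR]
    omega
  · rw [mem_RE_true] at h
    simp only [src_mk, tgt_true, inR]
    omega

theorem pb_box {n : ℕ} {F : Finset Edg} (hF : F ⊆ RE 0 n 0 n) {u w : Vtx}
    (h : Reach (↑F : Set Edg) u w) (hne : u ≠ w) : inR 0 n 0 n w := by
  rcases Relation.ReflTransGen.cases_tail h with h1 | ⟨c, -, hc⟩
  · exact absurd h1.symm hne
  · obtain ⟨e, he, h2⟩ := hc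
    have h3 := pb_edge hF (Finset.mem_coe.1 he)
    rcases h2 with ⟨-, h2⟩ | ⟨h2, -⟩
    · rw [← h2]; exact h3.2
    · rw [← h2]; exact h3.1

theorem pb_reach (F : Set Edg) (σ : St) (s : ℕ) : Reach F σ.1 (orb F σ s).1 := by
  have := orb_reach (F := F) (W := Set.univ) (σ := σ) (T := s) (fun _ _ => Set.mem_univ _) le_rfl
  rwa [Set.inter_univ] at this

theorem pb_dreach (F : Set Edg) (σ : St) (s : ℕ) : DReach Fᶜ (face σ) (face (orb F σ s)) := by
  have := orb_dreach (F := F) (W := Set.univ) (σ := σ) (T := s) (fun _ _ => Set.mem_univ _) le_rfl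
  rwa [← Set.compl_eq_univ_diff] at this

/-- A state of an orbit which stays in a finite set returns. -/
theorem pb_period {n : ℕ} {F : Set Edg} {σ : St}
    (h : ∀ s, inR 0 n 0 n (orb F σ s).1) : ∃ p, 0 < p ∧ orb F σ p = σ := by
  classical
  let B : Finset St := (Finset.Icc (0:ℤ) n ×ˢ Finset.Icc (0:ℤ) n) ×ˢ Finset.univ
  have hmem : ∀ s, orb F σ s ∈ B := by
    intro s
    have := h s
    unfold inR at this
    simp only [B, Finset.mem_product, Finset.mem_Icc, Finset.mem_univ, and_true]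
    exact this
  obtain ⟨i, -, j, -, hij, he⟩ := (Set.infinite_univ (α := ℕ)).exists_ne_map_eq_of_mapsTo
    (fun s _ => hmem s : Set.MapsTo (fun s => orb F σ s) Set.univ (B : Set St)) B.finite_toSet
  have key : ∀ i j : ℕ, i < j → orb F σ i = orb F σ j → ∃ p, 0 < p ∧ orb F σ p = σ := by
    intro i j hij he
    refine ⟨j - i, by omega, ?_⟩
    have h1 : (nxt F)^[i] ((nxt F)^[j - i] σ) = (nxt F)^[i] σ := by
      rw [← Function.iterate_add_apply]
      have : i + (j - i) = j := by omega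
      rw [this]
      exact he.symm
    exact ((nxt_bij F).injective.iterate i) h1
  rcases Nat.lt_or_gt_of_ne hij with h1 | h1
  · exact key i j h1 he
  · exact key j i h1 he.symm

theorem pb_period_mul {F : Set Edg} {σ : St} {p : ℕ} (h : orb F σ p = σ) (k : ℕ) :
    orb F σ (k * p) = σ := by
  induction k with
  | zero => simp
  | succ k ih =>
    rw [Nat.succ_mul, orb_add, h, ih]

/-- two far apart states of an orbit are joined by a path that leaves the layer -/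
theorem pb_leave {n : ℕ} {F : Set Edg} {R1 m : ℤ} (hlay : ¬ LayEv n R1 m F) {σ : St} {T : ℕ}
    (hfar : m ≤ |σ.1.1 - (orb F σ T).1.1| ∨ m ≤ |σ.1.2 - (orb F σ T).1.2|) :
    ∃ s ≤ T, inR R1 (n - R1) R1 (n - R1) (orb F σ s).1 := by
  by_contra hcon
  push Not at hcon
  apply hlay
  have hb : ∀ s ≤ T, bdist n (orb F σ s).1 < R1 := by
    intro s hs
    have h1 := hcon s hs
    by_contra h2
    apply h1
    unfold bdist at h2
    unfold inR
    rw [not_lt, le_min_iff, le_min_iff, le_min_iff] at h2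
    omega
  refine ⟨σ.1, (orb F σ T).1, hfar, ?_⟩
  set W : Set Edg := {e | bdist n (src e) < R1 ∧ bdist n (tgt e) < R1} with hW
  have h1 := orb_reach (F := F) (W := W ∪ Fᶜ) (σ := σ) (T := T) (by
    intro s hs
    by_cases he : ae (orb F σ s) ∈ F
    · left
      have h2 := hb s hs.le
      have h3 := hb (s + 1) hs
      rw [orb_succ, nxt_open he] at h3
      rw [hW]
      rcases pb_ends (orb F σ s) with ⟨h4, h5⟩ | ⟨h4, h5⟩
      · exact ⟨by rw [h4]; exact h2, by rw [h5]; exact h3⟩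
      · exact ⟨by rw [h4]; exact h3, by rw [h5]; exact h2⟩
    · exact Or.inr he) le_rfl
  refine h1.mono ?_
  rintro e ⟨he, h2 | h2⟩
  · exact ⟨he, h2⟩
  · exact absurd he h2

/-- Deterministic conclusion. -/
theorem per_big {n : ℕ} {F : Finset Edg} (hF : F ⊆ RE 0 n 0 n) {R R1 m : ℤ} {M : ℕ}
    (hm : Big n m (↑F)) (hR : 1 ≤ R) (h1 : R1 < m) (h2 : 2 * R < m)
    (hlay : ¬ LayEv n R1 m (↑F))
    (hlow : ¬ ∃ σ : St, inR R1 (n - R1) R1 (n - R1) σ.1 ∧
      (∃ t, Far σ.1 R (orb (↑F) σ t).1) ∧ nc4 σ (↑F) (Bx 0 0 n) < M)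
    {v : Vtx} (hv : IsMax n (↑F) v) : (M : ℝ) / 8 ≤ per n (↑F) v := by
  classical
  have hm0 : 0 < m := by omega
  obtain ⟨a, b, ha, hb, hmax⟩ := hv
  obtain ⟨c, d, hc, hd, hcd, h8⟩ := hm
  have h8' : 8 * m ^ 2 ≤ dsq a b := h8.trans (hmax c d hc hd hcd)
  have hab : 2 * m ≤ |a.1 - b.1| ∨ 2 * m ≤ |a.2 - b.2| := by
    by_contra hcon
    push Not at hcon
    obtain ⟨h3, h4⟩ := hcon
    unfold dsq at h8'
    have h5 : (a.1 - b.1) ^ 2 < (2 * m) ^ 2 := sq_lt_sq' (by linarith [(abs_lt.1 h3).1]) (abs_lt.1 h3).2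
    have h6 : (a.2 - b.2) ^ 2 < (2 * m) ^ 2 := sq_lt_sq' (by linarith [(abs_lt.1 h4).1]) (abs_lt.1 h4).2
    nlinarith
  have hane : a ≠ b := by
    rintro rfl
    simp only [sub_self, abs_zero] at hab
    omega
  -- every vertex of the cluster is in the box
  have hex : ∃ w, w ≠ v ∧ Reach (↑F : Set Edg) v w := by
    by_cases h3 : a = v
    · exact ⟨b, fun h4 => hane (h3.trans h4.symm), hb⟩
    · exact ⟨a, h3, ha⟩
  have hbox : ∀ w, Reach (↑F : Set Edg) v w → inR 0 n 0 n w := by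
    intro w hw
    by_cases h3 : v = w
    · subst h3
      obtain ⟨w', h4, h5⟩ := hex
      exact pb_box hF h5.symm h4
    · exact pb_box hF hw h3
  -- a leftmost vertex
  obtain ⟨vL, hvL, hleft⟩ : ∃ vL, Reach (↑F : Set Edg) v vL ∧
      ∀ w, Reach (↑F : Set Edg) v w → vL.1 ≤ w.1 := by
    have hne : ∃ k : ℕ, ∃ w, Reach (↑F : Set Edg) v w ∧ w.1 = k := by
      have h3 := hbox v (Reach.refl _ _)
      unfold inR at h3
      exact ⟨v.1.toNat, v, Reach.refl _ _, by omega⟩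
    obtain ⟨w, hw, hwk⟩ := Nat.find_spec hne
    refine ⟨w, hw, fun w' hw' => ?_⟩
    have h3 := hbox w' hw'
    unfold inR at h3
    have h4 : Nat.find hne ≤ w'.1.toNat := Nat.find_min' hne ⟨w', hw', by omega⟩
    omega
  set σ : St := (vL, .nw) with hσ
  have hσ1 : σ.1 = vL := rfl
  have hleft' : ∀ w, Reach (↑F : Set Edg) σ.1 w → σ.1.1 ≤ w.1 := by
    intro w hw
    exact hleft w (hvL.trans hw)
  have horb : ∀ s, Reach (↑F : Set Edg) v (orb (↑F) σ s).1 := fun s =>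
    hvL.trans (pb_reach (↑F) σ s)
  have hextA := orb_extent (F := F) (σ := σ) rfl hleft' (hvL.symm.trans ha)
  have hextB := orb_extent (F := F) (σ := σ) rfl hleft' (hvL.symm.trans hb)
  -- two far apart states
  obtain ⟨t1, t2, ht12, hfar⟩ : ∃ t1 t2 : ℕ, t1 ≤ t2 ∧
      (2 * m ≤ |(orb (↑F) σ t1).1.1 - (orb (↑F) σ t2).1.1| ∨
        2 * m ≤ |(orb (↑F) σ t1).1.2 - (orb (↑F) σ t2).1.2|) := by
    have hsym : (∃ t1 t2 : ℕ, (2 * m ≤ |(orb (↑F) σ t1).1.1 - (orb (↑F) σ t2).1.1| ∨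
        2 * m ≤ |(orb (↑F) σ t1).1.2 - (orb (↑F) σ t2).1.2|)) → ∃ t1 t2 : ℕ, t1 ≤ t2 ∧
      (2 * m ≤ |(orb (↑F) σ t1).1.1 - (orb (↑F) σ t2).1.1| ∨
        2 * m ≤ |(orb (↑F) σ t1).1.2 - (orb (↑F) σ t2).1.2|) := by
      rintro ⟨t1, t2, h⟩
      rcases le_total t1 t2 with h3 | h3
      · exact ⟨t1, t2, h3, h⟩
      · refine ⟨t2, t1, h3, ?_⟩
        rw [abs_sub_comm, abs_sub_comm (orb (↑F) σ t2).1.2]
        exact h
    apply hsym
    obtain ⟨⟨ta, hta⟩, ⟨ta2, hta2⟩, ⟨ta3, hta3⟩⟩ := hextA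
    obtain ⟨⟨tb, htb⟩, ⟨tb2, htb2⟩, ⟨tb3, htb3⟩⟩ := hextB
    have hla := hleft a ha
    have hlb := hleft b hb
    have h0 : (orb (↑F) σ 0).1.1 = vL.1 := rfl
    rcases hab with h3 | h3
    · rcases abs_cases (a.1 - b.1) with ⟨h4, h5⟩ | ⟨h4, h5⟩
      · refine ⟨ta, 0, Or.inl ?_⟩
        rw [h0]
        have := le_abs_self ((orb (↑F) σ ta).1.1 - vL.1)
        omega
      · refine ⟨tb, 0, Or.inl ?_⟩
        rw [h0]
        have := le_abs_self ((orb (↑F) σ tb).1.1 - vL.1)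
        omega
    · rcases abs_cases (a.2 - b.2) with ⟨h4, h5⟩ | ⟨h4, h5⟩
      · refine ⟨ta2, tb3, Or.inr ?_⟩
        have := le_abs_self ((orb (↑F) σ ta2).1.2 - (orb (↑F) σ tb3).1.2)
        omega
      · refine ⟨tb2, ta3, Or.inr ?_⟩
        have := le_abs_self ((orb (↑F) σ tb2).1.2 - (orb (↑F) σ ta3).1.2)
        omega
  obtain ⟨T, rfl⟩ : ∃ T, t2 = T + t1 := ⟨t2 - t1, by omega⟩
  rw [orb_add] at hfar
  set σ1 : St := orb (↑F) σ t1 with hσ1'
  obtain ⟨s, hsT, hs⟩ := pb_leave hlay (σ := σ1) (T := T) (by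
    rcases hfar with h | h
    · exact Or.inl (by omega)
    · exact Or.inr (by omega))
  set σ' : St := orb (↑F) σ1 s with hσ'
  have hσ'' : σ' = orb (↑F) σ (s + t1) := by rw [orb_add]
  -- the orbit of `σ'` goes far
  have hgo : ∃ t, Far σ'.1 R (orb (↑F) σ' t).1 := by
    obtain ⟨p, hp, hpσ⟩ := pb_period (n := n) (F := (↑F : Set Edg)) (σ := σ1) (by
      intro s'
      have := horb (s' + t1)
      rw [orb_add] at this
      exact hbox _ this)
    have hback : orb (↑F : Set Edg) σ' (s * p - s) = σ1 := by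
      rw [hσ', ← orb_add]
      have : s * p - s + s = s * p := Nat.sub_add_cancel (Nat.le_mul_of_pos_right s hp)
      rw [this]
      exact pb_period_mul hpσ s
    have hfwd : orb (↑F : Set Edg) σ' (T - s) = orb (↑F) σ1 T := by
      rw [hσ', ← orb_add, Nat.sub_add_cancel hsT]
    by_contra hcon
    push Not at hcon
    have h3 := hcon (s * p - s)
    have h4 := hcon (T - s)
    rw [hback] at h3
    rw [hfwd] at h4
    unfold Far at h3 h4
    push Not at h3 h4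
    rcases hfar with h | h
    · rcases abs_cases (σ1.1.1 - (orb (↑F) σ1 T).1.1) with ⟨h5, -⟩ | ⟨h5, -⟩ <;> omega
    · rcases abs_cases (σ1.1.2 - (orb (↑F) σ1 T).1.2) with ⟨h5, -⟩ | ⟨h5, -⟩ <;> omega
  have hnc : M ≤ nc4 σ' (↑F) (Bx 0 0 n) := by
    by_contra hcon
    push Not at hcon
    exact hlow ⟨σ', hs, hgo, hcon⟩
  have hvLbox := hbox vL hvL
  unfold inR at hvLbox
  have hout := outer_left hF (σ := σ) rfl hleft' hvLbox.1.1 hvLbox.2.1
  have hEC : EC (↑F : Set Edg) v = EC (↑F) vL := by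
    unfold EC
    ext e
    constructor
    · rintro ⟨he, h3⟩
      exact ⟨he, hvL.symm.trans h3⟩
    · rintro ⟨he, h3⟩
      exact ⟨he, hvL.trans h3⟩
  have hout' : Outer (↑F) v (face σ') := by
    unfold Outer at hout ⊢
    rw [hEC]
    have h3 := pb_dreach (↑F) σ (s + t1)
    rw [← hσ''] at h3
    refine (h3.symm.mono ?_).trans hout
    apply Set.compl_subset_compl.2
    intro e he
    exact he.1
  have hfin := per_ge hF (v := v) (σ := σ') (by rw [hσ'']; exact horb _) hout' hex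
  have h3 : M ≤ 8 * per n (↑F) v := hnc.trans hfin
  have h4 : (M : ℝ) ≤ 8 * (per n (↑F) v : ℝ) := by exact_mod_cast h3
  linarith

end H984P
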