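import Pool.Agent.H984R3.Per.Defs
import Pool.Agent.H974R2.Static

/-!
P12: second moment method.
-/

namespace H984P

open H974 Finset H342P

/-- The box on which the event of separated arms depends. -/
noncomputable def BA (v : Vtx) (a : ℕ) : Finset Edg :=
  RE (v.1 - 12 * a) (v.1 + 12 * a + 1) (v.2 - 12 * a) (v.2 + 12 * a + 1)

theorem PR_sub_BA (v : Vtx) (a : ℕ) : PR v a ⊆ BA v a := by
  unfold PR BA
  rintro ⟨x, y, b⟩ he
  cases b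
  · rw [mem_RE_false] at he ⊢; omega
  · rw [mem_RE_true] at he ⊢; omega

theorem DR_sub_BA (v : Vtx) (a : ℕ) : dE (DR v a) ⊆ ↑(BA v a) := by
  unfold DR BA
  rintro ⟨x, y, b⟩ he
  simp only [dE, Set.mem_ofPred_eq] at he
  rw [Finset.mem_coe]
  cases b
  · rw [dl_f, mem_RE_true] at he
    rw [mem_RE_false]; omega
  · rw [dl_t, mem_RE_false] at he
    rw [mem_RE_true]; omega

theorem ra_inter {v : Vtx} {a : ℕ} (G T : Set Edg) (hT : ↑(BA v a) ⊆ T) :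
    RA v a G ↔ RA v a (G ∩ T) := by
  have h1 : G ∩ T ∩ ↑(PR v a) = G ∩ ↑(PR v a) := by
    ext e
    simp only [Set.mem_inter_iff]
    constructor
    · rintro ⟨⟨h1, -⟩, h2⟩; exact ⟨h1, h2⟩
    · rintro ⟨h1, h2⟩; exact ⟨⟨h1, hT (PR_sub_BA v a h2)⟩, h2⟩
  have h2 : dE (DR v a) \ (G ∩ T) = dE (DR v a) \ G := by
    ext e
    simp only [Set.mem_sdiff, Set.mem_inter_iff, not_and]
    constructor
    · rintro ⟨h1, h2⟩; exact ⟨h1, fun h => h2 h (hT (DR_sub_BA v a h1))⟩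
    · rintro ⟨h1, h2⟩; exact ⟨h1, fun h => absurd h h2⟩
  unfold RA
  rw [h1, h2]

theorem pr_ra_local {q : ℝ} {v : Vtx} {a : ℕ} {S : Finset Edg} (hS : BA v a ⊆ S) :
    Pr (fun _ => q) S (fun F => RA v a (↑F)) =
      Pr (fun _ => q) (BA v a) (fun F => RA v a (↑F)) := by
  apply Pr_local hS
  intro F _
  rw [Finset.coe_inter]
  exact ra_inter _ _ (subset_refl _)

theorem dadj_trl {s t : ℤ} {F : Set Edg} {u v : Vtx} (h : DAdj F u v) :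
    DAdj ((trl s t).φ '' F) ((trl s t).ψ u) ((trl s t).ψ v) := by
  obtain ⟨e, he, hc⟩ := h
  have h1 : dsrc ((trl s t).φ e) = (trl s t).ψ (dsrc e) := by
    obtain ⟨x, y, _ | _⟩ := e
    · simp; ring
    · simp; ring
  have h2 : dtgt ((trl s t).φ e) = (trl s t).ψ (dtgt e) := by
    obtain ⟨x, y, _ | _⟩ := e <;> simp
  refine ⟨_, Set.mem_image_of_mem _ he, ?_⟩
  rw [h1, h2]
  rcases hc with ⟨h3, h4⟩ | ⟨h3, h4⟩
  · left; rw [h3, h4]; exact ⟨rfl, rfl⟩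
  · right; rw [h3, h4]; exact ⟨rfl, rfl⟩

theorem dreach_trl {s t : ℤ} {F : Set Edg} {u v : Vtx} (h : DReach F u v) :
    DReach ((trl s t).φ '' F) ((trl s t).ψ u) ((trl s t).ψ v) := by
  induction h with
  | refl => exact DReach.refl _ _
  | tail _ hs ih => exact ih.trans (dadj_trl hs).reach

theorem ra_trl {v : Vtx} {a : ℕ} {F : Finset Edg} (h : RA (0, 0) a (↑F)) :
    RA v a (↑((trl v.1 v.2).mp F)) := by
  obtain ⟨⟨w, hw, h1⟩, g, hg, h2⟩ := h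
  have h3 := (trl v.1 v.2).reach h1
  have h4 := dreach_trl (s := v.1) (t := v.2) h2
  have e0 : (trl v.1 v.2).ψ (0, 0) = v := by simp
  rw [e0] at h3 h4
  refine ⟨⟨_, ?_, h3.mono ?_⟩, _, ?_, h4.mono ?_⟩
  · obtain ⟨x, y⟩ := w
    simp only [trl_ψ] at hw ⊢
    omega
  · rintro _ ⟨e, ⟨he1, he2⟩, rfl⟩
    refine ⟨?_, ?_⟩
    · rw [LSym.coe_mp]; exact Set.mem_image_of_mem _ he1
    · rw [Finset.mem_coe] at he2 ⊢
      obtain ⟨x, y, b⟩ := e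
      unfold PR at he2 ⊢
      rw [trl_φ]
      cases b
      · rw [mem_RE_false] at he2 ⊢; simp only at he2; omega
      · rw [mem_RE_true] at he2 ⊢; simp only at he2; omega
  · obtain ⟨x, y⟩ := g
    simp only [trl_ψ] at hg ⊢
    omega
  · rintro _ ⟨e, ⟨he1, he2⟩, rfl⟩
    refine ⟨?_, ?_⟩
    · obtain ⟨x, y, b⟩ := e
      simp only [dE, DR, Set.mem_ofPred_eq, trl_φ] at he1 ⊢
      cases b
      · rw [dl_f, mem_RE_true] at he1 ⊢; omega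
      · rw [dl_t, mem_RE_false] at he1 ⊢; omega
    · rw [LSym.coe_mp]
      rintro ⟨e', he', h⟩
      exact he2 ((trl v.1 v.2).φ.injective h ▸ he')

theorem mem_ctr {z v : Vtx} {a : ℕ} : v ∈ ctr z a ↔ (z.1 - a ≤ v.1 ∧ v.1 ≤ z.1 + a) ∧
    (z.2 - a ≤ v.2 ∧ v.2 ≤ z.2 + a) := by
  unfold ctr
  rw [Finset.mem_product, Finset.mem_Icc, Finset.mem_Icc]

theorem BA_sub_NB {z v : Vtx} {a : ℕ} (ha : 1 ≤ a) (hv : v ∈ ctr z a) : BA v a ⊆ NB z a := by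
  rw [mem_ctr] at hv
  unfold BA NB
  rintro ⟨x, y, b⟩ he
  cases b
  · rw [mem_RE_false] at he ⊢; omega
  · rw [mem_RE_true] at he ⊢; omega

theorem pr_ra_ge {c s : ℝ} (hL : LowA c s) {z v : Vtx} {a : ℕ} (ha : 1 ≤ a)
    (hv : v ∈ ctr z a) :
    c * (a:ℝ) ^ (-s) ≤ Pr (fun _ => (1/2:ℝ)) (NB z a) (fun F => RA v a (↑F)) := by
  refine (hL a ha).trans ?_
  have h0 : BA (0, 0) a ⊆ RE (-(13 * a : ℕ)) (14 * a : ℕ) (-(13 * a : ℕ)) (14 * a : ℕ) := by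
    unfold BA
    rintro ⟨x, y, b⟩ he
    cases b
    · rw [mem_RE_false] at he ⊢; simp only at he; omega
    · rw [mem_RE_true] at he ⊢; simp only at he; omega
  rw [pr_ra_local h0, pr_ra_local (BA_sub_NB ha hv)]
  have h1 : BA v a = (trl v.1 v.2).mp (BA (0, 0) a) := by
    unfold BA
    rw [trl_RE]
    congr 1 <;> simp only <;> ring
  rw [h1, LSym.pr]
  exact Pr_mono (fun _ => ⟨by norm_num, by norm_num⟩) (fun F _ h => ra_trl h)

theorem two_of_ra {v : Vtx} {a : ℕ} {k : ℤ} (hk : k ≤ 12 * a) {F : Set Edg} (h : RA v a F) :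
    Two v v k F := by
  obtain ⟨⟨w, hw, h1⟩, g, hg, h2⟩ := h
  refine ⟨⟨w, ?_, h1.mono Set.inter_subset_left⟩, g, ?_, h2.mono ?_⟩
  · unfold Far; omega
  · unfold FarF inF; omega
  · rintro e ⟨-, h⟩ h'; exact h h'

theorem box_sub_NB {z v : Vtx} {a : ℕ} {k : ℤ} (hk : k ≤ a) (hv : v ∈ ctr z a) :
    RE (v.1 - k) (v.1 + k) (v.2 - k) (v.2 + k) ⊆ NB z a := by
  rw [mem_ctr] at hv
  unfold NB
  rintro ⟨x, y, b⟩ he
  cases b
  · rw [mem_RE_false] at he ⊢; omega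
  · rw [mem_RE_true] at he ⊢; omega

theorem pr_pair_le {C t : ℝ} (hC : 0 < C) (hU : TwoUp C t) {z v w : Vtx} {a : ℕ} {k : ℤ}
    (hk : 0 < k) (hka : k ≤ a) (hv : v ∈ ctr z a) (hw : w ∈ ctr z a)
    (hd : 2 * k < |v.1 - w.1| ∨ 2 * k < |v.2 - w.2|) :
    Pr (fun _ => (1/2:ℝ)) (NB z a) (fun F => RA v a (↑F) ∧ RA w a (↑F)) ≤
      (C * (k:ℝ) ^ (-t)) * (C * (k:ℝ) ^ (-t)) := by
  have hok : Ok (fun _ : Edg => (1/2:ℝ)) := fun _ => ⟨by norm_num, by norm_num⟩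
  have hdis : Disjoint (RE (v.1 - k) (v.1 + k) (v.2 - k) (v.2 + k))
      (RE (w.1 - k) (w.1 + k) (w.2 - k) (w.2 + k)) := by
    rw [Finset.disjoint_left]
    rintro ⟨x, y, b⟩ h1 h2
    rcases hd with hd | hd
    · cases b
      · rw [mem_RE_false] at h1 h2; rw [lt_abs] at hd; omega
      · rw [mem_RE_true] at h1 h2; rw [lt_abs] at hd; omega
    · cases b
      · rw [mem_RE_false] at h1 h2; rw [lt_abs] at hd; omega
      · rw [mem_RE_true] at h1 h2; rw [lt_abs] at hd; omega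
  have h1 : Pr (fun _ => (1/2:ℝ)) (NB z a) (fun F => RA v a (↑F) ∧ RA w a (↑F)) ≤
      Pr (fun _ => (1/2:ℝ)) (NB z a) (fun F => Two v v k (↑F) ∧ Two w w k (↑F)) :=
    Pr_mono hok (fun F _ h => ⟨two_of_ra (by omega) h.1, two_of_ra (by omega) h.2⟩)
  refine h1.trans ?_
  rw [Pr_indep (box_sub_NB hka hv) (box_sub_NB hka hw) hdis
    (fun F _ => two_inter hk F (Finset.Subset.refl _))
    (fun F _ => two_inter hk F (Finset.Subset.refl _)),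
    pr_two hk (box_sub_NB hka hv), pr_two hk (box_sub_NB hka hw)]
  have h2 := hU k v v hk (by unfold Inc; simp)
  have h3 := hU k w w hk (by unfold Inc; simp)
  exact mul_le_mul h2 h3 (Pr_nonneg hok _ _) ((Pr_nonneg hok _ _).trans h2)

/-- The kernel. -/
noncomputable def kr (t : ℝ) (j : ℤ) : ℝ := ((|j| : ℤ) + 1 : ℝ) ^ (-t)

theorem kr_nonneg (t : ℝ) (j : ℤ) : 0 ≤ kr t j := by
  unfold kr
  have : (0:ℝ) ≤ ((|j| : ℤ) : ℝ) := by exact_mod_cast abs_nonneg j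
  positivity

theorem pr_pair_le' {C t : ℝ} (hC : 0 < C) (ht : 0 ≤ t) (ht1 : t < 1) (hU : TwoUp C t)
    {z v w : Vtx} {a : ℕ} (hv : v ∈ ctr z a) (hw : w ∈ ctr z a) :
    Pr (fun _ => (1/2:ℝ)) (NB z a) (fun F => RA v a (↑F) ∧ RA w a (↑F)) ≤
      (25 * (1 + C ^ 2)) * (kr t (v.1 - w.1) * kr t (v.2 - w.2)) := by
  have hok : Ok (fun _ : Edg => (1/2:ℝ)) := fun _ => ⟨by norm_num, by norm_num⟩
  set d : ℤ := max |v.1 - w.1| |v.2 - w.2| with hd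
  have hd1 : |v.1 - w.1| ≤ d := le_max_left _ _
  have hd2 : |v.2 - w.2| ≤ d := le_max_right _ _
  have hd0 : 0 ≤ d := (abs_nonneg _).trans hd1
  have hdR : (0:ℝ) < (d:ℝ) + 1 := by
    have : (0:ℝ) ≤ (d:ℝ) := by exact_mod_cast hd0
    linarith
  have hk1 : ((d:ℝ) + 1) ^ (-t) ≤ kr t (v.1 - w.1) := by
    unfold kr
    apply Real.rpow_le_rpow_of_nonpos _ _ (by linarith)
    · have : (0:ℝ) ≤ ((|v.1 - w.1| : ℤ) : ℝ) := by exact_mod_cast abs_nonneg _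
      linarith
    · have : ((|v.1 - w.1| : ℤ) : ℝ) ≤ d := by exact_mod_cast hd1
      linarith
  have hk2 : ((d:ℝ) + 1) ^ (-t) ≤ kr t (v.2 - w.2) := by
    unfold kr
    apply Real.rpow_le_rpow_of_nonpos _ _ (by linarith)
    · have : (0:ℝ) ≤ ((|v.2 - w.2| : ℤ) : ℝ) := by exact_mod_cast abs_nonneg _
      linarith
    · have : ((|v.2 - w.2| : ℤ) : ℝ) ≤ d := by exact_mod_cast hd2
      linarith
  have hX : (0:ℝ) < ((d:ℝ) + 1) ^ (-t) := Real.rpow_pos_of_pos hdR _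
  have hkk : ((d:ℝ) + 1) ^ (-t) * ((d:ℝ) + 1) ^ (-t) ≤ kr t (v.1 - w.1) * kr t (v.2 - w.2) :=
    mul_le_mul hk1 hk2 hX.le (hX.le.trans hk1)
  by_cases h3 : d ≤ 2
  · refine (Pr_le_one hok _ _).trans ?_
    have h4 : (1:ℝ) / 3 ≤ ((d:ℝ) + 1) ^ (-t) := by
      have h5 : ((d:ℝ) + 1) ≤ 3 := by
        have : (d:ℝ) ≤ 2 := by exact_mod_cast h3
        linarith
      have h6 : (3:ℝ) ^ (-t) ≤ ((d:ℝ) + 1) ^ (-t) :=
        Real.rpow_le_rpow_of_nonpos hdR h5 (by linarith)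
      have h7 : (3:ℝ) ^ (-1:ℝ) ≤ (3:ℝ) ^ (-t) :=
        Real.rpow_le_rpow_of_exponent_le (by norm_num) (by linarith)
      rw [Real.rpow_neg_one] at h7
      linarith
    have h8 : (1:ℝ) / 9 ≤ ((d:ℝ) + 1) ^ (-t) * ((d:ℝ) + 1) ^ (-t) := by nlinarith
    have h9 : (0:ℝ) ≤ C ^ 2 := sq_nonneg _
    nlinarith
  · push Not at h3
    obtain ⟨k, hk⟩ : ∃ k : ℤ, k = (d - 1) / 2 := ⟨_, rfl⟩
    have hk0 : 0 < k := by omega
    have hkd : 2 * k < d := by omega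
    have hk5 : d + 1 ≤ 5 * k := by omega
    have hka : k ≤ a := by
      rw [mem_ctr] at hv hw
      have : d ≤ 2 * a := by
        rw [hd]
        apply max_le
        · rw [abs_le]; omega
        · rw [abs_le]; omega
      omega
    have hdd : 2 * k < |v.1 - w.1| ∨ 2 * k < |v.2 - w.2| := by
      rcases max_choice |v.1 - w.1| |v.2 - w.2| with h | h
      · left; rw [← h, ← hd]; exact hkd
      · right; rw [← h, ← hd]; exact hkd
    refine (pr_pair_le hC hU hk0 hka hv hw hdd).trans ?_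
    have hkR : (0:ℝ) < (k:ℝ) := by exact_mod_cast hk0
    have hkt : (k:ℝ) ^ (-t) ≤ 5 * ((d:ℝ) + 1) ^ (-t) := by
      have h4 : ((d:ℝ) + 1) / 5 ≤ k := by
        have : ((d:ℝ) + 1) ≤ 5 * k := by exact_mod_cast hk5
        linarith
      have h5 : (k:ℝ) ^ (-t) ≤ (((d:ℝ) + 1) / 5) ^ (-t) :=
        Real.rpow_le_rpow_of_nonpos (by positivity) h4 (by linarith)
      have h6 : (((d:ℝ) + 1) / 5) ^ (-t) = ((d:ℝ) + 1) ^ (-t) * (5:ℝ) ^ t := by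
        rw [Real.div_rpow hdR.le (by norm_num), Real.rpow_neg (by norm_num : (0:ℝ) ≤ 5)]
        rw [div_inv_eq_mul]
      have h7 : (5:ℝ) ^ t ≤ 5 := by
        have := Real.rpow_le_rpow_of_exponent_le (by norm_num : (1:ℝ) ≤ 5) ht1.le
        rwa [Real.rpow_one] at this
      rw [h6] at h5
      nlinarith
    have hk00 : (0:ℝ) ≤ (k:ℝ) ^ (-t) := Real.rpow_nonneg hkR.le _
    have h8 : (k:ℝ) ^ (-t) * (k:ℝ) ^ (-t) ≤ 25 * (((d:ℝ) + 1) ^ (-t) * ((d:ℝ) + 1) ^ (-t)) := by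
      nlinarith
    have h9 : 0 ≤ kr t (v.1 - w.1) * kr t (v.2 - w.2) := mul_nonneg (kr_nonneg _ _) (kr_nonneg _ _)
    calc C * (k:ℝ) ^ (-t) * (C * (k:ℝ) ^ (-t)) = C ^ 2 * ((k:ℝ) ^ (-t) * (k:ℝ) ^ (-t)) := by ring
      _ ≤ C ^ 2 * (25 * (((d:ℝ) + 1) ^ (-t) * ((d:ℝ) + 1) ^ (-t))) :=
          mul_le_mul_of_nonneg_left h8 (sq_nonneg _)
      _ ≤ C ^ 2 * (25 * (kr t (v.1 - w.1) * kr t (v.2 - w.2))) := by
          apply mul_le_mul_of_nonneg_left _ (sq_nonneg _)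
          linarith
      _ ≤ _ := by nlinarith

theorem sum_sym (f : ℤ → ℝ) (hf : ∀ j, 0 ≤ f j) (hs : ∀ j, f (-j) = f j) (n : ℕ) :
    ∑ j ∈ Finset.Icc (-(n:ℤ)) n, f j ≤ 2 * ∑ j ∈ Finset.range (n + 1), f j := by
  induction n with
  | zero => simp; linarith [hf 0]
  | succ n ih =>
    have h1 : Finset.Icc (-((n + 1 : ℕ) : ℤ)) ((n + 1 : ℕ) : ℤ) =
        insert ((n:ℤ) + 1) (insert (-((n:ℤ) + 1)) (Finset.Icc (-(n:ℤ)) n)) := by
      ext x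
      simp only [Finset.mem_Icc, Finset.mem_insert]
      push_cast
      omega
    rw [h1, Finset.sum_insert, Finset.sum_insert, Finset.sum_range_succ, hs]
    · push_cast
      linarith
    · simp
    · simp only [Finset.mem_insert, Finset.mem_Icc, not_or, not_and, not_le]
      omega

theorem sum_kr_le {t : ℝ} (ht : 0 ≤ t) (ht1 : t < 1) {a : ℕ} (ha : 1 ≤ a) {u r : ℤ}
    (h1 : u - a ≤ r) (h2 : r ≤ u + a) :
    ∑ x ∈ Finset.Icc (u - a) (u + a), kr t (r - x) ≤ 6 / (1 - t) * (a:ℝ) ^ (1 - t) := by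
  have h3 : ∑ x ∈ Finset.Icc (u - a) (u + a), kr t (r - x) ≤
      ∑ j ∈ Finset.Icc (-((2 * a : ℕ) : ℤ)) ((2 * a : ℕ) : ℤ), kr t j := by
    rw [← Finset.sum_image (f := kr t) (g := fun x => r - x) (s := Finset.Icc (u - a) (u + a))]
    · apply Finset.sum_le_sum_of_subset_of_nonneg
      · intro j hj
        rw [Finset.mem_image] at hj
        obtain ⟨x, hx, rfl⟩ := hj
        rw [Finset.mem_Icc] at hx ⊢
        push_cast
        omega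
      · intro j _ _; exact kr_nonneg _ _
    · intro x _ y _ h
      simp only at h
      omega
  refine h3.trans ((sum_sym (kr t) (kr_nonneg t) (fun j => by unfold kr; rw [abs_neg]) _).trans ?_)
  have h4 : ∑ j ∈ Finset.range (2 * a + 1), kr t (j:ℤ) =
      ∑ j ∈ Finset.range (2 * a + 1), ((j + 1 : ℕ) : ℝ) ^ (-t) := by
    apply Finset.sum_congr rfl
    intro j _
    unfold kr
    rw [abs_of_nonneg (by positivity : (0:ℤ) ≤ j)]
    push_cast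
    rfl
  rw [h4]
  have h5 := sum_rpow_le ht ht1 (2 * a + 1)
  have h6 : (((2 * a + 1 : ℕ) : ℝ)) ^ (1 - t) ≤ 3 * (a:ℝ) ^ (1 - t) := by
    have haR : (1:ℝ) ≤ a := by exact_mod_cast ha
    have h7 : (((2 * a + 1 : ℕ) : ℝ)) ^ (1 - t) ≤ (3 * (a:ℝ)) ^ (1 - t) := by
      apply Real.rpow_le_rpow (by positivity) _ (by linarith)
      push_cast
      linarith
    rw [Real.mul_rpow (by norm_num) (by linarith)] at h7
    have h8 : (3:ℝ) ^ (1 - t) ≤ 3 := by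
      have := Real.rpow_le_rpow_of_exponent_le (by norm_num : (1:ℝ) ≤ 3) (by linarith : 1 - t ≤ 1)
      rwa [Real.rpow_one] at this
    have h9 : (0:ℝ) ≤ (a:ℝ) ^ (1 - t) := Real.rpow_nonneg (by linarith) _
    nlinarith
  have h10 : (0:ℝ) < 1 - t := by linarith
  calc 2 * ∑ j ∈ Finset.range (2 * a + 1), ((j + 1 : ℕ) : ℝ) ^ (-t)
      ≤ 2 * ((((2 * a + 1 : ℕ) : ℝ)) ^ (1 - t) / (1 - t)) := by linarith
    _ ≤ 2 * ((3 * (a:ℝ) ^ (1 - t)) / (1 - t)) := by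
        have := div_le_div_of_nonneg_right h6 h10.le
        linarith
    _ = _ := by ring

/-- Paley–Zygmund. -/
theorem pz {S : Finset Edg} (N : Finset Edg → ℝ) (hN : ∀ F, 0 ≤ N F) {θ : ℝ} (hθ : 0 ≤ θ)
    (hE : θ ≤ Ex (fun _ => (1/2:ℝ)) S N) :
    (Ex (fun _ => (1/2:ℝ)) S N - θ) ^ 2 ≤
      Ex (fun _ => (1/2:ℝ)) S (fun F => N F ^ 2) * Pr (fun _ => (1/2:ℝ)) S (fun F => θ ≤ N F) := by
  have hok : Ok (fun _ : Edg => (1/2:ℝ)) := fun _ => ⟨by norm_num, by norm_num⟩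
  have h1 : Ex (fun _ => (1/2:ℝ)) S N ≤
      Ex (fun _ => (1/2:ℝ)) S (fun F => N F * ind (θ ≤ N F)) + θ := by
    have h0 : Ex (fun _ => (1/2:ℝ)) S N ≤
        Ex (fun _ => (1/2:ℝ)) S (fun F => N F * ind (θ ≤ N F) + θ) := by
      apply Ex_mono hok
      intro F _
      by_cases h : θ ≤ N F
      · rw [ind_of h]; linarith
      · rw [ind_not_of h]; linarith
    rw [Ex_add, Ex_const] at h0
    exact h0
  have h2 := Ex_cs hok S N (fun F => ind (θ ≤ N F))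
  have h3 : Ex (fun _ => (1/2:ℝ)) S (fun F => (ind (θ ≤ N F)) ^ 2) =
      Pr (fun _ => (1/2:ℝ)) S (fun F => θ ≤ N F) := by
    unfold Pr
    apply Ex_congr
    intro F _
    rw [sq, ind_sq]
  rw [h3] at h2
  refine le_trans ?_ h2
  apply pow_le_pow_left₀ <;> linarith

theorem nRA_eq (z : Vtx) (a : ℕ) (F : Finset Edg) :
    (nRA z a (↑F) : ℝ) = ∑ v ∈ ctr z a, ind (RA v a (↑F)) := by
  classical
  unfold nRA
  rw [Finset.card_filter]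
  push_cast
  apply Finset.sum_congr rfl
  intro v _
  by_cases h : RA v a (↑F)
  · rw [ind_of h, if_pos h]
  · rw [ind_not_of h, if_neg h]

theorem card_ctr (z : Vtx) (a : ℕ) : (ctr z a).card = (2 * a + 1) ^ 2 := by
  unfold ctr
  rw [Finset.card_product, Int.card_Icc, Int.card_Icc, sq]
  congr 1 <;> omega

theorem ex_nRA_ge {c s : ℝ} (hc : 0 < c) (hL : LowA c s) (z : Vtx) {a : ℕ} (ha : 1 ≤ a) :
    4 * c * (a:ℝ) ^ (2 - s) ≤ Ex (fun _ => (1/2:ℝ)) (NB z a) (fun F => (nRA z a (↑F) : ℝ)) := by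
  have haR : (1:ℝ) ≤ a := by exact_mod_cast ha
  have h1 : Ex (fun _ => (1/2:ℝ)) (NB z a) (fun F => (nRA z a (↑F) : ℝ)) =
      ∑ v ∈ ctr z a, Pr (fun _ => (1/2:ℝ)) (NB z a) (fun F => RA v a (↑F)) := by
    rw [Ex_congr (g := fun F => ∑ v ∈ ctr z a, ind (RA v a (↑F))) (fun F _ => nRA_eq z a F), Ex_sum]
    rfl
  rw [h1]
  have h2 : ∑ v ∈ ctr z a, c * (a:ℝ) ^ (-s) ≤
      ∑ v ∈ ctr z a, Pr (fun _ => (1/2:ℝ)) (NB z a) (fun F => RA v a (↑F)) :=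
    Finset.sum_le_sum (fun v hv => pr_ra_ge hL ha hv)
  refine le_trans ?_ h2
  rw [Finset.sum_const, card_ctr, nsmul_eq_mul]
  have h3 : (a:ℝ) ^ (2 - s) = (a:ℝ) ^ 2 * (a:ℝ) ^ (-s) := by
    rw [sub_eq_add_neg, Real.rpow_add (by linarith)]
    norm_num
  rw [h3]
  have h4 : (0:ℝ) ≤ (a:ℝ) ^ (-s) := Real.rpow_nonneg (by linarith) _
  push_cast
  have h5 : 4 * (a:ℝ) ^ 2 ≤ (2 * (a:ℝ) + 1) ^ 2 := by nlinarith
  have h6 : (0:ℝ) ≤ c * (a:ℝ) ^ (-s) := by positivity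
  nlinarith

theorem ex_sq_le {C t : ℝ} (hC : 0 < C) (ht : 0 ≤ t) (ht1 : t < 1) (hU : TwoUp C t) (z : Vtx)
    {a : ℕ} (ha : 1 ≤ a) :
    Ex (fun _ => (1/2:ℝ)) (NB z a) (fun F => (nRA z a (↑F) : ℝ) ^ 2) ≤
      (25 * (1 + C ^ 2)) * 9 * (6 / (1 - t)) ^ 2 * (a:ℝ) ^ (4 - 2 * t) := by
  have haR : (1:ℝ) ≤ a := by exact_mod_cast ha
  set K : ℝ := 25 * (1 + C ^ 2) with hK
  have hK0 : 0 < K := by positivity
  have h1 : Ex (fun _ => (1/2:ℝ)) (NB z a) (fun F => (nRA z a (↑F) : ℝ) ^ 2) =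
      ∑ v ∈ ctr z a, ∑ w ∈ ctr z a,
        Pr (fun _ => (1/2:ℝ)) (NB z a) (fun F => RA v a (↑F) ∧ RA w a (↑F)) := by
    rw [Ex_congr (g := fun F => ∑ v ∈ ctr z a, ∑ w ∈ ctr z a, ind (RA v a (↑F) ∧ RA w a (↑F)))]
    · rw [Ex_sum]
      apply Finset.sum_congr rfl
      intro v _
      rw [Ex_sum]
      rfl
    · intro F _
      rw [nRA_eq, sq, Finset.sum_mul_sum]
      simp_rw [ind_and]
  rw [h1]
  set B : ℝ := 6 / (1 - t) * (a:ℝ) ^ (1 - t) with hB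
  have hB0 : 0 ≤ B := by
    have : (0:ℝ) < 1 - t := by linarith
    positivity
  have h2 : ∀ v ∈ ctr z a, ∑ w ∈ ctr z a,
        Pr (fun _ => (1/2:ℝ)) (NB z a) (fun F => RA v a (↑F) ∧ RA w a (↑F)) ≤ K * (B * B) := by
    intro v hv
    have h3 : ∑ w ∈ ctr z a,
        Pr (fun _ => (1/2:ℝ)) (NB z a) (fun F => RA v a (↑F) ∧ RA w a (↑F)) ≤
        ∑ w ∈ ctr z a, K * (kr t (v.1 - w.1) * kr t (v.2 - w.2)) :=
      Finset.sum_le_sum (fun w hw => pr_pair_le' hC ht ht1 hU hv hw)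
    refine h3.trans ?_
    rw [← Finset.mul_sum]
    apply mul_le_mul_of_nonneg_left _ hK0.le
    unfold ctr
    rw [Finset.sum_product]
    simp only
    rw [← Finset.sum_mul_sum]
    rw [mem_ctr] at hv
    exact mul_le_mul (sum_kr_le ht ht1 ha hv.1.1 hv.1.2) (sum_kr_le ht ht1 ha hv.2.1 hv.2.2)
      (Finset.sum_nonneg (fun x _ => kr_nonneg _ _)) hB0
  refine (Finset.sum_le_sum h2).trans ?_
  rw [Finset.sum_const, card_ctr, nsmul_eq_mul]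
  have h4 : (a:ℝ) ^ (4 - 2 * t) = (a:ℝ) ^ 2 * ((a:ℝ) ^ (1 - t) * (a:ℝ) ^ (1 - t)) := by
    rw [← Real.rpow_add (by linarith), ← Real.rpow_natCast, ← Real.rpow_add (by linarith)]
    congr 1
    push_cast
    ring
  rw [h4, hB]
  push_cast
  have h5 : (2 * (a:ℝ) + 1) ^ 2 ≤ 9 * (a:ℝ) ^ 2 := by nlinarith
  have h6 : (0:ℝ) ≤ K * (6 / (1 - t) * (a:ℝ) ^ (1 - t) * (6 / (1 - t) * (a:ℝ) ^ (1 - t))) := by
    have : (0:ℝ) < 1 - t := by linarith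
    positivity
  calc _ ≤ 9 * (a:ℝ) ^ 2 * (K * (6 / (1 - t) * (a:ℝ) ^ (1 - t) * (6 / (1 - t) * (a:ℝ) ^ (1 - t)))) :=
        mul_le_mul_of_nonneg_right h5 h6
    _ = _ := by ring

/-- Probability of many vertices with separated arms (second moment method). -/
theorem nra_prob {c C s t : ℝ} (hc : 0 < c) (hC : 0 < C) (hs : 0 ≤ s) (hs1 : s < 1) (ht : 0 ≤ t)
    (hts : t ≤ s) (hL : LowA c s) (hU : TwoUp C t) :
    ∃ c' : ℝ, 0 < c' ∧ ∀ (z : Vtx) (a : ℕ), 1 ≤ a →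
      c' * (a:ℝ) ^ (-(2 * s - 2 * t)) ≤ Pr (fun _ => (1/2:ℝ)) (NB z a)
        (fun G => c' * (a:ℝ) ^ (2 - s) ≤ (nRA z a (↑G) : ℝ)) := by
  have ht1 : t < 1 := by linarith
  have hok : Ok (fun _ : Edg => (1/2:ℝ)) := fun _ => ⟨by norm_num, by norm_num⟩
  set D : ℝ := (25 * (1 + C ^ 2)) * 9 * (6 / (1 - t)) ^ 2 with hD
  have hD0 : 0 < D := by
    have : (0:ℝ) < 1 - t := by linarith
    positivity
  refine ⟨min (2 * c) (4 * c ^ 2 / D), lt_min (by positivity) (by positivity), ?_⟩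
  intro z a ha
  have haR : (1:ℝ) ≤ a := by exact_mod_cast ha
  have ha0 : (0:ℝ) < a := by linarith
  set c' : ℝ := min (2 * c) (4 * c ^ 2 / D) with hc'
  have hc1 : c' ≤ 2 * c := min_le_left _ _
  have hc2 : c' ≤ 4 * c ^ 2 / D := min_le_right _ _
  have hX : (0:ℝ) < (a:ℝ) ^ (2 - s) := Real.rpow_pos_of_pos ha0 _
  have h1 := ex_nRA_ge hc hL z ha
  have h2 := ex_sq_le hC ht ht1 hU z ha
  rw [← hD] at h2
  have hθ : 0 ≤ 2 * c * (a:ℝ) ^ (2 - s) := by positivity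
  have h3 := pz (S := NB z a) (fun F => (nRA z a (↑F) : ℝ)) (fun F => Nat.cast_nonneg _) hθ
    (by linarith [mul_pos hc hX])
  have h4 : Pr (fun _ => (1/2:ℝ)) (NB z a) (fun G => 2 * c * (a:ℝ) ^ (2 - s) ≤ (nRA z a (↑G) : ℝ)) ≤
      Pr (fun _ => (1/2:ℝ)) (NB z a) (fun G => c' * (a:ℝ) ^ (2 - s) ≤ (nRA z a (↑G) : ℝ)) := by
    apply Pr_mono hok
    intro F _ h
    exact (mul_le_mul_of_nonneg_right hc1 hX.le).trans h
  refine le_trans ?_ h4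
  set P := Pr (fun _ => (1/2:ℝ)) (NB z a)
    (fun G => 2 * c * (a:ℝ) ^ (2 - s) ≤ (nRA z a (↑G) : ℝ)) with hP
  have hP0 : 0 ≤ P := Pr_nonneg hok _ _
  have h5 : (2 * c * (a:ℝ) ^ (2 - s)) ^ 2 ≤ D * (a:ℝ) ^ (4 - 2 * t) * P := by
    refine le_trans ?_ (h3.trans (mul_le_mul_of_nonneg_right h2 hP0))
    apply pow_le_pow_left₀ hθ
    linarith
  have h6 : (2 * c * (a:ℝ) ^ (2 - s)) ^ 2 =
      4 * c ^ 2 * ((a:ℝ) ^ (4 - 2 * t) * (a:ℝ) ^ (-(2 * s - 2 * t))) := by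
    rw [← Real.rpow_add ha0, mul_pow, ← Real.rpow_natCast ((a:ℝ) ^ (2 - s)), ← Real.rpow_mul ha0.le,
      show (4 - 2 * t + -(2 * s - 2 * t)) = (2 - s) * ((2:ℕ):ℝ) by push_cast; ring]
    ring
  rw [h6] at h5
  have hY : (0:ℝ) < (a:ℝ) ^ (4 - 2 * t) := Real.rpow_pos_of_pos ha0 _
  have h7 : 4 * c ^ 2 * (a:ℝ) ^ (-(2 * s - 2 * t)) ≤ D * P := by
    have : (a:ℝ) ^ (4 - 2 * t) * (4 * c ^ 2 * (a:ℝ) ^ (-(2 * s - 2 * t))) ≤
        (a:ℝ) ^ (4 - 2 * t) * (D * P) := by linarith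
    exact le_of_mul_le_mul_left this hY
  have hZ : (0:ℝ) < (a:ℝ) ^ (-(2 * s - 2 * t)) := Real.rpow_pos_of_pos ha0 _
  calc c' * (a:ℝ) ^ (-(2 * s - 2 * t)) ≤ 4 * c ^ 2 / D * (a:ℝ) ^ (-(2 * s - 2 * t)) :=
        mul_le_mul_of_nonneg_right hc2 hZ.le
    _ = (4 * c ^ 2 * (a:ℝ) ^ (-(2 * s - 2 * t))) / D := by ring
    _ ≤ (D * P) / D := by
        apply div_le_div_of_nonneg_right h7 hD0.le
    _ = P := by field_simp

end H984P
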