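import Pool.Agent.H984R3.Per.Trial
import Pool.Agent.H984R3.Per.Second
import Pool.Agent.H984R3.Per.LowThm
import Pool.Agent.H984R3.Per.PerBig
import Pool.Agent.H984R3.Per.Layer

/-!
P20: the lower half of the perimeter exponent.
-/

namespace H984P

open H974 Finset H342P

/-- powers of `n` tend to infinity -/
theorem fl_rpow {r : ℝ} (hr : 0 < r) : Filter.Tendsto (fun n : ℕ => (n:ℝ) ^ r) Filter.atTop Filter.atTop :=
  (tendsto_rpow_atTop hr).comp tendsto_natCast_atTop_atTop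

/-- stretched exponentials beat powers -/
theorem fl_exp {r b k : ℝ} (hr : 0 < r) (hb : 0 < b) :
    Filter.Tendsto (fun n : ℕ => (n:ℝ) ^ k * Real.exp (-b * (n:ℝ) ^ r)) Filter.atTop (nhds 0) := by
  have h1 := (tendsto_rpow_mul_exp_neg_mul_atTop_nhds_zero (k / r) b hb).comp (fl_rpow hr)
  refine h1.congr' ?_
  filter_upwards [Filter.eventually_ge_atTop 1] with n hn
  have hn0 : (0:ℝ) ≤ n := Nat.cast_nonneg n
  show ((n:ℝ) ^ r) ^ (k / r) * Real.exp (-b * (n:ℝ) ^ r) = _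
  rw [← Real.rpow_mul hn0]
  congr 2
  field_simp

/-- lower bound for the floor -/
theorem fl_floor {y : ℝ} (hy : 1 ≤ y) : y / 2 ≤ (⌊y⌋₊ : ℝ) := by
  have h1 := Nat.lt_floor_add_one y
  have h2 : (1:ℝ) ≤ (⌊y⌋₊ : ℝ) := by
    have : 1 ≤ ⌊y⌋₊ := Nat.le_floor (by simpa using hy)
    exact_mod_cast this
  linarith

theorem fl_half_pow {y : ℝ} (hy : 1 ≤ y) : (1/2:ℝ) ^ ⌊y⌋₊ ≤ Real.exp (-(1/4) * y) := by
  have h1 := fl_floor hy
  have h2 : (1/2:ℝ) ≤ Real.exp (-(1/2)) := by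
    have := Real.add_one_le_exp (-(1/2) : ℝ)
    linarith
  calc (1/2:ℝ) ^ ⌊y⌋₊ ≤ (Real.exp (-(1/2))) ^ ⌊y⌋₊ := pow_le_pow_left₀ (by norm_num) h2 _
    _ = Real.exp (-(1/2) * ⌊y⌋₊) := by rw [← Real.exp_nat_mul]; ring_nf
    _ ≤ _ := by
      apply Real.exp_le_exp.2
      linarith

/-- trials succeed everywhere -/
theorem fl_ok {c₁ c₂ s t : ℝ} (h1 : ∀ (S k F0 : Finset Edg) (A y0 X Y : ℤ) (T a M : ℕ),
    1 ≤ a → F0 ⊆ S → k ⊆ S → Strand (↑F0 : Set Edg) A y0 X Y T → A ≤ X - 9 * a →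
    Bl X Y a ⊆ S → ((A - 1, y0, true) : Edg) ∈ k → Exm (↑F0) (st0 A y0) T ⊆ k →
    (∀ e ∈ k, e ∈ Bl X Y a → e ∈ Exm (↑F0) (st0 A y0) T) →
    c₁ * Pr (fun _ => (1/2:ℝ)) (NB (X + 32 * a, Y) a)
        (fun G => M ≤ nRA (X + 32 * a, Y) a (↑G)) ≤
      Pr (fun _ => (1/2:ℝ)) (S \ k) (fun G => M ≤ cnt (st0 A y0)
        (↑(Exm (↑F0) (st0 A y0) T ∪ Bl X Y a)) (↑((F0 ∩ k) ∪ G)) (ctr (X + 32 * a, Y) a)))
    (hc₁ : 0 ≤ c₁)
    (h2 : ∀ (z : Vtx) (a : ℕ), 1 ≤ a →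
      c₂ * (a:ℝ) ^ (-(2 * s - 2 * t)) ≤ Pr (fun _ => (1/2:ℝ)) (NB z a)
        (fun G => c₂ * (a:ℝ) ^ (2 - s) ≤ (nRA z a (↑G) : ℝ)))
    {n a : ℕ} (ha : 1 ≤ a) {δ : ℝ} (hδ : δ ≤ c₁ * (c₂ * (a:ℝ) ^ (-(2 * s - 2 * t)))) :
    AllOk n a ⌈c₂ * (a:ℝ) ^ (2 - s)⌉₊ δ := by
  intro b c A y0 k F0 X Y T h3 h4 h5 h6 h7 h8 h9 h10
  refine hδ.trans (le_trans ?_ (h1 _ k F0 A y0 X Y T a _ ha h3 h4 h5 h6 h7 h8 h9 h10))
  apply mul_le_mul_of_nonneg_left _ hc₁
  refine (h2 (X + 32 * a, Y) a ha).trans (le_of_eq ?_)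
  apply Pr_congr
  intro F _
  exact Nat.ceil_le.symm

set_option maxHeartbeats 4000000 in
theorem fl_main {c C : ℝ → ℝ} (hc : ∀ η, 0 < η → 0 < c η) (hC : ∀ η, 0 < η → 0 < C η)
    (hL : ∀ η, 0 < η → LowA (c η) (1/4 + η)) (hU : ∀ η, 0 < η → TwoUp (C η) (1/4 - η))
    {e : ℝ} (he : 0 < e) (he1 : e ≤ 1/9) :
    Filter.Tendsto (fun n : ℕ => Pr (fun _ => (1/2:ℝ)) (RE 0 n 0 n)
      (fun F => ∃ v, IsMax n (↑F) v ∧ (per n (↑F) v : ℝ) < (n:ℝ) ^ (7/4 - 9 * e)))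
      Filter.atTop (nhds 0) := by
  have hok : Ok (fun _ : Edg => (1/2:ℝ)) := fun _ => ⟨by norm_num, by norm_num⟩
  set η : ℝ := e / 8 with hη
  have hη0 : 0 < η := by positivity
  obtain ⟨c₀, hc₀, htr⟩ := trial
  obtain ⟨c₂, hc₂, hn⟩ := nra_prob (c := c η) (C := C η) (s := 1/4 + η) (t := 1/4 - η)
    (hc η hη0) (hC η hη0) (by positivity) (by linarith) (by linarith) (by linarith)
    (hL η hη0) (hU η hη0)
  have hexp : -(2 * (1/4 + η) - 2 * (1/4 - η)) = -(4 * η) := by ring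
  set c₁ : ℝ := min c₀ 1 with hc₁
  have hc₁0 : 0 < c₁ := lt_min hc₀ one_pos
  have htr' : ∀ (S k F0 : Finset Edg) (A y0 X Y : ℤ) (T a M : ℕ),
    1 ≤ a → F0 ⊆ S → k ⊆ S → Strand (↑F0 : Set Edg) A y0 X Y T → A ≤ X - 9 * a →
    Bl X Y a ⊆ S → ((A - 1, y0, true) : Edg) ∈ k → Exm (↑F0) (st0 A y0) T ⊆ k →
    (∀ e ∈ k, e ∈ Bl X Y a → e ∈ Exm (↑F0) (st0 A y0) T) →
    c₁ * Pr (fun _ => (1/2:ℝ)) (NB (X + 32 * a, Y) a)
        (fun G => M ≤ nRA (X + 32 * a, Y) a (↑G)) ≤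
      Pr (fun _ => (1/2:ℝ)) (S \ k) (fun G => M ≤ cnt (st0 A y0)
        (↑(Exm (↑F0) (st0 A y0) T ∪ Bl X Y a)) (↑((F0 ∩ k) ∪ G)) (ctr (X + 32 * a, Y) a)) := by
    intro S k F0 A y0 X Y T a M h0 h1 h2 h3 h4 h5 h6 h7 h8
    refine le_trans ?_ (htr S k F0 A y0 X Y T a M h0 h1 h2 h3 h4 h5 h6 h7 h8)
    exact mul_le_mul_of_nonneg_right (min_le_left _ _) (Pr_nonneg hok _ _)
  -- parameters
  set a : ℕ → ℕ := fun n => ⌊(n:ℝ) ^ (1 - 4 * e)⌋₊ with ha_def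
  set K : ℕ → ℕ := fun n => ⌊(n:ℝ) ^ (2 * e)⌋₊ with hK_def
  set m : ℕ → ℕ := fun n => ⌊(n:ℝ) ^ (1 - e / 2)⌋₊ with hm_def
  set K' : ℕ → ℕ := fun n => ⌊(n:ℝ) ^ (e / 2) / 4⌋₊ with hK'_def
  set m' : ℕ → ℕ := fun n => ⌊(n:ℝ) ^ e⌋₊ with hm'_def
  set δ : ℕ → ℝ := fun n => c₁ * (c₂ * (a n:ℝ) ^ (-(2 * (1/4 + η) - 2 * (1/4 - η)))) with hδ_def
  set M : ℕ → ℕ := fun n => ⌈c₂ * (a n:ℝ) ^ (2 - (1/4 + η))⌉₊ with hM_def
  set c₃ : ℝ := c₁ * c₂ / 2 with hc₃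
  have hc₃0 : 0 < c₃ := by positivity
  -- the bound
  have hlim : Filter.Tendsto (fun n : ℕ => Real.exp (-(1/16) * (n:ℝ) ^ (e / 2)) +
      8 * ((n:ℝ) ^ (1:ℝ) * Real.exp (-(1/4) * (n:ℝ) ^ e)) +
      16 * ((n:ℝ) ^ (2:ℝ) * Real.exp (-c₃ * (n:ℝ) ^ (3 * e / 2)))) Filter.atTop (nhds 0) := by
    have l1 := fl_exp (r := e / 2) (b := 1/16) (k := 0) (by positivity) (by norm_num)
    have l2 := (fl_exp (r := e) (b := 1/4) (k := 1) (by positivity) (by norm_num)).const_mul 8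
    have l3 := (fl_exp (r := 3 * e / 2) (b := c₃) (k := 2) (by positivity) hc₃0).const_mul 16
    have l := (l1.add l2).add l3
    simp only [Real.rpow_zero, one_mul, mul_zero, add_zero] at l
    exact l
  refine squeeze_zero' (Filter.Eventually.of_forall fun n => Pr_nonneg hok _ _) ?_ hlim
  have ev1 := (fl_rpow (r := e / 2) (by positivity)).eventually_ge_atTop (8600 : ℝ)
  have ev2 := (fl_rpow (r := 15 * e / 8) (by positivity)).eventually_ge_atTop (32 / c₂)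
  filter_upwards [ev1, ev2, Filter.eventually_ge_atTop 1] with n h1 h2 hn1
  have hx1 : (1:ℝ) ≤ (n:ℝ) := by exact_mod_cast hn1
  set x : ℝ := (n:ℝ) with hx
  have hx0 : 0 < x := by linarith
  have pow_mono : ∀ {r r' : ℝ}, r ≤ r' → x ^ r ≤ x ^ r' := fun h =>
    Real.rpow_le_rpow_of_exponent_le hx1 h
  have one_pow' : ∀ {r : ℝ}, 0 ≤ r → 1 ≤ x ^ r := fun h => Real.one_le_rpow hx1 h
  have hpos : ∀ r : ℝ, 0 < x ^ r := fun r => Real.rpow_pos_of_pos hx0 r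
  have hmul : ∀ r r' : ℝ, x ^ r * x ^ r' = x ^ (r + r') := fun r r' => (Real.rpow_add hx0 r r').symm
  -- bounds for the parameters
  have ha_le : (a n : ℝ) ≤ x ^ (1 - 4 * e) := Nat.floor_le (hpos _).le
  have ha_ge : x ^ (1 - 4 * e) / 2 ≤ (a n : ℝ) := fl_floor (one_pow' (by linarith))
  have hK_le : (K n : ℝ) ≤ x ^ (2 * e) := Nat.floor_le (hpos _).le
  have hK_ge : x ^ (2 * e) / 2 ≤ (K n : ℝ) := fl_floor (one_pow' (by linarith))
  have hm_le : (m n : ℝ) ≤ x ^ (1 - e / 2) := Nat.floor_le (hpos _).le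
  have hm_ge : x ^ (1 - e / 2) / 2 ≤ (m n : ℝ) := fl_floor (one_pow' (by linarith))
  have hm'_le : (m' n : ℝ) ≤ x ^ e := Nat.floor_le (hpos _).le
  have ha1 : 1 ≤ a n := Nat.le_floor (by simpa using one_pow' (r := 1 - 4 * e) (by linarith))
  have hK1 : 1 ≤ K n := Nat.le_floor (by simpa using one_pow' (r := 2 * e) (by linarith))
  have hm1 : 1 ≤ m n := Nat.le_floor (by simpa using one_pow' (r := 1 - e / 2) (by linarith))
  have haR : (1:ℝ) ≤ a n := by exact_mod_cast ha1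
  -- `R`
  set R : ℤ := 121 * a n * K n + 2 with hR_def
  set R1 : ℤ := 3 * R + 60 * a n with hR1_def
  have hRr : (R : ℝ) ≤ 123 * x ^ (1 - 2 * e) := by
    have e1 : (R : ℝ) = 121 * ((a n : ℝ) * (K n : ℝ)) + 2 := by
      rw [hR_def]; push_cast; ring
    have e2 : (a n : ℝ) * (K n : ℝ) ≤ x ^ (1 - 2 * e) := by
      calc (a n : ℝ) * (K n : ℝ) ≤ x ^ (1 - 4 * e) * x ^ (2 * e) :=
            mul_le_mul ha_le hK_le (Nat.cast_nonneg _) (hpos _).le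
        _ = x ^ (1 - 2 * e) := by rw [hmul]; congr 1; ring
    have e3 : 1 ≤ x ^ (1 - 2 * e) := one_pow' (by linarith)
    rw [e1]
    linarith
  have hR1r : (R1 : ℝ) ≤ 429 * x ^ (1 - 2 * e) := by
    have e1 : (R1 : ℝ) = 3 * (R : ℝ) + 60 * (a n : ℝ) := by
      rw [hR1_def]; push_cast; ring
    have e2 : x ^ (1 - 4 * e) ≤ x ^ (1 - 2 * e) := pow_mono (by linarith)
    rw [e1]
    linarith
  have hR1' : (1 : ℤ) ≤ R := by
    have : (0:ℤ) ≤ 121 * a n * K n := by positivity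
    omega
  have hR1'' : (1 : ℤ) ≤ R1 := by
    have : (0:ℤ) ≤ 60 * a n := by positivity
    omega
  -- comparison with `m`
  have hkey : x ^ (1 - e) * 8600 ≤ x ^ (1 - e / 2) := by
    calc x ^ (1 - e) * 8600 ≤ x ^ (1 - e) * x ^ (e / 2) := mul_le_mul_of_nonneg_left h1 (hpos _).le
      _ = x ^ (1 - e / 2) := by rw [hmul]; congr 1; ring
  have h12 : x ^ (1 - 2 * e) ≤ x ^ (1 - e) := pow_mono (by linarith)
  have hR1m : R1 < (m n : ℤ) := by
    have : (R1 : ℝ) < ((m n : ℤ) : ℝ) := by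
      push_cast
      have := hpos (1 - e)
      linarith
    exact_mod_cast this
  have h2Rm : 2 * R < (m n : ℤ) := by
    have : ((2 * R : ℤ) : ℝ) < ((m n : ℤ) : ℝ) := by
      push_cast
      have := hpos (1 - e)
      linarith
    exact_mod_cast this
  have hlayc : 2 * ((m' n : ℤ) + 2) * (R1 + 1) + 4 * R1 ≤ (m n : ℤ) := by
    have : ((2 * ((m' n : ℤ) + 2) * (R1 + 1) + 4 * R1 : ℤ) : ℝ) ≤ ((m n : ℤ) : ℝ) := by
      push_cast
      have f1 : (m' n : ℝ) + 2 ≤ 3 * x ^ e := by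
        have := one_pow' (r := e) he.le
        linarith
      have f2 : (R1 : ℝ) + 1 ≤ 430 * x ^ (1 - 2 * e) := by
        have := one_pow' (r := 1 - 2 * e) (by linarith)
        linarith
      have f3 : ((m' n : ℝ) + 2) * ((R1 : ℝ) + 1) ≤ 1290 * x ^ (1 - e) := by
        have hR0 : (0:ℝ) ≤ (R1 : ℝ) + 1 := by
          have : (1:ℝ) ≤ (R1 : ℝ) := by exact_mod_cast hR1''
          linarith
        calc ((m' n : ℝ) + 2) * ((R1 : ℝ) + 1) ≤ (3 * x ^ e) * (430 * x ^ (1 - 2 * e)) :=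
              mul_le_mul f1 f2 hR0 (by have := hpos e; positivity)
          _ = 1290 * (x ^ e * x ^ (1 - 2 * e)) := by ring
          _ = 1290 * x ^ (1 - e) := by rw [hmul]; congr 2; ring
      have := hpos (1 - e)
      nlinarith
    exact_mod_cast this
  -- probability of `¬ Big`
  have p1 : Pr (fun _ => (1/2:ℝ)) (RE 0 n 0 n) (fun F => ¬ Big n (m n : ℤ) (↑F)) ≤
      Real.exp (-(1/16) * x ^ (e / 2)) := by
    have hKL : K' n * (3 * m n + 1) ≤ n + 1 := by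
      have : ((K' n * (3 * m n + 1) : ℕ) : ℝ) ≤ ((n + 1 : ℕ) : ℝ) := by
        push_cast
        have f1 : (K' n : ℝ) ≤ x ^ (e / 2) / 4 := Nat.floor_le (by have := hpos (e / 2); positivity)
        have f2 : 3 * (m n : ℝ) + 1 ≤ 4 * x ^ (1 - e / 2) := by
          have := one_pow' (r := 1 - e / 2) (by linarith)
          linarith
        calc (K' n : ℝ) * (3 * (m n : ℝ) + 1) ≤ (x ^ (e / 2) / 4) * (4 * x ^ (1 - e / 2)) :=
              mul_le_mul f1 f2 (by positivity) (by have := hpos (e / 2); positivity)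
          _ = x ^ (e / 2) * x ^ (1 - e / 2) := by ring
          _ = x := by rw [hmul]; simp
          _ ≤ x + 1 := by linarith
      exact_mod_cast this
    have hLn : 3 * m n ≤ n := by
      have : ((3 * m n : ℕ) : ℝ) ≤ (n : ℝ) := by
        push_cast
        have f1 : x ^ (1 - e / 2) * 8600 ≤ x := by
          calc x ^ (1 - e / 2) * 8600 ≤ x ^ (1 - e / 2) * x ^ (e / 2) :=
                mul_le_mul_of_nonneg_left h1 (hpos _).le
            _ = x := by rw [hmul]; simp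
        have := hpos (1 - e / 2)
        rw [← hx]
        linarith
      exact_mod_cast this
    have := pr_not_big (n := n) (L := 3 * m n) (K := K' n) (by omega) (m := (m n : ℤ))
      (by positivity) (by push_cast; exact le_rfl) hKL hLn
    refine this.trans ?_
    refine (fl_half_pow (by linarith)).trans (le_of_eq ?_)
    congr 1
    ring
  -- probability of the layer event
  have p2 : Pr (fun _ => (1/2:ℝ)) (RE 0 n 0 n) (fun F => LayEv n R1 (m n : ℤ) (↑F)) ≤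
      8 * (x ^ (1:ℝ) * Real.exp (-(1/4) * x ^ e)) := by
    refine (layer_prob hR1'' hlayc).trans ?_
    have f1 := fl_half_pow (one_pow' (r := e) he.le)
    have f2 : (0:ℝ) < Real.exp (-(1/4) * x ^ e) := Real.exp_pos _
    rw [Real.rpow_one]
    calc 4 * ((n:ℝ) + 1) * (1/2) ^ (m' n) ≤ 4 * ((n:ℝ) + 1) * Real.exp (-(1/4) * x ^ e) :=
          mul_le_mul_of_nonneg_left f1 (by positivity)
      _ ≤ 8 * (x * Real.exp (-(1/4) * x ^ e)) := by
          rw [← hx]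
          nlinarith
  -- probability of the low event
  have hδ0 : 0 ≤ δ n := by
    have : (0:ℝ) ≤ (a n : ℝ) ^ (-(2 * (1/4 + η) - 2 * (1/4 - η))) := by positivity
    show 0 ≤ c₁ * (c₂ * _)
    positivity
  have hδ1 : δ n ≤ 1 := by
    have f1 := hn (0, 0) (a n) ha1
    have f2 := Pr_le_one hok (NB (0, 0) (a n))
      (fun G => c₂ * (a n:ℝ) ^ (2 - (1/4 + η)) ≤ (nRA (0, 0) (a n) (↑G) : ℝ))
    have f3 : c₁ ≤ 1 := min_le_right _ _
    calc δ n ≤ 1 * 1 := mul_le_mul f3 (f1.trans f2) (by positivity) zero_le_one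
      _ = 1 := one_mul 1
  have hδK : c₃ * x ^ (3 * e / 2) ≤ δ n * K n := by
    have f1 : x ^ (-(4 * η)) ≤ (a n : ℝ) ^ (-(4 * η)) := by
      apply Real.rpow_le_rpow_of_nonpos (by linarith) _ (by linarith)
      calc (a n : ℝ) ≤ x ^ (1 - 4 * e) := ha_le
        _ ≤ x ^ (1:ℝ) := pow_mono (by linarith)
        _ = x := Real.rpow_one x
    have f2 : δ n = c₁ * c₂ * (a n : ℝ) ^ (-(4 * η)) := by
      show c₁ * (c₂ * _) = _
      rw [hexp]; ring
    rw [f2]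
    calc c₃ * x ^ (3 * e / 2) = c₁ * c₂ * (x ^ (-(4 * η)) * (x ^ (2 * e) / 2)) := by
          rw [← mul_div_assoc, hmul, hc₃, hη]
          have : -(4 * (e / 8)) + 2 * e = 3 * e / 2 := by ring
          rw [this]
          ring
      _ ≤ c₁ * c₂ * ((a n : ℝ) ^ (-(4 * η)) * K n) := by
          apply mul_le_mul_of_nonneg_left _ (by positivity)
          exact mul_le_mul f1 hK_ge (by have := hpos (2 * e); positivity) (by positivity)
      _ = _ := by ring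
  have p3 : Pr (fun _ => (1/2:ℝ)) (RE 0 n 0 n) (fun F => ∃ σ : St,
      inR (3 * R + 60 * a n) (n - 3 * R - 60 * a n) (3 * R + 60 * a n) (n - 3 * R - 60 * a n) σ.1 ∧
      (∃ t, Far σ.1 R (orb (↑F) σ t).1) ∧ nc4 σ (↑F) (Bx 0 0 n) < M n) ≤
      16 * (x ^ (2:ℝ) * Real.exp (-c₃ * x ^ (3 * e / 2))) := by
    have hall : AllOk n (a n) (M n) (δ n) :=
      fl_ok htr' hc₁0.le hn ha1 le_rfl
    refine (low_thm ha1 hK1 hδ0 hδ1 hall (le_of_eq (by rw [hR_def]))).trans ?_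
    have f1 : (1 - δ n) ^ (K n) ≤ Real.exp (-c₃ * x ^ (3 * e / 2)) := by
      have g1 : 1 - δ n ≤ Real.exp (-δ n) := by
        have := Real.add_one_le_exp (-δ n)
        linarith
      calc (1 - δ n) ^ (K n) ≤ (Real.exp (-δ n)) ^ (K n) :=
            pow_le_pow_left₀ (by linarith) g1 _
        _ = Real.exp (-(δ n * K n)) := by rw [← Real.exp_nat_mul]; ring_nf
        _ ≤ _ := by
          apply Real.exp_le_exp.2
          linarith
    have f2 : (0:ℝ) < Real.exp (-c₃ * x ^ (3 * e / 2)) := Real.exp_pos _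
    have f3 : x ^ (2:ℝ) = x ^ 2 := by
      rw [← Real.rpow_natCast]; norm_num
    rw [f3, ← hx]
    calc 4 * (x + 1) ^ 2 * (1 - δ n) ^ (K n) ≤ 4 * (x + 1) ^ 2 * Real.exp (-c₃ * x ^ (3 * e / 2)) :=
          mul_le_mul_of_nonneg_left f1 (by positivity)
      _ ≤ (4 * (4 * x ^ 2)) * Real.exp (-c₃ * x ^ (3 * e / 2)) := by
          apply mul_le_mul_of_nonneg_right _ f2.le
          nlinarith
      _ = _ := by ring
  -- the number of pairs
  have hMn : x ^ (7/4 - 9 * e) ≤ (M n : ℝ) / 8 := by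
    have f1 : c₂ * (a n:ℝ) ^ (2 - (1/4 + η)) ≤ (M n : ℝ) := Nat.le_ceil _
    have f2 : (x ^ (1 - 4 * e) / 2) ^ (2 - (1/4 + η)) ≤ (a n:ℝ) ^ (2 - (1/4 + η)) :=
      Real.rpow_le_rpow (by have := hpos (1 - 4 * e); positivity) ha_ge (by linarith)
    have f3 : x ^ (7/4 - 7 * e - e / 8) / 4 ≤ (x ^ (1 - 4 * e) / 2) ^ (2 - (1/4 + η)) := by
      rw [Real.div_rpow (hpos _).le (by norm_num), ← Real.rpow_mul hx0.le]
      have g1 : x ^ (7/4 - 7 * e - e / 8) ≤ x ^ ((1 - 4 * e) * (2 - (1/4 + η))) := by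
        apply pow_mono
        rw [hη]
        nlinarith
      have g2 : (2:ℝ) ^ (2 - (1/4 + η)) ≤ 4 := by
        calc (2:ℝ) ^ (2 - (1/4 + η)) ≤ (2:ℝ) ^ (2:ℝ) :=
              Real.rpow_le_rpow_of_exponent_le (by norm_num) (by linarith)
          _ = 4 := by norm_num
      exact div_le_div₀ (hpos _).le g1 (by positivity) g2
    have f4 : x ^ (7/4 - 9 * e) * (32 / c₂) ≤ x ^ (7/4 - 7 * e - e / 8) := by
      calc x ^ (7/4 - 9 * e) * (32 / c₂) ≤ x ^ (7/4 - 9 * e) * x ^ (15 * e / 8) :=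
            mul_le_mul_of_nonneg_left h2 (hpos _).le
        _ = x ^ (7/4 - 7 * e - e / 8) := by rw [hmul]; congr 1; ring
    have f5 : x ^ (7/4 - 9 * e) * 32 ≤ c₂ * x ^ (7/4 - 7 * e - e / 8) := by
      have := mul_le_mul_of_nonneg_left f4 hc₂.le
      calc x ^ (7/4 - 9 * e) * 32 = c₂ * (x ^ (7/4 - 9 * e) * (32 / c₂)) := by field_simp
        _ ≤ _ := this
    have f6 : c₂ * (x ^ (7/4 - 7 * e - e / 8) / 4) ≤ (M n : ℝ) :=
      (mul_le_mul_of_nonneg_left (f3.trans f2) hc₂.le).trans f1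
    linarith
  -- union bound
  refine le_trans ?_ (add_le_add (add_le_add p1 p2) p3)
  refine le_trans ?_ (add_le_add_left (Pr_or_le hok _ _ _) _)
  refine le_trans ?_ (Pr_or_le hok _ _ _)
  apply Pr_mono hok
  rintro F hF ⟨v, hv, hlt⟩
  by_contra hcon
  rw [not_or, not_or, not_not] at hcon
  obtain ⟨⟨hbig, hlay⟩, hlow⟩ := hcon
  have hper := per_big hF hbig hR1' hR1m h2Rm hlay (M := M n) (by
    rintro ⟨σ, g1, g2, g3⟩
    apply hlow
    refine ⟨σ, ?_, g2, g3⟩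
    have e1 : (n:ℤ) - R1 = n - 3 * R - 60 * a n := by rw [hR1_def]; ring
    rw [e1] at g1
    exact g1) hv
  linarith

/-- The lower half of the perimeter exponent. -/
theorem lower {c C : ℝ → ℝ} (hc : ∀ η, 0 < η → 0 < c η) (hC : ∀ η, 0 < η → 0 < C η)
    (hL : ∀ η, 0 < η → LowA (c η) (1/4 + η)) (hU : ∀ η, 0 < η → TwoUp (C η) (1/4 - η))
    {ε : ℝ} (hε : 0 < ε) :
    Filter.Tendsto (fun n : ℕ => Pr (fun _ => (1/2:ℝ)) (RE 0 n 0 n)
      (fun F => ∃ v, IsMax n (↑F) v ∧ (per n (↑F) v : ℝ) < (n:ℝ) ^ (7/4 - ε)))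
      Filter.atTop (nhds 0) := by
  have hok : Ok (fun _ : Edg => (1/2:ℝ)) := fun _ => ⟨by norm_num, by norm_num⟩
  have he : 0 < min ε 1 / 9 := by
    have := lt_min hε one_pos
    positivity
  have h := fl_main hc hC hL hU he (by
    have := min_le_right ε 1
    linarith)
  refine squeeze_zero' (Filter.Eventually.of_forall fun n => Pr_nonneg hok _ _) ?_ h
  filter_upwards [Filter.eventually_ge_atTop 1] with n hn
  have hx1 : (1:ℝ) ≤ (n:ℝ) := by exact_mod_cast hn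
  apply Pr_mono hok
  rintro F _ ⟨v, hv, hlt⟩
  refine ⟨v, hv, hlt.trans_le ?_⟩
  apply Real.rpow_le_rpow_of_exponent_le hx1
  have := min_le_left ε 1
  linarith

end H984P
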