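import Pool.Agent.H984R3.Per.Layer

/-!
S6: boundary layer, number of positions n / R instead of n + 1.
-/

namespace H984P

open H974 Finset H342P

/-- A wide path in the layer crosses a long rectangle which starts at a multiple of `R + 1`. -/
theorem layer2_cross {n K : ℕ} {R w : ℤ} (hR : 1 ≤ R) (hK : 1 ≤ K)
    (hw : (K + 1 : ℕ) * (R + 1) + 4 * R ≤ w) {F : Finset Edg} (hF : F ⊆ RE 0 n 0 n) {u v : Vtx}
    (huv : u.1 + w ≤ v.1) (h : Reach (↑F ∩ LayS n R) u v) :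
    ∃ j : ℤ, 0 ≤ j ∧ j * (R + 1) + K * (R + 1) ≤ n ∧
      (LRc (j * (R + 1)) (j * (R + 1) + K * (R + 1)) 0 (0 + R) F ∨
        LRc (j * (R + 1)) (j * (R + 1) + K * (R + 1)) (n - R) (n - R + R) F) := by
  obtain ⟨a, ha, h1, h2⟩ := layL_cross hR (by omega : 1 ≤ K + 1) hw hF huv h
  rw [Finset.mem_Icc] at ha
  have hd := Int.emod_add_mul_ediv (a + R) (R + 1)
  have hd1 := Int.emod_nonneg (a + R) (by omega : R + 1 ≠ 0)
  have hd2 := Int.emod_lt_of_pos (a + R) (by omega : 0 < R + 1)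
  set q := (a + R) / (R + 1) with hq
  set r := (a + R) % (R + 1) with hr
  have hq0 : 0 ≤ q := Int.ediv_nonneg (by omega) (by omega)
  have e1 : ((K + 1 : ℕ):ℤ) * (R + 1) = K * (R + 1) + (R + 1) := by push_cast; ring
  rw [e1] at h1 h2
  have e2 : q * (R + 1) = a + R - r := by rw [mul_comm]; linarith
  have hK0 : (1:ℤ) * (R + 1) ≤ (K:ℤ) * (R + 1) := by
    apply mul_le_mul_of_nonneg_right _ (by omega)
    exact_mod_cast hK
  refine ⟨q, hq0, by omega, ?_⟩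
  rcases h2 with h2 | h2
  · exact Or.inl (layL_sub (by omega) (by omega) (by omega) h2)
  · exact Or.inr (layL_sub (by omega) (by omega) (by omega) h2)

/-- Wide paths. -/
theorem layer2_x {n m : ℕ} {R w : ℤ} (hR : 1 ≤ R) (hw : (m + 2) * (R + 1) + 4 * R ≤ w) :
    Pr (fun _ => (1/2:ℝ)) (RE 0 n 0 n) (fun F => ∃ u v : Vtx, w ≤ |u.1 - v.1| ∧
      Reach (↑F ∩ LayS n R) u v) ≤ ((n:ℝ) / R + 2) * (1/2) ^ m := by
  have hok : Ok (fun _ : Edg => (1/2:ℝ)) := fun _ => ⟨by norm_num, by norm_num⟩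
  set J : Finset ℤ := ((Finset.Icc (0:ℤ) (n / (R + 1))).image (fun j => j * (R + 1))).filter
    (fun a => 0 ≤ a ∧ a + (m + 1 : ℕ) * (R + 1) ≤ n) with hJ
  have hq0 : 0 ≤ (n:ℤ) / (R + 1) := Int.ediv_nonneg (by omega) (by omega)
  have hcard : (J.card : ℝ) ≤ (n:ℝ) / R + 2 := by
    have h1 : J.card ≤ (Finset.Icc (0:ℤ) (n / (R + 1))).card :=
      (Finset.card_filter_le _ _).trans Finset.card_image_le
    have h2 : ((Finset.Icc (0:ℤ) (n / (R + 1))).card : ℤ) = n / (R + 1) + 1 := by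
      rw [Int.card_Icc]
      rw [Int.toNat_of_nonneg (by omega)]
      ring
    have h3 : (J.card : ℤ) ≤ n / (R + 1) + 1 := by rw [← h2]; exact_mod_cast h1
    have h4 : (J.card : ℝ) ≤ (((n:ℤ) / (R + 1) : ℤ) : ℝ) + 1 := by exact_mod_cast h3
    have h5 : (((n:ℤ) / (R + 1) : ℤ) : ℝ) ≤ (n:ℝ) / R := by
      have h6 : (((n:ℤ) / (R + 1) : ℤ)) * (R + 1) ≤ n := Int.ediv_mul_le _ (by omega)
      have hRp : (0:ℝ) < R := by exact_mod_cast (by omega : 0 < R)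
      rw [le_div_iff₀ hRp]
      have h7 : (((n:ℤ) / (R + 1) : ℤ)) * R ≤ n := by nlinarith
      exact_mod_cast h7
    linarith
  have hR0 : 0 ≤ ((m + 1 : ℕ):ℤ) * (R + 1) := by positivity
  refine le_trans (Pr_mono hok (B := fun F => ∃ a ∈ J,
      (LRc a (a + (m + 1 : ℕ) * (R + 1)) 0 (0 + R) F ∨
        LRc a (a + (m + 1 : ℕ) * (R + 1)) (n - R) (n - R + R) F)) ?_) ?_
  · have hmemJ : ∀ j : ℤ, 0 ≤ j → j * (R + 1) + (m + 1 : ℕ) * (R + 1) ≤ n → j * (R + 1) ∈ J := by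
      intro j h0 h1
      rw [hJ, Finset.mem_filter, Finset.mem_image]
      have h2 : 0 ≤ j * (R + 1) := mul_nonneg h0 (by omega)
      refine ⟨⟨j, ?_, rfl⟩, h2, h1⟩
      rw [Finset.mem_Icc]
      refine ⟨h0, ?_⟩
      rw [Int.le_ediv_iff_mul_le (by omega)]
      omega
    rintro F hF ⟨u, v, huv, hr⟩
    have hw' : (((m + 1) + 1 : ℕ):ℤ) * (R + 1) + 4 * R ≤ w := by
      push_cast
      have : ((m:ℤ) + 1 + 1) * (R + 1) = (m + 2) * (R + 1) := by ring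
      rw [this]; exact hw
    rcases le_total u.1 v.1 with h1 | h1
    · rw [abs_sub_comm, abs_of_nonneg (by omega)] at huv
      obtain ⟨j, k1, k2, k3⟩ := layer2_cross hR (by omega : 1 ≤ m + 1) hw' hF
        (by omega : u.1 + w ≤ v.1) hr
      exact ⟨j * (R + 1), hmemJ j k1 k2, k3⟩
    · rw [abs_of_nonneg (by omega)] at huv
      obtain ⟨j, k1, k2, k3⟩ := layer2_cross hR (by omega : 1 ≤ m + 1) hw' hF
        (by omega : v.1 + w ≤ u.1) hr.symm
      exact ⟨j * (R + 1), hmemJ j k1 k2, k3⟩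
  · refine le_trans (Pr_exists_le hok _ J _) ?_
    have hb : ∀ a ∈ J, Pr (fun _ => (1/2:ℝ)) (RE 0 n 0 n) (fun F =>
        (LRc a (a + (m + 1 : ℕ) * (R + 1)) 0 (0 + R) F ∨
        LRc a (a + (m + 1 : ℕ) * (R + 1)) (n - R) (n - R + R) F)) ≤ (1/2) ^ m := by
      intro a ha
      rw [hJ, Finset.mem_filter] at ha
      have ha0 := ha.2.1
      have ha1 := ha.2.2
      have hRn : R ≤ n := by
        have : (1:ℤ) * (R + 1) ≤ ((m + 1 : ℕ):ℤ) * (R + 1) := by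
          apply mul_le_mul_of_nonneg_right _ (by omega)
          push_cast; omega
        omega
      refine le_trans (Pr_or_le hok _ _ _) ?_
      have p1 := layL_long (a := a) (c := 0) hR (RE 0 n 0 n) (m + 1) (by omega) (by
        rintro ⟨x, y, _ | _⟩ h
        · simp only [mem_LRE_false, mem_RE_false] at h ⊢; omega
        · simp only [mem_LRE_true, mem_RE_true] at h ⊢; omega)
      have p2 := layL_long (a := a) (c := n - R) hR (RE 0 n 0 n) (m + 1) (by omega) (by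
        rintro ⟨x, y, _ | _⟩ h
        · simp only [mem_LRE_false, mem_RE_false] at h ⊢; omega
        · simp only [mem_LRE_true, mem_RE_true] at h ⊢; omega)
      rw [pow_succ] at p1 p2
      have := add_le_add p1 p2
      linarith
    refine le_trans (Finset.sum_le_sum hb) ?_
    rw [Finset.sum_const, nsmul_eq_mul]
    exact mul_le_mul_of_nonneg_right hcard (by positivity)

theorem layer_prob2 {n m : ℕ} {R w : ℤ} (hR : 1 ≤ R)
    (hw : 2 * (m + 3) * (R + 1) + 4 * R ≤ w) :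
    Pr (fun _ => (1/2:ℝ)) (RE 0 n 0 n) (fun F => LayEv n R w (↑F)) ≤
      4 * ((n:ℝ) / R + 2) * (1/2) ^ m := by
  have hok : Ok (fun _ : Edg => (1/2:ℝ)) := fun _ => ⟨by norm_num, by norm_num⟩
  have hw' : ((m:ℤ) + 2) * (R + 1) + 4 * R ≤ w := by
    have h1 : 0 ≤ ((m:ℤ) + 4) * (R + 1) := by positivity
    linarith
  have hA := layer2_x (n := n) hR hw'
  have hB : Pr (fun _ => (1/2:ℝ)) (RE 0 n 0 n) (fun F => ∃ u v : Vtx, w ≤ |u.2 - v.2| ∧
      Reach (↑F ∩ LayS n R) u v) ≤ ((n:ℝ) / R + 2) * (1/2) ^ m := by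
    refine le_trans ?_ hA
    have h1 : RE 0 (n:ℤ) 0 n = tps.mp (RE 0 n 0 n) := by rw [tps_RE]
    conv_rhs => rw [h1, LSym.pr]
    apply Pr_mono hok
    rintro F _ ⟨u, v, huv, hr⟩
    have h2 := tps.reach hr
    refine ⟨tps.ψ u, tps.ψ v, huv, h2.mono ?_⟩
    rintro _ ⟨e, ⟨he1, he2⟩, rfl⟩
    constructor
    · rw [LSym.coe_mp]; exact ⟨e, he1, rfl⟩
    · unfold LayS at he2 ⊢
      simp only [Set.mem_ofPred_eq] at he2 ⊢
      obtain ⟨x, y, t⟩ := e
      cases t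
      · simp only [src_mk, tgt_false, tps_φ, Bool.not_false, tgt_true] at he2 ⊢
        exact ⟨(layL_swap n (x, y)).trans_lt he2.1, (layL_swap n (x, y + 1)).trans_lt he2.2⟩
      · simp only [src_mk, tgt_true, tps_φ, Bool.not_true, tgt_false] at he2 ⊢
        exact ⟨(layL_swap n (x, y)).trans_lt he2.1, (layL_swap n (x + 1, y)).trans_lt he2.2⟩
  have hC : Pr (fun _ => (1/2:ℝ)) (RE 0 n 0 n) (fun F => LayEv n R w (↑F)) ≤
      Pr (fun _ => (1/2:ℝ)) (RE 0 n 0 n) (fun F => ∃ u v : Vtx, w ≤ |u.1 - v.1| ∧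
      Reach (↑F ∩ LayS n R) u v) +
      Pr (fun _ => (1/2:ℝ)) (RE 0 n 0 n) (fun F => ∃ u v : Vtx, w ≤ |u.2 - v.2| ∧
      Reach (↑F ∩ LayS n R) u v) := by
    refine le_trans (Pr_mono hok ?_) (Pr_or_le hok _ _ _)
    rintro F _ ⟨u, v, huv | huv, hr⟩
    · exact Or.inl ⟨u, v, huv, hr⟩
    · exact Or.inr ⟨u, v, huv, hr⟩
  have hRp : (0:ℝ) < R := by exact_mod_cast (by omega : 0 < R)
  have hpos : 0 ≤ ((n:ℝ) / R + 2) * (1/2) ^ m := by positivity
  linarith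

end H984P
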