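import Pool.Agent.H984R3.Per.Basic

/-!
P9a: deterministic part of a trial.
-/

namespace H984P

open H974 Finset H342P

/-- A vertical path and a horizontal path through a rectangle meet. -/
theorem meet_gen {F : Set Edg} {S V Hh : Finset Edg} {p q c d : ℤ} (hpq : p < q) (hcd : c < d)
    (hV : V ⊆ S) (hH : Hh ⊆ S) (hR : RE p q c d ⊆ S)
    (hV1 : ∀ x y, ((x, y, false) : Edg) ∈ V → c ≤ y → y < d → p ≤ x ∧ x ≤ q)
    (hV2 : ∀ x y, ((x, y, true) : Edg) ∈ V → c < y → y < d → p ≤ x ∧ x < q)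
    (hH1 : ∀ x y, ((x, y, true) : Edg) ∈ Hh → p ≤ x → x < q → c ≤ y ∧ y ≤ d)
    (hH2 : ∀ x y, ((x, y, false) : Edg) ∈ Hh → p < x → x < q → c ≤ y ∧ y < d)
    {u w u' w' : Vtx} (h1 : Reach (F ∩ ↑V) u w) (hu : u.2 ≤ c) (hw : d ≤ w.2)
    (h2 : Reach (F ∩ ↑Hh) u' w') (hu' : u'.1 ≤ p) (hw' : q ≤ w'.1) :
    Reach (F ∩ ↑S) u u' := by
  obtain ⟨x1, x2, hx1, hx2, h3, h4⟩ := sub_TB (G := F ∩ ↑V) (a := p) (b := q) (c := c) (d := d)
    hcd (fun x y h => hV1 x y h.2) (fun x y h => hV2 x y h.2) h1 hu hw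
  obtain ⟨y1, y2, hy1, hy2, h5, h6⟩ := sub_LR (G := F ∩ ↑Hh) (a := p) (b := q) (c := c) (d := d)
    hpq (fun x y h => hH1 x y h.2) (fun x y h => hH2 x y h.2) h2 hu' hw'
  have h7 : Reach (F ∩ ↑(RE p q c d)) (p, y1) (x1, c) := by
    refine crossings_meet (F := F) hpq hcd.le hy2 hx1 (h5.mono ?_) (h3.mono ?_)
    · rintro e ⟨⟨he1, -⟩, he2⟩; exact ⟨he1, he2⟩
    · rintro e ⟨⟨he1, -⟩, he2⟩; exact ⟨he1, he2⟩
  have m1 : Reach (F ∩ ↑S) u (x1, c) := h4.mono (by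
    rintro e ⟨he1, he2⟩; exact ⟨he1, hV he2⟩)
  have m2 : Reach (F ∩ ↑S) u' (p, y1) := h6.mono (by
    rintro e ⟨he1, he2⟩; exact ⟨he1, hH he2⟩)
  have m3 : Reach (F ∩ ↑S) (p, y1) (x1, c) := h7.mono (by
    rintro e ⟨he1, he2⟩; exact ⟨he1, hR he2⟩)
  exact (m1.trans m3.symm).trans m2.symm

theorem HkE_sub {X Y : ℤ} {a : ℕ} (ha : 1 ≤ a) : HkE X Y a ⊆ Bl X Y a := by
  rintro ⟨x, y, _ | _⟩ h
  · simp only [HkE, Bl, Finset.mem_union, mem_RE_false] at h ⊢; omega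
  · simp only [HkE, Bl, Finset.mem_union, mem_RE_true] at h ⊢; omega

theorem dE_sub {X Y : ℤ} {a : ℕ} (ha : 1 ≤ a) {S : Finset Edg}
    (hS : S ⊆ RE (X - 59 * a) (X + 59 * a) (Y - 59 * a) (Y + 59 * a)) :
    dE S ⊆ ↑(Bl X Y a) := by
  rintro ⟨x, y, _ | _⟩ h
  · have h' := hS h
    simp only [dl, Equiv.coe_fn_mk] at h'
    simp at h'
    simp only [Bl, mem_coe, mem_RE_false]
    omega
  · have h' := hS h
    simp only [dl, Equiv.coe_fn_mk] at h'
    simp at h'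
    simp only [Bl, mem_coe, mem_RE_true]
    omega

theorem det_count {F : Finset Edg} {A y0 X Y : ℤ} {T a : ℕ} {hv hf : Vtx → ZMod 2} (ha : 1 ≤ a)
    (hst : Strand (↑F : Set Edg) A y0 X Y T)
    (hL : LEv X Y a {v | ∃ s ≤ T, (orb (↑F) (st0 A y0) s).1 = v} (Tlow (↑F) A y0 X Y T a hv) ↑F)
    (hU : UEv X Y a {f | ∃ s ≤ T, face (orb (↑F) (st0 A y0) s) = f}
      (Tup (↑F) A y0 X Y T a hf) ↑F) :
    nRA (X + 32 * a, Y) a (↑F) ≤ cnt (st0 A y0) (↑(Exm (↑F) (st0 A y0) T ∪ Bl X Y a)) (↑F)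
      (ctr (X + 32 * a, Y) a) := by
  classical
  unfold nRA cnt
  apply Finset.card_le_card
  intro v hvm
  rw [Finset.mem_filter] at hvm ⊢
  obtain ⟨hvc, ⟨w, hw, hRw⟩, ⟨g, hg, hDg⟩⟩ := hvm
  refine ⟨hvc, ?_, ?_⟩
  · obtain ⟨yb, yc, hyb, hyc, hR1, c, ⟨s, hs, rfl⟩, hR2⟩ := hL
    simp only [ctr, Finset.mem_product, Finset.mem_Icc] at hvc
    obtain ⟨v1, v2⟩ := v
    simp only at hvc hw
    have e1 : Reach ((↑F : Set Edg) ∩ ↑(Bl X Y a)) w (X + 8 * a, yc) := by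
      refine meet_gen (p := X + 19 * a) (q := X + 45 * a) (c := Y - 8 * a) (d := Y - 4 * a)
        (by omega) (by omega) (V := PR (v1, v2) a) (Hh := LS X Y a) ?_ ?_ ?_ ?_ ?_ ?_ ?_
        hRw.symm (by omega) (by simp only; omega) hR1 (by simp only; omega) (by simp only; omega)
      · rintro ⟨x, y, _ | _⟩ h
        · simp only [PR, Bl, mem_RE_false] at h ⊢; omega
        · simp only [PR, Bl, mem_RE_true] at h ⊢; omega
      · rintro ⟨x, y, _ | _⟩ h
        · simp only [LS, Bl, mem_RE_false, mem_LRE_false] at h ⊢; omega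
        · simp only [LS, Bl, mem_RE_true, mem_LRE_true] at h ⊢; omega
      · rintro ⟨x, y, _ | _⟩ h
        · simp only [Bl, mem_RE_false] at h ⊢; omega
        · simp only [Bl, mem_RE_true] at h ⊢; omega
      · intro x y h; simp only [PR, mem_RE_false] at h; omega
      · intro x y h; simp only [PR, mem_RE_true] at h; omega
      · intro x y h; simp only [LS, mem_LRE_true] at h; omega
      · intro x y h; simp only [LS, mem_LRE_false] at h; omega
    have e2 : Reach ((↑F : Set Edg) ∩ ↑(Bl X Y a)) w (v1, v2) := hRw.symm.mono (by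
      rintro ⟨x, y, _ | _⟩ ⟨h0, h⟩
      · refine ⟨h0, ?_⟩
        simp only [PR, Bl, mem_coe, mem_RE_false] at h ⊢; omega
      · refine ⟨h0, ?_⟩
        simp only [PR, Bl, mem_coe, mem_RE_true] at h ⊢; omega)
    have e3 : Reach ((↑F : Set Edg) ∩ ↑(Bl X Y a)) (X + 8 * a, yc) (orb (↑F) (st0 A y0) s).1 :=
      hR2.mono (by
        rintro e ⟨h0, h⟩
        exact ⟨h0, HkE_sub ha h.1⟩)
    have e4 := orb_reach (F := (↑F : Set Edg)) (W := ↑(Exm (↑F) (st0 A y0) T)) (σ := st0 A y0)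
      (T := T) (fun s hs => by exact_mod_cast mem_Exm.mpr ⟨s, hs, rfl⟩) hs
    have e5 : Reach ((↑F : Set Edg) ∩ ↑(Bl X Y a)) (orb (↑F) (st0 A y0) s).1 (v1, v2) :=
      (e3.symm.trans e1.symm).trans e2
    refine (e4.mono ?_).trans (e5.mono ?_)
    · rintro e ⟨h0, h⟩
      exact ⟨h0, by simp only [Finset.coe_union]; exact Or.inl h⟩
    · rintro e ⟨h0, h⟩
      exact ⟨h0, by simp only [Finset.coe_union]; exact Or.inr h⟩
  · obtain ⟨yb, yc, hyb, hyc, hR1, c, ⟨s, hs, rfl⟩, hR2⟩ := hU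
    simp only [ctr, Finset.mem_product, Finset.mem_Icc] at hvc
    obtain ⟨v1, v2⟩ := v
    simp only at hvc hg
    set H : Set Edg := dl '' (↑F : Set Edg)ᶜ with hH
    have conv : ∀ V : Finset Edg, dl '' (dE V \ ↑F) ⊆ H ∩ ↑V := by
      rintro V _ ⟨e, ⟨he1, he2⟩, rfl⟩
      exact ⟨⟨e, he2, rfl⟩, he1⟩
    set S : Finset Edg := RE (X - 59 * a) (X + 59 * a) (Y - 59 * a) (Y + 59 * a) with hS
    have back : ∀ u w : Vtx, Reach (H ∩ ↑S) u w → DReach (↑(Bl X Y a) \ ↑F) u w := by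
      intro u w h
      rw [← reach_dl]
      refine h.mono ?_
      rintro _ ⟨⟨e, he, rfl⟩, he2⟩
      refine ⟨e, ⟨dE_sub ha (Finset.Subset.refl _) he2, he⟩, rfl⟩
    have a1 : Reach (H ∩ ↑(DR (v1, v2) a)) (v1, v2) g := (reach_dl.mpr hDg).mono (conv _)
    have a2 : Reach (H ∩ ↑(US X Y a)) (X + 8 * a, yc) (X + 56 * a, yb) :=
      (reach_dl.mpr hR1).mono (conv _)
    have e1 : Reach (H ∩ ↑S) (v1, v2) (X + 8 * a, yc) := by
      refine meet_gen (p := X + 19 * a) (q := X + 45 * a) (c := Y + 4 * a) (d := Y + 8 * a)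
        (by omega) (by omega) (V := DR (v1, v2) a) (Hh := US X Y a) ?_ ?_ ?_ ?_ ?_ ?_ ?_
        a1 (by simp only; omega) (by omega) a2 (by simp only; omega) (by simp only; omega)
      · rintro ⟨x, y, _ | _⟩ h
        · simp only [DR, hS, mem_RE_false] at h ⊢; omega
        · simp only [DR, hS, mem_RE_true] at h ⊢; omega
      · rintro ⟨x, y, _ | _⟩ h
        · simp only [US, hS, mem_RE_false, mem_LRE_false] at h ⊢; omega
        · simp only [US, hS, mem_RE_true, mem_LRE_true] at h ⊢; omega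
      · rintro ⟨x, y, _ | _⟩ h
        · simp only [hS, mem_RE_false] at h ⊢; omega
        · simp only [hS, mem_RE_true] at h ⊢; omega
      · intro x y h; simp only [DR, mem_RE_false] at h; omega
      · intro x y h; simp only [DR, mem_RE_true] at h; omega
      · intro x y h; simp only [US, mem_LRE_true] at h; omega
      · intro x y h; simp only [US, mem_LRE_false] at h; omega
    have e2 : DReach (↑(Bl X Y a) \ (↑F : Set Edg)) (X + 8 * a, yc)
        (face (orb (↑F) (st0 A y0) s)) :=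
      hR2.mono (by
        rintro e ⟨h0, h⟩
        refine ⟨dE_sub ha ?_ h0.1, h⟩
        rintro ⟨x, y, _ | _⟩ h
        · simp only [HkE', Finset.mem_union, mem_RE_false] at h ⊢; omega
        · simp only [HkE', Finset.mem_union, mem_RE_true] at h ⊢; omega)
    have e4 := orb_dreach (F := (↑F : Set Edg)) (W := ↑(Exm (↑F) (st0 A y0) T)) (σ := st0 A y0)
      (T := T) (fun s hs => by exact_mod_cast mem_Exm.mpr ⟨s, hs, rfl⟩) hs
    have e5 : DReach (↑(Bl X Y a) \ (↑F : Set Edg)) (face (orb (↑F) (st0 A y0) s)) (v1, v2) :=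
      e2.symm.trans (back _ _ e1).symm
    refine (e4.mono ?_).trans (e5.mono ?_)
    · rintro e ⟨h0, h⟩
      exact ⟨by simp only [Finset.coe_union]; exact Or.inl h0, h⟩
    · rintro e ⟨h0, h⟩
      exact ⟨by simp only [Finset.coe_union]; exact Or.inr h0, h⟩

end H984P
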