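import Pool.Agent.H984R3.Per.Defs

/-!
P5: gluing of the four crossings of a hook.
-/

namespace H984P

open H974 Finset H342P

theorem hook_det {X Y : ℤ} {a : ℕ} (ha : 1 ≤ a) {G : Finset Edg} (h : HookEv X Y a G) :
    ∃ yb yc x' : ℤ, (Y - 8 * a ≤ yb ∧ yb ≤ Y - 4 * a) ∧ (Y - 8 * a ≤ yc ∧ yc ≤ Y - 4 * a) ∧
      (X + 4 * a ≤ x' ∧ x' ≤ X + 8 * a) ∧
      Reach ((↑G : Set Edg) ∩ ↑(LS X Y a)) (X + 8 * a, yc) (X + 56 * a, yb) ∧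
      Reach ((↑G : Set Edg) ∩ ↑(HkE X Y a)) (X + 8 * a, yc) (x', Y + 1) := by
  have ha' : (1:ℤ) ≤ a := by exact_mod_cast ha
  obtain ⟨⟨⟨b, b', hb, hb', hB⟩, ⟨w, w', hw, hw', hW⟩⟩, ⟨⟨n, n', hn, hn', hN⟩,
    ⟨e, e', he, he', hE⟩⟩⟩ := h
  obtain ⟨yc, yb, k1, k2, k3, k4⟩ := sub_LR (a := X + 8 * a) (b := X + 56 * a) (c := Y - 8 * a)
    (d := Y - 4 * a) (by omega)
    (by rintro x y ⟨-, h⟩ _ _; simp only [mem_coe, mem_LRE_true] at h; omega)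
    (by rintro x y ⟨-, h⟩ _ _; simp only [mem_coe, mem_LRE_false] at h; omega) hB
    (by simp only; omega) le_rfl
  have t1 : (↑(LRE (X - 8 * a) (X + 56 * a) (Y - 8 * a) (Y - 4 * a)) : Set Edg) ⊆
      ↑(RE (X - 8 * a) (X + 56 * a) (Y - 8 * a) (Y - 4 * a)) := by exact_mod_cast LRE_subset_RE
  have t2 : (↑(TBE (X - 8 * a) (X - 4 * a) (Y - 8 * a) (Y + 8 * a)) : Set Edg) ⊆
      ↑(RE (X - 8 * a) (X - 4 * a) (Y - 8 * a) (Y + 8 * a)) := by exact_mod_cast TBE_subset_RE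
  have t3 : (↑(LRE (X - 8 * a) (X + 8 * a) (Y + 4 * a) (Y + 8 * a)) : Set Edg) ⊆
      ↑(RE (X - 8 * a) (X + 8 * a) (Y + 4 * a) (Y + 8 * a)) := by exact_mod_cast LRE_subset_RE
  have t4 : (↑(TBE (X + 4 * a) (X + 8 * a) (Y + 1) (Y + 8 * a)) : Set Edg) ⊆
      ↑(RE (X + 4 * a) (X + 8 * a) (Y + 1) (Y + 8 * a)) := by exact_mod_cast TBE_subset_RE
  have hH : ∀ e : Edg, e ∈ (↑(HkE X Y a) : Set Edg) ↔
      (e ∈ (↑(RE (X - 8 * a) (X + 56 * a) (Y - 8 * a) (Y - 4 * a)) : Set Edg) ∨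
        e ∈ (↑(RE (X - 8 * a) (X - 4 * a) (Y - 8 * a) (Y + 8 * a)) : Set Edg)) ∨
      (e ∈ (↑(RE (X - 8 * a) (X + 8 * a) (Y + 4 * a) (Y + 8 * a)) : Set Edg) ∨
        e ∈ (↑(RE (X + 4 * a) (X + 8 * a) (Y + 1) (Y + 8 * a)) : Set Edg)) := by
    intro e; simp only [HkE, Finset.mem_coe, Finset.mem_union]
  set F : Set Edg := ↑G ∩ ↑(HkE X Y a) with hF
  have hB' : Reach (F ∩ ↑(RE (X - 8 * a) (X + 56 * a) (Y - 8 * a) (Y - 4 * a)))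
      (X - 8 * a, b) (X + 56 * a, b') :=
    hB.mono (by rintro e ⟨h1, h2⟩; exact ⟨⟨h1, (hH e).mpr (Or.inl (Or.inl (t1 h2)))⟩, t1 h2⟩)
  have hW' : Reach (F ∩ ↑(RE (X - 8 * a) (X - 4 * a) (Y - 8 * a) (Y + 8 * a)))
      (w, Y - 8 * a) (w', Y + 8 * a) :=
    hW.mono (by rintro e ⟨h1, h2⟩; exact ⟨⟨h1, (hH e).mpr (Or.inl (Or.inr (t2 h2)))⟩, t2 h2⟩)
  have hN' : Reach (F ∩ ↑(RE (X - 8 * a) (X + 8 * a) (Y + 4 * a) (Y + 8 * a)))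
      (X - 8 * a, n) (X + 8 * a, n') :=
    hN.mono (by rintro e ⟨h1, h2⟩; exact ⟨⟨h1, (hH e).mpr (Or.inr (Or.inl (t3 h2)))⟩, t3 h2⟩)
  have hE' : Reach (F ∩ ↑(RE (X + 4 * a) (X + 8 * a) (Y + 1) (Y + 8 * a)))
      (e, Y + 1) (e', Y + 8 * a) :=
    hE.mono (by rintro e ⟨h1, h2⟩; exact ⟨⟨h1, (hH e).mpr (Or.inr (Or.inr (t4 h2)))⟩, t4 h2⟩)
  have m1 : Reach F (X - 8 * a, b) (w, Y - 8 * a) :=
    (cross_meet (A := X - 8 * a) (B := X + 56 * a) (C := Y - 8 * a) (D := Y + 8 * a) le_rfl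
      (by omega) (by omega) le_rfl (by omega) (by omega) hB' (by simp) (by simp only; omega)
      hW' (by simp) (by simp only; omega)).mono Set.inter_subset_left
  have m2 : Reach F (X - 8 * a, n) (w, Y - 8 * a) :=
    (cross_meet (A := X - 8 * a) (B := X + 8 * a) (C := Y - 8 * a) (D := Y + 8 * a) le_rfl
      (by omega) (by omega) (by omega) (by omega) le_rfl hN' (by simp) (by simp only; omega)
      hW' (by simp only; omega) (by simp)).mono Set.inter_subset_left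
  have m3 : Reach F (X - 8 * a, n) (e, Y + 1) :=
    (cross_meet (A := X - 8 * a) (B := X + 8 * a) (C := Y + 1) (D := Y + 8 * a) (by omega)
      (by omega) le_rfl (by omega) (by omega) le_rfl hN' (by simp only; omega) (by simp)
      hE' (by simp only; omega) (by simp)).mono Set.inter_subset_left
  have m4 : Reach F (X - 8 * a, b) (X + 8 * a, yc) :=
    k4.mono (by rintro e ⟨h1, h2⟩; exact ⟨h1, (hH e).mpr (Or.inl (Or.inl (t1 h2)))⟩)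
  refine ⟨yb, yc, e, k2, k1, he, k3.mono ?_, ?_⟩
  · rintro e ⟨⟨h1, -⟩, h2⟩; exact ⟨h1, h2⟩
  · exact m4.symm.trans (m1.trans (m2.symm.trans m3))

theorem hook_det' {X Y : ℤ} {a : ℕ} (ha : 1 ≤ a) {G : Finset Edg} (h : HookEv' X Y a G) :
    ∃ yb yc x' : ℤ, (Y + 4 * a ≤ yb ∧ yb ≤ Y + 8 * a) ∧ (Y + 4 * a ≤ yc ∧ yc ≤ Y + 8 * a) ∧
      (X + 4 * a ≤ x' ∧ x' ≤ X + 8 * a) ∧
      Reach ((↑G : Set Edg) ∩ ↑(US X Y a)) (X + 8 * a, yc) (X + 56 * a, yb) ∧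
      Reach ((↑G : Set Edg) ∩ ↑(HkE' X Y a)) (X + 8 * a, yc) (x', Y - 1) := by
  have ha' : (1:ℤ) ≤ a := by exact_mod_cast ha
  obtain ⟨⟨⟨b, b', hb, hb', hB⟩, ⟨w, w', hw, hw', hW⟩⟩, ⟨⟨n, n', hn, hn', hN⟩,
    ⟨e, e', he, he', hE⟩⟩⟩ := h
  obtain ⟨yc, yb, k1, k2, k3, k4⟩ := sub_LR (a := X + 8 * a) (b := X + 56 * a) (c := Y + 4 * a)
    (d := Y + 8 * a) (by omega)
    (by rintro x y ⟨-, h⟩ _ _; simp only [mem_coe, mem_LRE_true] at h; omega)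
    (by rintro x y ⟨-, h⟩ _ _; simp only [mem_coe, mem_LRE_false] at h; omega) hB
    (by simp only; omega) le_rfl
  have t1 : (↑(LRE (X - 8 * a) (X + 56 * a) (Y + 4 * a) (Y + 8 * a)) : Set Edg) ⊆
      ↑(RE (X - 8 * a) (X + 56 * a) (Y + 4 * a) (Y + 8 * a)) := by exact_mod_cast LRE_subset_RE
  have t2 : (↑(TBE (X - 8 * a) (X - 4 * a) (Y - 8 * a) (Y + 8 * a)) : Set Edg) ⊆
      ↑(RE (X - 8 * a) (X - 4 * a) (Y - 8 * a) (Y + 8 * a)) := by exact_mod_cast TBE_subset_RE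
  have t3 : (↑(LRE (X - 8 * a) (X + 8 * a) (Y - 8 * a) (Y - 4 * a)) : Set Edg) ⊆
      ↑(RE (X - 8 * a) (X + 8 * a) (Y - 8 * a) (Y - 4 * a)) := by exact_mod_cast LRE_subset_RE
  have t4 : (↑(TBE (X + 4 * a) (X + 8 * a) (Y - 8 * a) (Y - 1)) : Set Edg) ⊆
      ↑(RE (X + 4 * a) (X + 8 * a) (Y - 8 * a) (Y - 1)) := by exact_mod_cast TBE_subset_RE
  have hH : ∀ e : Edg, e ∈ (↑(HkE' X Y a) : Set Edg) ↔
      (e ∈ (↑(RE (X - 8 * a) (X + 56 * a) (Y + 4 * a) (Y + 8 * a)) : Set Edg) ∨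
        e ∈ (↑(RE (X - 8 * a) (X - 4 * a) (Y - 8 * a) (Y + 8 * a)) : Set Edg)) ∨
      (e ∈ (↑(RE (X - 8 * a) (X + 8 * a) (Y - 8 * a) (Y - 4 * a)) : Set Edg) ∨
        e ∈ (↑(RE (X + 4 * a) (X + 8 * a) (Y - 8 * a) (Y - 1)) : Set Edg)) := by
    intro e; simp only [HkE', Finset.mem_coe, Finset.mem_union]
  set F : Set Edg := ↑G ∩ ↑(HkE' X Y a) with hF
  have hB' : Reach (F ∩ ↑(RE (X - 8 * a) (X + 56 * a) (Y + 4 * a) (Y + 8 * a)))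
      (X - 8 * a, b) (X + 56 * a, b') :=
    hB.mono (by rintro e ⟨h1, h2⟩; exact ⟨⟨h1, (hH e).mpr (Or.inl (Or.inl (t1 h2)))⟩, t1 h2⟩)
  have hW' : Reach (F ∩ ↑(RE (X - 8 * a) (X - 4 * a) (Y - 8 * a) (Y + 8 * a)))
      (w, Y - 8 * a) (w', Y + 8 * a) :=
    hW.mono (by rintro e ⟨h1, h2⟩; exact ⟨⟨h1, (hH e).mpr (Or.inl (Or.inr (t2 h2)))⟩, t2 h2⟩)
  have hN' : Reach (F ∩ ↑(RE (X - 8 * a) (X + 8 * a) (Y - 8 * a) (Y - 4 * a)))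
      (X - 8 * a, n) (X + 8 * a, n') :=
    hN.mono (by rintro e ⟨h1, h2⟩; exact ⟨⟨h1, (hH e).mpr (Or.inr (Or.inl (t3 h2)))⟩, t3 h2⟩)
  have hE' : Reach (F ∩ ↑(RE (X + 4 * a) (X + 8 * a) (Y - 8 * a) (Y - 1)))
      (e, Y - 8 * a) (e', Y - 1) :=
    hE.mono (by rintro e ⟨h1, h2⟩; exact ⟨⟨h1, (hH e).mpr (Or.inr (Or.inr (t4 h2)))⟩, t4 h2⟩)
  have m1 : Reach F (X - 8 * a, b) (w, Y - 8 * a) :=
    (cross_meet (A := X - 8 * a) (B := X + 56 * a) (C := Y - 8 * a) (D := Y + 8 * a) le_rfl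
      (by omega) (by omega) (by omega) (by omega) le_rfl hB' (by simp) (by simp only; omega)
      hW' (by simp only; omega) (by simp)).mono Set.inter_subset_left
  have m2 : Reach F (X - 8 * a, n) (w, Y - 8 * a) :=
    (cross_meet (A := X - 8 * a) (B := X + 8 * a) (C := Y - 8 * a) (D := Y + 8 * a) le_rfl
      (by omega) (by omega) le_rfl (by omega) (by omega) hN' (by simp) (by simp only; omega)
      hW' (by simp) (by simp only; omega)).mono Set.inter_subset_left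
  have m3 : Reach F (X - 8 * a, n) (e, Y - 8 * a) :=
    (cross_meet (A := X - 8 * a) (B := X + 8 * a) (C := Y - 8 * a) (D := Y - 1) (by omega)
      (by omega) le_rfl le_rfl (by omega) (by omega) hN' (by simp only; omega) (by simp)
      hE' (by simp) (by simp only; omega)).mono Set.inter_subset_left
  have m4 : Reach F (X - 8 * a, b) (X + 8 * a, yc) :=
    k4.mono (by rintro e ⟨h1, h2⟩; exact ⟨h1, (hH e).mpr (Or.inl (Or.inl (t1 h2)))⟩)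
  refine ⟨yb, yc, e', k2, k1, he', k3.mono ?_, ?_⟩
  · rintro e ⟨⟨h1, -⟩, h2⟩; exact ⟨h1, h2⟩
  · exact m4.symm.trans (m1.trans (m2.symm.trans (m3.trans
      (hE'.mono Set.inter_subset_left))))

end H984P
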