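import Pool.Agent.H984R3.Per.Attach
import Pool.Agent.H984R3.Per.Hook
import Pool.Agent.H984R3.Per.Basic

/-!
P6: a hook around the tip is attached to the strand.
-/

namespace H984P

open H974 Finset H342P

theorem hke_pos {A X Y : ℤ} {a : ℕ} (ha : 1 ≤ a) (hA : A ≤ X - 9 * a) {e : Edg}
    (he : e ∈ HkE X Y a) : A ≤ e.1 ∧ ¬ (X ≤ e.1 ∧ e.2.1 = Y) := by
  have ha' : (1 : ℤ) ≤ a := by exact_mod_cast ha
  unfold HkE at he
  obtain ⟨x, y, _ | _⟩ := e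
  · simp only [Finset.mem_union, mem_RE_false] at he ⊢
    omega
  · simp only [Finset.mem_union, mem_RE_true] at he ⊢
    omega

theorem hke_pos' {A X Y : ℤ} {a : ℕ} (ha : 1 ≤ a) (hA : A ≤ X - 9 * a) {e : Edg}
    (he : dl e ∈ HkE' X Y a) : A ≤ e.1 ∧ ¬ (X ≤ e.1 ∧ e.2.1 = Y) := by
  have ha' : (1 : ℤ) ≤ a := by exact_mod_cast ha
  unfold HkE' at he
  obtain ⟨x, y, _ | _⟩ := e
  · simp only [dl_f, Finset.mem_union, mem_RE_true] at he ⊢
    omega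
  · simp only [dl_t, Finset.mem_union, mem_RE_false] at he ⊢
    omega

theorem low_side {F : Set Edg} {A y0 X Y : ℤ} {T a : ℕ} {hv hf : Vtx → ZMod 2} (ha : 1 ≤ a)
    (hst : Strand F A y0 X Y T) (hS : Side F A y0 X Y T hv hf) (hA : A ≤ X - 9 * a)
    {G : Finset Edg} (hG : HookEv X Y a G) :
    LEv X Y a {v | ∃ s ≤ T, (orb F (st0 A y0) s).1 = v} (Tlow F A y0 X Y T a hv) ↑G := by
  have ha' : (1 : ℤ) ≤ a := by exact_mod_cast ha
  obtain ⟨yb, yc, x', hyb, hyc, hx', h1, h2⟩ := hook_det ha hG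
  refine ⟨yb, yc, hyb, hyc, h1, ?_⟩
  obtain ⟨c, hc, hr⟩ := first_attach src tgt (G := (↑G : Set Edg) ∩ ↑(HkE X Y a))
    (Ex := (↑(Exm F (st0 A y0) T) : Set Edg)) (P := fun v => hv v = 0)
    (L := {v | ∃ s ≤ T, (orb F (st0 A y0) s).1 = v}) h2
    ((hS.rightv _ _ (by omega)).2 (by omega))
    (fun h => by have := (hS.rightv _ _ (by omega)).1 h; omega)
    (fun e he hex => by
      have hp := hke_pos ha hA (Finset.mem_coe.1 he.2)
      have := hS.free e (fun h => hex (Finset.mem_coe.2 h)) hp.1 hp.2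
      simp only [this.1])
    (fun e he hex => hS.exv e (Finset.mem_coe.1 hex))
  refine ⟨c, hc, Reach.mono ?_ (reach_GR.2 hr)⟩
  rintro e ⟨he, hex, hp1, hp2⟩
  exact ⟨he.1, Finset.mem_coe.1 he.2, fun h => hex (Finset.mem_coe.2 h), hp1, hp2⟩

theorem dmp_sub {S G T : Finset Edg} :
    (↑(dmp (S \ G)) : Set Edg) ∩ ↑T ⊆ dl '' (dE T \ ↑G) := by
  rintro e ⟨he1, he2⟩
  rw [coe_dmp] at he1
  obtain ⟨e', he', rfl⟩ := he1
  rw [Finset.coe_sdiff] at he'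
  exact ⟨e', ⟨Finset.mem_coe.1 he2, he'.2⟩, rfl⟩

theorem up_side {F : Set Edg} {A y0 X Y : ℤ} {T a : ℕ} {hv hf : Vtx → ZMod 2} (ha : 1 ≤ a)
    (hst : Strand F A y0 X Y T) (hS : Side F A y0 X Y T hv hf) (hA : A ≤ X - 9 * a)
    {S G : Finset Edg} (hG : HookEv' X Y a (dmp (S \ G))) :
    UEv X Y a {f | ∃ s ≤ T, face (orb F (st0 A y0) s) = f} (Tup F A y0 X Y T a hf) ↑G := by
  have ha' : (1 : ℤ) ≤ a := by exact_mod_cast ha
  obtain ⟨yb, yc, x', hyb, hyc, hx', h1, h2⟩ := hook_det' ha hG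
  refine ⟨yb, yc, hyb, hyc, reach_dl.1 (h1.mono dmp_sub), ?_⟩
  have h3 := reach_dl.1 (h2.mono dmp_sub)
  obtain ⟨c, hc, hr⟩ := first_attach dsrc dtgt (G := dE (HkE' X Y a) \ (↑G : Set Edg))
    (Ex := (↑(Exm F (st0 A y0) T) : Set Edg)) (P := fun v => hf v = 1)
    (L := {f | ∃ s ≤ T, face (orb F (st0 A y0) s) = f}) (dreach_GR.1 h3)
    ((hS.rightf _ _ (by omega)).2 (by omega))
    (fun h => by have := (hS.rightf _ _ (by omega)).1 h; omega)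
    (fun e he hex => by
      have hp := hke_pos' ha hA he.1
      have := hS.free e (fun h => hex (Finset.mem_coe.2 h)) hp.1 hp.2
      simp only [this.2.1])
    (fun e he hex => hS.exf e (Finset.mem_coe.1 hex))
  refine ⟨c, hc, DReach.mono ?_ (dreach_GR.2 hr)⟩
  rintro e ⟨he, hex, hp1, hp2⟩
  exact ⟨⟨he.1, fun h => hex (Finset.mem_coe.2 h), hp1, hp2⟩, he.2⟩

end H984P
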