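import Pool.Agent.H984R3.Per.Defs

/-!
P8: signed Harris inequality.
-/

namespace H984P

open H974 Finset H342P

theorem sh_decr {E : Type*} [DecidableEq E] {p : E → ℝ} (hp : Ok p) {S : Finset E}
    {f g : Finset E → ℝ} (hf : ∀ A B, A ⊆ B → B ⊆ S → f B ≤ f A)
    (hg : ∀ A B, A ⊆ B → B ⊆ S → g B ≤ g A) :
    Ex p S f * Ex p S g ≤ Ex p S (fun F => f F * g F) := by
  have h := harris hp (S := S) (f := fun F => 1 - f F) (g := fun F => 1 - g F)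
    (fun A B h1 h2 => by have := hf A B h1 h2; linarith)
    (fun A B h1 h2 => by have := hg A B h1 h2; linarith)
  have e1 : Ex p S (fun F => 1 - f F) = 1 - Ex p S f := by rw [Ex_sub, Ex_const]
  have e2 : Ex p S (fun F => 1 - g F) = 1 - Ex p S g := by rw [Ex_sub, Ex_const]
  have e3 : Ex p S (fun F => (1 - f F) * (1 - g F)) =
      1 - Ex p S f - Ex p S g + Ex p S (fun F => f F * g F) := by
    have : Ex p S (fun F => (1 - f F) * (1 - g F)) =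
        Ex p S (fun F => ((1 - f F) - g F) + f F * g F) := Ex_congr fun F _ => by ring
    rw [this, Ex_add, Ex_sub, Ex_sub, Ex_const]
  rw [e1, e2, e3] at h
  nlinarith [h]

theorem harris_signed {E : Type*} [DecidableEq E] {p : E → ℝ} (hp : Ok p) {S T₁ T₂ : Finset E}
    (h1 : T₁ ⊆ S) (h2 : T₂ ⊆ S) (hd : Disjoint T₁ T₂) {N f g : Finset E → Prop}
    (hf : ∀ F, F ⊆ S → (f F ↔ f (F ∩ T₁))) (hfi : ∀ F G : Finset E, F ⊆ G → f F → f G)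
    (hg : ∀ F, F ⊆ S → (g F ↔ g (F ∩ T₂))) (hgd : ∀ F G : Finset E, F ⊆ G → g G → g F)
    (hN : ∀ F G : Finset E, F ⊆ S → G ⊆ S → F \ (T₁ ∪ T₂) = G \ (T₁ ∪ T₂) →
      F ∩ T₁ ⊆ G ∩ T₁ → G ∩ T₂ ⊆ F ∩ T₂ → N F → N G) :
    Pr p S N * (Pr p S f * Pr p S g) ≤ Pr p S (fun F => N F ∧ (f F ∧ g F)) := by
  set S0 : Finset E := S \ (T₁ ∪ T₂) with hS0
  have hS : S = (S0 ∪ T₁) ∪ T₂ := by
    rw [hS0, Finset.union_assoc, Finset.sdiff_union_of_subset (Finset.union_subset h1 h2)]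
  have d01 : Disjoint S0 T₁ := by
    rw [hS0, Finset.disjoint_left]
    intro x hx hx1
    exact (Finset.mem_sdiff.mp hx).2 (Finset.mem_union_left _ hx1)
  have d02 : Disjoint (S0 ∪ T₁) T₂ := by
    rw [Finset.disjoint_union_left]
    refine ⟨?_, hd⟩
    rw [hS0, Finset.disjoint_left]
    intro x hx hx1
    exact (Finset.mem_sdiff.mp hx).2 (Finset.mem_union_right _ hx1)
  have hdec : ∀ h : Finset E → ℝ, Ex p S h =
      Ex p S0 (fun F0 => Ex p T₁ (fun F1 => Ex p T₂ (fun F2 => h ((F0 ∪ F1) ∪ F2)))) := by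
    intro h
    conv_lhs => rw [hS]
    rw [Ex_union d02, Ex_union d01]
  -- intersections
  have hs0 : S0 ⊆ S := Finset.sdiff_subset
  have i1 : ∀ F0 F1 F2 : Finset E, F0 ⊆ S0 → F1 ⊆ T₁ → F2 ⊆ T₂ → ((F0 ∪ F1) ∪ F2) ∩ T₁ = F1 := by
    intro F0 F1 F2 a0 a1 a2
    ext x
    simp only [Finset.mem_inter, Finset.mem_union]
    constructor
    · rintro ⟨(h | h) | h, hx⟩
      · exact absurd hx (Finset.disjoint_left.mp d01 (a0 h))
      · exact h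
      · exact absurd (a2 h) (Finset.disjoint_left.mp hd hx)
    · intro h
      exact ⟨Or.inl (Or.inr h), a1 h⟩
  have i2 : ∀ F0 F1 F2 : Finset E, F0 ⊆ S0 → F1 ⊆ T₁ → F2 ⊆ T₂ → ((F0 ∪ F1) ∪ F2) ∩ T₂ = F2 := by
    intro F0 F1 F2 a0 a1 a2
    ext x
    simp only [Finset.mem_inter, Finset.mem_union]
    constructor
    · rintro ⟨(h | h) | h, hx⟩
      · exact absurd hx (Finset.disjoint_left.mp d02 (Finset.mem_union_left _ (a0 h)))
      · exact absurd hx (Finset.disjoint_left.mp hd (a1 h))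
      · exact h
    · intro h
      exact ⟨Or.inr h, a2 h⟩
  have i0 : ∀ F0 F1 F2 : Finset E, F0 ⊆ S0 → F1 ⊆ T₁ → F2 ⊆ T₂ →
      ((F0 ∪ F1) ∪ F2) \ (T₁ ∪ T₂) = F0 := by
    intro F0 F1 F2 a0 a1 a2
    ext x
    simp only [Finset.mem_sdiff, Finset.mem_union]
    constructor
    · rintro ⟨(h | h) | h, hx⟩
      · exact h
      · exact absurd (Or.inl (a1 h)) hx
      · exact absurd (Or.inr (a2 h)) hx
    · intro h
      refine ⟨Or.inl (Or.inl h), ?_⟩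
      have := (Finset.mem_sdiff.mp (a0 h)).2
      rwa [Finset.mem_union] at this
  have hsub : ∀ F0 F1 F2 : Finset E, F0 ⊆ S0 → F1 ⊆ T₁ → F2 ⊆ T₂ → (F0 ∪ F1) ∪ F2 ⊆ S :=
    fun F0 F1 F2 a0 a1 a2 =>
      Finset.union_subset (Finset.union_subset (a0.trans hs0) (a1.trans h1)) (a2.trans h2)
  have hff : ∀ F0 F1 F2 : Finset E, F0 ⊆ S0 → F1 ⊆ T₁ → F2 ⊆ T₂ →
      (f ((F0 ∪ F1) ∪ F2) ↔ f F1) := by
    intro F0 F1 F2 a0 a1 a2
    rw [hf _ (hsub F0 F1 F2 a0 a1 a2), i1 F0 F1 F2 a0 a1 a2]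
  have hgg : ∀ F0 F1 F2 : Finset E, F0 ⊆ S0 → F1 ⊆ T₁ → F2 ⊆ T₂ →
      (g ((F0 ∪ F1) ∪ F2) ↔ g F2) := by
    intro F0 F1 F2 a0 a1 a2
    rw [hg _ (hsub F0 F1 F2 a0 a1 a2), i2 F0 F1 F2 a0 a1 a2]
  have hNN : ∀ F0 F1 F2 G1 G2 : Finset E, F0 ⊆ S0 → F1 ⊆ T₁ → F2 ⊆ T₂ → G1 ⊆ T₁ → G2 ⊆ T₂ →
      F1 ⊆ G1 → G2 ⊆ F2 → N ((F0 ∪ F1) ∪ F2) → N ((F0 ∪ G1) ∪ G2) := by
    intro F0 F1 F2 G1 G2 a0 a1 a2 b1 b2 c1 c2
    apply hN _ _ (hsub _ _ _ a0 a1 a2) (hsub _ _ _ a0 b1 b2)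
    · rw [i0 _ _ _ a0 a1 a2, i0 _ _ _ a0 b1 b2]
    · rw [i1 _ _ _ a0 a1 a2, i1 _ _ _ a0 b1 b2]
      exact c1
    · rw [i2 _ _ _ a0 a1 a2, i2 _ _ _ a0 b1 b2]
      exact c2
  -- probabilities of f and g
  have pf : Pr p S f = Ex p T₁ (fun F1 => ind (f F1)) := Pr_local h1 hf
  have pg : Pr p S g = Ex p T₂ (fun F2 => ind (g F2)) := Pr_local h2 hg
  have pf0 : 0 ≤ Pr p S f := Pr_nonneg hp _ _
  have pg0 : 0 ≤ Pr p S g := Pr_nonneg hp _ _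
  set n : Finset E → Finset E → Finset E → ℝ := fun F0 F1 F2 => ind (N ((F0 ∪ F1) ∪ F2)) with hn
  have pN : Pr p S N = Ex p S0 (fun F0 => Ex p T₁ (fun F1 => Ex p T₂ (fun F2 => n F0 F1 F2))) :=
    hdec _
  have pA : Pr p S (fun F => N F ∧ (f F ∧ g F)) = Ex p S0 (fun F0 => Ex p T₁ (fun F1 =>
      ind (f F1) * Ex p T₂ (fun F2 => n F0 F1 F2 * ind (g F2)))) := by
    unfold Pr
    rw [hdec]
    refine Ex_congr fun F0 a0 => Ex_congr fun F1 a1 => ?_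
    rw [← Ex_mul_left]
    refine Ex_congr fun F2 a2 => ?_
    rw [ind_and, ind_and, ind_congr (hff F0 F1 F2 a0 a1 a2), ind_congr (hgg F0 F1 F2 a0 a1 a2)]
    ring
  rw [pA, pN, ← Ex_mul_right]
  refine Ex_mono hp fun F0 a0 => ?_
  -- fixed F0
  have stepA : ∀ F1, F1 ⊆ T₁ → Ex p T₂ (fun F2 => n F0 F1 F2) * Pr p S g ≤
      Ex p T₂ (fun F2 => n F0 F1 F2 * ind (g F2)) := by
    intro F1 a1
    rw [pg]
    apply sh_decr hp
    · intro A B hAB hB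
      apply ind_mono
      exact hNN F0 F1 B F1 A a0 a1 hB a1 (hAB.trans hB) (Finset.Subset.refl _) hAB
    · intro A B hAB _
      exact ind_mono (hgd A B hAB)
  have stepB : Ex p T₁ (fun F1 => ind (f F1)) * Ex p T₁ (fun F1 => Ex p T₂ (fun F2 => n F0 F1 F2)) ≤
      Ex p T₁ (fun F1 => ind (f F1) * Ex p T₂ (fun F2 => n F0 F1 F2)) := by
    apply harris hp
    · intro A B hAB _
      exact ind_mono (hfi A B hAB)
    · intro A B hAB hB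
      refine Ex_mono hp fun F2 a2 => ind_mono ?_
      exact hNN F0 A F2 B F2 a0 (hAB.trans hB) a2 hB a2 hAB (Finset.Subset.refl _)
  calc Ex p T₁ (fun F1 => Ex p T₂ (fun F2 => n F0 F1 F2)) * (Pr p S f * Pr p S g)
      = (Ex p T₁ (fun F1 => ind (f F1)) *
          Ex p T₁ (fun F1 => Ex p T₂ (fun F2 => n F0 F1 F2))) * Pr p S g := by
        rw [pf]; ring
    _ ≤ Ex p T₁ (fun F1 => ind (f F1) * Ex p T₂ (fun F2 => n F0 F1 F2)) * Pr p S g :=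
        mul_le_mul_of_nonneg_right stepB pg0
    _ = Ex p T₁ (fun F1 => ind (f F1) * (Ex p T₂ (fun F2 => n F0 F1 F2) * Pr p S g)) := by
        rw [← Ex_mul_right]
        exact Ex_congr fun F1 _ => by ring
    _ ≤ Ex p T₁ (fun F1 => ind (f F1) * Ex p T₂ (fun F2 => n F0 F1 F2 * ind (g F2))) := by
        refine Ex_mono hp fun F1 a1 => ?_
        exact mul_le_mul_of_nonneg_left (stepA F1 a1) (ind_nonneg _)

end H984P
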