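import Pool.Agent.H984R3.Per.SideL
import Pool.Agent.H984R3.Per.LowSide
import Pool.Agent.H984R3.Per.HookPr
import Pool.Agent.H984R3.Per.SHarris
import Pool.Agent.H984R3.Per.Count

/-!
P9b: probability of success of a trial.
-/

namespace H984P

open H974 Finset H342P

namespace Tr760

theorem HkE_sub {X Y : ℤ} {a : ℕ} (ha : 1 ≤ a) : HkE X Y a ⊆ Bl X Y a := by
  have ha' : (1 : ℤ) ≤ a := by exact_mod_cast ha
  rintro ⟨x, y, _ | _⟩ h
  · simp only [HkE, Finset.mem_union, mem_RE_false] at h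
    simp only [Bl, mem_RE_false]
    omega
  · simp only [HkE, Finset.mem_union, mem_RE_true] at h
    simp only [Bl, mem_RE_true]
    omega

theorem dHk_sub {X Y : ℤ} {a : ℕ} (ha : 1 ≤ a) {e : Edg} (h : dl e ∈ HkE' X Y a) :
    e ∈ Bl X Y a := by
  have ha' : (1 : ℤ) ≤ a := by exact_mod_cast ha
  obtain ⟨x, y, _ | _⟩ := e
  · simp only [HkE', dl_f, Finset.mem_union, mem_RE_true] at h
    simp only [Bl, mem_RE_false]
    omega
  · simp only [HkE', dl_t, Finset.mem_union, mem_RE_false] at h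
    simp only [Bl, mem_RE_true]
    omega

theorem HkE_ge {X Y : ℤ} {a : ℕ} {e : Edg} (h : e ∈ HkE X Y a) : X - 8 * a ≤ e.1 := by
  obtain ⟨x, y, _ | _⟩ := e
  · simp only [HkE, Finset.mem_union, mem_RE_false] at h
    simp only
    omega
  · simp only [HkE, Finset.mem_union, mem_RE_true] at h
    simp only
    omega

theorem NB_sub {X Y : ℤ} {a : ℕ} : NB (X + 32 * a, Y) a ⊆ Bl X Y a := by
  rintro ⟨x, y, _ | _⟩ h
  · simp only [NB, mem_RE_false] at h
    simp only [Bl, mem_RE_false]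
    omega
  · simp only [NB, mem_RE_true] at h
    simp only [Bl, mem_RE_true]
    omega

theorem NB_ge {X Y : ℤ} {a : ℕ} {e : Edg} (h : e ∈ NB (X + 32 * a, Y) a) : X ≤ e.1 := by
  obtain ⟨x, y, _ | _⟩ := e
  · simp only [NB, mem_RE_false] at h
    simp only
    omega
  · simp only [NB, mem_RE_true] at h
    simp only
    omega

theorem LS_sub {X Y : ℤ} {a : ℕ} : LS X Y a ⊆ HkE X Y a := by
  rintro ⟨x, y, _ | _⟩ h
  · simp only [LS, mem_LRE_false] at h
    simp only [HkE, Finset.mem_union, mem_RE_false]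
    omega
  · simp only [LS, mem_LRE_true] at h
    simp only [HkE, Finset.mem_union, mem_RE_true]
    omega

theorem LS_loc {X Y : ℤ} {a : ℕ} {e : Edg} (h : e ∈ LS X Y a) :
    X ≤ (src e).1 ∧ (src e).2 ≤ Y ∧ X ≤ (tgt e).1 ∧ (tgt e).2 ≤ Y ∧ X ≤ e.1 := by
  obtain ⟨x, y, _ | _⟩ := e
  · simp only [LS, mem_LRE_false] at h
    simp only [src_mk, tgt_false]
    omega
  · simp only [LS, mem_LRE_true] at h
    simp only [src_mk, tgt_true]
    omega

theorem US_sub {X Y : ℤ} {a : ℕ} : US X Y a ⊆ HkE' X Y a := by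
  rintro ⟨x, y, _ | _⟩ h
  · simp only [US, mem_LRE_false] at h
    simp only [HkE', Finset.mem_union, mem_RE_false]
    omega
  · simp only [US, mem_LRE_true] at h
    simp only [HkE', Finset.mem_union, mem_RE_true]
    omega

theorem US_loc {X Y : ℤ} {a : ℕ} {e : Edg} (h : dl e ∈ US X Y a) :
    X ≤ (dsrc e).1 ∧ Y ≤ (dsrc e).2 ∧ X ≤ (dtgt e).1 ∧ Y ≤ (dtgt e).2 ∧ X ≤ e.1 := by
  obtain ⟨x, y, _ | _⟩ := e
  · simp only [US, dl_f, mem_LRE_true] at h
    simp only [dsrc_false, dtgt_mk]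
    omega
  · simp only [US, dl_t, mem_LRE_false] at h
    simp only [dsrc_true, dtgt_mk]
    omega

theorem ctr_bd {X Y : ℤ} {a : ℕ} {v : Vtx} (h : v ∈ ctr (X + 32 * a, Y) a) :
    X + 31 * a ≤ v.1 ∧ v.1 ≤ X + 33 * a ∧ Y - a ≤ v.2 ∧ v.2 ≤ Y + a := by
  simp only [ctr, Finset.mem_product, Finset.mem_Icc] at h
  omega

theorem PR_NB {X Y : ℤ} {a : ℕ} (ha : 1 ≤ a) {v : Vtx} (h : v ∈ ctr (X + 32 * a, Y) a) :
    PR v a ⊆ NB (X + 32 * a, Y) a := by
  have ha' : (1 : ℤ) ≤ a := by exact_mod_cast ha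
  have hv := ctr_bd h
  rintro ⟨x, y, _ | _⟩ h
  · simp only [PR, mem_RE_false] at h
    simp only [NB, mem_RE_false]
    omega
  · simp only [PR, mem_RE_true] at h
    simp only [NB, mem_RE_true]
    omega

theorem DR_NB {X Y : ℤ} {a : ℕ} (ha : 1 ≤ a) {v : Vtx} (h : v ∈ ctr (X + 32 * a, Y) a)
    {e : Edg} (he : dl e ∈ DR v a) : e ∈ NB (X + 32 * a, Y) a := by
  have ha' : (1 : ℤ) ≤ a := by exact_mod_cast ha
  have hv := ctr_bd h
  obtain ⟨x, y, _ | _⟩ := e
  · simp only [DR, dl_f, mem_RE_true] at he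
    simp only [NB, mem_RE_false]
    omega
  · simp only [DR, dl_t, mem_RE_false] at he
    simp only [NB, mem_RE_true]
    omega

theorem PR_Hk {X Y : ℤ} {a : ℕ} (ha : 1 ≤ a) {v : Vtx} (h : v ∈ ctr (X + 32 * a, Y) a)
    {e : Edg} (he : e ∈ PR v a) (h' : dl e ∈ HkE' X Y a) : False := by
  have ha' : (1 : ℤ) ≤ a := by exact_mod_cast ha
  have hv := ctr_bd h
  obtain ⟨x, y, _ | _⟩ := e
  · simp only [PR, mem_RE_false] at he
    simp only [HkE', dl_f, Finset.mem_union, mem_RE_true] at h'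
    omega
  · simp only [PR, mem_RE_true] at he
    simp only [HkE', dl_t, Finset.mem_union, mem_RE_false] at h'
    omega

theorem DR_Hk {X Y : ℤ} {a : ℕ} (ha : 1 ≤ a) {v : Vtx} (h : v ∈ ctr (X + 32 * a, Y) a)
    {e : Edg} (he : dl e ∈ DR v a) (h' : e ∈ HkE X Y a) : False := by
  have ha' : (1 : ℤ) ≤ a := by exact_mod_cast ha
  have hv := ctr_bd h
  obtain ⟨x, y, _ | _⟩ := e
  · simp only [DR, dl_f, mem_RE_true] at he
    simp only [HkE, Finset.mem_union, mem_RE_false] at h'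
    omega
  · simp only [DR, dl_t, mem_RE_false] at he
    simp only [HkE, Finset.mem_union, mem_RE_true] at h'
    omega

/-- `RA` is monotone. -/
theorem RA_mono {v : Vtx} {a : ℕ} {F G : Set Edg}
    (h1 : ∀ e ∈ PR v a, e ∈ F → e ∈ G) (h2 : ∀ e, dl e ∈ DR v a → e ∈ G → e ∈ F)
    (h : RA v a F) : RA v a G := by
  obtain ⟨⟨w, hw, hr⟩, g, hg, hd⟩ := h
  refine ⟨⟨w, hw, hr.mono ?_⟩, g, hg, hd.mono ?_⟩
  · rintro e ⟨he, he'⟩
    exact ⟨h1 e he' he, he'⟩
  · rintro e ⟨he, he'⟩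
    exact ⟨he, fun h => he' (h2 e he h)⟩

theorem nRA_mono {z : Vtx} {a : ℕ} {F G : Set Edg}
    (h : ∀ v ∈ ctr z a, RA v a F → RA v a G) : nRA z a F ≤ nRA z a G := by
  classical
  unfold nRA
  apply Finset.card_le_card
  intro v hv
  rw [Finset.mem_filter] at hv ⊢
  exact ⟨hv.1, h v hv.1 hv.2⟩

theorem LEv_mono {X Y : ℤ} {a : ℕ} {L : Set Vtx} {Tp F G : Set Edg}
    (h1 : ∀ e ∈ LS X Y a, e ∈ F → e ∈ G) (h2 : ∀ e ∈ Tp, e ∈ F → e ∈ G)
    (h : LEv X Y a L Tp F) : LEv X Y a L Tp G := by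
  obtain ⟨yb, yc, hb, hc, hr, c, hcL, hr'⟩ := h
  refine ⟨yb, yc, hb, hc, hr.mono ?_, c, hcL, hr'.mono ?_⟩
  · rintro e ⟨he, he'⟩
    exact ⟨h1 e he' he, he'⟩
  · rintro e ⟨he, he'⟩
    exact ⟨h2 e he' he, he'⟩

theorem UEv_mono {X Y : ℤ} {a : ℕ} {R : Set Vtx} {Tm F G : Set Edg}
    (h1 : ∀ e, dl e ∈ US X Y a → e ∈ G → e ∈ F) (h2 : ∀ e ∈ Tm, e ∈ G → e ∈ F)
    (h : UEv X Y a R Tm F) : UEv X Y a R Tm G := by
  obtain ⟨yb, yc, hb, hc, hr, c, hcL, hr'⟩ := h
  refine ⟨yb, yc, hb, hc, hr.mono ?_, c, hcL, hr'.mono ?_⟩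
  · rintro e ⟨he, he'⟩
    exact ⟨he, fun h => he' (h1 e he h)⟩
  · rintro e ⟨he, he'⟩
    exact ⟨he, fun h => he' (h2 e he h)⟩

theorem ok_half : Ok (fun _ : Edg => (1/2:ℝ)) := fun _ => ⟨by norm_num, by norm_num⟩

end Tr760

open Tr760 in
/-- The probability of success of a trial at the tip of a strand. -/
theorem trial : ∃ c : ℝ, 0 < c ∧ ∀ (S k F0 : Finset Edg) (A y0 X Y : ℤ) (T a M : ℕ),
    1 ≤ a → F0 ⊆ S → k ⊆ S → Strand (↑F0 : Set Edg) A y0 X Y T → A ≤ X - 9 * a →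
    Bl X Y a ⊆ S → ((A - 1, y0, true) : Edg) ∈ k → Exm (↑F0) (st0 A y0) T ⊆ k →
    (∀ e ∈ k, e ∈ Bl X Y a → e ∈ Exm (↑F0) (st0 A y0) T) →
    c * Pr (fun _ => (1/2:ℝ)) (NB (X + 32 * a, Y) a)
        (fun G => M ≤ nRA (X + 32 * a, Y) a (↑G)) ≤
      Pr (fun _ => (1/2:ℝ)) (S \ k) (fun G => M ≤ cnt (st0 A y0)
        (↑(Exm (↑F0) (st0 A y0) T ∪ Bl X Y a)) (↑((F0 ∩ k) ∪ G)) (ctr (X + 32 * a, Y) a)) := by
  classical
  obtain ⟨c0, hc0, hpr⟩ := pr_hook
  refine ⟨c0 * c0, by positivity, ?_⟩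
  intro S k F0 A y0 X Y T a M ha hF0 hk hst hA hBl hent hEk hkE
  have ha' : (1 : ℤ) ≤ a := by exact_mod_cast ha
  obtain ⟨hv, hf, hS⟩ := side_exists hst
  -- edges of the block which are not examined are fresh
  have fresh : ∀ e, e ∈ Bl X Y a → e ∉ Exm (↑F0) (st0 A y0) T → e ∈ S \ k := by
    intro e he he'
    rw [Finset.mem_sdiff]
    exact ⟨hBl he, fun h => he' (hkE e h he)⟩
  have notEx : ∀ e : Edg, X ≤ e.1 → e ∉ Exm (↑F0) (st0 A y0) T := by
    intro e he h
    have := (exm_loc hst h).2.1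
    omega
  set D := S \ k with hD
  set TL := Tlow (↑F0) A y0 X Y T a hv with hTL
  set TU := Tup (↑F0) A y0 X Y T a hf with hTU
  have TL_D : ∀ e ∈ TL, e ∈ D := fun e he => fresh e (HkE_sub ha he.1) he.2.1
  have TU_D : ∀ e ∈ TU, e ∈ D := fun e he => fresh e (dHk_sub ha he.1) he.2.1
  have LS_TL : ∀ e ∈ LS X Y a, e ∈ TL := by
    intro e he
    obtain ⟨h1, h2, h3, h4, h5⟩ := LS_loc he
    refine ⟨LS_sub he, notEx e h5, ?_, ?_⟩
    · exact (hS.rightv (src e).1 (src e).2 h1).2 h2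
    · exact (hS.rightv (tgt e).1 (tgt e).2 h3).2 h4
  have US_TU : ∀ e, dl e ∈ US X Y a → e ∈ TU := by
    intro e he
    obtain ⟨h1, h2, h3, h4, h5⟩ := US_loc he
    refine ⟨US_sub he, notEx e h5, ?_, ?_⟩
    · exact (hS.rightf (dsrc e).1 (dsrc e).2 h1).2 h2
    · exact (hS.rightf (dtgt e).1 (dtgt e).2 h3).2 h4
  set T1 := D.filter (fun e => e ∈ TL) with hT1
  set T2 := D.filter (fun e => e ∈ TU) with hT2
  have mT1 : ∀ e, e ∈ T1 ↔ e ∈ TL := by
    intro e
    rw [hT1, Finset.mem_filter]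
    exact ⟨fun h => h.2, fun h => ⟨TL_D e h, h⟩⟩
  have mT2 : ∀ e, e ∈ T2 ↔ e ∈ TU := by
    intro e
    rw [hT2, Finset.mem_filter]
    exact ⟨fun h => h.2, fun h => ⟨TU_D e h, h⟩⟩
  have hdisj : Disjoint T1 T2 := by
    rw [Finset.disjoint_left]
    intro e h1 h2
    rw [mT1] at h1
    rw [mT2] at h2
    obtain ⟨h1a, h1b, h1c, h1d⟩ := h1
    obtain ⟨h2a, h2b, h2c, h2d⟩ := h2
    have hAe : A ≤ e.1 := by
      have := HkE_ge h1a
      omega
    by_cases hray : X ≤ e.1 ∧ e.2.1 = Y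
    · obtain ⟨x, y, _ | _⟩ := e
      · simp only at hray
        rw [tgt_false] at h1d
        have := (hS.rightv x (y + 1) hray.1).1 h1d
        omega
      · simp only at hray
        rw [dsrc_true] at h2c
        have := (hS.rightf x (y - 1) hray.1).1 h2c
        omega
    · obtain ⟨_, _, h3⟩ := hS.free e h1b hAe hray
      rw [h1c, h2d] at h3
      exact absurd h3 (by decide)
  set Lst : Set Vtx := {v | ∃ s ≤ T, (orb (↑F0) (st0 A y0) s).1 = v} with hLst
  set Rst : Set Vtx := {f | ∃ s ≤ T, face (orb (↑F0) (st0 A y0) s) = f} with hRst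
  have key := harris_signed (p := fun _ : Edg => (1/2:ℝ)) ok_half (S := D) (T₁ := T1) (T₂ := T2)
    (Finset.filter_subset _ _) (Finset.filter_subset _ _) hdisj
    (N := fun G => M ≤ nRA (X + 32 * a, Y) a (↑G : Set Edg))
    (f := fun G => LEv X Y a Lst TL (↑G : Set Edg))
    (g := fun G => UEv X Y a Rst TU (↑G : Set Edg))
    (by
      intro F _
      constructor
      · apply LEv_mono
        · intro e he heF
          rw [Finset.mem_coe, Finset.mem_inter]
          exact ⟨heF, (mT1 e).2 (LS_TL e he)⟩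
        · intro e he heF
          rw [Finset.mem_coe, Finset.mem_inter]
          exact ⟨heF, (mT1 e).2 he⟩
      · apply LEv_mono
        · intro e _ heF
          rw [Finset.mem_coe, Finset.mem_inter] at heF
          exact heF.1
        · intro e _ heF
          rw [Finset.mem_coe, Finset.mem_inter] at heF
          exact heF.1)
    (by
      intro F G hFG
      apply LEv_mono
      · intro e _ heF
        exact hFG heF
      · intro e _ heF
        exact hFG heF)
    (by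
      intro F _
      constructor
      · apply UEv_mono
        · intro e _ heF
          rw [Finset.mem_coe, Finset.mem_inter] at heF
          exact heF.1
        · intro e _ heF
          rw [Finset.mem_coe, Finset.mem_inter] at heF
          exact heF.1
      · apply UEv_mono
        · intro e he heF
          rw [Finset.mem_coe, Finset.mem_inter]
          exact ⟨heF, (mT2 e).2 (US_TU e he)⟩
        · intro e he heF
          rw [Finset.mem_coe, Finset.mem_inter]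
          exact ⟨heF, (mT2 e).2 he⟩)
    (by
      intro F G hFG
      apply UEv_mono
      · intro e _ heF
        exact hFG heF
      · intro e _ heF
        exact hFG heF)
    (by
      intro F G hFD hGD hout h1 h2 hN
      refine hN.trans (nRA_mono ?_)
      intro v hv
      apply RA_mono
      · intro e he heF
        have hn2 : e ∉ T2 := fun h => PR_Hk ha hv he ((mT2 e).1 h).1
        by_cases hn1 : e ∈ T1
        · exact (Finset.mem_inter.1 (h1 (Finset.mem_inter.2 ⟨heF, hn1⟩))).1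
        · have : e ∈ F \ (T1 ∪ T2) := by
            rw [Finset.mem_sdiff, Finset.mem_union]
            exact ⟨heF, fun h => h.elim hn1 hn2⟩
          rw [hout, Finset.mem_sdiff] at this
          exact this.1
      · intro e he heG
        have hn1 : e ∉ T1 := fun h => DR_Hk ha hv he ((mT1 e).1 h).1
        by_cases hn2 : e ∈ T2
        · exact (Finset.mem_inter.1 (h2 (Finset.mem_inter.2 ⟨heG, hn2⟩))).1
        · have : e ∈ G \ (T1 ∪ T2) := by
            rw [Finset.mem_sdiff, Finset.mem_union]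
            exact ⟨heG, fun h => h.elim hn1 hn2⟩
          rw [← hout, Finset.mem_sdiff] at this
          exact this.1)
  have hDS : D ⊆ S := Finset.sdiff_subset
  -- lower bound for the first hook
  have hPf : c0 ≤ Pr (fun _ => (1/2:ℝ)) D (fun G => LEv X Y a Lst TL (↑G : Set Edg)) := by
    refine (hpr X Y a S ha hBl).1.trans ?_
    have e1 : Pr (fun _ => (1/2:ℝ)) D (fun G => LEv X Y a Lst TL (↑G : Set Edg)) =
        Pr (fun _ => (1/2:ℝ)) S (fun G => LEv X Y a Lst TL (↑(G ∩ D) : Set Edg)) := by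
      rw [Pr_local (S := S) (S' := D) hDS (A := fun G => LEv X Y a Lst TL (↑(G ∩ D) : Set Edg))
        (fun F _ => by rw [Finset.inter_assoc, Finset.inter_self])]
      apply Pr_congr
      intro F hF
      rw [Finset.inter_eq_left.2 hF]
    rw [e1]
    apply Pr_mono ok_half
    intro F hF hHk
    have h3 := low_side ha hst hS hA hHk
    refine LEv_mono ?_ ?_ h3
    · intro e he heF
      rw [Finset.mem_coe, Finset.mem_inter]
      exact ⟨heF, TL_D e (LS_TL e he)⟩
    · intro e he heF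
      rw [Finset.mem_coe, Finset.mem_inter]
      exact ⟨heF, TL_D e he⟩
  have hPg : c0 ≤ Pr (fun _ => (1/2:ℝ)) D (fun G => UEv X Y a Rst TU (↑G : Set Edg)) := by
    refine (hpr X Y a S ha hBl).2.trans ?_
    have e1 : Pr (fun _ => (1/2:ℝ)) D (fun G => UEv X Y a Rst TU (↑G : Set Edg)) =
        Pr (fun _ => (1/2:ℝ)) S (fun G => UEv X Y a Rst TU (↑(G ∩ D) : Set Edg)) := by
      rw [Pr_local (S := S) (S' := D) hDS (A := fun G => UEv X Y a Rst TU (↑(G ∩ D) : Set Edg))
        (fun F _ => by rw [Finset.inter_assoc, Finset.inter_self])]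
      apply Pr_congr
      intro F hF
      rw [Finset.inter_eq_left.2 hF]
    rw [e1]
    apply Pr_mono ok_half
    intro F hF hHk
    have h3 := up_side ha hst hS hA hHk
    refine UEv_mono ?_ ?_ h3
    · intro e _ heF
      rw [Finset.mem_coe, Finset.mem_inter] at heF
      exact heF.1
    · intro e _ heF
      rw [Finset.mem_coe, Finset.mem_inter] at heF
      exact heF.1
  -- locality of the number of separated arms
  have hNBD : NB (X + 32 * a, Y) a ⊆ D := by
    intro e he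
    exact fresh e (NB_sub he) (notEx e (NB_ge he))
  have hagree : ∀ F G : Finset Edg, (∀ e ∈ NB (X + 32 * a, Y) a, (e ∈ F ↔ e ∈ G)) →
      nRA (X + 32 * a, Y) a (↑F : Set Edg) = nRA (X + 32 * a, Y) a (↑G : Set Edg) := by
    intro F G h
    apply le_antisymm
    · apply nRA_mono
      intro v hv
      apply RA_mono
      · intro e he heF
        exact (h e (PR_NB ha hv he)).1 heF
      · intro e he heF
        exact (h e (DR_NB ha hv he)).2 heF
    · apply nRA_mono
      intro v hv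
      apply RA_mono
      · intro e he heF
        exact (h e (PR_NB ha hv he)).2 heF
      · intro e he heF
        exact (h e (DR_NB ha hv he)).1 heF
  have hPN : Pr (fun _ => (1/2:ℝ)) D (fun G => M ≤ nRA (X + 32 * a, Y) a (↑G : Set Edg)) =
      Pr (fun _ => (1/2:ℝ)) (NB (X + 32 * a, Y) a)
        (fun G => M ≤ nRA (X + 32 * a, Y) a (↑G : Set Edg)) := by
    apply Pr_local hNBD
    intro F _
    have : nRA (X + 32 * a, Y) a (↑F : Set Edg) =
        nRA (X + 32 * a, Y) a (↑(F ∩ NB (X + 32 * a, Y) a) : Set Edg) := by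
      apply hagree
      intro e he
      rw [Finset.mem_inter]
      exact ⟨fun h => ⟨h, he⟩, fun h => h.1⟩
    rw [this]
  rw [← hPN]
  have hNn := Pr_nonneg ok_half D (fun G => M ≤ nRA (X + 32 * a, Y) a (↑G : Set Edg))
  have step1 : c0 * c0 * Pr (fun _ => (1/2:ℝ)) D
        (fun G => M ≤ nRA (X + 32 * a, Y) a (↑G : Set Edg)) ≤
      Pr (fun _ => (1/2:ℝ)) D (fun G => M ≤ nRA (X + 32 * a, Y) a (↑G : Set Edg)) *
        (Pr (fun _ => (1/2:ℝ)) D (fun G => LEv X Y a Lst TL (↑G : Set Edg)) *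
          Pr (fun _ => (1/2:ℝ)) D (fun G => UEv X Y a Rst TU (↑G : Set Edg))) := by
    rw [mul_comm]
    apply mul_le_mul_of_nonneg_left _ hNn
    exact mul_le_mul hPf hPg hc0.le (hc0.le.trans hPf)
  refine step1.trans (key.trans ?_)
  apply Pr_mono ok_half
  rintro G hG ⟨hN, hL, hU⟩
  -- the configuration with the examined edges
  have hmem : ∀ e, e ∉ k → (e ∈ (F0 ∩ k) ∪ G ↔ e ∈ G) := by
    intro e he
    rw [Finset.mem_union, Finset.mem_inter]
    exact ⟨fun h => h.elim (fun h => absurd h.2 he) id, Or.inr⟩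
  have hmemk : ∀ e, e ∈ k → (e ∈ F0 ↔ e ∈ (F0 ∩ k) ∪ G) := by
    intro e he
    rw [Finset.mem_union, Finset.mem_inter]
    exact ⟨fun h => Or.inl ⟨h, he⟩, fun h => h.elim (fun h => h.1)
      (fun h => absurd he (Finset.mem_sdiff.1 (hG h)).2)⟩
  have hagr : ∀ e ∈ Exm (↑F0 : Set Edg) (st0 A y0) T,
      (e ∈ (↑F0 : Set Edg) ↔ e ∈ (↑((F0 ∩ k) ∪ G) : Set Edg)) := fun e he => hmemk e (hEk he)
  have hent' : ((A - 1, y0, true) : Edg) ∈ (↑((F0 ∩ k) ∪ G) : Set Edg) :=
    (hmemk _ hent).1 hst.ent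
  have hst' := strand_congr hst hagr hent'
  have hEx : Exm (↑((F0 ∩ k) ∪ G) : Set Edg) (st0 A y0) T = Exm (↑F0 : Set Edg) (st0 A y0) T :=
    Exm_congr hagr
  have hLs : {v | ∃ s ≤ T, (orb (↑((F0 ∩ k) ∪ G) : Set Edg) (st0 A y0) s).1 = v} = Lst := by
    ext v
    constructor
    · rintro ⟨s, hs, h⟩
      exact ⟨s, hs, by rw [← orb_congr hagr hs]; exact h⟩
    · rintro ⟨s, hs, h⟩
      exact ⟨s, hs, by rw [orb_congr hagr hs]; exact h⟩
  have hRs : {f | ∃ s ≤ T, face (orb (↑((F0 ∩ k) ∪ G) : Set Edg) (st0 A y0) s) = f} = Rst := by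
    ext v
    constructor
    · rintro ⟨s, hs, h⟩
      exact ⟨s, hs, by rw [← orb_congr hagr hs]; exact h⟩
    · rintro ⟨s, hs, h⟩
      exact ⟨s, hs, by rw [orb_congr hagr hs]; exact h⟩
  have hTLs : Tlow (↑((F0 ∩ k) ∪ G) : Set Edg) A y0 X Y T a hv = TL := by
    rw [hTL]
    unfold Tlow
    rw [hEx]
  have hTUs : Tup (↑((F0 ∩ k) ∪ G) : Set Edg) A y0 X Y T a hf = TU := by
    rw [hTU]
    unfold Tup
    rw [hEx]
  have notk : ∀ e ∈ D, e ∉ k := fun e he => (Finset.mem_sdiff.1 he).2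
  have hdc := det_count (F := (F0 ∩ k) ∪ G) (hv := hv) (hf := hf) ha hst'
    (by
      rw [hLs, hTLs]
      refine LEv_mono ?_ ?_ hL
      · intro e _ he
        exact Finset.mem_union_right _ he
      · intro e _ he
        exact Finset.mem_union_right _ he)
    (by
      rw [hRs, hTUs]
      refine UEv_mono ?_ ?_ hU
      · intro e he heF
        exact (hmem e (notk e (TU_D e (US_TU e he)))).1 heF
      · intro e he heF
        exact (hmem e (notk e (TU_D e he))).1 heF)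
  rw [hEx] at hdc
  refine le_trans ?_ hdc
  rw [hagree ((F0 ∩ k) ∪ G) G (fun e he => hmem e (notk e (hNBD he)))]
  exact hN

end H984P
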