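import Pool.Agent.H984R3.Per.LowSharp
import Pool.Agent.H984R3.Per.Layer2
import Pool.Agent.H984R3.Per.PerBig
import Pool.Agent.H984R3.Per.Trial
import Pool.Agent.H984R3.Per.Second
import Pool.Agent.H984R3.Per.FinalLow

/-!
S7: the lower half of the perimeter exponent, up to constants.
-/

namespace H984P

open H974 Finset H342P

theorem fs_div {n k : ℕ} (hk : 0 < k) (h : 2 * k ≤ n) :
    (n:ℝ) / (2 * k) ≤ ((n / k : ℕ) : ℝ) ∧ ((n / k : ℕ) : ℝ) ≤ (n:ℝ) / k := by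
  have hk0 : (0:ℝ) < k := by exact_mod_cast hk
  refine ⟨?_, Nat.cast_div_le⟩
  have h1 : n < k * (n / k + 1) := Nat.lt_mul_div_succ n hk
  have h2 : (n:ℝ) < k * (((n / k : ℕ) : ℝ) + 1) := by exact_mod_cast h1
  have h3 : (2:ℝ) * k ≤ n := by exact_mod_cast h
  rw [div_le_iff₀ (by positivity)]
  nlinarith

theorem fs_small1 (A B : ℝ) {δ : ℝ} (hδ : 0 < δ) :
    ∃ m : ℕ, (A * m + B) * (1/2:ℝ) ^ m ≤ δ := by
  have h1 := (tendsto_pow_const_mul_const_pow_of_abs_lt_one 1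
    (show |(1/2:ℝ)| < 1 by rw [abs_of_pos] <;> norm_num)).const_mul A
  have h2 := (tendsto_pow_const_mul_const_pow_of_abs_lt_one 0
    (show |(1/2:ℝ)| < 1 by rw [abs_of_pos] <;> norm_num)).const_mul B
  have h3 := h1.add h2
  rw [mul_zero, mul_zero, add_zero] at h3
  obtain ⟨m, hm⟩ := ((h3.eventually (ge_mem_nhds hδ)).exists)
  refine ⟨m, le_trans (le_of_eq ?_) hm⟩
  simp only [pow_one, pow_zero, one_mul]
  ring

theorem fs_small2 (A : ℝ) {q : ℝ} (hq0 : 0 ≤ q) (hq1 : q < 1) {δ : ℝ} (hδ : 0 < δ) :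
    ∃ K : ℕ, 1 ≤ K ∧ A * (K:ℝ) ^ 2 * q ^ K ≤ δ := by
  have h1 := (tendsto_pow_const_mul_const_pow_of_abs_lt_one 2
    (show |q| < 1 by rw [abs_of_nonneg hq0]; exact hq1)).const_mul A
  rw [mul_zero] at h1
  obtain ⟨K, hK, hK1⟩ := ((h1.eventually (ge_mem_nhds hδ)).and
    (Filter.eventually_ge_atTop 1)).exists
  refine ⟨K, hK1, le_trans (le_of_eq ?_) hK⟩
  ring

/-- The lower half, sharp form: the perimeter is at least `lam * n ^ (7/4)` with probability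
close to one. -/
theorem lower_sharp {c C : ℝ} (hc : 0 < c) (hC : 0 < C) (hL : LowA c (1/4))
    (hU : TwoUp C (1/4)) {δ : ℝ} (hδ : 0 < δ) :
    ∃ lam : ℝ, 0 < lam ∧ ∃ n0 : ℕ, ∀ n : ℕ, n0 ≤ n →
      Pr (fun _ => (1/2:ℝ)) (RE 0 n 0 n)
        (fun F => ∃ v, IsMax n (↑F) v ∧ (per n (↑F) v : ℝ) < lam * (n:ℝ) ^ (7/4 : ℝ)) ≤ δ := by
  have hok : Ok (fun _ : Edg => (1/2:ℝ)) := fun _ => ⟨by norm_num, by norm_num⟩
  obtain ⟨c₀, hc₀, htr⟩ := trial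
  obtain ⟨c₂, hc₂, hn⟩ := nra_prob (c := c) (C := C) (s := 1/4) (t := 1/4) hc hC (by norm_num)
    (by norm_num) (by norm_num) le_rfl hL hU
  set c₁ : ℝ := min c₀ 1 with hc₁
  have hc₁0 : 0 < c₁ := lt_min hc₀ one_pos
  have htr' : ∀ (S k F0 : Finset Edg) (A y0 X Y : ℤ) (T a M : ℕ),
    1 ≤ a → F0 ⊆ S → k ⊆ S → Strand (↑F0 : Set Edg) A y0 X Y T → A ≤ X - 9 * a →
    Bl X Y a ⊆ S → ((A - 1, y0, true) : Edg) ∈ k → Exm (↑F0) (st0 A y0) T ⊆ k →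
    (∀ e ∈ k, e ∈ Bl X Y a → e ∈ Exm (↑F0) (st0 A y0) T) →
    c₁ * Pr (fun _ => (1/2:ℝ)) (NB (X + 32 * a, Y) a)
        (fun G => M ≤ nRA (X + 32 * a, Y) a (↑G)) ≤
      Pr (fun _ => (1/2:ℝ)) (S \ k) (fun G => M ≤ cnt (st0 A y0)
        (↑(Exm (↑F0) (st0 A y0) T ∪ Bl X Y a)) (↑((F0 ∩ k) ∪ G)) (ctr (X + 32 * a, Y) a)) := by
    intro S k F0 A y0 X Y T a M h0 h1 h2 h3 h4 h5 h6 h7 h8
    refine le_trans ?_ (htr S k F0 A y0 X Y T a M h0 h1 h2 h3 h4 h5 h6 h7 h8)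
    exact mul_le_mul_of_nonneg_right (min_le_left _ _) (Pr_nonneg hok _ _)
  have hexp : ∀ a : ℕ, ((a:ℝ)) ^ (-(2 * (1/4:ℝ) - 2 * (1/4))) = 1 := by
    intro a
    rw [show (-(2 * (1/4:ℝ) - 2 * (1/4))) = 0 by norm_num, Real.rpow_zero]
  obtain ⟨δ0, hδ0⟩ : ∃ δ0 : ℝ, δ0 = c₁ * c₂ := ⟨_, rfl⟩
  have hδ0pos : 0 < δ0 := by rw [hδ0]; positivity
  have hδ01 : δ0 ≤ 1 := by
    have f1 := hn (0, 0) 1 le_rfl
    have f2 := Pr_le_one hok (NB (0, 0) 1)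
      (fun G => c₂ * ((1:ℕ):ℝ) ^ (2 - (1/4:ℝ)) ≤ (nRA (0, 0) 1 (↑G) : ℝ))
    rw [hexp 1, mul_one] at f1
    have f3 : c₁ ≤ 1 := min_le_right _ _
    calc δ0 = c₁ * c₂ := hδ0
      _ ≤ 1 * 1 := mul_le_mul f3 (f1.trans f2) (by positivity) zero_le_one
      _ = 1 := one_mul 1
  obtain ⟨C', hC', hlow⟩ := low_sharp
  have hδ3 : 0 < δ / 3 := by linarith
  -- the number of blocks for the diameter
  obtain ⟨K1', hK1'⟩ := exists_pow_lt_of_lt_one hδ3 (show (1/2:ℝ) < 1 by norm_num)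
  obtain ⟨K1, hK1⟩ : ∃ K1, K1 = K1' + 1 := ⟨_, rfl⟩
  have hK1pos : 0 < K1 := by omega
  have hK1d : (1/2:ℝ) ^ K1 ≤ δ / 3 := by
    rw [hK1, pow_succ]
    have : (0:ℝ) ≤ (1/2) ^ K1' := by positivity
    linarith
  -- the number of blocks for the layer
  obtain ⟨m', hm'⟩ := fs_small1 (384 * K1) (1536 * K1 + 8) hδ3
  obtain ⟨D, hD⟩ : ∃ D : ℕ, D = 48 * K1 * (m' + 4) := ⟨_, rfl⟩
  have hDpos : 0 < D := by rw [hD, hK1]; positivity
  obtain ⟨D2, hD2⟩ : ∃ D2 : ℕ, D2 = 1000 * D := ⟨_, rfl⟩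
  have hD2pos : 0 < D2 := by omega
  -- the number of trials
  obtain ⟨K, hKpos, hK⟩ := fs_small2 (C' * (9 * (D2:ℝ) ^ 2)) (q := 1 - δ0) (by linarith)
    (by linarith) hδ3
  have hD2R : (0:ℝ) < D2 := by exact_mod_cast hD2pos
  have hKR : (0:ℝ) < K := by exact_mod_cast hKpos
  have hDR : (0:ℝ) < D := by exact_mod_cast hDpos
  refine ⟨c₂ * (1 / (2 * (D2 * K))) ^ (7/4 : ℝ) / 8, by positivity,
    16 * K1 + 100 * D + 10 * (D2 * K), fun n hn0 => ?_⟩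
  have hnR : (16:ℝ) * K1 + 100 * D + 10 * (D2 * K) ≤ n := by exact_mod_cast hn0
  have hnpos : (0:ℝ) < n := by
    have : (0:ℝ) < 10 * (D2 * K) := by positivity
    have : (0:ℝ) ≤ 16 * K1 := by positivity
    linarith
  -- diameter
  obtain ⟨L, hL'⟩ : ∃ L : ℕ, L = n / (2 * K1) := ⟨_, rfl⟩
  obtain ⟨m, hm⟩ : ∃ m : ℕ, m = L / 3 := ⟨_, rfl⟩
  have hLn : 2 * K1 * L ≤ n := by rw [hL']; exact Nat.mul_div_le n (2 * K1)
  have hLn2 : n < 2 * K1 * (L + 1) := by rw [hL']; exact Nat.lt_mul_div_succ n (by omega)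
  have hm1 : 3 * m ≤ L := by rw [hm]; exact Nat.mul_div_le L 3
  have hm2 : L < 3 * (m + 1) := by rw [hm]; exact Nat.lt_mul_div_succ L (by omega)
  have hn16 : 16 * K1 ≤ n := by omega
  have hL8 : 8 ≤ L := by
    rw [hL', Nat.le_div_iff_mul_le (by omega)]
    omega
  have hKL : K1 * (L + 1) ≤ n + 1 := by nlinarith
  have hLnn : L ≤ n := by nlinarith
  have hnm : n ≤ 12 * K1 * m := by
    have : 2 * K1 * (L + 1) ≤ 2 * K1 * (3 * (m + 1)) := by gcongr; omega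
    nlinarith
  have hmR : (n:ℝ) ≤ 12 * K1 * m := by exact_mod_cast hnm
  have p1 := (pr_not_big (n := n) (L := L) (K := K1) (by omega) (m := (m:ℤ)) (by omega)
    (by exact_mod_cast hm1) hKL hLnn).trans hK1d
  -- layer
  obtain ⟨R1, hR1⟩ : ∃ R1 : ℕ, R1 = n / D := ⟨_, rfl⟩
  obtain ⟨hR1a, hR1b⟩ := fs_div hDpos (show 2 * D ≤ n by omega)
  rw [← hR1] at hR1a hR1b
  have hR1one : (1:ℤ) ≤ (R1:ℤ) := by
    have : 1 ≤ R1 := by
      rw [hR1, Nat.le_div_iff_mul_le hDpos]; omega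
    exact_mod_cast this
  have hR1R : (1:ℝ) ≤ R1 := by exact_mod_cast hR1one
  have hlayc : 2 * ((m' : ℤ) + 3) * ((R1:ℤ) + 1) + 4 * R1 ≤ (m:ℤ) := by
    have : ((2 * ((m' : ℤ) + 3) * ((R1:ℤ) + 1) + 4 * R1 : ℤ) : ℝ) ≤ ((m:ℤ):ℝ) := by
      push_cast
      have f1 : (R1:ℝ) * D ≤ n := by
        rw [le_div_iff₀ hDR] at hR1b; exact hR1b
      have f2 : (D:ℝ) = 48 * K1 * (m' + 4) := by rw [hD]; push_cast; ring
      rw [f2] at f1
      have f3 : (0:ℝ) < 12 * K1 := by positivity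
      have f4 : (12 * (K1:ℝ)) * ((R1:ℝ) * (4 * (m' + 4))) ≤ (12 * (K1:ℝ)) * m := by
        calc (12 * (K1:ℝ)) * ((R1:ℝ) * (4 * (m' + 4))) = (R1:ℝ) * (48 * K1 * (m' + 4)) := by ring
          _ ≤ n := f1
          _ ≤ _ := hmR
      have f5 : (R1:ℝ) * (4 * (m' + 4)) ≤ m := le_of_mul_le_mul_left f4 f3
      have f6 : (0:ℝ) ≤ m' := by positivity
      nlinarith
    exact_mod_cast this
  have p2 : Pr (fun _ => (1/2:ℝ)) (RE 0 n 0 n) (fun F => LayEv n (R1:ℤ) (m:ℤ) (↑F)) ≤ δ / 3 := by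
    refine (layer_prob2 hR1one hlayc).trans (le_trans ?_ hm')
    have f1 : (n:ℝ) / ((R1:ℤ):ℝ) ≤ 2 * D := by
      push_cast
      rw [div_le_iff₀ (by linarith)]
      rw [div_le_iff₀ (by positivity)] at hR1a
      linarith
    have f2 : (D:ℝ) = 48 * K1 * (m' + 4) := by rw [hD]; push_cast; ring
    have f3 : 4 * ((n:ℝ) / ((R1:ℤ):ℝ) + 2) ≤ 384 * K1 * m' + (1536 * K1 + 8) := by
      rw [f2] at f1
      calc 4 * ((n:ℝ) / ((R1:ℤ):ℝ) + 2) ≤ 4 * (2 * (48 * K1 * (m' + 4)) + 2) := by linarith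
        _ = _ := by ring
    exact mul_le_mul_of_nonneg_right f3 (by positivity)
  -- trials
  obtain ⟨a, ha⟩ : ∃ a : ℕ, a = n / (D2 * K) := ⟨_, rfl⟩
  have hDK : 0 < D2 * K := by positivity
  obtain ⟨haa, hab⟩ := fs_div hDK (show 2 * (D2 * K) ≤ n by omega)
  rw [← ha] at haa hab
  push_cast at haa hab
  have ha5 : 5 ≤ a := by
    rw [ha, Nat.le_div_iff_mul_le hDK]
    omega
  have haR : (5:ℝ) ≤ a := by exact_mod_cast ha5
  obtain ⟨R, hR⟩ : ∃ R : ℤ, R = 121 * a * K + a + 2 := ⟨_, rfl⟩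
  have haK : (a:ℝ) * (D2 * K) ≤ n := by
    rw [le_div_iff₀ (by positivity)] at hab; exact hab
  have hRR1 : 3 * R + 60 * a ≤ (R1:ℤ) := by
    have : ((3 * R + 60 * a : ℤ) : ℝ) ≤ ((R1:ℤ):ℝ) := by
      rw [hR]
      push_cast
      have f0 : (1:ℝ) ≤ K := by exact_mod_cast hKpos
      have f1 : (a:ℝ) ≤ a * K := by nlinarith
      have f2 : (a:ℝ) * K * (1000 * D) ≤ n := by
        have : (D2:ℝ) = 1000 * D := by rw [hD2]; push_cast; ring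
        rw [this] at haK
        linarith
      have f3 : (n:ℝ) ≤ R1 * (2 * D) := by
        rw [div_le_iff₀ (by positivity)] at hR1a; exact hR1a
      have f4 : (100:ℝ) * D ≤ n := by
        have : (0:ℝ) ≤ 16 * K1 := by positivity
        have : (0:ℝ) ≤ 10 * (D2 * K) := by positivity
        linarith
      have f5 : (a:ℝ) * K * 1000 ≤ R1 * 2 := by
        have : ((a:ℝ) * K * 1000) * D ≤ (R1 * 2) * D := by linarith
        exact le_of_mul_le_mul_right this hDR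
      have f6 : (50:ℝ) ≤ R1 := by
        have : (50:ℝ) * (2 * D) ≤ R1 * (2 * D) := by linarith
        exact le_of_mul_le_mul_right this (by positivity)
      nlinarith
    exact_mod_cast this
  have hRpos : (1:ℤ) ≤ R := by
    have : (0:ℤ) ≤ 121 * a * K := by positivity
    omega
  have hR1m : (R1:ℤ) < m := by
    have : (0:ℤ) ≤ (m':ℤ) * (R1 + 1) := by positivity
    nlinarith
  have h2Rm : 2 * R < (m:ℤ) := by omega
  obtain ⟨M, hM⟩ : ∃ M : ℕ, M = ⌈c₂ * (a:ℝ) ^ (2 - (1/4:ℝ))⌉₊ := ⟨_, rfl⟩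
  have hall : AllOk n a M δ0 := by
    rw [hM]
    refine fl_ok htr' hc₁0.le hn (by omega) ?_
    rw [hexp a, mul_one, hδ0]
  have p3 : Pr (fun _ => (1/2:ℝ)) (RE 0 n 0 n) (fun F => ∃ σ : St,
      inR (3 * R + 60 * a) (n - 3 * R - 60 * a) (3 * R + 60 * a) (n - 3 * R - 60 * a) σ.1 ∧
      (∃ t, Far σ.1 R (orb (↑F) σ t).1) ∧ nc4 σ (↑F) (Bx 0 0 n) < M) ≤ δ / 3 := by
    refine (hlow n a K M δ0 R ha5 hKpos hδ0pos.le hδ01 hall (le_of_eq hR.symm)).trans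
      (le_trans ?_ hK)
    have f1 : (n:ℝ) / a ≤ 2 * (D2 * K) := by
      rw [div_le_iff₀ (by linarith)]
      rw [div_le_iff₀ (by positivity)] at haa
      linarith
    have f2 : (1:ℝ) ≤ D2 * K := by exact_mod_cast hDK
    have f3 : ((n:ℝ) / a + 1) ^ 2 ≤ (3 * (D2 * K)) ^ 2 := by
      apply pow_le_pow_left₀ (by positivity)
      linarith
    have f4 : (0:ℝ) ≤ (1 - δ0) ^ K := pow_nonneg (by linarith) _
    calc C' * ((n:ℝ) / a + 1) ^ 2 * (1 - δ0) ^ K ≤ C' * (3 * (D2 * K)) ^ 2 * (1 - δ0) ^ K := by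
          gcongr
      _ = _ := by ring
  -- the number of pairs
  have hMn : c₂ * (1 / (2 * (D2 * K))) ^ (7/4 : ℝ) / 8 * (n:ℝ) ^ (7/4 : ℝ) ≤ (M : ℝ) / 8 := by
    have f1 : c₂ * (a:ℝ) ^ (2 - (1/4:ℝ)) ≤ (M : ℝ) := by rw [hM]; exact Nat.le_ceil _
    rw [show (2 - (1/4:ℝ)) = 7/4 by norm_num] at f1
    have f2 : ((1 / (2 * ((D2:ℝ) * K))) * n) ^ (7/4 : ℝ) ≤ (a:ℝ) ^ (7/4 : ℝ) := by
      apply Real.rpow_le_rpow (by positivity) _ (by norm_num)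
      refine le_trans (le_of_eq ?_) haa
      ring
    rw [Real.mul_rpow (by positivity) hnpos.le] at f2
    have f3 := mul_le_mul_of_nonneg_left f2 hc₂.le
    linarith
  -- union bound
  have hsum : δ = δ / 3 + δ / 3 + δ / 3 := by ring
  rw [hsum]
  refine le_trans ?_ (add_le_add (add_le_add p1 p2) p3)
  refine le_trans ?_ (add_le_add_left (Pr_or_le hok _ _ _) _)
  refine le_trans ?_ (Pr_or_le hok _ _ _)
  apply Pr_mono hok
  rintro F hF ⟨v, hv, hlt⟩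
  by_contra hcon
  rw [not_or, not_or, not_not] at hcon
  obtain ⟨⟨hbig, hlay⟩, hlow'⟩ := hcon
  have hper := per_big hF hbig hRpos hR1m h2Rm hlay (M := M) (by
    rintro ⟨σ, g1, g2, g3⟩
    apply hlow'
    refine ⟨σ, ?_, g2, g3⟩
    unfold inR at g1 ⊢
    omega) hv
  linarith

end H984P
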