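import Pool.Agent.H984R3.Per.SideL

/-!
Consequences of the two sides of a strand: injectivity of the start, number of steps.
-/

namespace H984P

open H974 Finset H342P

section
variable {F : Set Edg} {A y0 X Y : ℤ} {T : ℕ} {hv hf : Vtx → ZMod 2}

theorem hv_exm_open (hS : Side F A y0 X Y T hv hf) {e : Edg} (he : e ∈ Exm F (st0 A y0) T)
    (hF : e ∈ F) : hv (src e) = 0 ∧ hv (tgt e) = 0 := by
  obtain ⟨s, hs, rfl⟩ := mem_Exm.1 he
  have h1 := (hS.strand s hs.le).1
  have h2 := (hS.strand (s + 1) hs).1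
  rw [orb_succ, nxt_open hF] at h2
  rcases p2_ends (orb F (st0 A y0) s) with ⟨h3, h4⟩ | ⟨h3, h4⟩
  · rw [h3, h4]; exact ⟨h1, h2⟩
  · rw [h3, h4]; exact ⟨h2, h1⟩

theorem hf_exm_closed (hS : Side F A y0 X Y T hv hf) {e : Edg} (he : e ∈ Exm F (st0 A y0) T)
    (hF : e ∉ F) : hf (dsrc e) = 1 ∧ hf (dtgt e) = 1 := by
  obtain ⟨s, hs, rfl⟩ := mem_Exm.1 he
  have h1 := (hS.strand s hs.le).2
  have h2 := (hS.strand (s + 1) hs).2
  rw [orb_succ, nxt_closed hF] at h2
  rcases p2_dends (orb F (st0 A y0) s) with ⟨h3, h4⟩ | ⟨h3, h4⟩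
  · rw [h3, h4]; exact ⟨h1, h2⟩
  · rw [h3, h4]; exact ⟨h2, h1⟩

/-- Admissible edges: they do not cross the prolonged strand except at examined edges. -/
def Adm (F : Set Edg) (A y0 X Y : ℤ) (T : ℕ) : Set Edg :=
  {e | (A ≤ e.1 ∨ e ∈ Exm F (st0 A y0) T) ∧ ¬ (X ≤ e.1 ∧ e.2.1 = Y)}

theorem hv_open (hS : Side F A y0 X Y T hv hf) {e : Edg} (he : e ∈ F)
    (hA : e ∈ Adm F A y0 X Y T) : hv (src e) = hv (tgt e) := by
  by_cases h : e ∈ Exm F (st0 A y0) T
  · obtain ⟨h1, h2⟩ := hv_exm_open hS h he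
    rw [h1, h2]
  · rcases hA.1 with h1 | h1
    · exact (hS.free e h h1 hA.2).1
    · exact absurd h1 h

theorem hf_closed (hS : Side F A y0 X Y T hv hf) {e : Edg} (he : e ∉ F)
    (hA : e ∈ Adm F A y0 X Y T) : hf (dsrc e) = hf (dtgt e) := by
  by_cases h : e ∈ Exm F (st0 A y0) T
  · obtain ⟨h1, h2⟩ := hf_exm_closed hS h he
    rw [h1, h2]
  · rcases hA.1 with h1 | h1
    · exact (hS.free e h h1 hA.2).2.1
    · exact absurd h1 h

theorem hv_reach (hS : Side F A y0 X Y T hv hf) {W : Set Edg} (hW : W ⊆ Adm F A y0 X Y T)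
    {u v : Vtx} (h : Reach (F ∩ W) u v) : hv u = hv v := by
  induction h with
  | refl => rfl
  | tail _ hs ih =>
    obtain ⟨e, he, h⟩ := hs
    have h1 := hv_open hS he.1 (hW he.2)
    rcases h with ⟨h2, h3⟩ | ⟨h2, h3⟩
    · rw [ih, ← h2, ← h3, h1]
    · rw [ih, ← h2, ← h3, h1]

theorem hf_reach (hS : Side F A y0 X Y T hv hf) {W : Set Edg} (hW : W ⊆ Adm F A y0 X Y T)
    {u v : Vtx} (h : DReach (W \ F) u v) : hf u = hf v := by
  induction h with
  | refl => rfl
  | tail _ hs ih =>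
    obtain ⟨e, he, h⟩ := hs
    have h1 := hf_closed hS he.2 (hW he.1)
    rcases h with ⟨h2, h3⟩ | ⟨h2, h3⟩
    · rw [ih, ← h2, ← h3, h1]
    · rw [ih, ← h2, ← h3, h1]

end

theorem st0_fst (A y0 : ℤ) : (st0 A y0).1 = (A, y0) := rfl

theorem face_st0 (A y0 : ℤ) : face (st0 A y0) = (A - 1, y0) := rfl

/-- The number of pairs seen by a strand before its end is at most its number of steps. -/
theorem cnt_le_steps {F : Set Edg} {A y0 X Y : ℤ} {T : ℕ} (hst : Strand F A y0 X Y T)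
    {W : Set Edg} (hW : ∀ e ∈ W, (A ≤ e.1 ∨ e ∈ Exm F (st0 A y0) T) ∧ e.1 < X)
    {B : Finset Vtx} (hB : ∀ v ∈ B, A ≤ v.1 ∧ v.1 < X) : cnt (st0 A y0) W F B ≤ T := by
  classical
  obtain ⟨hv, hf, hS⟩ := side_exists hst
  have hWA : W ⊆ Adm F A y0 X Y T := by
    intro e he
    obtain ⟨h1, h2⟩ := hW e he
    exact ⟨h1, fun h3 => by omega⟩
  have h0 := hS.strand 0 (Nat.zero_le _)
  rw [orb_zero] at h0
  have key : (B.filter (fun v => Reach (F ∩ W) (st0 A y0).1 v ∧
      DReach (W \ F) (face (st0 A y0)) v)).image (fun v => ((v.1, v.2, true) : Edg)) ⊆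
      Exm F (st0 A y0) T := by
    intro e he
    rw [mem_image] at he
    obtain ⟨v, hvB, rfl⟩ := he
    rw [mem_filter] at hvB
    obtain ⟨hvb, h1, h2⟩ := hvB
    have e1 := hv_reach hS hWA h1
    have e2 := hf_reach hS hWA h2
    obtain ⟨b1, b2⟩ := hB v hvb
    by_contra hne
    have h3 := (hS.free (v.1, v.2, true) hne b1 (fun h4 => by
      have := h4.1
      simp only at this
      omega)).2.2
    simp only [src_mk, dtgt_mk] at h3
    have e3 : ((v.1, v.2) : Vtx) = v := rfl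
    rw [e3, ← e1, ← e2, h0.1, h0.2] at h3
    exact absurd h3 (by decide)
  have h4 := Finset.card_le_card key
  rw [Finset.card_image_of_injective _ (by
    intro u v h
    simp only [Prod.mk.injEq, and_true] at h
    exact Prod.ext h.1 h.2)] at h4
  have h5 : (Exm F (st0 A y0) T).card ≤ T := by
    unfold Exm
    refine Finset.card_image_le.trans ?_
    rw [Finset.card_range]
  unfold cnt
  convert h4.trans h5

theorem exm_open_loc {F : Set Edg} {A y0 X Y : ℤ} {T : ℕ} (hst : Strand F A y0 X Y T) {e : Edg}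
    (he : e ∈ Exm F (st0 A y0) T) (hF : e ∈ F) : A ≤ e.1 ∧ e.1 < X := by
  obtain ⟨h1, h2, -⟩ := exm_loc hst he
  refine ⟨?_, by omega⟩
  obtain ⟨s, hs, rfl⟩ := mem_Exm.1 he
  have hstay := hst.stay s hs
  have hnext : A ≤ (orb F (st0 A y0) (s + 1)).1.1 := by
    rcases Nat.lt_or_ge (s + 1) T with h | h
    · exact (hst.stay _ h).1
    · have : s + 1 = T := by omega
      rw [this, hst.tip]
      exact hst.lt.le
  rw [orb_succ, nxt_open hF] at hnext
  generalize orb F (st0 A y0) s = σ at *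
  obtain ⟨⟨x, y⟩, k⟩ := σ
  cases k <;> simp only [mv_ne, mv_nw, mv_sw, mv_se, ae_ne, ae_nw, ae_sw, ae_se] at * <;> omega

/-- Edges of the slab. -/
def slabE (A X : ℤ) : Set Edg := {e | A ≤ e.1 ∧ e.1 < X}

theorem slab_adm {F : Set Edg} {A y0 X Y : ℤ} {T : ℕ} : slabE A X ⊆ Adm F A y0 X Y T := by
  intro e he
  exact ⟨Or.inl he.1, fun h => by have := he.2; omega⟩

theorem strand_reach {F : Set Edg} {A y0 X Y : ℤ} {T : ℕ} (hst : Strand F A y0 X Y T) :
    Reach (F ∩ slabE A X) (A, y0) (X, Y) := by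
  have h := orb_reach (F := F) (W := ↑(Exm F (st0 A y0) T)) (σ := st0 A y0) (T := T)
    (fun s hs => Finset.mem_coe.2 (mem_Exm.2 ⟨s, hs, rfl⟩)) le_rfl
  rw [hst.tip] at h
  refine Reach.mono ?_ h
  rintro e ⟨h1, h2⟩
  exact ⟨h1, exm_open_loc hst (Finset.mem_coe.1 h2) h1⟩

theorem strand_inj {F : Set Edg} {A y0 y0' X Y Y' : ℤ} {T T' : ℕ} (h : Strand F A y0 X Y T)
    (h' : Strand F A y0' X Y' T') (hc : Reach (F ∩ slabE A X) (A, y0) (A, y0')) : y0 = y0' := by
  have tips : Reach (F ∩ slabE A X) (X, Y) (X, Y') :=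
    ((strand_reach h).symm.trans hc).trans (strand_reach h')
  have hY : Y' ≤ Y := by
    obtain ⟨hv, hf, hS⟩ := side_exists h
    have h1 := hv_reach hS slab_adm tips
    have h2 : hv (X, Y) = 0 := (hS.rightv X Y le_rfl).2 le_rfl
    rw [h2] at h1
    exact (hS.rightv X Y' le_rfl).1 h1.symm
  have hY' : Y ≤ Y' := by
    obtain ⟨hv, hf, hS⟩ := side_exists h'
    have h1 := hv_reach hS slab_adm tips.symm
    have h2 : hv (X, Y') = 0 := (hS.rightv X Y' le_rfl).2 le_rfl
    rw [h2] at h1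
    exact (hS.rightv X Y le_rfl).1 h1.symm
  have hYY : Y = Y' := le_antisymm hY' hY
  subst hYY
  -- backward uniqueness
  have main : ∀ {y1 y2 : ℤ} {T1 T2 : ℕ}, Strand F A y1 X Y T1 → Strand F A y2 X Y T2 →
      T1 ≤ T2 → y1 = y2 := by
    intro y1 y2 T1 T2 g1 g2 hle
    obtain ⟨d, rfl⟩ := Nat.exists_eq_add_of_le hle
    have e1 : orb F (orb F (st0 A y2) d) T1 = orb F (st0 A y1) T1 := by
      rw [← orb_add, g2.tip, g1.tip]
    have hinj : Function.Injective (fun σ => orb F σ T1) := (nxt_bij F).1.iterate T1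
    have e2 : orb F (st0 A y2) d = st0 A y1 := hinj e1
    cases d with
    | zero =>
      rw [orb_zero] at e2
      unfold st0 at e2
      simp only [Prod.mk.injEq, true_and, and_true] at e2
      exact e2.symm
    | succ d =>
      exfalso
      rw [orb_succ] at e2
      have e3 : nxt F ((A - 1, y1), .ne) = st0 A y1 := by
        rw [nxt_open (by simpa using g1.ent)]
        simp [st0]
      have e4 := (nxt_bij F).1 (e2.trans e3.symm)
      have h5 := (g2.stay d (by omega)).1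
      rw [e4] at h5
      simp only at h5
      omega
  rcases le_total T T' with hle | hle
  · exact main h h' hle
  · exact (main h' h hle).symm

end H984P
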