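import Pool.Agent.H984R3.Per.Iter
import Pool.Agent.H984R3.Per.Inj

/-!
Iteration of the trials along a strand, sharp form: the factor `Pr (Long' A y0 H a 1)` is kept;
a second form bounds the number of steps of a strand.
-/

namespace H984P

open H974 Finset H342P

section
variable {S : Finset Edg} {A y0 H : ℤ} {a K M : ℕ} {δ : ℝ}

theorem EE_bound (ha : 1 ≤ a) (hδ1 : δ ≤ 1) (hS : BB A y0 H a K ⊆ S)
    (htr : TrialOk S A y0 a M δ) : ∀ i : ℕ, i + 1 ≤ K →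
      Pr (fun _ => (1/2:ℝ)) S (fun F => EE A y0 H a M (i+1) (↑F)) ≤
        (1 - δ) ^ i * Pr (fun _ => (1/2:ℝ)) S (fun F => Long' A y0 H a 1 (↑F)) := by
  have hp : Ok (fun _ : Edg => (1/2:ℝ)) := fun _ => ⟨by norm_num, by norm_num⟩
  intro i
  induction i with
  | zero =>
    intro _
    rw [pow_zero, one_mul]
    apply Pr_mono hp
    intro F _ hE
    exact ⟨_, _, by simpa using hE.1.1, by simpa using hE.1.2⟩
  | succ i ih =>
    intro h1
    have h3 : 0 ≤ 1 - δ := by linarith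
    have h4 : Pr (fun _ => (1/2:ℝ)) S (fun F => EE A y0 H a M (i+1+1) (↑F)) ≤
        Pr (fun _ => (1/2:ℝ)) S (fun F => EE A y0 H a M (i+1) (↑F) ∧ Fl A y0 a M (i+1) (↑F)) := by
      refine Pr_mono hp fun F _ hE => ?_
      exact ⟨⟨(it_down ha (by omega) (by omega) hE.1).1, fun j hj hji => hE.2 j hj (by omega)⟩,
        hE.2 (i+1) (by omega) (by omega)⟩
    refine h4.trans ((it_step ha hS (by omega) (by omega) htr).trans ?_)
    calc (1 - δ) * _ ≤ (1 - δ) * ((1 - δ) ^ i *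
          Pr (fun _ => (1/2:ℝ)) S (fun F => Long' A y0 H a 1 (↑F))) :=
          mul_le_mul_of_nonneg_left (ih (by omega)) h3
      _ = _ := by ring

theorem iterate2 {B : Finset Vtx} (ha : 1 ≤ a)
    (hK : 1 ≤ K) (hδ1 : δ ≤ 1)
    (hS : RE (A - 60 * a) (A + 121 * a * K + 60 * a) (y0 - H - 60 * a) (y0 + H + 60 * a) ⊆ S)
    (hB : ∀ X Y, Bl X Y a ⊆ S → ctr (X + 32 * a, Y) a ⊆ B)
    (htr : TrialOk S A y0 a M δ) :
    Pr (fun _ => (1/2:ℝ)) S (fun F => Long' A y0 H a K (↑F) ∧ cntA (st0 A y0) (↑F) B < M) ≤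
      (1 - δ) ^ K * Pr (fun _ => (1/2:ℝ)) S (fun F => Long' A y0 H a 1 (↑F)) := by
  have hp : Ok (fun _ : Edg => (1/2:ℝ)) := fun _ => ⟨by norm_num, by norm_num⟩
  have hS' : BB A y0 H a K ⊆ S := hS
  obtain ⟨K', rfl⟩ : ∃ K', K = K' + 1 := ⟨K - 1, by omega⟩
  have h3 : 0 ≤ 1 - δ := by linarith
  have h5 : Pr (fun _ => (1/2:ℝ)) S
      (fun F => EE A y0 H a M (K'+1) (↑F) ∧ Fl A y0 a M (K'+1) (↑F)) ≤
      (1 - δ) ^ (K' + 1) * Pr (fun _ => (1/2:ℝ)) S (fun F => Long' A y0 H a 1 (↑F)) := by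
    refine (it_step ha hS' (by omega) le_rfl htr).trans ?_
    calc (1 - δ) * _ ≤ (1 - δ) * ((1 - δ) ^ K' *
          Pr (fun _ => (1/2:ℝ)) S (fun F => Long' A y0 H a 1 (↑F))) :=
          mul_le_mul_of_nonneg_left (EE_bound ha hδ1 hS' htr K' le_rfl) h3
      _ = _ := by ring
  refine le_trans (Pr_mono hp fun F _ hF => ?_) h5
  obtain ⟨hL, hcn⟩ := hF
  have hc := it_long hL
  have hfail : ∀ j, 1 ≤ j → j ≤ K' + 1 → Fl A y0 a M j (↑F) := by
    intro j hj hjK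
    have hcj := (it_down ha hj hjK hc).1
    have hb := (it_box (K := K' + 1) ha hj hjK hcj).2.2
    unfold Fl
    refine lt_of_le_of_lt ?_ hcn
    unfold cnt cntA
    apply Finset.card_le_card
    intro v hv
    simp only [Finset.mem_filter] at hv ⊢
    refine ⟨hB _ _ (hb.trans hS') hv.1, hv.2.1.mono Set.inter_subset_left, hv.2.2.mono ?_⟩
    intro e he
    exact he.2
  exact ⟨⟨hc, fun j hj hji => hfail j hj hji.le⟩, hfail (K' + 1) (by omega) le_rfl⟩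

/-- A strand over `K` slabs with fewer than `M` steps. -/
def Short (A y0 H : ℤ) (a K M : ℕ) (F : Set Edg) : Prop :=
  ∃ (Y : ℤ) (T : ℕ), Strand F A y0 (A + 121 * a * K) Y T ∧
    (∀ s ≤ T, |(orb F (st0 A y0) s).1.2 - y0| ≤ H) ∧ T < M

theorem iterate_steps (ha : 1 ≤ a) (hK : 1 ≤ K) (hδ1 : δ ≤ 1)
    (hS : RE (A - 60 * a) (A + 121 * a * K + 60 * a) (y0 - H - 60 * a) (y0 + H + 60 * a) ⊆ S)
    (htr : TrialOk S A y0 a M δ) :
    Pr (fun _ => (1/2:ℝ)) S (fun F => Short A y0 H a K M (↑F)) ≤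
      (1 - δ) ^ (K - 1) * Pr (fun _ => (1/2:ℝ)) S (fun F => Long' A y0 H a 1 (↑F)) := by
  have hp : Ok (fun _ : Edg => (1/2:ℝ)) := fun _ => ⟨by norm_num, by norm_num⟩
  have hS' : BB A y0 H a K ⊆ S := hS
  obtain ⟨K', rfl⟩ : ∃ K', K = K' + 1 := ⟨K - 1, by omega⟩
  rw [Nat.add_sub_cancel]
  refine le_trans (Pr_mono hp fun F _ hF => ?_) (EE_bound ha hδ1 hS' htr K' le_rfl)
  obtain ⟨Y, T, hst, hcf, hTM⟩ := hF
  have hc := it_long (i := K' + 1) ⟨Y, T, hst, hcf⟩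
  refine ⟨hc, fun j hj hji => ?_⟩
  obtain ⟨hcj, hTj⟩ := it_down ha hj hji.le hc
  obtain ⟨e1, e2⟩ := it_of_strand hst
  have ha' : (1:ℤ) ≤ a := by exact_mod_cast ha
  have hj' : (1:ℤ) ≤ j := by exact_mod_cast hj
  have hji' : (j:ℤ) + 1 ≤ (K' + 1 : ℕ) := by exact_mod_cast hji
  have h1 : (a:ℤ) ≤ a * j := by nlinarith
  have h2 : (a:ℤ) * j + a ≤ a * (K' + 1 : ℕ) := by nlinarith
  have h3 : 121 * (a:ℤ) * j = 121 * (a * j) := by ring
  have h4 : 121 * (a:ℤ) * (K' + 1 : ℕ) = 121 * (a * (K' + 1 : ℕ)) := by ring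
  unfold Fl
  refine lt_of_le_of_lt (cnt_le_steps hst ?_ ?_) hTM
  · intro e he
    rw [Finset.mem_coe, Finset.mem_union] at he
    rcases he with he | he
    · have h5 := exm_loc hcj.1 he
      refine ⟨Or.inr ?_, by omega⟩
      rw [e1] at hTj
      exact it_exm_mono hTj he
    · unfold Bl at he
      obtain ⟨x, y, β⟩ := e
      cases β
      · rw [mem_RE_false] at he
        simp only
        exact ⟨Or.inl (by omega), by omega⟩
      · rw [mem_RE_true] at he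
        simp only
        exact ⟨Or.inl (by omega), by omega⟩
  · intro v hv
    unfold ctr at hv
    simp only [mem_product, mem_Icc] at hv
    omega

end

end H984P
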