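import Pool.Agent.H984R3.Per.SCount
import Pool.Agent.H984R3.Per.ExitS2
import Pool.Agent.H984R3.Per.Iter2
import Pool.Agent.H984R3.Per.LowThm

/-!
S5: union bound with the expected number of strands.
-/

namespace H984P

open H974 Finset H342P

/-- Union bound over the lines `x = b + i a` and the starts on them. -/
theorem LS_sum {n a K : ℕ} {w C : ℝ} {R b c : ℤ} (hw : 0 ≤ w) (ha : 5 ≤ a) (hC : 0 < C)
    (hcount : ∀ (A X c : ℤ) (n a : ℕ) (S : Finset Edg), 5 ≤ a → A + 3 * a ≤ X →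
      ∑ y0 ∈ Finset.Icc c (c + n), Pr (fun _ => (1/2:ℝ)) S
        (fun F => ∃ (Y : ℤ) (T : ℕ), Strand (↑F) A y0 X Y T) ≤ C * ((n:ℝ) / a + 1))
    (Q : ℤ → ℤ → Finset Edg → Prop)
    (hQ : ∀ A y0, RE (A - 60 * a) (A + 121 * a * K + 60 * a) (y0 - 2 * R - 60 * a)
        (y0 + 2 * R + 60 * a) ⊆ RE b (b + n) c (c + n) →
      Pr (fun _ => (1/2:ℝ)) (RE b (b + n) c (c + n)) (Q A y0) ≤
        w * Pr (fun _ => (1/2:ℝ)) (RE b (b + n) c (c + n))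
          (fun F => Long' A y0 (2 * R) a 1 (↑F))) :
    Pr (fun _ => (1/2:ℝ)) (RE b (b + n) c (c + n)) (fun F => ∃ i ∈ Finset.range (n / a + 2),
      ∃ y0 ∈ Finset.Icc c (c + n),
      RE ((b + i * a) - 60 * a) ((b + i * a) + 121 * a * K + 60 * a) (y0 - 2 * R - 60 * a)
        (y0 + 2 * R + 60 * a) ⊆ RE b (b + n) c (c + n) ∧ Q (b + i * a) y0 F) ≤
      2 * C * ((n:ℝ) / a + 1) ^ 2 * w := by
  have hok2 : Ok (fun _ : Edg => (1/2:ℝ)) := okq (by norm_num) (by norm_num)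
  refine le_trans (Pr_exists_le hok2 _ (Finset.range (n / a + 2)) _) ?_
  have ha0 : (0:ℝ) < a := by
    have : 0 < a := by omega
    exact_mod_cast this
  have hna : (0:ℝ) ≤ (n:ℝ) / a := by positivity
  have h1 : ∀ i ∈ Finset.range (n / a + 2), Pr (fun _ => (1/2:ℝ)) (RE b (b + n) c (c + n))
      (fun F => ∃ y0 ∈ Finset.Icc c (c + n),
      RE ((b + i * a) - 60 * a) ((b + i * a) + 121 * a * K + 60 * a) (y0 - 2 * R - 60 * a)
        (y0 + 2 * R + 60 * a) ⊆ RE b (b + n) c (c + n) ∧ Q (b + i * a) y0 F) ≤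
      w * (C * ((n:ℝ) / a + 1)) := by
    intro i _
    refine le_trans (Pr_exists_le hok2 _ (Finset.Icc c (c + n)) _) ?_
    have h2 : ∀ y0 ∈ Finset.Icc c (c + n), Pr (fun _ => (1/2:ℝ)) (RE b (b + n) c (c + n))
        (fun F => RE ((b + i * a) - 60 * a) ((b + i * a) + 121 * a * K + 60 * a)
          (y0 - 2 * R - 60 * a) (y0 + 2 * R + 60 * a) ⊆ RE b (b + n) c (c + n) ∧
          Q (b + i * a) y0 F) ≤
        w * Pr (fun _ => (1/2:ℝ)) (RE b (b + n) c (c + n))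
          (fun F => ∃ (Y : ℤ) (T : ℕ),
            Strand (↑F) (b + i * a) y0 ((b + i * a) + 121 * a * (1:ℕ)) Y T) := by
      intro y0 _
      by_cases hS : RE ((b + i * a) - 60 * a) ((b + i * a) + 121 * a * K + 60 * a)
          (y0 - 2 * R - 60 * a) (y0 + 2 * R + 60 * a) ⊆ RE b (b + n) c (c + n)
      · refine le_trans (Pr_mono hok2 (B := Q (b + i * a) y0) (fun F _ h => h.2))
          ((hQ _ _ hS).trans ?_)
        refine mul_le_mul_of_nonneg_left (Pr_mono hok2 ?_) hw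
        rintro F _ ⟨Y, T, hst, _⟩
        exact ⟨Y, T, hst⟩
      · have h0 : Pr (fun _ => (1/2:ℝ)) (RE b (b + n) c (c + n))
            (fun F => RE ((b + i * a) - 60 * a) ((b + i * a) + 121 * a * K + 60 * a)
              (y0 - 2 * R - 60 * a) (y0 + 2 * R + 60 * a) ⊆ RE b (b + n) c (c + n) ∧
              Q (b + i * a) y0 F) = 0 := by
          unfold Pr
          rw [Ex_congr (g := fun _ => 0) (fun F _ => ind_not_of (fun h => hS h.1)), Ex_const]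
        rw [h0]
        exact mul_nonneg hw (Pr_nonneg hok2 _ _)
    refine le_trans (Finset.sum_le_sum h2) ?_
    rw [← Finset.mul_sum]
    refine mul_le_mul_of_nonneg_left ?_ hw
    apply hcount
    · exact ha
    · push_cast
      omega
  refine le_trans (Finset.sum_le_card_nsmul _ _ _ h1) ?_
  rw [nsmul_eq_mul, Finset.card_range]
  have h3 : ((n / a + 2 : ℕ) : ℝ) ≤ 2 * ((n:ℝ) / a + 1) := by
    push_cast
    have h4 : ((n / a : ℕ) : ℝ) ≤ (n:ℝ) / a := Nat.cast_div_le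
    linarith
  have h5 : 0 ≤ w * (C * ((n:ℝ) / a + 1)) := by positivity
  calc ((n / a + 2 : ℕ) : ℝ) * (w * (C * ((n:ℝ) / a + 1)))
      ≤ (2 * ((n:ℝ) / a + 1)) * (w * (C * ((n:ℝ) / a + 1))) :=
        mul_le_mul_of_nonneg_right h3 h5
    _ = 2 * C * ((n:ℝ) / a + 1) ^ 2 * w := by ring

/-- Reduction to the exits to the right, by rotations. -/
theorem LS_four {n : ℕ} {B : ℝ} {R : ℤ} (E : ℤ → ℤ → Finset Edg → Prop)
    (P : ℤ → ℤ → Finset Edg → St → ℕ → Prop)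
    (hE : ∀ b c : ℤ, Pr (fun _ => (1/2:ℝ)) (RE b (b + n) c (c + n)) (E b c) ≤ B)
    (hrot : ∀ b c F σ t, P b c F σ t → P (-c - n) b (rM F) (rS σ) t)
    (hdet : ∀ b c F σ t, P b c F σ t → (orb (↑F) σ t).1.1 = σ.1.1 + R → E b c F)
    (G : Finset Edg → Prop) (hG : ∀ F, G F → ∃ σ t, P 0 0 F σ t ∧
      ((orb (↑F) σ t).1.1 = σ.1.1 + R ∨ (orb (↑F) σ t).1.2 = σ.1.2 + R ∨
        (orb (↑F) σ t).1.1 = σ.1.1 - R ∨ (orb (↑F) σ t).1.2 = σ.1.2 - R)) :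
    Pr (fun _ => (1/2:ℝ)) (RE 0 n 0 n) G ≤ 4 * B := by
  have hok2 : Ok (fun _ : Edg => (1/2:ℝ)) := okq (by norm_num) (by norm_num)
  have b0 := hE 0 0
  have b1 := hE (-n) 0
  have b2 := hE (-n) (-n)
  have b3 := hE 0 (-n)
  simp only [zero_add, neg_add_cancel] at b0 b1 b2 b3
  have r1 : rM (RE 0 n 0 n) = RE (-n) 0 0 n := by
    rw [rot_RE, neg_zero]
  have r2 : rM (RE (-n) 0 0 n) = RE (-n) 0 (-n) 0 := by
    rw [rot_RE, neg_zero]
  have r3 : rM (RE (-n) 0 (-n) 0) = RE 0 n (-n) 0 := by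
    rw [rot_RE, neg_zero, neg_neg]
  have p1 : Pr (fun _ => (1/2:ℝ)) (RE 0 n 0 n) (fun F => E (-n) 0 (rM F)) ≤ B := by
    rw [← rot_pr, r1]
    exact b1
  have p2 : Pr (fun _ => (1/2:ℝ)) (RE 0 n 0 n) (fun F => E (-n) (-n) (rM (rM F))) ≤ B := by
    rw [← rot_pr (A := fun F => E (-n) (-n) (rM F)), r1, ← rot_pr, r2]
    exact b2
  have p3 : Pr (fun _ => (1/2:ℝ)) (RE 0 n 0 n) (fun F => E 0 (-n) (rM (rM (rM F)))) ≤ B := by
    rw [← rot_pr (A := fun F => E 0 (-n) (rM (rM F))), r1,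
      ← rot_pr (A := fun F => E 0 (-n) (rM F)), r2, ← rot_pr, r3]
    exact b3
  have key : Pr (fun _ => (1/2:ℝ)) (RE 0 n 0 n) G ≤
      Pr (fun _ => (1/2:ℝ)) (RE 0 n 0 n) (fun F => (E 0 0 F ∨ E (-n) 0 (rM F)) ∨
        (E (-n) (-n) (rM (rM F)) ∨ E 0 (-n) (rM (rM (rM F))))) := by
    apply Pr_mono hok2
    intro F _ hGF
    obtain ⟨σ, t, q0, hex⟩ := hG F hGF
    have q1 := hrot _ _ _ _ _ q0
    have q2 := hrot _ _ _ _ _ q1
    have q3 := hrot _ _ _ _ _ q2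
    simp only [neg_zero, zero_sub, neg_neg, sub_self] at q1 q2 q3
    rcases hex with h | h | h | h
    · exact Or.inl (Or.inl (hdet _ _ _ _ _ q0 h))
    · refine Or.inr (Or.inr (hdet _ _ _ _ _ q3 ?_))
      rw [rot_orb, rot_orb, rot_orb]
      simp only [rS, rV, Equiv.coe_fn_mk]
      omega
    · refine Or.inr (Or.inl (hdet _ _ _ _ _ q2 ?_))
      rw [rot_orb, rot_orb]
      simp only [rS, rV, Equiv.coe_fn_mk]
      omega
    · refine Or.inl (Or.inr (hdet _ _ _ _ _ q1 ?_))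
      rw [rot_orb]
      simp only [rS, rV, Equiv.coe_fn_mk]
      omega
  have u1 := Pr_or_le hok2 (RE 0 n 0 n) (fun F => E 0 0 F ∨ E (-n) 0 (rM F))
    (fun F => E (-n) (-n) (rM (rM F)) ∨ E 0 (-n) (rM (rM (rM F))))
  have u2 := Pr_or_le hok2 (RE 0 n 0 n) (fun F => E 0 0 F) (fun F => E (-n) 0 (rM F))
  have u3 := Pr_or_le hok2 (RE 0 n 0 n) (fun F => E (-n) (-n) (rM (rM F)))
    (fun F => E 0 (-n) (rM (rM (rM F))))
  have b0' : Pr (fun _ => (1/2:ℝ)) (RE 0 n 0 n) (fun F => E 0 0 F) ≤ B := b0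
  linarith

/-- The line to the right of a point. -/
theorem LS_line {n a : ℕ} (ha : 1 ≤ a) {b x : ℤ} (h1 : b ≤ x) (h2 : x ≤ b + n) :
    ∃ i ∈ Finset.range (n / a + 2), x < b + (i:ℤ) * a ∧ b + (i:ℤ) * a ≤ x + a := by
  obtain ⟨d, hd⟩ : ∃ d : ℕ, (d:ℤ) = x - b := ⟨(x - b).toNat, by omega⟩
  refine ⟨d / a + 1, ?_, ?_, ?_⟩
  · rw [Finset.mem_range]
    have h3 : d ≤ n := by omega
    have h4 := Nat.div_le_div_right (c := a) h3
    omega
  · have h3 := Nat.lt_div_mul_add (a := d) (b := a) (by omega)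
    have h4 : ((d / a + 1 : ℕ) : ℤ) * a = ((d / a * a + a : ℕ) : ℤ) := by push_cast; ring
    rw [h4]
    omega
  · have h3 := Nat.div_mul_le_self d a
    have h4 : ((d / a + 1 : ℕ) : ℤ) * a = ((d / a * a + a : ℕ) : ℤ) := by push_cast; ring
    rw [h4]
    omega

/-- The strand inside a sub-path which leaves its ball to the right, starting on a line. -/
theorem LS_det {n a K : ℕ} {R b c : ℤ} (ha : 1 ≤ a) (hK : 1 ≤ K)
    (hR : 121 * a * K + a + 2 ≤ R) {F : Finset Edg} {σ : St} {t : ℕ}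
    (hin : inR (b + 3 * R + 60 * a) (b + n - 3 * R - 60 * a) (c + 3 * R + 60 * a)
      (c + n - 3 * R - 60 * a) σ.1)
    (hf : ∀ s < t, ¬ Far σ.1 R (orb (↑F) σ s).1) (hx : (orb (↑F) σ t).1.1 = σ.1.1 + R) :
    ∃ i ∈ Finset.range (n / a + 2), ∃ y0 ∈ Finset.Icc c (c + n),
      RE ((b + i * a) - 60 * a) ((b + i * a) + 121 * a * K + 60 * a) (y0 - 2 * R - 60 * a)
        (y0 + 2 * R + 60 * a) ⊆ RE b (b + n) c (c + n) ∧
      ∃ (Y : ℤ) (T s0 : ℕ), orb (↑F) σ s0 = st0 (b + i * a) y0 ∧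
        Strand (↑F) (b + i * a) y0 ((b + i * a) + 121 * a * K) Y T ∧ s0 + T ≤ t ∧
        ∀ s ≤ T, |(orb (↑F) (st0 (b + i * a) y0) s).1.2 - y0| ≤ 2 * R := by
  have hK1 : (1:ℤ) ≤ K := by exact_mod_cast hK
  have ha1 : (1:ℤ) ≤ a := by exact_mod_cast ha
  have haK : (1:ℤ) ≤ a * K := by nlinarith
  have e1 : (121:ℤ) * a * K = 121 * (a * K) := by ring
  obtain ⟨P, hP⟩ : ∃ P : ℤ, P = (a:ℤ) * K := ⟨_, rfl⟩
  unfold inR at hin
  rw [e1, ← hP] at hR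
  rw [← hP] at haK
  obtain ⟨i, hi, hA1, hA2⟩ := LS_line (n := n) (a := a) ha (b := b) (x := σ.1.1) (by omega)
    (by omega)
  obtain ⟨A, hA⟩ : ∃ A : ℤ, A = b + (i:ℤ) * a := ⟨_, rfl⟩
  rw [← hA] at hA1 hA2
  obtain ⟨y0, Y, T, s0, hs0, hst, hT, hy⟩ := exit_strand2 (F := ↑F) (R := R) hf hx
    (A := A) (X := A + 121 * a * K) hA1 (by rw [e1, ← hP]; omega) (by rw [e1, ← hP]; omega)
  have hy0 := hy 0 (Nat.zero_le _)
  simp only [orb_zero, st0] at hy0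
  rw [abs_le] at hy0
  refine ⟨i, hi, y0, ?_, ?_, Y, T, s0, ?_⟩
  · rw [mem_Icc]
    omega
  · intro e he
    rw [← hA, e1, ← hP] at he
    obtain ⟨x, y, β⟩ := e
    cases β
    · rw [mem_RE_false] at he ⊢
      omega
    · rw [mem_RE_true] at he ⊢
      omega
  · rw [← hA]
    refine ⟨hs0, hst, hT, ?_⟩
    intro s hs
    have h1 := hy s hs
    rw [abs_le] at h1 ⊢
    omega

theorem low_sharp : ∃ C : ℝ, 0 < C ∧ ∀ (n a K M : ℕ) (δ : ℝ) (R : ℤ), 5 ≤ a → 1 ≤ K → 0 ≤ δ →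
    δ ≤ 1 → AllOk n a M δ → 121 * a * K + a + 2 ≤ R →
    Pr (fun _ => (1/2:ℝ)) (RE 0 n 0 n) (fun F => ∃ σ : St,
      inR (3 * R + 60 * a) (n - 3 * R - 60 * a) (3 * R + 60 * a) (n - 3 * R - 60 * a) σ.1 ∧
      (∃ t, Far σ.1 R (orb (↑F) σ t).1) ∧ nc4 σ (↑F) (Bx 0 0 n) < M) ≤
      C * ((n:ℝ) / a + 1) ^ 2 * (1 - δ) ^ K := by
  obtain ⟨C, hC, hcount⟩ := strand_count_sum
  refine ⟨8 * C, by positivity, ?_⟩
  intro n a K M δ R ha hK hδ0 hδ1 hok hR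
  have ha1 : 1 ≤ a := by omega
  have hw : 0 ≤ (1 - δ) ^ K := pow_nonneg (by linarith) _
  have hR1 : 1 ≤ R := by
    have : (0:ℤ) ≤ 121 * a * K := by positivity
    omega
  have h := LS_four (n := n) (B := 2 * C * ((n:ℝ) / a + 1) ^ 2 * (1 - δ) ^ K) (R := R)
    (E := fun b c F => ∃ i ∈ Finset.range (n / a + 2), ∃ y0 ∈ Finset.Icc c (c + n),
      RE ((b + i * a) - 60 * a) ((b + i * a) + 121 * a * K + 60 * a) (y0 - 2 * R - 60 * a)
        (y0 + 2 * R + 60 * a) ⊆ RE b (b + n) c (c + n) ∧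
      (Long' (b + i * a) y0 (2 * R) a K (↑F) ∧ cntA (st0 (b + i * a) y0) (↑F) (Bx b c n) < M))
    (P := fun b c F σ t => LT_P n a M R b c F σ t)
    (G := fun F => ∃ σ : St,
      inR (3 * R + 60 * a) (n - 3 * R - 60 * a) (3 * R + 60 * a) (n - 3 * R - 60 * a) σ.1 ∧
      (∃ t, Far σ.1 R (orb (↑F) σ t).1) ∧ nc4 σ (↑F) (Bx 0 0 n) < M) ?_ ?_ ?_ ?_
  · refine h.trans (le_of_eq ?_)
    ring
  · intro b c
    refine LS_sum (K := K) (R := R) hw ha hC hcount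
      (fun A y0 F => Long' A y0 (2 * R) a K (↑F) ∧ cntA (st0 A y0) (↑F) (Bx b c n) < M) ?_
    intro A y0 hS
    exact iterate2 (B := Bx b c n) (H := 2 * R) ha1 hK hδ1 hS (fun X Y h => LT_ctr ha1 h)
      (hok b c A y0)
  · intro b c F σ t hP
    exact LT_rot hP
  · intro b c F σ t hP hx
    obtain ⟨hin, hf, hM⟩ := hP
    obtain ⟨i, hi, y0, hy0, hS, Y, T, s0, hs0, hst, hT, hy⟩ := LS_det ha1 hK hR hin hf hx
    refine ⟨i, hi, y0, hy0, hS, ⟨Y, T, hst, hy⟩, ?_⟩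
    obtain ⟨h1, h2⟩ := LT_orb (F := ↑F) (σ := σ) s0
    rw [hs0] at h1 h2
    exact lt_of_le_of_lt (LT_cntA_le.trans (LT_nc4_le h1 h2)) hM
  · rintro F ⟨σ, hin, hfar, hM⟩
    obtain ⟨t, ht, hex⟩ := first_far hR1 hfar
    exact ⟨σ, t, ⟨by simpa using hin, ht, hM⟩, hex⟩

/-- Every sub-path of diameter `R` of every interface in the bulk has at least `M` steps. -/
theorem low_steps : ∃ C : ℝ, 0 < C ∧ ∀ (n a K M : ℕ) (δ : ℝ) (R : ℤ), 5 ≤ a → 1 ≤ K → 0 ≤ δ →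
    δ ≤ 1 → AllOk n a M δ → 121 * a * K + a + 2 ≤ R →
    Pr (fun _ => (1/2:ℝ)) (RE 0 n 0 n) (fun F => ∃ (σ : St) (t : ℕ),
      inR (3 * R + 60 * a) (n - 3 * R - 60 * a) (3 * R + 60 * a) (n - 3 * R - 60 * a) σ.1 ∧
      Far σ.1 R (orb (↑F) σ t).1 ∧ t < M) ≤
      C * ((n:ℝ) / a + 1) ^ 2 * (1 - δ) ^ (K - 1) := by
  obtain ⟨C, hC, hcount⟩ := strand_count_sum
  refine ⟨8 * C, by positivity, ?_⟩
  intro n a K M δ R ha hK hδ0 hδ1 hok hR
  have ha1 : 1 ≤ a := by omega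
  have hw : 0 ≤ (1 - δ) ^ (K - 1) := pow_nonneg (by linarith) _
  have hR1 : 1 ≤ R := by
    have : (0:ℤ) ≤ 121 * a * K := by positivity
    omega
  have h := LS_four (n := n) (B := 2 * C * ((n:ℝ) / a + 1) ^ 2 * (1 - δ) ^ (K - 1)) (R := R)
    (E := fun b c F => ∃ i ∈ Finset.range (n / a + 2), ∃ y0 ∈ Finset.Icc c (c + n),
      RE ((b + i * a) - 60 * a) ((b + i * a) + 121 * a * K + 60 * a) (y0 - 2 * R - 60 * a)
        (y0 + 2 * R + 60 * a) ⊆ RE b (b + n) c (c + n) ∧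
      Short (b + i * a) y0 (2 * R) a K M (↑F))
    (P := fun b c F σ t => inR (b + 3 * R + 60 * a) (b + n - 3 * R - 60 * a) (c + 3 * R + 60 * a)
      (c + n - 3 * R - 60 * a) σ.1 ∧
      (∀ s < t, ¬ Far σ.1 R (orb (↑F) σ s).1) ∧ t < M)
    (G := fun F => ∃ (σ : St) (t : ℕ),
      inR (3 * R + 60 * a) (n - 3 * R - 60 * a) (3 * R + 60 * a) (n - 3 * R - 60 * a) σ.1 ∧
      Far σ.1 R (orb (↑F) σ t).1 ∧ t < M) ?_ ?_ ?_ ?_
  · refine h.trans (le_of_eq ?_)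
    ring
  · intro b c
    refine LS_sum (K := K) (R := R) hw ha hC hcount
      (fun A y0 F => Short A y0 (2 * R) a K M (↑F)) ?_
    intro A y0 hS
    exact iterate_steps (H := 2 * R) ha1 hK hδ1 hS (hok b c A y0)
  · rintro b c F σ t ⟨h1, h2, h3⟩
    refine ⟨?_, ?_, h3⟩
    · simp only [inR, rS, rV, Equiv.coe_fn_mk] at h1 ⊢
      omega
    · intro s hs
      rw [rot_orb]
      exact fun hh => h2 s hs (LT_far.1 hh)
  · rintro b c F σ t ⟨hin, hf, hM⟩ hx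
    obtain ⟨i, hi, y0, hy0, hS, Y, T, s0, hs0, hst, hT, hy⟩ := LS_det ha1 hK hR hin hf hx
    exact ⟨i, hi, y0, hy0, hS, Y, T, hst, hy, by omega⟩
  · rintro F ⟨σ, t0, hin, hfar, hM⟩
    obtain ⟨t, htt, ht, hex⟩ := first_far2 hR1 hfar
    exact ⟨σ, t, ⟨by simpa using hin, ht, by omega⟩, hex⟩

end H984P
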