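import Pool.Agent.H984R3.Per.Defs

/-!
P1: potentials of a set of states invariant under the interface step.
-/

namespace H984P

open H974 Finset H342P

/-- discrete primitives with values in `ZMod 2` -/
theorem pot_prim (a : ℤ → ZMod 2) : ∃ I : ℤ → ZMod 2, I 0 = 0 ∧ ∀ x, I (x + 1) = I x + a x := by
  refine ⟨fun x => ∑ i ∈ Finset.Ico 0 x, a i + ∑ i ∈ Finset.Ico x 0, a i, by simp, fun x => ?_⟩
  rcases le_or_gt 0 x with h | h
  · show ∑ i ∈ Finset.Ico 0 (x + 1), a i + ∑ i ∈ Finset.Ico (x + 1) 0, a i =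
      ∑ i ∈ Finset.Ico 0 x, a i + ∑ i ∈ Finset.Ico x 0, a i + a x
    rw [sum_Ico_int_succ h, Finset.Ico_eq_empty (show ¬ x + 1 < 0 by omega),
      Finset.Ico_eq_empty (show ¬ x < 0 by omega), Finset.sum_empty]
    ring
  · show ∑ i ∈ Finset.Ico 0 (x + 1), a i + ∑ i ∈ Finset.Ico (x + 1) 0, a i =
      ∑ i ∈ Finset.Ico 0 x, a i + ∑ i ∈ Finset.Ico x 0, a i + a x
    have e : Finset.Ico x 0 = insert x (Finset.Ico (x + 1) 0) := by
      ext i
      simp only [Finset.mem_Ico, Finset.mem_insert]
      omega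
    rw [Finset.Ico_eq_empty (show ¬ (0:ℤ) < x + 1 by omega),
      Finset.Ico_eq_empty (show ¬ (0:ℤ) < x by omega), e, Finset.sum_insert (by simp),
      Finset.sum_empty]
    have := zmod2_add_self (a x)
    linear_combination -this

/-- a function on `ℤ` with constant steps is constant -/
theorem pot_const {E : ℤ → ZMod 2} (h0 : E 0 = 0) (hs : ∀ y, E (y + 1) = E y) (y : ℤ) : E y = 0 := by
  induction y using Int.induction_on with
  | zero => exact h0
  | succ i ih => rw [hs, ih]
  | pred i ih =>
    have h := hs (-(i:ℤ) - 1)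
    rw [show -(i:ℤ) - 1 + 1 = -i by ring, ih] at h
    exact h.symm

theorem pot_exists (α : St → ZMod 2)
    (hH : ∀ x y : ℤ, α ((x, y), .ne) + α ((x + 1, y), .nw) +
      (α ((x + 1, y), .sw) + α ((x, y), .se)) = 0)
    (hV : ∀ x y : ℤ, α ((x, y), .nw) + α ((x, y), .ne) +
      (α ((x, y + 1), .sw) + α ((x, y + 1), .se)) = 0) :
    ∃ hv hf : Vtx → ZMod 2, ∀ σ : St, hv σ.1 + hf (face σ) = α σ := by
  obtain ⟨I, I0, I1⟩ := pot_prim (fun i => α ((i, 0), .ne) + α ((i + 1, 0), .nw))
  have hJ : ∀ x, ∃ J : ℤ → ZMod 2, J 0 = 0 ∧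
      ∀ y, J (y + 1) = J y + (α ((x, y), .ne) + α ((x, y + 1), .se)) := fun x =>
    pot_prim (fun j => α ((x, j), .ne) + α ((x, j + 1), .se))
  choose J J0 J1 using hJ
  set hv : Vtx → ZMod 2 := fun v => I v.1 + J v.1 v.2 with hhv
  have vert : ∀ x y : ℤ, hv (x, y + 1) = hv (x, y) + (α ((x, y), .ne) + α ((x, y + 1), .se)) := by
    intro x y
    simp only [hhv, J1]
    ring
  have two : ∀ z : ZMod 2, z + z = 0 := zmod2_add_self
  have horiz : ∀ x y : ℤ, hv (x + 1, y) = hv (x, y) + (α ((x, y), .ne) + α ((x + 1, y), .nw)) := by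
    intro x y
    have key := pot_const (E := fun y => hv (x + 1, y) + hv (x, y) +
      (α ((x, y), .ne) + α ((x + 1, y), .nw))) (by
        simp only [hhv, J0, I1]
        have e1 := two (I x)
        have e2 := two (α ((x, 0), .ne) + α ((x + 1, 0), .nw))
        linear_combination e1 + e2) (by
        intro y
        show hv (x + 1, y + 1) + hv (x, y + 1) +
          (α ((x, y + 1), .ne) + α ((x + 1, y + 1), .nw)) = hv (x + 1, y) + hv (x, y) +
          (α ((x, y), .ne) + α ((x + 1, y), .nw))
        rw [vert, vert]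
        have e1 := hH x (y + 1)
        have e2 := hV (x + 1) y
        have e3 := two (α ((x + 1, y), .nw))
        have e4 := two (α ((x + 1, y + 1), .sw))
        linear_combination e1 + e2 - e3 - e4) y
    have e1 := two (hv (x, y))
    have e2 := two (α ((x, y), .ne) + α ((x + 1, y), .nw))
    linear_combination key - e1 - e2
  refine ⟨hv, fun f => hv f + α (f, .ne), ?_⟩
  rintro ⟨⟨x, y⟩, c⟩
  cases c with
  | ne =>
    show hv (x, y) + (hv (x, y) + α ((x, y), .ne)) = α ((x, y), .ne)
    have := two (hv (x, y))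
    linear_combination this
  | se =>
    show hv (x, y) + (hv (x, y - 1) + α ((x, y - 1), .ne)) = α ((x, y), .se)
    have h := vert x (y - 1)
    rw [sub_add_cancel] at h
    have e1 := two (hv (x, y - 1))
    have e2 := two (α ((x, y - 1), .ne))
    linear_combination h + e1 + e2
  | nw =>
    show hv (x, y) + (hv (x - 1, y) + α ((x - 1, y), .ne)) = α ((x, y), .nw)
    have h := horiz (x - 1) y
    rw [sub_add_cancel] at h
    have e1 := two (hv (x - 1, y))
    have e2 := two (α ((x - 1, y), .ne))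
    linear_combination h + e1 + e2
  | sw =>
    show hv (x, y) + (hv (x - 1, y - 1) + α ((x - 1, y - 1), .ne)) = α ((x, y), .sw)
    have h := horiz (x - 1) y
    rw [sub_add_cancel] at h
    have h' := vert (x - 1) (y - 1)
    rw [sub_add_cancel] at h'
    have h'' := hH (x - 1) y
    rw [sub_add_cancel] at h''
    have e1 := two (hv (x - 1, y - 1))
    have e2 := two (α ((x - 1, y - 1), .ne))
    have e3 := two (α ((x, y), .sw))
    linear_combination h + h' + e1 + e2 + h'' - e3

theorem pot_of_inv (F : Set Edg) (A : Set St) (hinv : ∀ σ, σ ∈ A ↔ nxt F σ ∈ A) :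
    ∃ hv hf : Vtx → ZMod 2, (∀ σ : St, hv σ.1 + hf (face σ) = b2 (σ ∈ A)) ∧
      (∀ e ∈ F, hv (src e) = hv (tgt e)) ∧ (∀ e, e ∉ F → hf (dsrc e) = hf (dtgt e)) := by
  have hop : ∀ σ, ae σ ∈ F → b2 (σ ∈ A) = b2 (mv σ ∈ A) := fun σ h => by
    rw [b2_congr (hinv σ), nxt_open h]
  have hcl : ∀ σ, ae σ ∉ F → b2 (σ ∈ A) = b2 (rt σ ∈ A) := fun σ h => by
    rw [b2_congr (hinv σ), nxt_closed h]
  have two : ∀ z : ZMod 2, z + z = 0 := zmod2_add_self
  obtain ⟨hv, hf, h⟩ := pot_exists (fun σ => b2 (σ ∈ A)) (by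
    intro x y
    by_cases he : ((x, y, true) : Edg) ∈ F
    · have h1 := hop ((x, y), .ne) (by simpa using he)
      have h2 := hop ((x + 1, y), .sw) (by simpa using he)
      rw [mv_ne] at h1
      rw [mv_sw, add_sub_cancel_right] at h2
      rw [h1, h2, two, two, add_zero]
    · have h1 := hcl ((x, y), .ne) (by simpa using he)
      have h2 := hcl ((x + 1, y), .sw) (by simpa using he)
      rw [rt_ne] at h1
      rw [rt_sw] at h2
      rw [h1, h2]
      have e1 := two (b2 (((x, y), Q4.se) ∈ A))
      have e2 := two (b2 (((x + 1, y), Q4.nw) ∈ A))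
      linear_combination e1 + e2) (by
    intro x y
    by_cases he : ((x, y, false) : Edg) ∈ F
    · have h1 := hop ((x, y), .nw) (by simpa using he)
      have h2 := hop ((x, y + 1), .se) (by simpa using he)
      rw [mv_nw] at h1
      rw [mv_se, add_sub_cancel_right] at h2
      rw [h1, h2]
      have e1 := two (b2 (((x, y + 1), Q4.sw) ∈ A))
      have e2 := two (b2 (((x, y), Q4.ne) ∈ A))
      linear_combination e1 + e2
    · have h1 := hcl ((x, y), .nw) (by simpa using he)
      have h2 := hcl ((x, y + 1), .se) (by simpa using he)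
      rw [rt_nw] at h1
      rw [rt_se] at h2
      rw [h1, h2, two, two, add_zero])
  refine ⟨hv, hf, h, ?_, ?_⟩
  · rintro ⟨x, y, b⟩ he
    cases b with
    | true =>
      have h1 := h ((x, y), .ne)
      have h2 := h ((x + 1, y), .nw)
      have h3 := hop ((x, y), .ne) he
      rw [mv_ne] at h3
      simp only [face_ne, face_nw, add_sub_cancel_right] at h1 h2
      rw [src_mk, tgt_true]
      linear_combination h1 - h2 + h3
    | false =>
      have h1 := h ((x, y), .nw)
      have h2 := h ((x, y + 1), .sw)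
      have h3 := hop ((x, y), .nw) he
      rw [mv_nw] at h3
      simp only [face_nw, face_sw, add_sub_cancel_right] at h1 h2
      rw [src_mk, tgt_false]
      linear_combination h1 - h2 + h3
  · rintro ⟨x, y, b⟩ he
    cases b with
    | true =>
      have h1 := h ((x, y), .ne)
      have h2 := h ((x, y), .se)
      have h3 := hcl ((x, y), .ne) he
      rw [rt_ne] at h3
      simp only [face_ne, face_se] at h1 h2
      rw [dtgt_mk, dsrc_true]
      linear_combination h2 - h1 - h3
    | false =>
      have h1 := h ((x, y), .nw)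
      have h2 := h ((x, y), .ne)
      have h3 := hcl ((x, y), .nw) he
      rw [rt_nw] at h3
      simp only [face_ne, face_nw] at h1 h2
      rw [dtgt_mk, dsrc_false]
      linear_combination h1 - h2 + h3

end H984P
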