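import Pool.Agent.H984R3.Per.Pot
import Pool.Agent.H984R3.Per.Basic

/-!
P3: the two sides of a strand.
-/

namespace H984P

open H974 Finset H342P

namespace SideAux

/-- The other state at which the edge `ae σ` is examined. -/
def op (σ : St) : St := match σ.2 with
  | .ne => ((σ.1.1 + 1, σ.1.2), .sw)
  | .nw => ((σ.1.1, σ.1.2 + 1), .se)
  | .sw => ((σ.1.1 - 1, σ.1.2), .ne)
  | .se => ((σ.1.1, σ.1.2 - 1), .nw)

theorem ae_op (σ : St) : ae (op σ) = ae σ := by
  obtain ⟨⟨x, y⟩, q⟩ := σ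
  cases q <;> simp [op]

theorem op_op (σ : St) : op (op σ) = σ := by
  obtain ⟨⟨x, y⟩, q⟩ := σ
  cases q <;> simp [op]

theorem mv_fst (σ : St) : (mv σ).1 = (op σ).1 := by
  obtain ⟨⟨x, y⟩, q⟩ := σ
  cases q <;> simp [op]

theorem face_mv (σ : St) : face (mv σ) = face σ := by
  obtain ⟨⟨x, y⟩, q⟩ := σ
  cases q <;> simp

theorem rt_fst (σ : St) : (rt σ).1 = σ.1 := by
  obtain ⟨⟨x, y⟩, q⟩ := σ
  cases q <;> simp

theorem face_rt (σ : St) : face (rt σ) = face (op σ) := by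
  obtain ⟨⟨x, y⟩, q⟩ := σ
  cases q <;> simp [op]

theorem ends (σ : St) : (src (ae σ) = σ.1 ∧ tgt (ae σ) = (op σ).1) ∨
    (src (ae σ) = (op σ).1 ∧ tgt (ae σ) = σ.1) := by
  obtain ⟨⟨x, y⟩, q⟩ := σ
  cases q <;> simp [op]

theorem faces (σ : St) : (dsrc (ae σ) = face σ ∧ dtgt (ae σ) = face (op σ)) ∨
    (dsrc (ae σ) = face (op σ) ∧ dtgt (ae σ) = face σ) := by
  obtain ⟨⟨x, y⟩, q⟩ := σ
  cases q <;> simp [op]

theorem exists_ae (e : Edg) : ∃ σ, ae σ = e := by
  obtain ⟨x, y, _ | _⟩ := e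
  · exact ⟨((x, y), .nw), rfl⟩
  · exact ⟨((x, y), .ne), rfl⟩

theorem z2_eq {a b : ZMod 2} (h : a + b = 0) : a = b := by
  revert a b; decide

theorem z2_one {a b : ZMod 2} (h : a + b = 1) (ha : a = 0) : b = 1 := by
  revert a b; decide

theorem z2_ne {a b : ZMod 2} (h : a + b = 0) (hb : b = 1) : a ≠ 0 := by
  revert a b; decide

theorem z2_ne' {a b : ZMod 2} (h : a + b = 0) (ha : a = 0) : b ≠ 1 := by
  revert a b; decide

/-- The modified configuration. -/
def om (F : Set Edg) (A y0 X Y : ℤ) (T : ℕ) : Set Edg :=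
  {e | (e ∈ F ∧ e ∈ Exm F (st0 A y0) T) ∨ (e.1 ≤ A - 1 ∧ e.2.1 = y0 ∧ e.2.2 = true) ∨
    (X ≤ e.1 ∧ e.2.1 = Y ∧ e.2.2 = true)}

/-- The prolonged strand. -/
def AA (F : Set Edg) (A y0 X Y : ℤ) (T : ℕ) : Set St :=
  {σ | (∃ s ≤ T, orb F (st0 A y0) s = σ) ∨
    (σ.1.1 ≤ A - 1 ∧ σ.1.2 = y0 ∧ (σ.2 = .nw ∨ σ.2 = .ne)) ∨
    (X ≤ σ.1.1 ∧ σ.1.2 = Y ∧ (σ.2 = .nw ∨ σ.2 = .ne))}

variable {F : Set Edg} {A y0 X Y : ℤ} {T : ℕ}

theorem mem_om {e : Edg} : e ∈ om F A y0 X Y T ↔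
    (e ∈ F ∧ e ∈ Exm F (st0 A y0) T) ∨ (e.1 ≤ A - 1 ∧ e.2.1 = y0 ∧ e.2.2 = true) ∨
    (X ≤ e.1 ∧ e.2.1 = Y ∧ e.2.2 = true) := Iff.rfl

theorem mem_AA {σ : St} : σ ∈ AA F A y0 X Y T ↔
    (∃ s ≤ T, orb F (st0 A y0) s = σ) ∨
    (σ.1.1 ≤ A - 1 ∧ σ.1.2 = y0 ∧ (σ.2 = .nw ∨ σ.2 = .ne)) ∨
    (X ≤ σ.1.1 ∧ σ.1.2 = Y ∧ (σ.2 = .nw ∨ σ.2 = .ne)) := Iff.rfl

theorem exm_vert (hst : Strand F A y0 X Y T) {x y : ℤ}
    (he : ((x, y, false) : Edg) ∈ Exm F (st0 A y0) T) : A ≤ x := by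
  obtain ⟨s, hs, h⟩ := mem_Exm.1 he
  have h1 := (hst.stay s hs).1
  generalize orb F (st0 A y0) s = σ at h h1
  obtain ⟨⟨x', y'⟩, q⟩ := σ
  cases q <;> simp at h h1 <;> omega

theorem exm_om (hst : Strand F A y0 X Y T) {e : Edg} (he : e ∈ Exm F (st0 A y0) T) :
    e ∈ om F A y0 X Y T ↔ e ∈ F := by
  have h1 := exm_loc hst he
  rw [mem_om]
  constructor
  · rintro (h | ⟨h2, h3, h4⟩ | ⟨h2, h3, h4⟩)
    · exact h.1
    · exfalso
      apply h1.2.2
      obtain ⟨x, y, b⟩ := e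
      simp only at h1 h2 h3 h4
      subst h3 h4
      have : x = A - 1 := by omega
      rw [this]
    · omega
  · intro h
    exact Or.inl ⟨h, he⟩

theorem vert_om (hst : Strand F A y0 X Y T) {x y : ℤ} (hx : x ≤ A - 1 ∨ X ≤ x) :
    ((x, y, false) : Edg) ∉ om F A y0 X Y T := by
  rw [mem_om]
  rintro (h | ⟨h2, h3, h4⟩ | ⟨h2, h3, h4⟩)
  · rcases hx with hx | hx
    · have := exm_vert hst h.2
      omega
    · have := exm_loc hst h.2
      simp only at this
      omega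
  · simp at h4
  · simp at h4

theorem orb_step (hst : Strand F A y0 X Y T) {s : ℕ} (hs : s < T) :
    nxt (om F A y0 X Y T) (orb F (st0 A y0) s) = orb F (st0 A y0) (s + 1) := by
  have he : ae (orb F (st0 A y0) s) ∈ Exm F (st0 A y0) T := mem_Exm.2 ⟨s, hs, rfl⟩
  have h := exm_om hst he
  rw [orb_succ]
  by_cases h1 : ae (orb F (st0 A y0) s) ∈ F
  · rw [nxt_open h1, nxt_open (h.2 h1)]
  · rw [nxt_closed h1, nxt_closed (fun h2 => h1 (h.1 h2))]

/-- steps on the rays -/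
theorem ray_nw (hst : Strand F A y0 X Y T) {x y : ℤ} (hx : x ≤ A - 1 ∨ X ≤ x) :
    nxt (om F A y0 X Y T) ((x, y), .nw) = ((x, y), .ne) := by
  rw [nxt_closed (by simpa using vert_om hst hx)]
  rfl

theorem ray_ne_left {x : ℤ} (hx : x ≤ A - 1) :
    nxt (om F A y0 X Y T) ((x, y0), .ne) = ((x + 1, y0), .nw) := by
  rw [nxt_open (by simp [mem_om, hx])]
  rfl

theorem ray_ne_right {x : ℤ} (hx : X ≤ x) :
    nxt (om F A y0 X Y T) ((x, Y), .ne) = ((x + 1, Y), .nw) := by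
  rw [nxt_open (by simp [mem_om, hx])]
  rfl

theorem orb_mem {s : ℕ} (hs : s ≤ T) : orb F (st0 A y0) s ∈ AA F A y0 X Y T :=
  Or.inl ⟨s, hs, rfl⟩

theorem left_mem {x : ℤ} (hx : x ≤ A - 1) {q : Q4} (hq : q = .nw ∨ q = .ne) :
    (((x, y0), q) : St) ∈ AA F A y0 X Y T := Or.inr (Or.inl ⟨hx, rfl, hq⟩)

theorem right_mem {x : ℤ} (hx : X ≤ x) {q : Q4} (hq : q = .nw ∨ q = .ne) :
    (((x, Y), q) : St) ∈ AA F A y0 X Y T := Or.inr (Or.inr ⟨hx, rfl, hq⟩)

theorem fwd (hst : Strand F A y0 X Y T) {σ : St} (h : σ ∈ AA F A y0 X Y T) :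
    nxt (om F A y0 X Y T) σ ∈ AA F A y0 X Y T := by
  rcases h with ⟨s, hs, rfl⟩ | ⟨h1, h2, h3⟩ | ⟨h1, h2, h3⟩
  · rcases hs.lt_or_eq with hs | rfl
    · rw [orb_step hst hs]
      exact orb_mem hs
    · rw [hst.tip, ray_nw hst (Or.inr le_rfl)]
      exact right_mem le_rfl (Or.inr rfl)
  · obtain ⟨⟨x, y⟩, q⟩ := σ
    simp only at h1 h2 h3
    subst h2
    rcases h3 with rfl | rfl
    · rw [ray_nw hst (Or.inl h1)]
      exact left_mem h1 (Or.inr rfl)
    · rw [ray_ne_left h1]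
      by_cases h4 : x + 1 ≤ A - 1
      · exact left_mem h4 (Or.inl rfl)
      · have : x + 1 = A := by omega
        rw [this]
        exact orb_mem (Nat.zero_le T)
  · obtain ⟨⟨x, y⟩, q⟩ := σ
    simp only at h1 h2 h3
    subst h2
    rcases h3 with rfl | rfl
    · rw [ray_nw hst (Or.inr h1)]
      exact right_mem h1 (Or.inr rfl)
    · rw [ray_ne_right h1]
      exact right_mem (by omega) (Or.inl rfl)

theorem bwd (hst : Strand F A y0 X Y T) {σ : St} (h : σ ∈ AA F A y0 X Y T) :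
    ∃ τ ∈ AA F A y0 X Y T, nxt (om F A y0 X Y T) τ = σ := by
  rcases h with ⟨s, hs, rfl⟩ | ⟨h1, h2, h3⟩ | ⟨h1, h2, h3⟩
  · rcases s with _ | s
    · refine ⟨((A - 1, y0), .ne), left_mem le_rfl (Or.inr rfl), ?_⟩
      rw [ray_ne_left le_rfl]
      simp [st0]
    · exact ⟨orb F (st0 A y0) s, orb_mem (by omega), orb_step hst (by omega)⟩
  · obtain ⟨⟨x, y⟩, q⟩ := σ
    simp only at h1 h2 h3
    subst h2
    rcases h3 with rfl | rfl
    · refine ⟨((x - 1, y), .ne), left_mem (by omega) (Or.inr rfl), ?_⟩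
      rw [ray_ne_left (by omega)]
      simp
    · exact ⟨((x, y), .nw), left_mem h1 (Or.inl rfl), ray_nw hst (Or.inl h1)⟩
  · obtain ⟨⟨x, y⟩, q⟩ := σ
    simp only at h1 h2 h3
    subst h2
    rcases h3 with rfl | rfl
    · rcases h1.eq_or_lt with rfl | h4
      · -- the tip
        have hT : T ≠ 0 := by
          rintro rfl
          have h5 := hst.tip
          have h6 := hst.lt
          simp [st0] at h5
          omega
        obtain ⟨t, rfl⟩ : ∃ t, T = t + 1 := ⟨T - 1, by omega⟩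
        refine ⟨orb F (st0 A y0) t, orb_mem (by omega), ?_⟩
        rw [orb_step hst (by omega), hst.tip]
      · refine ⟨((x - 1, y), .ne), right_mem (by omega) (Or.inr rfl), ?_⟩
        rw [ray_ne_right (by omega)]
        simp
    · exact ⟨((x, y), .nw), right_mem h1 (Or.inl rfl), ray_nw hst (Or.inr h1)⟩

theorem inv (hst : Strand F A y0 X Y T) (σ : St) :
    σ ∈ AA F A y0 X Y T ↔ nxt (om F A y0 X Y T) σ ∈ AA F A y0 X Y T := by
  refine ⟨fwd hst, fun h => ?_⟩
  obtain ⟨τ, hτ, h1⟩ := bwd hst h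
  rwa [← (nxt_bij (om F A y0 X Y T)).1 h1]

/-- Potentials normalised at `(A, y0)`. -/
theorem pot (hst : Strand F A y0 X Y T) : ∃ hv hf : Vtx → ZMod 2,
    (∀ σ : St, hv σ.1 + hf (face σ) = b2 (σ ∈ AA F A y0 X Y T)) ∧
      (∀ e ∈ om F A y0 X Y T, hv (src e) = hv (tgt e)) ∧
      (∀ e, e ∉ om F A y0 X Y T → hf (dsrc e) = hf (dtgt e)) ∧ hv (A, y0) = 0 := by
  obtain ⟨hv, hf, h1, h2, h3⟩ := pot_of_inv (om F A y0 X Y T) (AA F A y0 X Y T) (inv hst)
  refine ⟨fun v => hv v + hv (A, y0), fun f => hf f + hv (A, y0), fun σ => ?_, fun e he => ?_,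
    fun e he => ?_, zmod2_add_self _⟩
  · have : hv σ.1 + hv (A, y0) + (hf (face σ) + hv (A, y0)) =
        (hv σ.1 + hf (face σ)) + (hv (A, y0) + hv (A, y0)) := by ring
    rw [this, zmod2_add_self, add_zero, h1]
  · change hv (src e) + hv (A, y0) = hv (tgt e) + hv (A, y0)
    rw [h2 e he]
  · change hf (dsrc e) + hv (A, y0) = hf (dtgt e) + hv (A, y0)
    rw [h3 e he]

/-- the states at an unexamined edge are not in the prolonged strand -/
theorem not_mem_of_free (hst : Strand F A y0 X Y T) {σ : St}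
    (h1 : ae σ ∉ Exm F (st0 A y0) T) (h2 : A ≤ (ae σ).1)
    (h3 : ¬ (X ≤ (ae σ).1 ∧ (ae σ).2.1 = Y)) : σ ∉ AA F A y0 X Y T := by
  rintro (⟨s, hs, rfl⟩ | ⟨h4, h5, h6⟩ | ⟨h4, h5, h6⟩)
  · rcases hs.lt_or_eq with hs | rfl
    · exact h1 (mem_Exm.2 ⟨s, hs, rfl⟩)
    · rw [hst.tip] at h3
      simp at h3
  · obtain ⟨⟨x, y⟩, q⟩ := σ
    simp only at h4 h5 h6
    rcases h6 with rfl | rfl <;> simp at h2 <;> omega
  · obtain ⟨⟨x, y⟩, q⟩ := σ
    simp only at h4 h5 h6
    rcases h6 with rfl | rfl <;> simp at h3 <;> omega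

/-- a state of the prolonged strand at an examined edge is a state of the strand -/
theorem mem_of_exm (hst : Strand F A y0 X Y T) {σ : St}
    (h1 : ae σ ∈ Exm F (st0 A y0) T) (h : σ ∈ AA F A y0 X Y T) :
    ∃ s ≤ T, orb F (st0 A y0) s = σ := by
  have h2 := exm_loc hst h1
  rcases h with h | ⟨h4, h5, h6⟩ | ⟨h4, h5, h6⟩
  · exact h
  · exfalso
    obtain ⟨⟨x, y⟩, q⟩ := σ
    simp only at h4 h5 h6
    subst h5
    rcases h6 with rfl | rfl
    · have h7 : A ≤ x := exm_vert hst h1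
      omega
    · simp only [ae_ne, ne_eq, Prod.mk.injEq, and_true] at h2
      omega
  · exfalso
    obtain ⟨⟨x, y⟩, q⟩ := σ
    simp only at h4 h5 h6
    rcases h6 with rfl | rfl <;> simp at h2 <;> omega

/-- no south states of the prolonged strand at the right -/
theorem right_not_mem (hst : Strand F A y0 X Y T) {x y : ℤ} (hx : X ≤ x) :
    (((x, y), .se) : St) ∉ AA F A y0 X Y T := by
  rintro (⟨s, hs, h⟩ | ⟨h4, h5, h6⟩ | ⟨h4, h5, h6⟩)
  · rcases hs.lt_or_eq with hs | rfl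
    · have := (hst.stay s hs).2
      rw [h] at this
      simp at this
      omega
    · rw [hst.tip] at h
      simp at h
  · simp at h6
  · simp at h6

end SideAux

open SideAux

theorem side_exists {F : Set Edg} {A y0 X Y : ℤ} {T : ℕ} (hst : Strand F A y0 X Y T) :
    ∃ hv hf : Vtx → ZMod 2, Side F A y0 X Y T hv hf := by
  obtain ⟨hv, hf, hP, hO, hC, h0⟩ := pot hst
  have hmem : ∀ {σ : St}, σ ∈ AA F A y0 X Y T → hv σ.1 + hf (face σ) = 1 :=
    fun h => by rw [hP, b2_of h]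
  have hnot : ∀ {σ : St}, σ ∉ AA F A y0 X Y T → hv σ.1 + hf (face σ) = 0 :=
    fun h => by rw [hP, b2_not_of h]
  have hvs : ∀ s ≤ T, hv (orb F (st0 A y0) s).1 = 0 := by
    intro s
    induction s with
    | zero => intro _; exact h0
    | succ s ih =>
      intro hs
      have h1 := ih (by omega)
      rw [← orb_step hst (by omega)]
      by_cases h2 : ae (orb F (st0 A y0) s) ∈ om F A y0 X Y T
      · rw [nxt_open h2, mv_fst]
        have h3 := hO _ h2
        rcases ends (orb F (st0 A y0) s) with ⟨h4, h5⟩ | ⟨h4, h5⟩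
        · rw [h4, h5] at h3
          rw [← h3, h1]
        · rw [h4, h5] at h3
          rw [h3, h1]
      · rw [nxt_closed h2, rt_fst, h1]
  have hfs : ∀ s ≤ T, hf (face (orb F (st0 A y0) s)) = 1 := fun s hs =>
    z2_one (hmem (orb_mem hs)) (hvs s hs)
  have hfree : ∀ e : Edg, e ∉ Exm F (st0 A y0) T → A ≤ e.1 → ¬ (X ≤ e.1 ∧ e.2.1 = Y) →
      hv (src e) = hv (tgt e) ∧ hf (dsrc e) = hf (dtgt e) ∧ hv (src e) = hf (dtgt e) := by
    intro e h1 h2 h3
    obtain ⟨σ, rfl⟩ := exists_ae e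
    have g1 : σ ∉ AA F A y0 X Y T := not_mem_of_free hst h1 h2 h3
    have g2 : op σ ∉ AA F A y0 X Y T := by
      apply not_mem_of_free hst <;> rw [ae_op] <;> assumption
    have g3 : nxt (om F A y0 X Y T) σ ∉ AA F A y0 X Y T := fun h => g1 ((inv hst σ).2 h)
    have g4 : nxt (om F A y0 X Y T) (op σ) ∉ AA F A y0 X Y T := fun h => g2 ((inv hst _).2 h)
    have k1 := z2_eq (hnot g1)
    have k2 := z2_eq (hnot g2)
    have k3 : hv (op σ).1 = hf (face σ) ∨ hv σ.1 = hf (face (op σ)) := by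
      by_cases h4 : ae σ ∈ om F A y0 X Y T
      · left
        have := z2_eq (hnot g3)
        rwa [nxt_open h4, mv_fst, face_mv] at this
      · right
        have := z2_eq (hnot g3)
        rwa [nxt_closed h4, rt_fst, face_rt] at this
    have k4 : hv (op σ).1 = hv σ.1 := by
      rcases k3 with k | k
      · rw [k, k1]
      · rw [k, k2]
    have k5 : hf (face (op σ)) = hf (face σ) := by rw [← k1, ← k2, k4]
    rcases ends σ with ⟨a1, a2⟩ | ⟨a1, a2⟩ <;> rcases faces σ with ⟨b1, b3⟩ | ⟨b1, b3⟩ <;>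
      rw [a1, a2, b1, b3] <;> simp [k1, k4, k5]
  have hExv : ∀ s < T, hv (op (orb F (st0 A y0) s)).1 = 0 →
      ∃ s' ≤ T, (orb F (st0 A y0) s').1 = (op (orb F (st0 A y0) s)).1 := by
    intro s hs h1
    have he : ae (orb F (st0 A y0) s) ∈ Exm F (st0 A y0) T := mem_Exm.2 ⟨s, hs, rfl⟩
    by_cases h2 : ae (orb F (st0 A y0) s) ∈ om F A y0 X Y T
    · refine ⟨s + 1, hs, ?_⟩
      rw [← orb_step hst hs, nxt_open h2, mv_fst]
    · by_cases h3 : op (orb F (st0 A y0) s) ∈ AA F A y0 X Y T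
      · obtain ⟨s', hs', h4⟩ := mem_of_exm hst (by rw [ae_op]; exact he) h3
        exact ⟨s', hs', by rw [h4]⟩
      · exfalso
        have h4 := hnot h3
        have h5 := hC _ h2
        have h6 := hfs s hs.le
        have h7 : hf (face (op (orb F (st0 A y0) s))) = 1 := by
          rcases faces (orb F (st0 A y0) s) with ⟨b1, b3⟩ | ⟨b1, b3⟩
          · rw [b1, b3] at h5; rw [← h5, h6]
          · rw [b1, b3] at h5; rw [h5, h6]
        exact z2_ne h4 h7 h1
  have hExf : ∀ s < T, hf (face (op (orb F (st0 A y0) s))) = 1 →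
      ∃ s' ≤ T, face (orb F (st0 A y0) s') = face (op (orb F (st0 A y0) s)) := by
    intro s hs h1
    have he : ae (orb F (st0 A y0) s) ∈ Exm F (st0 A y0) T := mem_Exm.2 ⟨s, hs, rfl⟩
    by_cases h2 : ae (orb F (st0 A y0) s) ∈ om F A y0 X Y T
    · by_cases h3 : op (orb F (st0 A y0) s) ∈ AA F A y0 X Y T
      · obtain ⟨s', hs', h4⟩ := mem_of_exm hst (by rw [ae_op]; exact he) h3
        exact ⟨s', hs', by rw [h4]⟩
      · exfalso
        have h4 := hnot h3
        have h5 := hO _ h2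
        have h6 := hvs s hs.le
        have h7 : hv (op (orb F (st0 A y0) s)).1 = 0 := by
          rcases ends (orb F (st0 A y0) s) with ⟨b1, b3⟩ | ⟨b1, b3⟩
          · rw [b1, b3] at h5; rw [← h5, h6]
          · rw [b1, b3] at h5; rw [h5, h6]
        exact z2_ne' h4 h7 h1
    · refine ⟨s + 1, hs, ?_⟩
      rw [← orb_step hst hs, nxt_closed h2, face_rt]
  have hR : ∀ x, X ≤ x → hv (x, Y) = 0 := by
    intro x hx
    induction x, hx using Int.leInduction with
    | base =>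
      have := hvs T le_rfl
      rwa [hst.tip] at this
    | succ x hx ih =>
      have h1 : ((x, Y, true) : Edg) ∈ om F A y0 X Y T := by simp [mem_om, hx]
      have := hO _ h1
      simp only [src_mk, tgt_true] at this
      rw [← this, ih]
  have hexr : ∀ x y : ℤ, X ≤ x → ∀ b : Bool, ((x, y, b) : Edg) ∉ Exm F (st0 A y0) T := by
    intro x y hx b he
    have := exm_loc hst he
    simp only at this
    omega
  have hRf : ∀ x, X ≤ x → hf (x, Y) = 1 := by
    intro x hx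
    have := hmem (right_mem (F := F) (A := A) (y0 := y0) (Y := Y) (T := T) hx
      (q := .ne) (Or.inr rfl))
    exact z2_one this (hR x hx)
  have hAX := hst.lt
  have hup : ∀ x, X ≤ x → ∀ y, Y + 1 ≤ y → hv (x, y) = 1 := by
    intro x hx y hy
    induction y, hy using Int.leInduction with
    | base =>
      have := z2_eq (hnot (right_not_mem hst (y := Y + 1) hx))
      simp only [face_se, add_sub_cancel_right] at this
      rw [this, hRf x hx]
    | succ y hy ih =>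
      have := (hfree (x, y, false) (hexr x y hx false) (by simp only; omega)
        (by simp only; omega)).1
      simp only [src_mk, tgt_false] at this
      rw [← this, ih]
  have hdn : ∀ x, X ≤ x → ∀ y, y ≤ Y → hv (x, y) = 0 := by
    intro x hx y hy
    induction y, hy using Int.leInductionDown with
    | base => exact hR x hx
    | pred y hy ih =>
      have := (hfree (x, y - 1, false) (hexr x _ hx false) (by simp only; omega)
        (by simp only; omega)).1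
      simp only [src_mk, tgt_false, sub_add_cancel] at this
      rw [this, ih]
  refine ⟨hv, hf, ⟨fun s hs => ⟨hvs s hs, hfs s hs⟩, hfree, ?_, ?_, ?_, ?_⟩⟩
  · intro e he
    obtain ⟨s, hs, rfl⟩ := mem_Exm.1 he
    rcases ends (orb F (st0 A y0) s) with ⟨b1, b3⟩ | ⟨b1, b3⟩ <;> rw [b1, b3]
    · exact ⟨fun _ => ⟨s, hs.le, rfl⟩, hExv s hs⟩
    · exact ⟨hExv s hs, fun _ => ⟨s, hs.le, rfl⟩⟩
  · intro e he
    obtain ⟨s, hs, rfl⟩ := mem_Exm.1 he
    rcases faces (orb F (st0 A y0) s) with ⟨b1, b3⟩ | ⟨b1, b3⟩ <;> rw [b1, b3]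
    · exact ⟨fun _ => ⟨s, hs.le, rfl⟩, hExf s hs⟩
    · exact ⟨hExf s hs, fun _ => ⟨s, hs.le, rfl⟩⟩
  · intro x y hx
    constructor
    · intro h
      by_contra hc
      rw [hup x hx y (by omega)] at h
      exact one_ne_zero h
    · exact hdn x hx y
  · intro x y hx
    constructor
    · intro h
      by_contra hc
      have h1 : hv (x, y) = 0 := hdn x hx y (by omega)
      have h2 := (hfree (x, y, false) (hexr x y hx false) (by simp only; omega)
        (by simp only; omega)).2.2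
      simp only [src_mk, dtgt_mk] at h2
      rw [← h2, h1] at h
      exact zero_ne_one h
    · intro h
      rcases h.eq_or_lt with rfl | h
      · exact hRf x hx
      · have h2 := (hfree (x, y, false) (hexr x y hx false) (by simp only; omega)
          (by simp only; omega)).2.2
        simp only [src_mk, dtgt_mk] at h2
        rw [← h2, hup x hx y (by omega)]

end H984P
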