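import Pool.Agent.H984R3.Per.Defs

/-!
P4: the first attachment of a path.
-/

namespace H984P

open H974 Finset H342P

theorem first_attach {E V : Type*} (s t : E → V) {G Ex : Set E} {P : V → Prop} {L : Set V}
    {b b' : V} (h : GR s t G b b') (hb : P b) (hb' : ¬ P b')
    (h1 : ∀ e ∈ G, e ∉ Ex → (P (s e) ↔ P (t e)))
    (h2 : ∀ e ∈ G, e ∈ Ex → (P (s e) → s e ∈ L) ∧ (P (t e) → t e ∈ L)) :
    ∃ c ∈ L, GR s t {e | e ∈ G ∧ e ∉ Ex ∧ P (s e) ∧ P (t e)} b c := by
  have key : ∀ w, GR s t G b w →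
      (P w ∧ GR s t {e | e ∈ G ∧ e ∉ Ex ∧ P (s e) ∧ P (t e)} b w) ∨
      ∃ c ∈ L, GR s t {e | e ∈ G ∧ e ∉ Ex ∧ P (s e) ∧ P (t e)} b c := by
    intro w hw
    induction hw with
    | refl => exact Or.inl ⟨hb, Relation.ReflTransGen.refl⟩
    | @tail w w' _ hstep ih =>
      rcases ih with ⟨hPw, hGw⟩ | hc
      · obtain ⟨e, heG, he⟩ := hstep
        by_cases hx : e ∈ Ex
        · right
          refine ⟨w, ?_, hGw⟩
          rcases he with ⟨h3, h4⟩ | ⟨h3, h4⟩
          · rw [← h3]; rw [← h3] at hPw; exact (h2 e heG hx).1 hPw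
          · rw [← h4]; rw [← h4] at hPw; exact (h2 e heG hx).2 hPw
        · left
          have hiff := h1 e heG hx
          have hboth : P (s e) ∧ P (t e) ∧ P w' := by
            rcases he with ⟨h3, h4⟩ | ⟨h3, h4⟩
            · subst h3; subst h4; exact ⟨hPw, hiff.1 hPw, hiff.1 hPw⟩
            · subst h3; subst h4
              exact ⟨hiff.2 hPw, hPw, hiff.2 hPw⟩
          refine ⟨hboth.2.2, hGw.tail ⟨e, ⟨heG, hx, hboth.1, hboth.2.1⟩, he⟩⟩
      · exact Or.inr hc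
  rcases key b' h with ⟨hP, _⟩ | hc
  · exact absurd hP hb'
  · exact hc

end H984P
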