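import Pool.Agent.H12R2.Sep.Defs
import Pool.Agent.H342R2.Per.Sum

/-!
Interfaces of bond percolation on `ℤ²`: states, steps, orbits, strands.
Conventions of `Pool.Agent.H974R2`: `Edg = ℤ × ℤ × Bool`, `(x,y,true)` joins `(x,y)` and
`(x+1,y)`, `(x,y,false)` joins `(x,y)` and `(x,y+1)`; the face `(x,y)` is the unit square with
lower left corner `(x,y)`.
-/

namespace H984P

open H974 Finset

/-- The four corners of a vertex. -/
inductive Q4 | ne | nw | sw | se
  deriving DecidableEq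

instance : Fintype Q4 := ⟨{Q4.ne, Q4.nw, Q4.sw, Q4.se}, by intro x; cases x <;> simp⟩

/-- A state of the interface: a vertex (on its right) and a corner face of it (on its left). -/
abbrev St := Vtx × Q4

/-- The face of a state. -/
def face (σ : St) : Vtx := match σ.2 with
  | .ne => (σ.1.1, σ.1.2)
  | .nw => (σ.1.1 - 1, σ.1.2)
  | .sw => (σ.1.1 - 1, σ.1.2 - 1)
  | .se => (σ.1.1, σ.1.2 - 1)

/-- The edge examined at a state. -/
def ae (σ : St) : Edg := match σ.2 with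
  | .ne => (σ.1.1, σ.1.2, true)
  | .nw => (σ.1.1, σ.1.2, false)
  | .sw => (σ.1.1 - 1, σ.1.2, true)
  | .se => (σ.1.1, σ.1.2 - 1, false)

/-- The next state if the examined edge is open. -/
def mv (σ : St) : St := match σ.2 with
  | .ne => ((σ.1.1 + 1, σ.1.2), .nw)
  | .nw => ((σ.1.1, σ.1.2 + 1), .sw)
  | .sw => ((σ.1.1 - 1, σ.1.2), .se)
  | .se => ((σ.1.1, σ.1.2 - 1), .ne)

/-- The next state if the examined edge is closed. -/
def rt (σ : St) : St := match σ.2 with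
  | .ne => (σ.1, .se)
  | .se => (σ.1, .sw)
  | .sw => (σ.1, .nw)
  | .nw => (σ.1, .ne)

@[simp] theorem face_ne (x y : ℤ) : face ((x, y), .ne) = (x, y) := rfl
@[simp] theorem face_nw (x y : ℤ) : face ((x, y), .nw) = (x - 1, y) := rfl
@[simp] theorem face_sw (x y : ℤ) : face ((x, y), .sw) = (x - 1, y - 1) := rfl
@[simp] theorem face_se (x y : ℤ) : face ((x, y), .se) = (x, y - 1) := rfl
@[simp] theorem ae_ne (x y : ℤ) : ae ((x, y), .ne) = (x, y, true) := rfl
@[simp] theorem ae_nw (x y : ℤ) : ae ((x, y), .nw) = (x, y, false) := rfl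
@[simp] theorem ae_sw (x y : ℤ) : ae ((x, y), .sw) = (x - 1, y, true) := rfl
@[simp] theorem ae_se (x y : ℤ) : ae ((x, y), .se) = (x, y - 1, false) := rfl
@[simp] theorem mv_ne (x y : ℤ) : mv ((x, y), .ne) = ((x + 1, y), .nw) := rfl
@[simp] theorem mv_nw (x y : ℤ) : mv ((x, y), .nw) = ((x, y + 1), .sw) := rfl
@[simp] theorem mv_sw (x y : ℤ) : mv ((x, y), .sw) = ((x - 1, y), .se) := rfl
@[simp] theorem mv_se (x y : ℤ) : mv ((x, y), .se) = ((x, y - 1), .ne) := rfl
@[simp] theorem rt_ne (v : Vtx) : rt (v, .ne) = (v, .se) := rfl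
@[simp] theorem rt_se (v : Vtx) : rt (v, .se) = (v, .sw) := rfl
@[simp] theorem rt_sw (v : Vtx) : rt (v, .sw) = (v, .nw) := rfl
@[simp] theorem rt_nw (v : Vtx) : rt (v, .nw) = (v, .ne) := rfl

open Classical in
/-- One step of the interface with the open edges on its right and the closed dual edges on its
left. -/
noncomputable def nxt (F : Set Edg) (σ : St) : St := if ae σ ∈ F then mv σ else rt σ

theorem nxt_open {F : Set Edg} {σ : St} (h : ae σ ∈ F) : nxt F σ = mv σ := by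
  unfold nxt; rw [if_pos h]

theorem nxt_closed {F : Set Edg} {σ : St} (h : ae σ ∉ F) : nxt F σ = rt σ := by
  unfold nxt; rw [if_neg h]

/-- The orbit of a state. -/
noncomputable def orb (F : Set Edg) (σ : St) (s : ℕ) : St := (nxt F)^[s] σ

@[simp] theorem orb_zero (F : Set Edg) (σ : St) : orb F σ 0 = σ := rfl

theorem orb_succ (F : Set Edg) (σ : St) (s : ℕ) : orb F σ (s + 1) = nxt F (orb F σ s) :=
  Function.iterate_succ_apply' _ _ _

theorem orb_add (F : Set Edg) (σ : St) (s t : ℕ) : orb F σ (s + t) = orb F (orb F σ t) s :=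
  Function.iterate_add_apply _ _ _ _

/-- The edges examined before time `T`. -/
noncomputable def Exm (F : Set Edg) (σ : St) (T : ℕ) : Finset Edg :=
  (Finset.range T).image (fun s => ae (orb F σ s))

theorem mem_Exm {F : Set Edg} {σ : St} {T : ℕ} {e : Edg} :
    e ∈ Exm F σ T ↔ ∃ s < T, ae (orb F σ s) = e := by
  simp [Exm]

/-- The starting state of a strand. -/
def st0 (A y0 : ℤ) : St := ((A, y0), .nw)

/-- A strand: the interface which enters the half plane `x ≥ A` through the open edge from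
`(A-1,y0)` to `(A,y0)` and reaches the column `x = X` for the first time at `(X,Y)`, at time `T`,
before leaving the half plane. -/
structure Strand (F : Set Edg) (A y0 X Y : ℤ) (T : ℕ) : Prop where
  lt : A < X
  ent : ((A - 1, y0, true) : Edg) ∈ F
  stay : ∀ s < T, A ≤ (orb F (st0 A y0) s).1.1 ∧ (orb F (st0 A y0) s).1.1 < X
  tip : orb F (st0 A y0) T = ((X, Y), .nw)

/-- The potentials of a strand prolonged by horizontal rays: `hv = 0` below (on the primal side),
`hf = 1` above (on the dual side). -/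
structure Side (F : Set Edg) (A y0 X Y : ℤ) (T : ℕ) (hv hf : Vtx → ZMod 2) : Prop where
  strand : ∀ s ≤ T, hv (orb F (st0 A y0) s).1 = 0 ∧ hf (face (orb F (st0 A y0) s)) = 1
  free : ∀ e : Edg, e ∉ Exm F (st0 A y0) T → A ≤ e.1 → ¬ (X ≤ e.1 ∧ e.2.1 = Y) →
    hv (src e) = hv (tgt e) ∧ hf (dsrc e) = hf (dtgt e) ∧ hv (src e) = hf (dtgt e)
  exv : ∀ e ∈ Exm F (st0 A y0) T,
    (hv (src e) = 0 → ∃ s ≤ T, (orb F (st0 A y0) s).1 = src e) ∧
    (hv (tgt e) = 0 → ∃ s ≤ T, (orb F (st0 A y0) s).1 = tgt e)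
  exf : ∀ e ∈ Exm F (st0 A y0) T,
    (hf (dsrc e) = 1 → ∃ s ≤ T, face (orb F (st0 A y0) s) = dsrc e) ∧
    (hf (dtgt e) = 1 → ∃ s ≤ T, face (orb F (st0 A y0) s) = dtgt e)
  rightv : ∀ x y : ℤ, X ≤ x → (hv (x, y) = 0 ↔ y ≤ Y)
  rightf : ∀ x y : ℤ, X ≤ x → (hf (x, y) = 1 ↔ Y ≤ y)

/-! ### Geometry of a trial at the tip `(X, Y)`, unit length `a` -/

/-- All edges near the tip. -/
noncomputable def Bl (X Y : ℤ) (a : ℕ) : Finset Edg := RE (X - 60 * a) (X + 60 * a) (Y - 60 * a) (Y + 60 * a)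

/-- The open hook around the tip. -/
def HookEv (X Y : ℤ) (a : ℕ) (G : Finset Edg) : Prop :=
  (LRc (X - 8 * a) (X + 56 * a) (Y - 8 * a) (Y - 4 * a) G ∧
    TBc (X - 8 * a) (X - 4 * a) (Y - 8 * a) (Y + 8 * a) G) ∧
  (LRc (X - 8 * a) (X + 8 * a) (Y + 4 * a) (Y + 8 * a) G ∧
    TBc (X + 4 * a) (X + 8 * a) (Y + 1) (Y + 8 * a) G)

/-- The dual hook around the tip (for the dual configuration `H`, a set of edges in the lattice of
faces). -/
def HookEv' (X Y : ℤ) (a : ℕ) (H : Finset Edg) : Prop :=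
  (LRc (X - 8 * a) (X + 56 * a) (Y + 4 * a) (Y + 8 * a) H ∧
    TBc (X - 8 * a) (X - 4 * a) (Y - 8 * a) (Y + 8 * a) H) ∧
  (LRc (X - 8 * a) (X + 8 * a) (Y - 8 * a) (Y - 4 * a) H ∧
    TBc (X + 4 * a) (X + 8 * a) (Y - 8 * a) (Y - 1) H)

/-- The edges of the hook. -/
noncomputable def HkE (X Y : ℤ) (a : ℕ) : Finset Edg :=
  (RE (X - 8 * a) (X + 56 * a) (Y - 8 * a) (Y - 4 * a) ∪
    RE (X - 8 * a) (X - 4 * a) (Y - 8 * a) (Y + 8 * a)) ∪
  (RE (X - 8 * a) (X + 8 * a) (Y + 4 * a) (Y + 8 * a) ∪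
    RE (X + 4 * a) (X + 8 * a) (Y + 1) (Y + 8 * a))

/-- The edges of the dual hook (in the lattice of faces). -/
noncomputable def HkE' (X Y : ℤ) (a : ℕ) : Finset Edg :=
  (RE (X - 8 * a) (X + 56 * a) (Y + 4 * a) (Y + 8 * a) ∪
    RE (X - 8 * a) (X - 4 * a) (Y - 8 * a) (Y + 8 * a)) ∪
  (RE (X - 8 * a) (X + 8 * a) (Y - 8 * a) (Y - 4 * a) ∪
    RE (X + 4 * a) (X + 8 * a) (Y - 8 * a) (Y - 1))

/-- The edges of the part of the lower strip which is to the right of the tip. -/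
noncomputable def LS (X Y : ℤ) (a : ℕ) : Finset Edg :=
  LRE (X + 8 * a) (X + 56 * a) (Y - 8 * a) (Y - 4 * a)

/-- The same for the upper strip, in the lattice of faces. -/
noncomputable def US (X Y : ℤ) (a : ℕ) : Finset Edg :=
  LRE (X + 8 * a) (X + 56 * a) (Y + 4 * a) (Y + 8 * a)

/-- The edges crossed by the dual edges of `T`. -/
def dE (T : Finset Edg) : Set Edg := {e | dl e ∈ T}

/-- An open crossing of the lower strip, connected in `Tp` to `L`. -/
def LEv (X Y : ℤ) (a : ℕ) (L : Set Vtx) (Tp : Set Edg) (G : Set Edg) : Prop :=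
  ∃ yb yc : ℤ, (Y - 8 * a ≤ yb ∧ yb ≤ Y - 4 * a) ∧ (Y - 8 * a ≤ yc ∧ yc ≤ Y - 4 * a) ∧
    Reach (G ∩ ↑(LS X Y a)) (X + 8 * a, yc) (X + 56 * a, yb) ∧
    ∃ c ∈ L, Reach (G ∩ Tp) (X + 8 * a, yc) c

/-- A closed dual crossing of the upper strip, connected in `Tm` to `R`. -/
def UEv (X Y : ℤ) (a : ℕ) (R : Set Vtx) (Tm : Set Edg) (G : Set Edg) : Prop :=
  ∃ yb yc : ℤ, (Y + 4 * a ≤ yb ∧ yb ≤ Y + 8 * a) ∧ (Y + 4 * a ≤ yc ∧ yc ≤ Y + 8 * a) ∧
    DReach (dE (US X Y a) \ G) (X + 8 * a, yc) (X + 56 * a, yb) ∧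
    ∃ c ∈ R, DReach (Tm \ G) (X + 8 * a, yc) c

/-- Unexamined edges of the hook on the primal side. -/
def Tlow (F : Set Edg) (A y0 X Y : ℤ) (T a : ℕ) (hv : Vtx → ZMod 2) : Set Edg :=
  {e | e ∈ HkE X Y a ∧ e ∉ Exm F (st0 A y0) T ∧ hv (src e) = 0 ∧ hv (tgt e) = 0}

/-- Unexamined edges of the dual hook on the dual side. -/
def Tup (F : Set Edg) (A y0 X Y : ℤ) (T a : ℕ) (hf : Vtx → ZMod 2) : Set Edg :=
  {e | e ∈ dE (HkE' X Y a) ∧ e ∉ Exm F (st0 A y0) T ∧ hf (dsrc e) = 1 ∧ hf (dtgt e) = 1}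

/-- Edges of the lower part of the box around `v`. -/
noncomputable def PR (v : Vtx) (a : ℕ) : Finset Edg :=
  RE (v.1 - 12 * a) (v.1 + 12 * a) (v.2 - 12 * a) (v.2 + 3 * a)

/-- Dual edges (in the lattice of faces) of the upper part of the box around the face `v`. -/
noncomputable def DR (v : Vtx) (a : ℕ) : Finset Edg :=
  RE (v.1 - 12 * a) (v.1 + 12 * a) (v.2 - 3 * a) (v.2 + 12 * a)

/-- Separated arms: an open path from `v` to distance `12 a` downwards, in the lower part of the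
box, and a closed dual path from the face `v` to distance `12 a` upwards, in the upper part. -/
def RA (v : Vtx) (a : ℕ) (G : Set Edg) : Prop :=
  (∃ w : Vtx, w.2 = v.2 - 12 * a ∧ Reach (G ∩ ↑(PR v a)) v w) ∧
    ∃ g : Vtx, g.2 = v.2 + 12 * a ∧ DReach (dE (DR v a) \ G) v g

/-- The square of radius `a` around `z`. -/
noncomputable def ctr (z : Vtx) (a : ℕ) : Finset Vtx :=
  Finset.Icc (z.1 - a) (z.1 + a) ×ˢ Finset.Icc (z.2 - a) (z.2 + a)

/-- The box which contains all the boxes of the vertices of `ctr z a`. -/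
noncomputable def NB (z : Vtx) (a : ℕ) : Finset Edg :=
  RE (z.1 - 13 * a) (z.1 + 14 * a) (z.2 - 13 * a) (z.2 + 14 * a)

open Classical in
/-- Number of vertices of `ctr z a` with separated arms. -/
noncomputable def nRA (z : Vtx) (a : ℕ) (G : Set Edg) : ℕ := ((ctr z a).filter (fun v => RA v a G)).card

open Classical in
/-- Number of vertices `v` of `B` such that `v` is connected to the vertex of `σ` by open edges of
`W` and the north-east face of `v` is connected to the face of `σ` by closed edges of `W`. -/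
noncomputable def cnt (σ : St) (W F : Set Edg) (B : Finset Vtx) : ℕ :=
  (B.filter (fun v => Reach (F ∩ W) σ.1 v ∧ DReach (W \ F) (face σ) v)).card

/-- The separated two-arm probability has exponent at most `s`. -/
def LowA (c s : ℝ) : Prop := ∀ a : ℕ, 1 ≤ a → c * (a:ℝ) ^ (-s) ≤
  Pr (fun _ => (1/2:ℝ)) (RE (-(13 * a : ℕ)) (14 * a : ℕ) (-(13 * a : ℕ)) (14 * a : ℕ))
    (fun F => RA (0, 0) a (↑F))


/-! ### Further definitions -/

open Classical in
/-- Number of vertices of `B` connected to the vertex of `σ`, whose north-east face is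
dual-connected to the face of `σ`. -/
noncomputable def cntA (σ : St) (F : Set Edg) (B : Finset Vtx) : ℕ :=
  (B.filter (fun v => Reach F σ.1 v ∧ DReach Fᶜ (face σ) v)).card

/-- Trials succeed with probability at least `δ`. -/
def TrialOk (S : Finset Edg) (A y0 : ℤ) (a M : ℕ) (δ : ℝ) : Prop :=
  ∀ (k F0 : Finset Edg) (X Y : ℤ) (T : ℕ),
    F0 ⊆ S → k ⊆ S → Strand (↑F0 : Set Edg) A y0 X Y T → A ≤ X - 9 * a →
    Bl X Y a ⊆ S → ((A - 1, y0, true) : Edg) ∈ k → Exm (↑F0) (st0 A y0) T ⊆ k →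
    (∀ e ∈ k, e ∈ Bl X Y a → e ∈ Exm (↑F0) (st0 A y0) T) →
    δ ≤ Pr (fun _ => (1/2:ℝ)) (S \ k) (fun G => M ≤ cnt (st0 A y0)
        (↑(Exm (↑F0) (st0 A y0) T ∪ Bl X Y a)) (↑((F0 ∩ k) ∪ G)) (ctr (X + 32 * a, Y) a))

/-- A strand over `K` slabs. -/
def Long' (A y0 H : ℤ) (a K : ℕ) (F : Set Edg) : Prop :=
  ∃ (Y : ℤ) (T : ℕ), Strand F A y0 (A + 121 * a * K) Y T ∧
    ∀ s ≤ T, |(orb F (st0 A y0) s).1.2 - y0| ≤ H

/-- Rotation by 90 degrees about the origin: vertices. -/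
def rV : Vtx ≃ Vtx where
  toFun v := (-v.2, v.1)
  invFun v := (v.2, -v.1)
  left_inv v := by simp
  right_inv v := by simp

/-- Rotation by 90 degrees: faces. -/
def rF : Vtx ≃ Vtx where
  toFun v := (-v.2 - 1, v.1)
  invFun v := (v.2, -v.1 - 1)
  left_inv v := by simp
  right_inv v := by simp

/-- Rotation of corners. -/
def rQ : Q4 → Q4
  | .ne => .nw
  | .nw => .sw
  | .sw => .se
  | .se => .ne

/-- Rotation of states. -/
def rS (σ : St) : St := (rV σ.1, rQ σ.2)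

/-- Rotation by 90 degrees: edges. -/
def rE : Edg ≃ Edg where
  toFun e := if e.2.2 then (-e.2.1, e.1, false) else (-e.2.1 - 1, e.1, true)
  invFun e := if e.2.2 then (e.2.1, -e.1 - 1, false) else (e.2.1, -e.1, true)
  left_inv e := by
    obtain ⟨x, y, _ | _⟩ := e <;> simp
  right_inv e := by
    obtain ⟨x, y, _ | _⟩ := e <;> simp

/-- Rotation of configurations. -/
def rM (F : Finset Edg) : Finset Edg := F.map rE.toEmbedding

open Classical in
/-- Number of pairs (vertex, corner) of the cluster of the vertex of `σ` and the dual cluster of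
the face of `σ`. -/
noncomputable def nc4 (σ : St) (F : Set Edg) (B : Finset Vtx) : ℕ :=
  ∑ q : Q4, (B.filter (fun v => Reach F σ.1 v ∧ DReach Fᶜ (face σ) (face (v, q)))).card

/-- Square box of vertices. -/
noncomputable def Bx (b c : ℤ) (n : ℕ) : Finset Vtx := Finset.Icc b (b + n) ×ˢ Finset.Icc c (c + n)

/-- Trials succeed everywhere in the box `[b, b + n] × [c, c + n]`. -/
def AllOk (n a M : ℕ) (δ : ℝ) : Prop :=
  ∀ b c A y0 : ℤ, TrialOk (RE b (b + n) c (c + n)) A y0 a M δ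

/-- An open path of extent at least `w` near the boundary of the box. -/
def LayEv (n : ℕ) (R w : ℤ) (F : Set Edg) : Prop :=
  ∃ u v : Vtx, (w ≤ |u.1 - v.1| ∨ w ≤ |u.2 - v.2|) ∧
    Reach (F ∩ {e | H342P.bdist n (src e) < R ∧ H342P.bdist n (tgt e) < R}) u v

end H984P
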