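import Pool.Agent.H984R3.Per.Mk
import Pool.Agent.H984R3.Per.Basic

/-!
P11: iteration of the trials along a strand.
-/

namespace H984P

open H974 Finset H342P

/-- first time with abscissa `≥ X` -/
noncomputable def tT (A y0 : ℤ) (F : Set Edg) (X : ℤ) : ℕ :=
  sInf {t | X ≤ (orb F (st0 A y0) t).1.1}

/-- ordinate at this time -/
noncomputable def tY (A y0 : ℤ) (F : Set Edg) (X : ℤ) : ℤ :=
  (orb F (st0 A y0) (tT A y0 F X)).1.2

theorem it_of_strand {A y0 X Y : ℤ} {T : ℕ} {F : Set Edg} (h : Strand F A y0 X Y T) :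
    tT A y0 F X = T ∧ tY A y0 F X = Y := by
  have hT : T ∈ {t | X ≤ (orb F (st0 A y0) t).1.1} := by
    show X ≤ (orb F (st0 A y0) T).1.1
    rw [h.tip]
  have e : tT A y0 F X = T := by
    refine le_antisymm (Nat.sInf_le hT) ?_
    by_contra hlt
    push Not at hlt
    have h1 : X ≤ (orb F (st0 A y0) (tT A y0 F X)).1.1 := Nat.sInf_mem ⟨T, hT⟩
    have h2 := (h.stay _ hlt).2
    omega
  refine ⟨e, ?_⟩
  unfold tY
  rw [e, h.tip]

/-- crossing of `i` slabs -/
def CR (A y0 H : ℤ) (a i : ℕ) (F : Set Edg) : Prop :=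
  Strand F A y0 (A + 121 * a * i) (tY A y0 F (A + 121 * a * i)) (tT A y0 F (A + 121 * a * i)) ∧
    ∀ s ≤ tT A y0 F (A + 121 * a * i), |(orb F (st0 A y0) s).1.2 - y0| ≤ H

theorem it_long {A y0 H : ℤ} {a i : ℕ} {F : Set Edg} (h : Long' A y0 H a i F) :
    CR A y0 H a i F := by
  obtain ⟨Y, T, h1, h2⟩ := h
  obtain ⟨e1, e2⟩ := it_of_strand h1
  unfold CR
  rw [e1, e2]
  exact ⟨h1, h2⟩

theorem it_down {A y0 H : ℤ} {a i j : ℕ} {F : Set Edg} (ha : 1 ≤ a) (hj : 1 ≤ j) (hji : j ≤ i)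
    (h : CR A y0 H a i F) : CR A y0 H a j F ∧
      tT A y0 F (A + 121 * a * j) ≤ tT A y0 F (A + 121 * a * i) := by
  obtain ⟨hs, hc⟩ := h
  have ha' : (1:ℤ) ≤ a := by exact_mod_cast ha
  have hj' : (1:ℤ) ≤ j := by exact_mod_cast hj
  have hji' : (j:ℤ) ≤ i := by exact_mod_cast hji
  have h1 : A < A + 121 * a * j := by nlinarith
  have h2 : A + 121 * a * j ≤ A + 121 * (a:ℤ) * i := by nlinarith
  set X : ℤ := A + 121 * a * j with hX
  set T := tT A y0 F (A + 121 * a * i) with hT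
  have hmem : T ∈ {t | X ≤ (orb F (st0 A y0) t).1.1} := by
    show X ≤ (orb F (st0 A y0) T).1.1
    rw [hs.tip]
    exact h2
  have hle : tT A y0 F X ≤ T := Nat.sInf_le hmem
  set t := tT A y0 F X with ht
  have htm : X ≤ (orb F (st0 A y0) t).1.1 := Nat.sInf_mem ⟨T, hmem⟩
  have hlt : ∀ s < t, (orb F (st0 A y0) s).1.1 < X := by
    intro s hs'
    have h5 : s < sInf {t | X ≤ (orb F (st0 A y0) t).1.1} := hs'
    exact not_le.mp (Nat.notMem_of_lt_sInf h5)
  have ht0 : t ≠ 0 := by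
    intro h0
    rw [h0] at htm
    simp only [orb_zero, st0] at htm
    omega
  have htx : (orb F (st0 A y0) t).1.1 = X := by
    obtain ⟨t', ht'⟩ : ∃ t', t = t' + 1 := ⟨t - 1, by omega⟩
    have h3 := hlt t' (by omega)
    have h4 := (nxt_fst F (orb F (st0 A y0) t')).1
    rw [← orb_succ, ← ht'] at h4
    rw [abs_le] at h4
    omega
  have hstay : ∀ s < t, A ≤ (orb F (st0 A y0) s).1.1 ∧ (orb F (st0 A y0) s).1.1 < X :=
    fun s hs' => ⟨(hs.stay s (by omega)).1, hlt s hs'⟩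
  obtain ⟨Y, hY⟩ := tip_of_first h1 hstay htx
  refine ⟨⟨⟨h1, hs.ent, hstay, ?_⟩, fun s hs' => hc s (le_trans hs' hle)⟩, hle⟩
  show orb F (st0 A y0) t = ((X, tY A y0 F X), .nw)
  unfold tY
  rw [← ht, hY]

theorem it_exm_mono {F : Set Edg} {σ : St} {s t : ℕ} (h : s ≤ t) : Exm F σ s ⊆ Exm F σ t := by
  intro e he
  rw [mem_Exm] at he ⊢
  obtain ⟨u, hu, he⟩ := he
  exact ⟨u, by omega, he⟩

/-- strands are determined by the examined edges -/
theorem it_same {A y0 H : ℤ} {a i j : ℕ} {F G : Set Edg} (ha : 1 ≤ a) (hj : 1 ≤ j) (hji : j ≤ i)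
    (h : CR A y0 H a i F) (hent : ((A - 1, y0, true) : Edg) ∈ G)
    (hag : ∀ e ∈ Exm F (st0 A y0) (tT A y0 F (A + 121 * a * i)), (e ∈ F ↔ e ∈ G)) :
    tT A y0 G (A + 121 * a * j) = tT A y0 F (A + 121 * a * j) ∧
    tY A y0 G (A + 121 * a * j) = tY A y0 F (A + 121 * a * j) ∧ CR A y0 H a j G ∧
    Exm G (st0 A y0) (tT A y0 G (A + 121 * a * j)) =
      Exm F (st0 A y0) (tT A y0 F (A + 121 * a * j)) := by
  obtain ⟨h1, h2⟩ := it_down ha hj hji h
  have hag' : ∀ e ∈ Exm F (st0 A y0) (tT A y0 F (A + 121 * a * j)), (e ∈ F ↔ e ∈ G) :=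
    fun e he => hag e (it_exm_mono h2 he)
  have h3 := strand_congr h1.1 hag' hent
  obtain ⟨e1, e2⟩ := it_of_strand h3
  refine ⟨e1, e2, ⟨?_, ?_⟩, ?_⟩
  · rw [e1, e2]; exact h3
  · rw [e1]
    intro s hs
    rw [orb_congr hag' hs]
    exact h1.2 s hs
  · rw [e1]
    exact Exm_congr hag'

theorem it_cnt_congr {σ : St} {W F G : Set Edg} {B : Finset Vtx} (h : ∀ e ∈ W, (e ∈ F ↔ e ∈ G)) :
    cnt σ W F B = cnt σ W G B := by
  have e1 : F ∩ W = G ∩ W := by
    ext e
    constructor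
    · rintro ⟨h1, h2⟩; exact ⟨(h e h2).mp h1, h2⟩
    · rintro ⟨h1, h2⟩; exact ⟨(h e h2).mpr h1, h2⟩
  have e2 : W \ F = W \ G := by
    ext e
    constructor
    · rintro ⟨h1, h2⟩; exact ⟨h1, fun h3 => h2 ((h e h1).mpr h3)⟩
    · rintro ⟨h1, h2⟩; exact ⟨h1, fun h3 => h2 ((h e h1).mp h3)⟩
  unfold cnt
  rw [e1, e2]

/-- the big box -/
noncomputable def BB (A y0 H : ℤ) (a K : ℕ) : Finset Edg :=
  RE (A - 60 * a) (A + 121 * a * K + 60 * a) (y0 - H - 60 * a) (y0 + H + 60 * a)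

theorem it_box {A y0 H : ℤ} {a i K : ℕ} {F : Set Edg} (ha : 1 ≤ a) (hi : 1 ≤ i) (hiK : i ≤ K)
    (h : CR A y0 H a i F) : ((A - 1, y0, true) : Edg) ∈ BB A y0 H a K ∧
      Exm F (st0 A y0) (tT A y0 F (A + 121 * a * i)) ⊆ BB A y0 H a K ∧
      Bl (A + 121 * a * i) (tY A y0 F (A + 121 * a * i)) a ⊆ BB A y0 H a K := by
  obtain ⟨hs, hc⟩ := h
  have ha' : (1:ℤ) ≤ a := by exact_mod_cast ha
  have hi' : (1:ℤ) ≤ i := by exact_mod_cast hi
  have hiK' : (i:ℤ) ≤ K := by exact_mod_cast hiK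
  have h1 : A < A + 121 * a * i := by nlinarith
  have h2 : A + 121 * a * i ≤ A + 121 * (a:ℤ) * K := by nlinarith
  have h0 := hc 0 (Nat.zero_le _)
  have hH : 0 ≤ H := (abs_nonneg _).trans h0
  have hT := hc _ le_rfl
  change |tY A y0 F (A + 121 * a * i) - y0| ≤ H at hT
  rw [abs_le] at hT
  refine ⟨?_, ?_, ?_⟩
  · unfold BB
    rw [mem_RE_true]
    refine ⟨by omega, by omega, by omega, by omega⟩
  · intro e he
    rw [mem_Exm] at he
    obtain ⟨s, hsT, he⟩ := he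
    have h3 := hs.stay s hsT
    have h4 := hc s hsT.le
    rw [abs_le] at h4
    rw [← he]
    generalize orb F (st0 A y0) s = σ at h3 h4
    obtain ⟨⟨x, y⟩, c⟩ := σ
    simp only at h3 h4
    unfold BB
    cases c
    · rw [ae_ne, mem_RE_true]
      refine ⟨by omega, by omega, by omega, by omega⟩
    · rw [ae_nw, mem_RE_false]
      refine ⟨by omega, by omega, by omega, by omega⟩
    · rw [ae_sw, mem_RE_true]
      refine ⟨by omega, by omega, by omega, by omega⟩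
    · rw [ae_se, mem_RE_false]
      refine ⟨by omega, by omega, by omega, by omega⟩
  · unfold Bl BB
    apply RE_subset <;> omega

open Classical in
/-- the stopping set -/
noncomputable def KK (S : Finset Edg) (A y0 H : ℤ) (a i : ℕ) (F : Finset Edg) : Finset Edg :=
  if CR A y0 H a i (↑F : Set Edg) then
    (insert (A - 1, y0, true) (Exm (↑F : Set Edg) (st0 A y0) (tT A y0 ↑F (A + 121 * a * i)) ∪
      (Finset.Ico 1 i).biUnion (fun j => Bl (A + 121 * a * j) (tY A y0 ↑F (A + 121 * a * j)) a))) ∩ S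
  else S

/-- the trial at the `i`-th tip fails -/
def Fl (A y0 : ℤ) (a M i : ℕ) (F : Set Edg) : Prop :=
  cnt (st0 A y0) (↑(Exm F (st0 A y0) (tT A y0 F (A + 121 * a * i)) ∪
    Bl (A + 121 * a * i) (tY A y0 F (A + 121 * a * i)) a)) F
    (ctr (A + 121 * a * i + 32 * a, tY A y0 F (A + 121 * a * i)) a) < M

/-- crossing of `i` slabs, the trials before fail -/
def EE (A y0 H : ℤ) (a M i : ℕ) (F : Set Edg) : Prop :=
  CR A y0 H a i F ∧ ∀ j, 1 ≤ j → j < i → Fl A y0 a M j F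

section

variable {S : Finset Edg} {A y0 H : ℤ} {a K : ℕ}

/-- agreement on the stopping set -/
theorem it_agree (ha : 1 ≤ a) (hS : BB A y0 H a K ⊆ S) {i : ℕ} (hi : 1 ≤ i) (hiK : i ≤ K)
    {F G : Finset Edg} (h : CR A y0 H a i (↑F : Set Edg))
    (hFG : F ∩ KK S A y0 H a i F = G ∩ KK S A y0 H a i F) :
    ((A - 1, y0, true) : Edg) ∈ G ∧
    (∀ e ∈ Exm (↑F : Set Edg) (st0 A y0) (tT A y0 ↑F (A + 121 * a * i)), (e ∈ F ↔ e ∈ G)) ∧
    ∀ j, 1 ≤ j → j < i → ∀ e ∈ Bl (A + 121 * a * j) (tY A y0 ↑F (A + 121 * a * j)) a,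
      (e ∈ F ↔ e ∈ G) := by
  obtain ⟨b1, b2, _⟩ := it_box ha hi hiK h
  have hmem : ∀ e ∈ KK S A y0 H a i F, (e ∈ F ↔ e ∈ G) := by
    intro e he
    constructor
    · intro h1
      have : e ∈ F ∩ KK S A y0 H a i F := Finset.mem_inter.mpr ⟨h1, he⟩
      rw [hFG] at this
      exact (Finset.mem_inter.mp this).1
    · intro h1
      have : e ∈ G ∩ KK S A y0 H a i F := Finset.mem_inter.mpr ⟨h1, he⟩
      rw [← hFG] at this
      exact (Finset.mem_inter.mp this).1
  have hKK : KK S A y0 H a i F = (insert (A - 1, y0, true)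
      (Exm (↑F : Set Edg) (st0 A y0) (tT A y0 ↑F (A + 121 * a * i)) ∪
      (Finset.Ico 1 i).biUnion (fun j => Bl (A + 121 * a * j) (tY A y0 ↑F (A + 121 * a * j)) a)))
      ∩ S := by
    unfold KK
    rw [if_pos h]
  refine ⟨?_, ?_, ?_⟩
  · rw [← hmem]
    · exact_mod_cast h.1.ent
    · rw [hKK, Finset.mem_inter]
      exact ⟨Finset.mem_insert_self _ _, hS b1⟩
  · intro e he
    apply hmem
    rw [hKK, Finset.mem_inter]
    exact ⟨Finset.mem_insert_of_mem (Finset.mem_union_left _ he), hS (b2 he)⟩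
  · intro j hj hji e he
    apply hmem
    rw [hKK, Finset.mem_inter]
    refine ⟨Finset.mem_insert_of_mem (Finset.mem_union_right _ ?_), ?_⟩
    · rw [Finset.mem_biUnion]
      exact ⟨j, Finset.mem_Ico.mpr ⟨hj, hji⟩, he⟩
    · exact hS ((it_box ha hj (by omega) (it_down ha hj hji.le h).1).2.2 he)

theorem it_EE_congr (ha : 1 ≤ a) (hS : BB A y0 H a K ⊆ S) {M i : ℕ} (hi : 1 ≤ i) (hiK : i ≤ K)
    {F G : Finset Edg} (hFG : F ∩ KK S A y0 H a i F = G ∩ KK S A y0 H a i F)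
    (h : EE A y0 H a M i (↑F : Set Edg)) : EE A y0 H a M i (↑G : Set Edg) := by
  obtain ⟨hc, hf⟩ := h
  obtain ⟨g1, g2, g3⟩ := it_agree ha hS hi hiK hc hFG
  refine ⟨(it_same ha hi le_rfl hc (by exact_mod_cast g1)
    (fun e he => by exact_mod_cast g2 e he)).2.2.1, ?_⟩
  intro j hj hji
  obtain ⟨s1, s2, _, s4⟩ := it_same ha hj hji.le hc (G := (↑G : Set Edg)) (by exact_mod_cast g1)
    (fun e he => by exact_mod_cast g2 e he)
  unfold Fl
  rw [s4, s2]
  have h5 := hf j hj hji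
  unfold Fl at h5
  rwa [it_cnt_congr (G := (↑G : Set Edg))] at h5
  intro e he
  rw [Finset.mem_coe, Finset.mem_union] at he
  rcases he with he | he
  · have := g2 e (it_exm_mono (it_down ha hj hji.le hc).2 he)
    exact_mod_cast this
  · have := g3 j hj hji e he
    exact_mod_cast this

theorem it_stop (ha : 1 ≤ a) (hS : BB A y0 H a K ⊆ S) {i : ℕ} (hi : 1 ≤ i) (hiK : i ≤ K) :
    H12S.Stop S (KK S A y0 H a i) := by
  intro F G hF hG hFG
  by_cases hc : CR A y0 H a i (↑F : Set Edg)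
  · obtain ⟨g1, g2, g3⟩ := it_agree ha hS hi hiK hc hFG
    have hsame := fun j hj hji => it_same (j := j) ha hj hji hc (G := (↑G : Set Edg))
      (by exact_mod_cast g1) (fun e he => by exact_mod_cast g2 e he)
    unfold KK
    rw [if_pos hc, if_pos (hsame i hi le_rfl).2.2.1, (hsame i hi le_rfl).2.2.2]
    congr 3
    refine Finset.biUnion_congr rfl fun j hj => ?_
    rw [Finset.mem_Ico] at hj
    rw [(hsame j hj.1 hj.2.le).2.1]
  · have hK : KK S A y0 H a i F = S := by unfold KK; rw [if_neg hc]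
    rw [hK] at hFG
    rw [Finset.inter_eq_left.mpr hF, Finset.inter_eq_left.mpr hG] at hFG
    rw [hFG]

theorem it_KK_sub {i : ℕ} (F : Finset Edg) : KK S A y0 H a i F ⊆ S := by
  unfold KK
  split_ifs
  · exact Finset.inter_subset_right
  · exact Finset.Subset.refl _

theorem it_step (ha : 1 ≤ a) (hS : BB A y0 H a K ⊆ S) {M i : ℕ} {δ : ℝ} (hi : 1 ≤ i) (hiK : i ≤ K)
    (htr : TrialOk S A y0 a M δ) :
    Pr (fun _ => (1/2:ℝ)) S (fun F => EE A y0 H a M i (↑F) ∧ Fl A y0 a M i (↑F)) ≤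
      (1 - δ) * Pr (fun _ => (1/2:ℝ)) S (fun F => EE A y0 H a M i (↑F)) := by
  have hp : Ok (fun _ : Edg => (1/2:ℝ)) := fun _ => ⟨by norm_num, by norm_num⟩
  apply markov_gen hp (K := KK S A y0 H a i) (fun F _ => it_KK_sub F) (it_stop ha hS hi hiK)
  · intro F G _ _ hFG h
    exact it_EE_congr ha hS hi hiK hFG h
  · intro F0 hF0 hE
    have hc := hE.1
    have hKS : KK S A y0 H a i F0 ⊆ S := it_KK_sub F0
    obtain ⟨b1, b2, b3⟩ := it_box ha hi hiK hc
    have ha' : (1:ℤ) ≤ a := by exact_mod_cast ha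
    have hi' : (1:ℤ) ≤ i := by exact_mod_cast hi
    have hai : (a:ℤ) ≤ a * i := by nlinarith
    have hKK : KK S A y0 H a i F0 = (insert (A - 1, y0, true)
        (Exm (↑F0 : Set Edg) (st0 A y0) (tT A y0 ↑F0 (A + 121 * a * i)) ∪
        (Finset.Ico 1 i).biUnion
          (fun j => Bl (A + 121 * a * j) (tY A y0 ↑F0 (A + 121 * a * j)) a))) ∩ S := by
      unfold KK
      rw [if_pos hc]
    have htr' := htr (KK S A y0 H a i F0) F0 _ _ _ hF0 hKS hc.1 (by nlinarith) (b3.trans hS)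
      (by
        rw [hKK, Finset.mem_inter]
        exact ⟨Finset.mem_insert_self _ _, hS b1⟩)
      (by
        intro e he
        rw [hKK, Finset.mem_inter]
        exact ⟨Finset.mem_insert_of_mem (Finset.mem_union_left _ he), hS (b2 he)⟩)
      (by
        intro e he heB
        rw [hKK, Finset.mem_inter, Finset.mem_insert, Finset.mem_union] at he
        rcases he.1 with he | he | he
        · exfalso
          rw [he] at heB
          unfold Bl at heB
          rw [mem_RE_true] at heB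
          nlinarith [heB.1]
        · exact he
        · exfalso
          rw [Finset.mem_biUnion] at he
          obtain ⟨j, hj, he⟩ := he
          rw [Finset.mem_Ico] at hj
          have hji : (j:ℤ) + 1 ≤ i := by exact_mod_cast hj.2
          have h6 : (a:ℤ) * j + a ≤ a * i := by nlinarith
          obtain ⟨x, y, b⟩ := e
          unfold Bl at he heB
          cases b
          · rw [mem_RE_false] at he heB
            have q1 := he.2.1
            have q2 := heB.1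
            nlinarith
          · rw [mem_RE_true] at he heB
            have q1 := he.2.1
            have q2 := heB.1
            nlinarith)
    have hev : ∀ G, G ⊆ S \ KK S A y0 H a i F0 →
        (Fl A y0 a M i (↑((F0 ∩ KK S A y0 H a i F0) ∪ G)) ↔
          ¬ (M ≤ cnt (st0 A y0)
            (↑(Exm (↑F0) (st0 A y0) (tT A y0 ↑F0 (A + 121 * a * i)) ∪
              Bl (A + 121 * a * i) (tY A y0 ↑F0 (A + 121 * a * i)) a))
            (↑((F0 ∩ KK S A y0 H a i F0) ∪ G))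
            (ctr (A + 121 * a * i + 32 * a, tY A y0 ↑F0 (A + 121 * a * i)) a))) := by
      intro G hG
      have hFG : F0 ∩ KK S A y0 H a i F0 =
          ((F0 ∩ KK S A y0 H a i F0) ∪ G) ∩ KK S A y0 H a i F0 := by
        ext e
        simp only [Finset.mem_inter, Finset.mem_union]
        constructor
        · rintro ⟨h1, h2⟩; exact ⟨Or.inl ⟨h1, h2⟩, h2⟩
        · rintro ⟨h1 | h1, h2⟩
          · exact h1
          · exact absurd h2 (Finset.mem_sdiff.mp (hG h1)).2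
      obtain ⟨g1, g2, _⟩ := it_agree ha hS hi hiK hc hFG
      obtain ⟨s1, s2, _, s4⟩ := it_same ha hi le_rfl hc
        (G := (↑((F0 ∩ KK S A y0 H a i F0) ∪ G) : Set Edg)) (Finset.mem_coe.mpr g1)
        (fun e he => by rw [Finset.mem_coe, Finset.mem_coe]; exact g2 e he)
      unfold Fl
      rw [s4, s2, not_le]
    rw [Pr_congr hev, Pr_not]
    linarith

end

theorem iterate {S : Finset Edg} {B : Finset Vtx} {A y0 H : ℤ} {a K M : ℕ} {δ : ℝ} (ha : 1 ≤ a)
    (hK : 1 ≤ K) (hδ0 : 0 ≤ δ) (hδ1 : δ ≤ 1)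
    (hS : RE (A - 60 * a) (A + 121 * a * K + 60 * a) (y0 - H - 60 * a) (y0 + H + 60 * a) ⊆ S)
    (hB : ∀ X Y, Bl X Y a ⊆ S → ctr (X + 32 * a, Y) a ⊆ B)
    (htr : TrialOk S A y0 a M δ) :
    Pr (fun _ => (1/2:ℝ)) S (fun F => Long' A y0 H a K (↑F) ∧ cntA (st0 A y0) (↑F) B < M) ≤
      (1 - δ) ^ K := by
  have hp : Ok (fun _ : Edg => (1/2:ℝ)) := fun _ => ⟨by norm_num, by norm_num⟩
  have hS' : BB A y0 H a K ⊆ S := hS
  have hind : ∀ i : ℕ, i + 1 ≤ K →
      Pr (fun _ => (1/2:ℝ)) S (fun F => EE A y0 H a M (i+1) (↑F) ∧ Fl A y0 a M (i+1) (↑F)) ≤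
        (1 - δ) ^ (i + 1) := by
    intro i
    induction i with
    | zero =>
      intro h1
      refine (it_step ha hS' (by omega) h1 htr).trans ?_
      have h2 := Pr_le_one hp S (fun F => EE A y0 H a M (0+1) (↑F))
      have h3 : 0 ≤ 1 - δ := by linarith
      calc (1 - δ) * _ ≤ (1 - δ) * 1 := mul_le_mul_of_nonneg_left h2 h3
        _ = (1 - δ) ^ (0 + 1) := by ring
    | succ i ih =>
      intro h1
      refine (it_step ha hS' (by omega) h1 htr).trans ?_
      have h3 : 0 ≤ 1 - δ := by linarith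
      have h4 : Pr (fun _ => (1/2:ℝ)) S (fun F => EE A y0 H a M (i+1+1) (↑F)) ≤
          (1 - δ) ^ (i + 1) := by
        refine le_trans (Pr_mono hp fun F _ hE => ?_) (ih (by omega))
        refine ⟨⟨(it_down ha (by omega) (by omega) hE.1).1, fun j hj hji => hE.2 j hj (by omega)⟩,
          hE.2 (i+1) (by omega) (by omega)⟩
      calc (1 - δ) * _ ≤ (1 - δ) * (1 - δ) ^ (i + 1) := mul_le_mul_of_nonneg_left h4 h3
        _ = (1 - δ) ^ (i + 1 + 1) := by ring
  obtain ⟨K', rfl⟩ : ∃ K', K = K' + 1 := ⟨K - 1, by omega⟩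
  refine le_trans (Pr_mono hp fun F _ hF => ?_) (hind K' le_rfl)
  obtain ⟨hL, hcn⟩ := hF
  have hc := it_long hL
  have hfail : ∀ j, 1 ≤ j → j ≤ K' + 1 → Fl A y0 a M j (↑F) := by
    intro j hj hjK
    have hcj := (it_down ha hj hjK hc).1
    have hb := (it_box (K := K' + 1) ha hj hjK hcj).2.2
    unfold Fl
    refine lt_of_le_of_lt ?_ hcn
    unfold cnt cntA
    apply Finset.card_le_card
    intro v hv
    simp only [Finset.mem_filter] at hv ⊢
    refine ⟨hB _ _ (hb.trans hS') hv.1, hv.2.1.mono Set.inter_subset_left, hv.2.2.mono ?_⟩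
    intro e he
    exact he.2
  exact ⟨⟨hc, fun j hj hji => hfail j hj hji.le⟩, hfail (K' + 1) (by omega) le_rfl⟩

end H984P
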