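import Pool.Agent.H984R3.Per.SHarris
import Pool.Agent.H985R3.TA.Defs
import Pool.Agent.H12R2.Sep.WinHalf

/-!
P21: from a lower bound for the two arms in tubes (`H985T.EV`) to the separated and restricted
bound `LowA`.
-/

namespace H984P

open H974 Finset H342P

/-- Lower bound for the two arms in some tubes at every large scale. -/
def EVlow (B m0 : ℕ) (κ s : ℝ) : Prop := ∀ m : ℕ, m0 ≤ m →
  ∃ (ρ : ℕ) (c : ℤ) (sd : Fin 4) (c' f0 : ℤ), (f0 = 0 ∨ f0 = -1) ∧ H985T.Geo B m ρ c sd c' ∧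
    κ * (m:ℝ) ^ (-s) ≤ Pr (fun _ => (1/2:ℝ)) (H985T.EU m ρ c sd c')
      (H985T.EV m ρ c sd c' (f0, f0))

namespace LEV

/-- A horizontal path and a vertical path through a rectangle meet. -/
theorem meet {K G H : Set Edg} {a b c d : ℤ} (hab : a < b) (hcd : c < d)
    (hGK : G ⊆ K) (hHK : H ⊆ K)
    (hG1 : ∀ x y, ((x, y, true) : Edg) ∈ G → a ≤ x → x < b → c ≤ y ∧ y ≤ d)
    (hG2 : ∀ x y, ((x, y, false) : Edg) ∈ G → a < x → x < b → c ≤ y ∧ y < d)
    (hH1 : ∀ x y, ((x, y, false) : Edg) ∈ H → c ≤ y → y < d → a ≤ x ∧ x ≤ b)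
    (hH2 : ∀ x y, ((x, y, true) : Edg) ∈ H → c < y → y < d → a ≤ x ∧ x < b)
    {u v u' v' : Vtx} (h1 : Reach G u v) (hu : u.1 ≤ a) (hv : b ≤ v.1)
    (h2 : Reach H u' v') (hu' : u'.2 ≤ c) (hv' : d ≤ v'.2) : Reach K u u' := by
  obtain ⟨y1, y2, k1, k2, k3, k4⟩ := sub_LR hab hG1 hG2 h1 hu hv
  obtain ⟨x1, x2, l1, l2, l3, l4⟩ := sub_TB hcd hH1 hH2 h2 hu' hv'
  have m := crossings_meet hab hcd.le (F := K) k2 l1
    (k3.mono (by rintro e ⟨h7, h8⟩; exact ⟨hGK h7, h8⟩))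
    (l3.mono (by rintro e ⟨h7, h8⟩; exact ⟨hHK h7, h8⟩))
  exact (k4.mono hGK).trans ((m.mono Set.inter_subset_left).trans (l4.symm.mono hHK))

/-- the open corridor -/
def ff (m ρ : ℕ) (c : ℤ) (F : Finset Edg) : Prop :=
  (TBc (m + 8 * ρ + 1) (m + 10 * ρ) (c - ρ) (c + ρ) F ∧
    LRc (m + 8 * ρ + 1) (m + 20 * ρ) (c - ρ) (c + ρ) F) ∧
    TBc (m + 12 * ρ) (m + 20 * ρ) (-(12 * m)) (c + ρ) F

/-- the dual ring and the dual corridor (for the dual configuration) -/
def gg (m ρ : ℕ) (c : ℤ) (D : Finset Edg) : Prop :=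
  ((TBc (m + 4 * ρ) (m + 8 * ρ) (c + 3 * ρ) (m + 8 * ρ) D ∧
    TBc (m + 4 * ρ) (m + 8 * ρ) (-m - 8 * ρ) (c - 3 * ρ) D) ∧
   (LRc (-m - 8 * ρ) (m + 8 * ρ) (m + 4 * ρ) (m + 8 * ρ) D ∧
    LRc (-m - 8 * ρ) (m + 8 * ρ) (-m - 8 * ρ) (-m - 4 * ρ) D)) ∧
  (TBc (-m - 8 * ρ) (-m - 4 * ρ) (-m - 8 * ρ) (m + 8 * ρ) D ∧
    TBc (-m) m (m + 4 * ρ) (12 * m) D)

/-- the square `[-13m, 13m]²` -/
noncomputable def S0 (m : ℕ) : Finset Edg := RE (-(13 * m)) (13 * m) (-(13 * m)) (13 * m)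

/-- restricted arms, for a general face -/
def RAg (m : ℕ) (f : Vtx) (F : Finset Edg) : Prop :=
  (∃ w : Vtx, w.2 = -(12 * m) ∧
    Reach ((↑F : Set Edg) ∩ ↑(RE (-(2 * m)) (2 * m) (-(12 * m)) (2 * m))) (0, 0) w) ∧
  ∃ g : Vtx, g.2 = 12 * m ∧
    DReach (dE (RE (-(2 * m)) (2 * m) (-(2 * m)) (12 * m)) \ ↑F) f g

theorem open_part {B m ρ : ℕ} {c : ℤ} {s : Fin 4} {c' : ℤ} (hg : H985T.Geo B m ρ c s c')
    {F : Finset Edg} (hf : ff m ρ c F) {z : Vtx} (hz : z.1 = (m:ℤ) + 10 * ρ)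
    (P0 : Reach ((↑F : Set Edg) ∩ ↑(boxE m ∪ H985T.tube 0 m ρ c (10 * ρ))) (0, 0) z) :
    ∃ w : Vtx, w.2 = -(12 * m) ∧
    Reach ((↑F : Set Edg) ∩ ↑(RE (-(2 * m)) (2 * m) (-(12 * m)) (2 * m))) (0, 0) w := by
  obtain ⟨⟨⟨x1, x1', hx1, hx1', P1⟩, ⟨y2, y2', hy2, hy2', P2⟩⟩, ⟨x3, x3', hx3, hx3', P3⟩⟩ := hf
  have h1 := hg.ρpos
  have h2 := hg.small
  have h3 := abs_le.1 hg.hc
  have e0 : H985T.tube 0 m ρ c (10 * ρ) = RE m (m + 10 * ρ) (c - ρ) (c + ρ) := by
    simp [H985T.tube]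
  rw [e0] at P0
  set K : Set Edg := (↑F : Set Edg) ∩ ↑(RE (-(2 * m)) (2 * m) (-(12 * m)) (2 * m)) with hK
  have k0 : (↑F : Set Edg) ∩ ↑(boxE m ∪ RE m (m + 10 * ρ) (c - ρ) (c + ρ)) ⊆ K := by
    rintro ⟨x, y, _ | _⟩ ⟨h, h'⟩
    · refine ⟨h, ?_⟩
      simp only [mem_coe, mem_union, boxE, mem_RE_false] at h' ⊢
      omega
    · refine ⟨h, ?_⟩
      simp only [mem_coe, mem_union, boxE, mem_RE_true] at h' ⊢
      omega
  have k1 : (↑F : Set Edg) ∩ ↑(TBE (m + 8 * ρ + 1) (m + 10 * ρ) (c - ρ) (c + ρ)) ⊆ K := by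
    rintro ⟨x, y, _ | _⟩ ⟨h, h'⟩
    · refine ⟨h, ?_⟩
      simp only [mem_coe, mem_TBE_false, mem_RE_false] at h' ⊢
      omega
    · refine ⟨h, ?_⟩
      simp only [mem_coe, mem_TBE_true, mem_RE_true] at h' ⊢
      omega
  have k2 : (↑F : Set Edg) ∩ ↑(LRE (m + 8 * ρ + 1) (m + 20 * ρ) (c - ρ) (c + ρ)) ⊆ K := by
    rintro ⟨x, y, _ | _⟩ ⟨h, h'⟩
    · refine ⟨h, ?_⟩
      simp only [mem_coe, mem_LRE_false, mem_RE_false] at h' ⊢
      omega
    · refine ⟨h, ?_⟩
      simp only [mem_coe, mem_LRE_true, mem_RE_true] at h' ⊢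
      omega
  have k3 : (↑F : Set Edg) ∩ ↑(TBE (m + 12 * ρ) (m + 20 * ρ) (-(12 * m)) (c + ρ)) ⊆ K := by
    rintro ⟨x, y, _ | _⟩ ⟨h, h'⟩
    · refine ⟨h, ?_⟩
      simp only [mem_coe, mem_TBE_false, mem_RE_false] at h' ⊢
      omega
    · refine ⟨h, ?_⟩
      simp only [mem_coe, mem_TBE_true, mem_RE_true] at h' ⊢
      omega
  have M1 : Reach K (0, 0) (x1, c - ρ) :=
    meet (a := m + 8 * ρ + 1) (b := m + 10 * ρ) (c := c - ρ) (d := c + ρ) (by omega) (by omega)
      k0 k1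
      (by rintro x y ⟨-, h⟩ _ _; simp only [mem_coe, mem_union, boxE, mem_RE_true] at h; omega)
      (by rintro x y ⟨-, h⟩ _ _; simp only [mem_coe, mem_union, boxE, mem_RE_false] at h; omega)
      (by rintro x y ⟨-, h⟩ _ _; simp only [mem_coe, mem_TBE_false] at h; omega)
      (by rintro x y ⟨-, h⟩ _ _; simp only [mem_coe, mem_TBE_true] at h; omega)
      P0 (by show (0:ℤ) ≤ _; omega) (by omega) P1 (by show c - ρ ≤ _; omega)
      (by show _ ≤ c + ρ; omega)
  have M2 : Reach K (m + 8 * ρ + 1, y2) (x1, c - ρ) :=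
    meet (a := m + 8 * ρ + 1) (b := m + 10 * ρ) (c := c - ρ) (d := c + ρ) (by omega) (by omega)
      k2 k1
      (by rintro x y ⟨-, h⟩ _ _; simp only [mem_coe, mem_LRE_true] at h; omega)
      (by rintro x y ⟨-, h⟩ _ _; simp only [mem_coe, mem_LRE_false] at h; omega)
      (by rintro x y ⟨-, h⟩ _ _; simp only [mem_coe, mem_TBE_false] at h; omega)
      (by rintro x y ⟨-, h⟩ _ _; simp only [mem_coe, mem_TBE_true] at h; omega)
      P2 (by simp only; omega) (by simp only; omega) P1 (by show c - ρ ≤ _; omega)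
      (by show _ ≤ c + ρ; omega)
  have M3 : Reach K (m + 8 * ρ + 1, y2) (x3, -(12 * m)) :=
    meet (a := m + 12 * ρ) (b := m + 20 * ρ) (c := c - ρ) (d := c + ρ) (by omega) (by omega)
      k2 k3
      (by rintro x y ⟨-, h⟩ _ _; simp only [mem_coe, mem_LRE_true] at h; omega)
      (by rintro x y ⟨-, h⟩ _ _; simp only [mem_coe, mem_LRE_false] at h; omega)
      (by rintro x y ⟨-, h⟩ _ _; simp only [mem_coe, mem_TBE_false] at h; omega)
      (by rintro x y ⟨-, h⟩ _ _; simp only [mem_coe, mem_TBE_true] at h; omega)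
      P2 (by simp only; omega) (by simp only; omega) P3 (by simp only; omega)
      (by simp only; omega)
  exact ⟨(x3, -(12 * m)), rfl, M1.trans (M2.symm.trans M3)⟩

theorem mem_dlt {X : Set Edg} {x y : ℤ} :
    ((x, y, true) : Edg) ∈ dl '' X ↔ ((x + 1, y, false) : Edg) ∈ X := by
  constructor
  · rintro ⟨e, he, h⟩
    have : e = dl.symm (x, y, true) := by rw [← h]; simp
    rw [this, dls_t] at he
    exact he
  · intro h
    exact ⟨_, h, by simp⟩

theorem mem_dlf {X : Set Edg} {x y : ℤ} :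
    ((x, y, false) : Edg) ∈ dl '' X ↔ ((x, y + 1, true) : Edg) ∈ X := by
  constructor
  · rintro ⟨e, he, h⟩
    have : e = dl.symm (x, y, false) := by rw [← h]; simp
    rw [this, dls_f] at he
    exact he
  · intro h
    exact ⟨_, h, by simp⟩

/-- The dual path, in the lattice of faces. -/
theorem dual_conv {m : ℕ} {F : Finset Edg} {f g : Vtx}
    (h : Reach ((↑(dmp (S0 m \ F)) : Set Edg) ∩ ↑(RE (-(2 * m)) (2 * m) (-(2 * m)) (12 * m))) f g) :
    DReach (dE (RE (-(2 * m)) (2 * m) (-(2 * m)) (12 * m)) \ ↑F) f g := by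
  rw [← reach_dl]
  refine h.mono ?_
  rintro e ⟨h1, h2⟩
  rw [coe_dmp] at h1
  obtain ⟨e', he', rfl⟩ := h1
  refine ⟨e', ⟨?_, ?_⟩, rfl⟩
  · exact h2
  · intro h3
    rw [mem_coe, mem_sdiff] at he'
    exact he'.2 h3

theorem dual_part {B m ρ : ℕ} {c : ℤ} {s : Fin 4} {c' : ℤ} (hg : H985T.Geo B m ρ c s c')
    {F : Finset Edg} (hd : gg m ρ c (dmp (S0 m \ F))) {f w : Vtx}
    (hf1 : -1 ≤ f.1 ∧ f.1 ≤ 0) (hf2 : -1 ≤ f.2 ∧ f.2 ≤ 0)
    (hw : H985T.beyond s m (10 * ρ) w)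
    (P0 : DReach (↑((boxE m ∪ H985T.tube 0 m ρ c (2 * ρ) ∪
      H985T.tube s m ρ c' (10 * ρ)) \ F) : Set Edg) f w) :
    ∃ g : Vtx, g.2 = 12 * m ∧
      DReach (dE (RE (-(2 * m)) (2 * m) (-(2 * m)) (12 * m)) \ ↑F) f g := by
  obtain ⟨⟨⟨⟨x1, x1', hx1, hx1', P1⟩, ⟨x2, x2', hx2, hx2', P2⟩⟩,
    ⟨⟨y3, y3', hy3, hy3', P3⟩, ⟨y5, y5', hy5, hy5', P5⟩⟩⟩,
    ⟨⟨x4, x4', hx4, hx4', P4⟩, ⟨x6, x6', hx6, hx6', P6⟩⟩⟩ := hd
  have h1 := hg.ρpos
  have h2 := hg.small
  have h3 := abs_le.1 hg.hc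
  have h4 := abs_le.1 hg.hc'
  set D := dmp (S0 m \ F) with hD
  set K : Set Edg := (↑D : Set Edg) ∩ ↑(RE (-(2 * m)) (2 * m) (-(2 * m)) (12 * m)) with hK
  have sub : ∀ {a b c d : ℤ}, -(2 * m) ≤ a → b ≤ 2 * m → -(2 * m) ≤ c → d ≤ 12 * m →
      (↑D : Set Edg) ∩ ↑(RE a b c d) ⊆ K := by
    intro a b c d h1 h2 h3 h4
    rintro ⟨x, y, _ | _⟩ ⟨h, h'⟩
    · refine ⟨h, ?_⟩
      simp only [mem_coe, mem_RE_false] at h' ⊢
      omega
    · refine ⟨h, ?_⟩
      simp only [mem_coe, mem_RE_true] at h' ⊢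
      omega
  have subL : ∀ {a b c d : ℤ}, -(2 * m) ≤ a → b ≤ 2 * m → -(2 * m) ≤ c → d ≤ 12 * m →
      (↑D : Set Edg) ∩ ↑(LRE a b c d) ⊆ K := by
    intro a b c d h1 h2 h3 h4
    exact (Set.inter_subset_inter_right _ (by exact_mod_cast LRE_subset_RE)).trans
      (sub h1 h2 h3 h4)
  have subT : ∀ {a b c d : ℤ}, -(2 * m) ≤ a → b ≤ 2 * m → -(2 * m) ≤ c → d ≤ 12 * m →
      (↑D : Set Edg) ∩ ↑(TBE a b c d) ⊆ K := by
    intro a b c d h1 h2 h3 h4
    exact (Set.inter_subset_inter_right _ (by exact_mod_cast TBE_subset_RE)).trans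
      (sub h1 h2 h3 h4)
  have k1 := subT (a := m + 4 * ρ) (b := m + 8 * ρ) (c := c + 3 * ρ) (d := m + 8 * ρ)
    (by omega) (by omega) (by omega) (by omega)
  have k2 := subT (a := m + 4 * ρ) (b := m + 8 * ρ) (c := -m - 8 * ρ) (d := c - 3 * ρ)
    (by omega) (by omega) (by omega) (by omega)
  have k3 := subL (a := -m - 8 * ρ) (b := m + 8 * ρ) (c := m + 4 * ρ) (d := m + 8 * ρ)
    (by omega) (by omega) (by omega) (by omega)
  have k5 := subL (a := -m - 8 * ρ) (b := m + 8 * ρ) (c := -m - 8 * ρ) (d := -m - 4 * ρ)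
    (by omega) (by omega) (by omega) (by omega)
  have k4 := subT (a := -m - 8 * ρ) (b := -m - 4 * ρ) (c := -m - 8 * ρ) (d := m + 8 * ρ)
    (by omega) (by omega) (by omega) (by omega)
  have k6 := subT (a := -m) (b := m) (c := m + 4 * ρ) (d := 12 * m)
    (by omega) (by omega) (by omega) (by omega)
  -- the ring
  have M36 : Reach K (-m - 8 * ρ, y3) (x6, m + 4 * ρ) :=
    meet (a := -m) (b := m) (c := m + 4 * ρ) (d := m + 8 * ρ) (by omega) (by omega) k3 k6
      (by rintro x y ⟨-, h⟩ _ _; simp only [mem_coe, mem_LRE_true] at h; omega)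
      (by rintro x y ⟨-, h⟩ _ _; simp only [mem_coe, mem_LRE_false] at h; omega)
      (by rintro x y ⟨-, h⟩ _ _; simp only [mem_coe, mem_TBE_false] at h; omega)
      (by rintro x y ⟨-, h⟩ _ _; simp only [mem_coe, mem_TBE_true] at h; omega)
      P3 (by simp only; omega) (by simp only; omega) P6 (by simp only; omega)
      (by simp only; omega)
  have Q3 : Reach K (-m - 8 * ρ, y3) (x6', 12 * m) := M36.trans (P6.mono k6)
  have M13 : Reach K (-m - 8 * ρ, y3) (x1, c + 3 * ρ) :=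
    meet (a := m + 4 * ρ) (b := m + 8 * ρ) (c := m + 4 * ρ) (d := m + 8 * ρ) (by omega) (by omega)
      k3 k1
      (by rintro x y ⟨-, h⟩ _ _; simp only [mem_coe, mem_LRE_true] at h; omega)
      (by rintro x y ⟨-, h⟩ _ _; simp only [mem_coe, mem_LRE_false] at h; omega)
      (by rintro x y ⟨-, h⟩ _ _; simp only [mem_coe, mem_TBE_false] at h; omega)
      (by rintro x y ⟨-, h⟩ _ _; simp only [mem_coe, mem_TBE_true] at h; omega)
      P3 (by simp only; omega) (by simp only; omega) P1 (by simp only; omega)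
      (by simp only; omega)
  have M43 : Reach K (-m - 8 * ρ, y3) (x4, -m - 8 * ρ) :=
    meet (a := -m - 8 * ρ) (b := -m - 4 * ρ) (c := m + 4 * ρ) (d := m + 8 * ρ)
      (by omega) (by omega) k3 k4
      (by rintro x y ⟨-, h⟩ _ _; simp only [mem_coe, mem_LRE_true] at h; omega)
      (by rintro x y ⟨-, h⟩ _ _; simp only [mem_coe, mem_LRE_false] at h; omega)
      (by rintro x y ⟨-, h⟩ _ _; simp only [mem_coe, mem_TBE_false] at h; omega)
      (by rintro x y ⟨-, h⟩ _ _; simp only [mem_coe, mem_TBE_true] at h; omega)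
      P3 (by simp only; omega) (by simp only; omega) P4 (by simp only; omega)
      (by simp only; omega)
  have M45 : Reach K (-m - 8 * ρ, y5) (x4, -m - 8 * ρ) :=
    meet (a := -m - 8 * ρ) (b := -m - 4 * ρ) (c := -m - 8 * ρ) (d := -m - 4 * ρ)
      (by omega) (by omega) k5 k4
      (by rintro x y ⟨-, h⟩ _ _; simp only [mem_coe, mem_LRE_true] at h; omega)
      (by rintro x y ⟨-, h⟩ _ _; simp only [mem_coe, mem_LRE_false] at h; omega)
      (by rintro x y ⟨-, h⟩ _ _; simp only [mem_coe, mem_TBE_false] at h; omega)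
      (by rintro x y ⟨-, h⟩ _ _; simp only [mem_coe, mem_TBE_true] at h; omega)
      P5 (by simp only; omega) (by simp only; omega) P4 (by simp only; omega)
      (by simp only; omega)
  have M25 : Reach K (-m - 8 * ρ, y5) (x2, -m - 8 * ρ) :=
    meet (a := m + 4 * ρ) (b := m + 8 * ρ) (c := -m - 8 * ρ) (d := -m - 4 * ρ)
      (by omega) (by omega) k5 k2
      (by rintro x y ⟨-, h⟩ _ _; simp only [mem_coe, mem_LRE_true] at h; omega)
      (by rintro x y ⟨-, h⟩ _ _; simp only [mem_coe, mem_LRE_false] at h; omega)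
      (by rintro x y ⟨-, h⟩ _ _; simp only [mem_coe, mem_TBE_false] at h; omega)
      (by rintro x y ⟨-, h⟩ _ _; simp only [mem_coe, mem_TBE_true] at h; omega)
      P5 (by simp only; omega) (by simp only; omega) P2 (by simp only; omega)
      (by simp only; omega)
  have Q1 : Reach K (x1, c + 3 * ρ) (x6', 12 * m) := M13.symm.trans Q3
  have Q4 : Reach K (x4, -m - 8 * ρ) (x6', 12 * m) := M43.symm.trans Q3
  have Q5 : Reach K (-m - 8 * ρ, y5) (x6', 12 * m) := M45.trans Q4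
  have Q2 : Reach K (x2, -m - 8 * ρ) (x6', 12 * m) := M25.symm.trans Q5
  suffices hsuff : Reach K f (x6', 12 * m) from ⟨(x6', 12 * m), rfl, dual_conv hsuff⟩
  rw [← reach_dl] at P0
  have t0 : ∀ L : ℕ, H985T.tube 0 m ρ c L = RE m (m + L) (c - ρ) (c + ρ) := by
    intro L; simp [H985T.tube]
  rw [t0] at P0
  have hs : s = 0 ∨ s = 1 ∨ s = 2 ∨ s = 3 := by
    fin_cases s <;> simp
  rcases hs with rfl | rfl | rfl | rfl
  · -- right side
    have hsep := hg.sep rfl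
    have hw' : (m:ℤ) + (10 * ρ : ℕ) ≤ w.1 := by simpa [H985T.beyond] using hw
    have t1 : H985T.tube 0 m ρ c' (10 * ρ) = RE m (m + (10 * ρ : ℕ)) (c' - ρ) (c' + ρ) := by
      simp [H985T.tube]
    rw [t1] at P0
    have k0 : dl '' (↑((boxE m ∪ RE m (m + (2 * ρ : ℕ)) (c - ρ) (c + ρ) ∪
        RE m (m + (10 * ρ : ℕ)) (c' - ρ) (c' + ρ)) \ F) : Set Edg) ⊆ K := by
      rintro ⟨x, y, _ | _⟩ h
      · rw [mem_dlf, mem_coe, mem_sdiff] at h
        simp only [mem_union, boxE, mem_RE_true] at h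
        refine ⟨?_, ?_⟩
        · rw [hD, mem_coe, mem_dmp, dls_f, mem_sdiff, S0, mem_RE_true]
          exact ⟨by omega, h.2⟩
        · rw [mem_coe, mem_RE_false]; omega
      · rw [mem_dlt, mem_coe, mem_sdiff] at h
        simp only [mem_union, boxE, mem_RE_false] at h
        refine ⟨?_, ?_⟩
        · rw [hD, mem_coe, mem_dmp, dls_t, mem_sdiff, S0, mem_RE_false]
          exact ⟨by omega, h.2⟩
        · rw [mem_coe, mem_RE_true]; omega
    rcases le_abs.1 hsep with h5 | h5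
    · -- `c' ≤ c - 6ρ`
      have M : Reach K f (x2, -m - 8 * ρ) :=
        meet (a := m + 4 * ρ) (b := m + 8 * ρ) (c := -m - 8 * ρ) (d := c - 3 * ρ)
          (by omega) (by omega) k0 k2
          (by
            intro x y h _ _
            rw [mem_dlt, mem_coe, mem_sdiff] at h
            simp only [mem_union, boxE, mem_RE_false] at h
            omega)
          (by
            intro x y h _ _
            rw [mem_dlf, mem_coe, mem_sdiff] at h
            simp only [mem_union, boxE, mem_RE_true] at h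
            omega)
          (by rintro x y ⟨-, h⟩ _ _; simp only [mem_coe, mem_TBE_false] at h; omega)
          (by rintro x y ⟨-, h⟩ _ _; simp only [mem_coe, mem_TBE_true] at h; omega)
          P0 (by omega) (by omega) P2 (by simp only; omega) (by simp only; omega)
      exact M.trans Q2
    · have M : Reach K f (x1, c + 3 * ρ) :=
        meet (a := m + 4 * ρ) (b := m + 8 * ρ) (c := c + 3 * ρ) (d := m + 8 * ρ)
          (by omega) (by omega) k0 k1
          (by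
            intro x y h _ _
            rw [mem_dlt, mem_coe, mem_sdiff] at h
            simp only [mem_union, boxE, mem_RE_false] at h
            omega)
          (by
            intro x y h _ _
            rw [mem_dlf, mem_coe, mem_sdiff] at h
            simp only [mem_union, boxE, mem_RE_true] at h
            omega)
          (by rintro x y ⟨-, h⟩ _ _; simp only [mem_coe, mem_TBE_false] at h; omega)
          (by rintro x y ⟨-, h⟩ _ _; simp only [mem_coe, mem_TBE_true] at h; omega)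
          P0 (by omega) (by omega) P1 (by simp only; omega) (by simp only; omega)
      exact M.trans Q1
  · -- top side
    have hw' : (m:ℤ) + (10 * ρ : ℕ) ≤ w.2 := by simpa [H985T.beyond] using hw
    have t1 : H985T.tube 1 m ρ c' (10 * ρ) = RE (c' - ρ) (c' + ρ) m (m + (10 * ρ : ℕ)) := by
      simp [H985T.tube]
    rw [t1] at P0
    have k0 : dl '' (↑((boxE m ∪ RE m (m + (2 * ρ : ℕ)) (c - ρ) (c + ρ) ∪
        RE (c' - ρ) (c' + ρ) m (m + (10 * ρ : ℕ))) \ F) : Set Edg) ⊆ K := by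
      rintro ⟨x, y, _ | _⟩ h
      · rw [mem_dlf, mem_coe, mem_sdiff] at h
        simp only [mem_union, boxE, mem_RE_true] at h
        refine ⟨?_, ?_⟩
        · rw [hD, mem_coe, mem_dmp, dls_f, mem_sdiff, S0, mem_RE_true]
          exact ⟨by omega, h.2⟩
        · rw [mem_coe, mem_RE_false]; omega
      · rw [mem_dlt, mem_coe, mem_sdiff] at h
        simp only [mem_union, boxE, mem_RE_false] at h
        refine ⟨?_, ?_⟩
        · rw [hD, mem_coe, mem_dmp, dls_t, mem_sdiff, S0, mem_RE_false]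
          exact ⟨by omega, h.2⟩
        · rw [mem_coe, mem_RE_true]; omega
    have M : Reach K (-m - 8 * ρ, y3) f :=
        meet (a := -m - 8 * ρ) (b := m + 8 * ρ) (c := m + 4 * ρ) (d := m + 8 * ρ)
          (by omega) (by omega) k3 k0
          (by rintro x y ⟨-, h⟩ _ _; simp only [mem_coe, mem_LRE_true] at h; omega)
          (by rintro x y ⟨-, h⟩ _ _; simp only [mem_coe, mem_LRE_false] at h; omega)
          (by
            intro x y h _ _
            rw [mem_dlf, mem_coe, mem_sdiff] at h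
            simp only [mem_union, boxE, mem_RE_true] at h
            omega)
          (by
            intro x y h _ _
            rw [mem_dlt, mem_coe, mem_sdiff] at h
            simp only [mem_union, boxE, mem_RE_false] at h
            omega)
          P3 (by simp only; omega) (by simp only; omega) P0 (by omega) (by omega)
    exact M.symm.trans Q3
  · -- left side
    have hw' : w.1 < -(m:ℤ) - (10 * ρ : ℕ) := by simpa [H985T.beyond] using hw
    have t1 : H985T.tube 2 m ρ c' (10 * ρ) = RE (-m - (10 * ρ : ℕ)) (-m) (c' - ρ) (c' + ρ) := by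
      simp [H985T.tube]
    rw [t1] at P0
    have k0 : dl '' (↑((boxE m ∪ RE m (m + (2 * ρ : ℕ)) (c - ρ) (c + ρ) ∪
        RE (-m - (10 * ρ : ℕ)) (-m) (c' - ρ) (c' + ρ)) \ F) : Set Edg) ⊆ K := by
      rintro ⟨x, y, _ | _⟩ h
      · rw [mem_dlf, mem_coe, mem_sdiff] at h
        simp only [mem_union, boxE, mem_RE_true] at h
        refine ⟨?_, ?_⟩
        · rw [hD, mem_coe, mem_dmp, dls_f, mem_sdiff, S0, mem_RE_true]
          exact ⟨by omega, h.2⟩
        · rw [mem_coe, mem_RE_false]; omega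
      · rw [mem_dlt, mem_coe, mem_sdiff] at h
        simp only [mem_union, boxE, mem_RE_false] at h
        refine ⟨?_, ?_⟩
        · rw [hD, mem_coe, mem_dmp, dls_t, mem_sdiff, S0, mem_RE_false]
          exact ⟨by omega, h.2⟩
        · rw [mem_coe, mem_RE_true]; omega
    have M : Reach K w (x4, -m - 8 * ρ) :=
        meet (a := -m - 8 * ρ) (b := -m - 4 * ρ) (c := -m - 8 * ρ) (d := m + 8 * ρ)
          (by omega) (by omega) k0 k4
          (by
            intro x y h _ _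
            rw [mem_dlt, mem_coe, mem_sdiff] at h
            simp only [mem_union, boxE, mem_RE_false] at h
            omega)
          (by
            intro x y h _ _
            rw [mem_dlf, mem_coe, mem_sdiff] at h
            simp only [mem_union, boxE, mem_RE_true] at h
            omega)
          (by rintro x y ⟨-, h⟩ _ _; simp only [mem_coe, mem_TBE_false] at h; omega)
          (by rintro x y ⟨-, h⟩ _ _; simp only [mem_coe, mem_TBE_true] at h; omega)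
          P0.symm (by omega) (by omega) P4 (by simp only; omega) (by simp only; omega)
    exact (P0.mono k0).trans (M.trans Q4)
  · -- bottom side
    have hw' : w.2 < -(m:ℤ) - (10 * ρ : ℕ) := by simpa [H985T.beyond] using hw
    have t1 : H985T.tube 3 m ρ c' (10 * ρ) = RE (c' - ρ) (c' + ρ) (-m - (10 * ρ : ℕ)) (-m) := by
      simp [H985T.tube]
    rw [t1] at P0
    have k0 : dl '' (↑((boxE m ∪ RE m (m + (2 * ρ : ℕ)) (c - ρ) (c + ρ) ∪
        RE (c' - ρ) (c' + ρ) (-m - (10 * ρ : ℕ)) (-m)) \ F) : Set Edg) ⊆ K := by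
      rintro ⟨x, y, _ | _⟩ h
      · rw [mem_dlf, mem_coe, mem_sdiff] at h
        simp only [mem_union, boxE, mem_RE_true] at h
        refine ⟨?_, ?_⟩
        · rw [hD, mem_coe, mem_dmp, dls_f, mem_sdiff, S0, mem_RE_true]
          exact ⟨by omega, h.2⟩
        · rw [mem_coe, mem_RE_false]; omega
      · rw [mem_dlt, mem_coe, mem_sdiff] at h
        simp only [mem_union, boxE, mem_RE_false] at h
        refine ⟨?_, ?_⟩
        · rw [hD, mem_coe, mem_dmp, dls_t, mem_sdiff, S0, mem_RE_false]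
          exact ⟨by omega, h.2⟩
        · rw [mem_coe, mem_RE_true]; omega
    have M : Reach K (-m - 8 * ρ, y5) w :=
        meet (a := -m - 8 * ρ) (b := m + 8 * ρ) (c := -m - 8 * ρ) (d := -m - 4 * ρ)
          (by omega) (by omega) k5 k0
          (by rintro x y ⟨-, h⟩ _ _; simp only [mem_coe, mem_LRE_true] at h; omega)
          (by rintro x y ⟨-, h⟩ _ _; simp only [mem_coe, mem_LRE_false] at h; omega)
          (by
            intro x y h _ _
            rw [mem_dlf, mem_coe, mem_sdiff] at h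
            simp only [mem_union, boxE, mem_RE_true] at h
            omega)
          (by
            intro x y h _ _
            rw [mem_dlt, mem_coe, mem_sdiff] at h
            simp only [mem_union, boxE, mem_RE_false] at h
            omega)
          P5 (by simp only; omega) (by simp only; omega) P0.symm (by omega) (by omega)
    exact (P0.mono k0).trans (M.symm.trans Q5)

/-! ### probabilities -/

/-- crossing probabilities of rectangles of bounded aspect ratio -/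
theorem hh_low (K : ℕ) : ∃ δ : ℝ, 0 < δ ∧ δ ≤ 1 ∧ ∀ w h : ℤ, 1 ≤ h → 0 < w → w ≤ K * h →
    δ ≤ hh (1/2) w h := by
  have key : ∀ k : ℕ, ∃ n : ℕ, ∀ h : ℤ, 1 ≤ h → (1/2:ℝ)^n ≤ hh (1/2) ((2^k + 1) * h) h := by
    intro k
    induction k with
    | zero =>
      refine ⟨47, fun h hh1 => ?_⟩
      have := H12S.WH.base hh1
      norm_num at this ⊢
      exact this
    | succ k ih =>
      obtain ⟨n, hn⟩ := ih
      refine ⟨2 * n + 1, fun h hh1 => ?_⟩
      have h1 : (1:ℤ) ≤ 2 ^ k := one_le_pow₀ (by norm_num)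
      have := H12S.WH.step (h := h) (w := (2^k + 1) * h) (by omega) (by nlinarith) (hn h hh1)
      have e : (2 ^ k + 1) * h + (2 ^ k + 1) * h - h = (2 ^ (k + 1) + 1) * h := by ring
      rw [e] at this
      exact this
  obtain ⟨n, hn⟩ := key K
  refine ⟨(1/2)^n, by positivity, pow_le_one₀ (by norm_num) (by norm_num), ?_⟩
  intro w h h1 h2 h3
  refine (hn h h1).trans (hh_mono (by norm_num) (by norm_num) h2 ?_ le_rfl)
  have h4 : (K:ℤ) ≤ 2 ^ K := by
    have : K < 2 ^ K := Nat.lt_two_pow_self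
    exact_mod_cast this.le
  nlinarith

theorem okh : Ok (fun _ : Edg => (1/2:ℝ)) := okq (by norm_num) (by norm_num)

/-- edges of the corridor -/
noncomputable def T1 (m ρ : ℕ) (c : ℤ) : Finset Edg :=
  (TBE (m + 8 * ρ + 1) (m + 10 * ρ) (c - ρ) (c + ρ) ∪
    LRE (m + 8 * ρ + 1) (m + 20 * ρ) (c - ρ) (c + ρ)) ∪
    TBE (m + 12 * ρ) (m + 20 * ρ) (-(12 * m)) (c + ρ)

/-- dual edges of the ring -/
noncomputable def R2 (m ρ : ℕ) (c : ℤ) : Finset Edg :=
  ((TBE (m + 4 * ρ) (m + 8 * ρ) (c + 3 * ρ) (m + 8 * ρ) ∪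
    TBE (m + 4 * ρ) (m + 8 * ρ) (-m - 8 * ρ) (c - 3 * ρ)) ∪
   (LRE (-m - 8 * ρ) (m + 8 * ρ) (m + 4 * ρ) (m + 8 * ρ) ∪
    LRE (-m - 8 * ρ) (m + 8 * ρ) (-m - 8 * ρ) (-m - 4 * ρ))) ∪
  (TBE (-m - 8 * ρ) (-m - 4 * ρ) (-m - 8 * ρ) (m + 8 * ρ) ∪
    TBE (-m) m (m + 4 * ρ) (12 * m))

/-- edges crossed by the dual edges of the ring -/
noncomputable def T2 (m ρ : ℕ) (c : ℤ) : Finset Edg := (S0 m).filter (fun e => dl e ∈ R2 m ρ c)

theorem ff_local (m ρ : ℕ) (c : ℤ) (F : Finset Edg) : ff m ρ c F ↔ ff m ρ c (F ∩ T1 m ρ c) := by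
  unfold ff
  rw [← TBc_local (S := T1 m ρ c), ← LRc_local (S := T1 m ρ c), ← TBc_local (S := T1 m ρ c)]
  · exact subset_union_right
  · exact subset_union_right.trans subset_union_left
  · exact subset_union_left.trans subset_union_left

theorem gg_local (m ρ : ℕ) (c : ℤ) (F : Finset Edg) : gg m ρ c F ↔ gg m ρ c (F ∩ R2 m ρ c) := by
  unfold gg
  rw [← TBc_local (S := R2 m ρ c), ← TBc_local (S := R2 m ρ c), ← LRc_local (S := R2 m ρ c),
    ← LRc_local (S := R2 m ρ c), ← TBc_local (S := R2 m ρ c), ← TBc_local (S := R2 m ρ c)]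
  · exact subset_union_right.trans subset_union_right
  · exact subset_union_left.trans subset_union_right
  · exact (subset_union_right.trans subset_union_right).trans subset_union_left
  · exact (subset_union_left.trans subset_union_right).trans subset_union_left
  · exact (subset_union_right.trans subset_union_left).trans subset_union_left
  · exact (subset_union_left.trans subset_union_left).trans subset_union_left

theorem ff_mono (m ρ : ℕ) (c : ℤ) {F G : Finset Edg} (h : F ⊆ G) (hF : ff m ρ c F) :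
    ff m ρ c G := ⟨⟨hF.1.1.mono h, hF.1.2.mono h⟩, hF.2.mono h⟩

theorem gg_mono (m ρ : ℕ) (c : ℤ) {F G : Finset Edg} (h : F ⊆ G) (hF : gg m ρ c F) :
    gg m ρ c G :=
  ⟨⟨⟨hF.1.1.1.mono h, hF.1.1.2.mono h⟩, ⟨hF.1.2.1.mono h, hF.1.2.2.mono h⟩⟩,
    ⟨hF.2.1.mono h, hF.2.2.mono h⟩⟩

theorem harris2 {S : Finset Edg} {A B : Finset Edg → Prop} {x y : ℝ} (hx : 0 ≤ x)
    (hy : 0 ≤ y) (hA : IncrE S A) (hB : IncrE S B) (h1 : x ≤ Pr (fun _ => (1/2:ℝ)) S A)
    (h2 : y ≤ Pr (fun _ => (1/2:ℝ)) S B) :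
    x * y ≤ Pr (fun _ => (1/2:ℝ)) S (fun F => A F ∧ B F) :=
  (mul_le_mul h1 h2 hy (hx.trans h1)).trans (Pr_harris okh hA hB)

theorem pr_ff {B m ρ : ℕ} {c : ℤ} {s : Fin 4} {c' : ℤ} (hg : H985T.Geo B m ρ c s c') {δ : ℝ}
    (hδ : 0 < δ) (h : ∀ w h : ℤ, 1 ≤ h → 0 < w → w ≤ (13 * B + 16 : ℕ) * h →
      δ ≤ hh (1/2) w h) :
    δ * δ * δ ≤ Pr (fun _ => (1/2:ℝ)) (S0 m) (ff m ρ c) := by
  have h1 := hg.ρpos
  have h2 := hg.small
  have h3 := abs_le.1 hg.hc
  have h5 : (m:ℤ) ≤ B * ρ := by exact_mod_cast hg.big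
  have h6 : (0:ℤ) ≤ B * ρ := by positivity
  unfold ff
  refine harris2 (by positivity) hδ.le (fun F G h _ hF => ⟨hF.1.mono h, hF.2.mono h⟩)
    (TBc_incr _ _ _ _ _) (harris2 hδ.le hδ.le (TBc_incr _ _ _ _ _) (LRc_incr _ _ _ _ _) ?_ ?_) ?_
  · rw [pr_TBc]
    · apply h
      · omega
      · omega
      · push_cast; nlinarith
    · rintro ⟨x, y, _ | _⟩ h
      · simp only [S0, mem_RE_false, mem_TBE_false] at h ⊢; omega
      · simp only [S0, mem_RE_true, mem_TBE_true] at h ⊢; omega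
  · rw [pr_LRc]
    · apply h
      · omega
      · omega
      · push_cast; nlinarith
    · rintro ⟨x, y, _ | _⟩ h
      · simp only [S0, mem_RE_false, mem_LRE_false] at h ⊢; omega
      · simp only [S0, mem_RE_true, mem_LRE_true] at h ⊢; omega
  · rw [pr_TBc]
    · apply h
      · omega
      · omega
      · push_cast; nlinarith
    · rintro ⟨x, y, _ | _⟩ h
      · simp only [S0, mem_RE_false, mem_TBE_false] at h ⊢; omega
      · simp only [S0, mem_RE_true, mem_TBE_true] at h ⊢; omega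

theorem pr_gg {B m ρ : ℕ} {c : ℤ} {s : Fin 4} {c' : ℤ} (hg : H985T.Geo B m ρ c s c') {δ : ℝ}
    (hδ : 0 < δ) (h : ∀ w h : ℤ, 1 ≤ h → 0 < w → w ≤ (13 * B + 16 : ℕ) * h →
      δ ≤ hh (1/2) w h) :
    (δ * δ) * (δ * δ) * (δ * δ) ≤
      Pr (fun _ => (1/2:ℝ)) (S0 m) (fun F => gg m ρ c (dmp (S0 m \ F))) := by
  have h1 := hg.ρpos
  have h2 := hg.small
  have h3 := abs_le.1 hg.hc
  have h5 : (m:ℤ) ≤ B * ρ := by exact_mod_cast hg.big
  have h6 : (0:ℤ) ≤ B * ρ := by positivity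
  have e1 : Pr (fun _ => (1/2:ℝ)) (S0 m) (fun F => gg m ρ c (dmp (S0 m \ F))) =
      Pr (fun _ => (1/2:ℝ)) (dmp (S0 m)) (gg m ρ c) := by
    have e2 := Pr_compl (fun _ : Edg => (1/2:ℝ)) (S0 m) (fun F => gg m ρ c (dmp F))
    have e3 : (fun _ : Edg => (1:ℝ) - 1/2) = fun _ => 1/2 := by funext; norm_num
    rw [e3] at e2
    rw [← e2, pr_dmp]
  rw [e1]
  have hsub : ∀ a b c d : ℤ, -(12 * m) ≤ a → b ≤ 12 * m → -(12 * m) ≤ c → d ≤ 12 * m →
      RE a b c d ⊆ dmp (S0 m) := by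
    rintro a b c d h1 h2 h3 h4 ⟨x, y, _ | _⟩ h
    · rw [mem_dmp, dls_f, S0, mem_RE_true]
      rw [mem_RE_false] at h
      omega
    · rw [mem_dmp, dls_t, S0, mem_RE_false]
      rw [mem_RE_true] at h
      omega
  have i1 : ∀ S a b c d a' b' c' d', IncrE S (fun F => TBc a b c d F ∧ TBc a' b' c' d' F) :=
    fun S a b c d a' b' c' d' F G h _ hF => ⟨hF.1.mono h, hF.2.mono h⟩
  have i2 : ∀ S a b c d a' b' c' d', IncrE S (fun F => LRc a b c d F ∧ LRc a' b' c' d' F) :=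
    fun S a b c d a' b' c' d' F G h _ hF => ⟨hF.1.mono h, hF.2.mono h⟩
  unfold gg
  refine harris2 (by positivity) (by positivity) ?_ (i1 _ _ _ _ _ _ _ _ _)
    (harris2 (by positivity) (by positivity) (i1 _ _ _ _ _ _ _ _ _) (i2 _ _ _ _ _ _ _ _ _)
      (harris2 hδ.le hδ.le (TBc_incr _ _ _ _ _) (TBc_incr _ _ _ _ _) ?_ ?_)
      (harris2 hδ.le hδ.le (LRc_incr _ _ _ _ _) (LRc_incr _ _ _ _ _) ?_ ?_))
    (harris2 hδ.le hδ.le (TBc_incr _ _ _ _ _) (TBc_incr _ _ _ _ _) ?_ ?_)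
  · intro F G h _ hF
    exact ⟨⟨hF.1.1.mono h, hF.1.2.mono h⟩, ⟨hF.2.1.mono h, hF.2.2.mono h⟩⟩
  · rw [pr_TBc _ (TBE_subset_RE.trans (hsub _ _ _ _ (by omega) (by omega) (by omega) (by omega)))]
    apply h
    · omega
    · omega
    · push_cast; nlinarith
  · rw [pr_TBc _ (TBE_subset_RE.trans (hsub _ _ _ _ (by omega) (by omega) (by omega) (by omega)))]
    apply h
    · omega
    · omega
    · push_cast; nlinarith
  · rw [pr_LRc _ (LRE_subset_RE.trans (hsub _ _ _ _ (by omega) (by omega) (by omega) (by omega)))]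
    apply h
    · omega
    · omega
    · push_cast; nlinarith
  · rw [pr_LRc _ (LRE_subset_RE.trans (hsub _ _ _ _ (by omega) (by omega) (by omega) (by omega)))]
    apply h
    · omega
    · omega
    · push_cast; nlinarith
  · rw [pr_TBc _ (TBE_subset_RE.trans (hsub _ _ _ _ (by omega) (by omega) (by omega) (by omega)))]
    apply h
    · omega
    · omega
    · push_cast; nlinarith
  · rw [pr_TBc _ (TBE_subset_RE.trans (hsub _ _ _ _ (by omega) (by omega) (by omega) (by omega)))]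
    apply h
    · omega
    · omega
    · push_cast; nlinarith

/-- region of the open arm -/
noncomputable def U1 (m ρ : ℕ) (c : ℤ) : Finset Edg := boxE m ∪ H985T.tube 0 m ρ c (10 * ρ)

/-- region of the dual arm -/
noncomputable def U2 (m ρ : ℕ) (c : ℤ) (s : Fin 4) (c' : ℤ) : Finset Edg :=
  boxE m ∪ H985T.tube 0 m ρ c (2 * ρ) ∪ H985T.tube s m ρ c' (10 * ρ)

theorem tube0 (m ρ : ℕ) (c : ℤ) (L : ℕ) :
    H985T.tube 0 m ρ c L = RE m (m + L) (c - ρ) (c + ρ) := by simp [H985T.tube]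
theorem tube1 (m ρ : ℕ) (c : ℤ) (L : ℕ) :
    H985T.tube 1 m ρ c L = RE (c - ρ) (c + ρ) m (m + L) := by simp [H985T.tube]
theorem tube2 (m ρ : ℕ) (c : ℤ) (L : ℕ) :
    H985T.tube 2 m ρ c L = RE (-m - L) (-m) (c - ρ) (c + ρ) := by simp [H985T.tube]
theorem tube3 (m ρ : ℕ) (c : ℤ) (L : ℕ) :
    H985T.tube 3 m ρ c L = RE (c - ρ) (c + ρ) (-m - L) (-m) := by simp [H985T.tube]

theorem fin4 (s : Fin 4) : s = 0 ∨ s = 1 ∨ s = 2 ∨ s = 3 := by fin_cases s <;> simp

theorem U1_sub_EU (m ρ : ℕ) (c : ℤ) (s : Fin 4) (c' : ℤ) :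
    U1 m ρ c ⊆ H985T.EU m ρ c s c' := subset_union_left

theorem U2_sub_EU (m ρ : ℕ) (c : ℤ) (s : Fin 4) (c' : ℤ) :
    U2 m ρ c s c' ⊆ H985T.EU m ρ c s c' := by
  unfold U2 H985T.EU
  apply union_subset_union _ (Finset.Subset.refl _)
  apply union_subset_union (Finset.Subset.refl _)
  rw [tube0, tube0]
  rintro ⟨x, y, _ | _⟩ h
  · rw [mem_RE_false] at h ⊢; push_cast at h ⊢; omega
  · rw [mem_RE_true] at h ⊢; push_cast at h ⊢; omega

variable {B m ρ : ℕ} {c : ℤ} {s : Fin 4} {c' : ℤ}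

theorem EU_sub_S0 (hg : H985T.Geo B m ρ c s c') : H985T.EU m ρ c s c' ⊆ S0 m := by
  have h1 := hg.ρpos
  have h2 := hg.small
  have h3 := abs_le.1 hg.hc
  have h4 := abs_le.1 hg.hc'
  unfold H985T.EU S0 boxE
  rw [tube0]
  rcases fin4 s with rfl | rfl | rfl | rfl
  · rw [tube0]
    rintro ⟨x, y, _ | _⟩ h
    · simp only [mem_union, mem_RE_false] at h ⊢; push_cast at h ⊢; omega
    · simp only [mem_union, mem_RE_true] at h ⊢; push_cast at h ⊢; omega
  · rw [tube1]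
    rintro ⟨x, y, _ | _⟩ h
    · simp only [mem_union, mem_RE_false] at h ⊢; push_cast at h ⊢; omega
    · simp only [mem_union, mem_RE_true] at h ⊢; push_cast at h ⊢; omega
  · rw [tube2]
    rintro ⟨x, y, _ | _⟩ h
    · simp only [mem_union, mem_RE_false] at h ⊢; push_cast at h ⊢; omega
    · simp only [mem_union, mem_RE_true] at h ⊢; push_cast at h ⊢; omega
  · rw [tube3]
    rintro ⟨x, y, _ | _⟩ h
    · simp only [mem_union, mem_RE_false] at h ⊢; push_cast at h ⊢; omega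
    · simp only [mem_union, mem_RE_true] at h ⊢; push_cast at h ⊢; omega

theorem T1_sub_S0 (hg : H985T.Geo B m ρ c s c') : T1 m ρ c ⊆ S0 m := by
  have h1 := hg.ρpos
  have h2 := hg.small
  have h3 := abs_le.1 hg.hc
  unfold T1 S0
  rintro ⟨x, y, _ | _⟩ h
  · simp only [mem_union, mem_RE_false, mem_TBE_false, mem_LRE_false] at h ⊢; omega
  · simp only [mem_union, mem_RE_true, mem_TBE_true, mem_LRE_true] at h ⊢; omega

theorem T2_sub_S0 (m ρ : ℕ) (c : ℤ) : T2 m ρ c ⊆ S0 m := filter_subset _ _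

theorem disj_T (hg : H985T.Geo B m ρ c s c') : Disjoint (T1 m ρ c) (T2 m ρ c) := by
  have h1 := hg.ρpos
  have h2 := hg.small
  have h3 := abs_le.1 hg.hc
  rw [disjoint_left]
  rintro ⟨x, y, _ | _⟩ h h'
  · simp only [T1, mem_union, mem_TBE_false, mem_LRE_false] at h
    simp only [T2, mem_filter, dl_f, R2, mem_union, mem_TBE_true, mem_LRE_true] at h'
    omega
  · simp only [T1, mem_union, mem_TBE_true, mem_LRE_true] at h
    simp only [T2, mem_filter, dl_t, R2, mem_union, mem_TBE_false, mem_LRE_false] at h'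
    omega

theorem disj_1 (hg : H985T.Geo B m ρ c s c') : ∀ e ∈ U1 m ρ c, e ∉ T2 m ρ c := by
  have h1 := hg.ρpos
  have h2 := hg.small
  have h3 := abs_le.1 hg.hc
  rintro ⟨x, y, _ | _⟩ h h'
  · simp only [U1, boxE, tube0, mem_union, mem_RE_false] at h
    simp only [T2, mem_filter, dl_f, R2, mem_union, mem_TBE_true, mem_LRE_true] at h'
    push_cast at h
    omega
  · simp only [U1, boxE, tube0, mem_union, mem_RE_true] at h
    simp only [T2, mem_filter, dl_t, R2, mem_union, mem_TBE_false, mem_LRE_false] at h'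
    push_cast at h
    omega

theorem disj_2 (hg : H985T.Geo B m ρ c s c') : ∀ e ∈ U2 m ρ c s c', e ∉ T1 m ρ c := by
  have h1 := hg.ρpos
  have h2 := hg.small
  have h3 := abs_le.1 hg.hc
  have h4 := abs_le.1 hg.hc'
  rcases fin4 s with rfl | rfl | rfl | rfl
  · have h5 := le_abs.1 (hg.sep rfl)
    rintro ⟨x, y, _ | _⟩ h h'
    · simp only [U2, boxE, tube0, mem_union, mem_RE_false] at h
      simp only [T1, mem_union, mem_TBE_false, mem_LRE_false] at h'
      push_cast at h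
      omega
    · simp only [U2, boxE, tube0, mem_union, mem_RE_true] at h
      simp only [T1, mem_union, mem_TBE_true, mem_LRE_true] at h'
      push_cast at h
      omega
  · rintro ⟨x, y, _ | _⟩ h h'
    · simp only [U2, boxE, tube0, tube1, mem_union, mem_RE_false] at h
      simp only [T1, mem_union, mem_TBE_false, mem_LRE_false] at h'
      push_cast at h
      omega
    · simp only [U2, boxE, tube0, tube1, mem_union, mem_RE_true] at h
      simp only [T1, mem_union, mem_TBE_true, mem_LRE_true] at h'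
      push_cast at h
      omega
  · rintro ⟨x, y, _ | _⟩ h h'
    · simp only [U2, boxE, tube0, tube2, mem_union, mem_RE_false] at h
      simp only [T1, mem_union, mem_TBE_false, mem_LRE_false] at h'
      push_cast at h
      omega
    · simp only [U2, boxE, tube0, tube2, mem_union, mem_RE_true] at h
      simp only [T1, mem_union, mem_TBE_true, mem_LRE_true] at h'
      push_cast at h
      omega
  · rintro ⟨x, y, _ | _⟩ h h'
    · simp only [U2, boxE, tube0, tube3, mem_union, mem_RE_false] at h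
      simp only [T1, mem_union, mem_TBE_false, mem_LRE_false] at h'
      push_cast at h
      omega
    · simp only [U2, boxE, tube0, tube3, mem_union, mem_RE_true] at h
      simp only [T1, mem_union, mem_TBE_true, mem_LRE_true] at h'
      push_cast at h
      omega

theorem EV_sub {f : Vtx} {F G : Finset Edg} (h1 : ∀ e ∈ F, e ∈ U1 m ρ c → e ∈ G)
    (h2 : ∀ e ∈ G, e ∈ U2 m ρ c s c' → e ∈ F) (h : H985T.EV m ρ c s c' f F) :
    H985T.EV m ρ c s c' f G := by
  obtain ⟨⟨z, hz, hr⟩, ⟨w, hw, hr'⟩⟩ := h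
  refine ⟨⟨z, hz, hr.mono ?_⟩, ⟨w, hw, hr'.mono ?_⟩⟩
  · rintro e ⟨he1, he2⟩
    exact ⟨h1 e he1 he2, he2⟩
  · intro e he
    rw [mem_coe, mem_sdiff] at he ⊢
    exact ⟨he.1, fun hG => he.2 (h2 e hG he.1)⟩

theorem pr_EV_local (hg : H985T.Geo B m ρ c s c') (f : Vtx) :
    Pr (fun _ => (1/2:ℝ)) (H985T.EU m ρ c s c') (H985T.EV m ρ c s c' f) =
      Pr (fun _ => (1/2:ℝ)) (S0 m) (H985T.EV m ρ c s c' f) := by
  symm
  apply Pr_local (EU_sub_S0 hg)
  intro F _
  constructor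
  · apply EV_sub
    · intro e he hU
      exact mem_inter.2 ⟨he, U1_sub_EU _ _ _ _ _ hU⟩
    · intro e he _
      exact (mem_inter.1 he).1
  · apply EV_sub
    · intro e he hU
      exact (mem_inter.1 he).1
    · intro e he hU
      exact mem_inter.2 ⟨he, U2_sub_EU _ _ _ _ _ hU⟩

theorem main (B : ℕ) : ∃ δ : ℝ, 0 < δ ∧ ∀ {m ρ : ℕ} {c : ℤ} {s : Fin 4} {c' : ℤ} {f : Vtx},
    H985T.Geo B m ρ c s c' → (-1 ≤ f.1 ∧ f.1 ≤ 0) → (-1 ≤ f.2 ∧ f.2 ≤ 0) →
    Pr (fun _ => (1/2:ℝ)) (H985T.EU m ρ c s c') (H985T.EV m ρ c s c' f) * δ ≤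
      Pr (fun _ => (1/2:ℝ)) (S0 m) (RAg m f) := by
  obtain ⟨δ, hδ, -, hlow⟩ := hh_low (13 * B + 16)
  refine ⟨(δ * δ * δ) * ((δ * δ) * (δ * δ) * (δ * δ)), by positivity, ?_⟩
  intro m ρ c s c' f hg hf1 hf2
  have a1 := pr_ff hg hδ hlow
  have a2 := pr_gg hg hδ hlow
  rw [pr_EV_local hg]
  have a0 : 0 ≤ Pr (fun _ => (1/2:ℝ)) (S0 m) (H985T.EV m ρ c s c' f) := Pr_nonneg okh _ _
  have a3 := harris_signed okh (T1_sub_S0 hg) (T2_sub_S0 m ρ c) (disj_T hg)
    (N := H985T.EV m ρ c s c' f) (f := ff m ρ c) (g := fun F => gg m ρ c (dmp (S0 m \ F)))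
    (fun F _ => ff_local m ρ c F) (fun F G h => ff_mono m ρ c h)
    (by
      intro F _
      rw [gg_local, gg_local m ρ c (dmp (S0 m \ (F ∩ T2 m ρ c)))]
      have e : dmp (S0 m \ F) ∩ R2 m ρ c = dmp (S0 m \ (F ∩ T2 m ρ c)) ∩ R2 m ρ c := by
        ext e
        simp only [mem_inter, mem_dmp, mem_sdiff]
        constructor
        · rintro ⟨⟨h1, h2⟩, h3⟩
          exact ⟨⟨h1, fun h => h2 h.1⟩, h3⟩
        · rintro ⟨⟨h1, h2⟩, h3⟩
          refine ⟨⟨h1, fun h => h2 ⟨h, ?_⟩⟩, h3⟩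
          simp only [T2, mem_filter, Equiv.apply_symm_apply]
          exact ⟨h1, h3⟩
      rw [e])
    (by
      intro F G h hG
      refine gg_mono m ρ c ?_ hG
      intro e he
      rw [mem_dmp, mem_sdiff] at he ⊢
      exact ⟨he.1, fun h' => he.2 (h h')⟩)
    (by
      intro F G _ _ h1 h2 h3
      apply EV_sub
      · intro e he hU
        have hn := disj_1 hg e hU
        by_cases ht : e ∈ T1 m ρ c
        · exact (mem_inter.1 (h2 (mem_inter.2 ⟨he, ht⟩))).1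
        · have : e ∈ F \ (T1 m ρ c ∪ T2 m ρ c) := by
            rw [mem_sdiff, mem_union]
            exact ⟨he, fun h => h.elim ht hn⟩
          rw [h1, mem_sdiff] at this
          exact this.1
      · intro e he hU
        have hn := disj_2 hg e hU
        by_cases ht : e ∈ T2 m ρ c
        · exact (mem_inter.1 (h3 (mem_inter.2 ⟨he, ht⟩))).1
        · have : e ∈ G \ (T1 m ρ c ∪ T2 m ρ c) := by
            rw [mem_sdiff, mem_union]
            exact ⟨he, fun h => h.elim hn ht⟩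
          rw [← h1, mem_sdiff] at this
          exact this.1)
  have a4 : (δ * δ * δ) * ((δ * δ) * (δ * δ) * (δ * δ)) ≤
      Pr (fun _ => (1/2:ℝ)) (S0 m) (ff m ρ c) *
        Pr (fun _ => (1/2:ℝ)) (S0 m) (fun F => gg m ρ c (dmp (S0 m \ F))) :=
    mul_le_mul a1 a2 (by positivity) (Pr_nonneg okh _ _)
  refine (mul_le_mul_of_nonneg_left a4 a0).trans (a3.trans ?_)
  apply Pr_mono okh
  rintro F _ ⟨⟨⟨z, hz, hr⟩, ⟨w, hw, hr'⟩⟩, h1, h2⟩
  exact ⟨open_part hg h1 hz hr, dual_part hg h2 hf1 hf2 hw hr'⟩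

/-! ### reflections -/

theorem dmap {φ : Edg → Edg} {ψ : Vtx → Vtx}
    (hφ : ∀ e, (dsrc (φ e) = ψ (dsrc e) ∧ dtgt (φ e) = ψ (dtgt e)) ∨
      (dsrc (φ e) = ψ (dtgt e) ∧ dtgt (φ e) = ψ (dsrc e)))
    {F : Set Edg} {u v : Vtx} (h : DReach F u v) : DReach (φ '' F) (ψ u) (ψ v) := by
  induction h with
  | refl => exact DReach.refl _ _
  | tail _ hs ih =>
    refine ih.trans (DAdj.reach ?_)
    obtain ⟨e, he, hcase⟩ := hs
    refine ⟨φ e, Set.mem_image_of_mem _ he, ?_⟩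
    rcases hφ e with ⟨h1, h2⟩ | ⟨h1, h2⟩ <;> rcases hcase with ⟨h3, h4⟩ | ⟨h3, h4⟩ <;>
      rw [h1, h2, h3, h4] <;> simp

theorem dmap_rfy {F : Set Edg} {u v : Vtx} (h : DReach F u v) :
    DReach ((rfy 0).φ '' F) (u.1, -1 - u.2) (v.1, -1 - v.2) := by
  refine dmap (ψ := fun w => (w.1, -1 - w.2)) ?_ h
  rintro ⟨x, y, _ | _⟩
  · left
    rw [rfy_φf]
    constructor
    · show ((x - 1, 0 - y - 1) : Vtx) = (x - 1, -1 - y)
      congr 1; ring
    · show ((x, 0 - y - 1) : Vtx) = (x, -1 - y)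
      congr 1; ring
  · right
    rw [rfy_φt]
    constructor
    · show ((x, 0 - y - 1) : Vtx) = (x, -1 - y)
      congr 1; ring
    · show ((x, 0 - y) : Vtx) = (x, -1 - (y - 1))
      congr 1; ring

theorem dmap_rfx {F : Set Edg} {u v : Vtx} (h : DReach F u v) :
    DReach ((rfx 0).φ '' F) (-1 - u.1, u.2) (-1 - v.1, v.2) := by
  refine dmap (ψ := fun w => (-1 - w.1, w.2)) ?_ h
  rintro ⟨x, y, _ | _⟩
  · right
    rw [rfx_φf]
    constructor
    · show ((0 - x - 1, y) : Vtx) = (-1 - x, y)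
      congr 1; ring
    · show ((0 - x, y) : Vtx) = (-1 - (x - 1), y)
      congr 1; ring
  · left
    rw [rfx_φt]
    constructor
    · show ((0 - x - 1, y - 1) : Vtx) = (-1 - x, y - 1)
      congr 1; ring
    · show ((0 - x - 1, y) : Vtx) = (-1 - x, y)
      congr 1; ring

theorem mp_union (g : LSym) (A B : Finset Edg) : g.mp (A ∪ B) = g.mp A ∪ g.mp B :=
  map_union _ _

theorem rfy_box (m : ℕ) : (rfy 0).mp (boxE m) = boxE m := by
  unfold boxE
  rw [rfy_RE]
  congr 1 <;> ring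

theorem rfy_tube0 (m ρ : ℕ) (c : ℤ) (L : ℕ) :
    (rfy 0).mp (H985T.tube 0 m ρ c L) = H985T.tube 0 m ρ (-c) L := by
  rw [tube0, tube0, rfy_RE]
  congr 1 <;> ring

theorem pr_refl {s' : Fin 4} {c'' : ℤ}
    (hT : ∀ L : ℕ, (rfy 0).mp (H985T.tube s m ρ c' L) = H985T.tube s' m ρ c'' L)
    (hb : ∀ (L : ℕ) (w : Vtx), H985T.beyond s m L w → H985T.beyond s' m L (w.1, -1 - w.2)) :
    Pr (fun _ => (1/2:ℝ)) (H985T.EU m ρ c s c') (H985T.EV m ρ c s c' (-1, -1)) ≤
      Pr (fun _ => (1/2:ℝ)) (H985T.EU m ρ (-c) s' c'') (H985T.EV m ρ (-c) s' c'' (-1, 0)) := by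
  have e1 : H985T.EU m ρ (-c) s' c'' = (rfy 0).mp (H985T.EU m ρ c s c') := by
    unfold H985T.EU
    rw [mp_union, mp_union, rfy_box, rfy_tube0, hT]
  rw [e1, LSym.pr]
  apply Pr_mono okh
  rintro F _ ⟨⟨z, hz, hr⟩, ⟨w, hw, hr'⟩⟩
  refine ⟨⟨((rfy 0).ψ z), ?_, ?_⟩, ⟨(w.1, -1 - w.2), hb _ _ hw, ?_⟩⟩
  · obtain ⟨z1, z2⟩ := z
    simpa using hz
  · have := (rfy 0).reach hr
    rw [LSym.image_inter, mp_union, rfy_box, rfy_tube0, rfy_ψ] at this
    simpa using this
  · have := dmap_rfy hr'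
    rw [← LSym.coe_mp, LSym.mp_sdiff, mp_union, mp_union, rfy_box, rfy_tube0, hT] at this
    simpa using this

theorem refl_EV (hg : H985T.Geo B m ρ c s c') : ∃ (s' : Fin 4) (c'' : ℤ),
    H985T.Geo B m ρ (-c) s' c'' ∧
    Pr (fun _ => (1/2:ℝ)) (H985T.EU m ρ c s c') (H985T.EV m ρ c s c' (-1, -1)) ≤
      Pr (fun _ => (1/2:ℝ)) (H985T.EU m ρ (-c) s' c'') (H985T.EV m ρ (-c) s' c'' (-1, 0)) := by
  obtain ⟨g1, g2, g3, g4, g5, g6⟩ := hg
  rcases fin4 s with rfl | rfl | rfl | rfl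
  · refine ⟨0, -c', ⟨g1, g2, g3, by rwa [abs_neg], by rwa [abs_neg], fun _ => ?_⟩,
      pr_refl (fun L => ?_) (fun L w hw => ?_)⟩
    · have := g6 rfl
      have e : -c - -c' = -(c - c') := by ring
      rw [e, abs_neg]
      exact this
    · exact rfy_tube0 m ρ c' L
    · simpa [H985T.beyond] using hw
  · refine ⟨3, c', ⟨g1, g2, g3, by rwa [abs_neg], g5, fun h => absurd h (by decide)⟩,
      pr_refl (fun L => ?_) (fun L w hw => ?_)⟩
    · rw [tube1, tube3, rfy_RE]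
      congr 1 <;> ring
    · have : (m:ℤ) + L ≤ w.2 := by simpa [H985T.beyond] using hw
      have h2 : -1 - w.2 < -(m:ℤ) - L := by omega
      simpa [H985T.beyond] using h2
  · refine ⟨2, -c', ⟨g1, g2, g3, by rwa [abs_neg], by rwa [abs_neg], fun h => absurd h (by decide)⟩,
      pr_refl (fun L => ?_) (fun L w hw => ?_)⟩
    · rw [tube2, tube2, rfy_RE]
      congr 1 <;> ring
    · simpa [H985T.beyond] using hw
  · refine ⟨1, c', ⟨g1, g2, g3, by rwa [abs_neg], g5, fun h => absurd h (by decide)⟩,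
      pr_refl (fun L => ?_) (fun L w hw => ?_)⟩
    · rw [tube1, tube3, rfy_RE]
      congr 1 <;> ring
    · have : w.2 < -(m:ℤ) - L := by simpa [H985T.beyond] using hw
      have h2 : (m:ℤ) + L ≤ -1 - w.2 := by omega
      simpa [H985T.beyond] using h2

theorem RA_of_RAg {m : ℕ} {F : Finset Edg} (h : RAg m (0, 0) F) : RA (0, 0) m ↑F := by
  obtain ⟨⟨w, hw, hr⟩, ⟨g, hg, hr'⟩⟩ := h
  refine ⟨⟨w, ?_, hr.mono ?_⟩, ⟨g, ?_, hr'.mono ?_⟩⟩
  · rw [hw]; simp
  · rintro ⟨x, y, _ | _⟩ ⟨h1, h2⟩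
    · refine ⟨h1, ?_⟩
      simp only [PR, mem_coe, mem_RE_false] at h2 ⊢; omega
    · refine ⟨h1, ?_⟩
      simp only [PR, mem_coe, mem_RE_true] at h2 ⊢; omega
  · rw [hg]; simp
  · rintro ⟨x, y, _ | _⟩ ⟨h1, h2⟩
    · refine ⟨?_, h2⟩
      simp only [dE, DR, Set.mem_ofPred_eq, dl_f, mem_RE_true] at h1 ⊢; omega
    · refine ⟨?_, h2⟩
      simp only [dE, DR, Set.mem_ofPred_eq, dl_t, mem_RE_false] at h1 ⊢; omega

theorem RA_of_RAg' {m : ℕ} (_hm : 1 ≤ m) {F : Finset Edg} (h : RAg m (-1, 0) F) :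
    RA (0, 0) m ↑((rfx 0).mp F) := by
  obtain ⟨⟨w, hw, hr⟩, ⟨g, hg, hr'⟩⟩ := h
  have h1 := (rfx 0).reach hr
  rw [LSym.image_inter, rfx_ψ, rfx_RE] at h1
  have h2 := dmap_rfx hr'
  refine ⟨⟨(rfx 0).ψ w, ?_, ?_⟩, ⟨(-1 - g.1, g.2), ?_, ?_⟩⟩
  · obtain ⟨w1, w2⟩ := w
    simp only at hw
    rw [rfx_ψ, hw]; simp
  · have h3 : Reach ((↑((rfx 0).mp F) : Set Edg) ∩
        ↑(RE (0 - 2 * (m:ℤ)) (0 - -(2 * m)) (-(12 * m)) (2 * m))) (0, 0) ((rfx 0).ψ w) := by
      simpa using h1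
    refine h3.mono ?_
    rintro ⟨x, y, _ | _⟩ ⟨h4, h5⟩
    · refine ⟨h4, ?_⟩
      simp only [PR, mem_coe, mem_RE_false] at h5 ⊢; omega
    · refine ⟨h4, ?_⟩
      simp only [PR, mem_coe, mem_RE_true] at h5 ⊢; omega
  · simp only [hg]; ring
  · have h3 : DReach ((rfx 0).φ '' (dE (RE (-(2 * m)) (2 * m) (-(2 * m)) (12 * m)) \ ↑F)) (0, 0)
        (-1 - g.1, g.2) := by
      simpa using h2
    refine h3.mono ?_
    rintro e ⟨⟨x, y, _ | _⟩, ⟨h4, h5⟩, rfl⟩
    · refine ⟨?_, ?_⟩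
      · simp only [dE, DR, Set.mem_ofPred_eq, dl_f, mem_RE_true, rfx_φf] at h4 ⊢; omega
      · intro h6
        apply h5
        rw [LSym.coe_mp] at h6
        obtain ⟨e', he', h7⟩ := h6
        have := (rfx 0).φ.injective h7
        rwa [this] at he'
    · refine ⟨?_, ?_⟩
      · simp only [dE, DR, Set.mem_ofPred_eq, dl_t, mem_RE_false, rfx_φt] at h4 ⊢; omega
      · intro h6
        apply h5
        rw [LSym.coe_mp] at h6
        obtain ⟨e', he', h7⟩ := h6
        have := (rfx 0).φ.injective h7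
        rwa [this] at he'

theorem rfx_S0 (m : ℕ) : (rfx 0).mp (S0 m) = S0 m := by
  unfold S0
  rw [rfx_RE]
  congr 1 <;> ring

/-- `RA` only depends on the edges of `S0`. -/
theorem pr_RA_local {m : ℕ} (_hm : 1 ≤ m) : Pr (fun _ => (1/2:ℝ))
      (RE (-(13 * m : ℕ)) (14 * m : ℕ) (-(13 * m : ℕ)) (14 * m : ℕ))
      (fun F => RA (0, 0) m (↑F)) =
    Pr (fun _ => (1/2:ℝ)) (S0 m) (fun F => RA (0, 0) m (↑F)) := by
  apply Pr_local
  · unfold S0
    rintro ⟨x, y, _ | _⟩ h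
    · rw [mem_RE_false] at h ⊢; push_cast; omega
    · rw [mem_RE_true] at h ⊢; push_cast; omega
  · intro F _
    unfold RA
    have e1 : (↑F : Set Edg) ∩ ↑(PR (0, 0) m) = ↑(F ∩ S0 m) ∩ ↑(PR (0, 0) m) := by
      rw [coe_inter_eq]
      unfold PR S0
      rintro ⟨x, y, _ | _⟩ h
      · rw [mem_RE_false] at h ⊢; simp only at h; omega
      · rw [mem_RE_true] at h ⊢; simp only at h; omega
    have e2 : dE (DR (0, 0) m) \ (↑F : Set Edg) = dE (DR (0, 0) m) \ ↑(F ∩ S0 m) := by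
      ext ⟨x, y, _ | _⟩
      · simp only [Set.mem_sdiff, dE, DR, Set.mem_ofPred_eq, dl_f, mem_RE_true, coe_inter,
          Set.mem_inter_iff, mem_coe, S0, mem_RE_false]
        constructor
        · rintro ⟨h1, h2⟩
          exact ⟨h1, fun h => h2 h.1⟩
        · rintro ⟨h1, h2⟩
          refine ⟨h1, fun h => h2 ⟨h, ?_⟩⟩
          omega
      · simp only [Set.mem_sdiff, dE, DR, Set.mem_ofPred_eq, dl_t, mem_RE_false, coe_inter,
          Set.mem_inter_iff, mem_coe, S0, mem_RE_true]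
        constructor
        · rintro ⟨h1, h2⟩
          exact ⟨h1, fun h => h2 h.1⟩
        · rintro ⟨h1, h2⟩
          refine ⟨h1, fun h => h2 ⟨h, ?_⟩⟩
          omega
    rw [e1, e2]

/-! ### small scales -/

theorem pr_ge_single {S F0 : Finset Edg} (h : F0 ⊆ S) {A : Finset Edg → Prop} (hA : A F0) :
    (1/2:ℝ)^S.card ≤ Pr (fun _ => (1/2:ℝ)) S A := by
  unfold Pr Ex
  have h0 : ∀ F ∈ S.powerset, 0 ≤ (∏ _e ∈ F, (1/2:ℝ)) * (∏ _e ∈ S \ F, (1 - 1/2:ℝ)) * ind (A F) := by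
    intro F _
    exact mul_nonneg (mul_nonneg (prod_nonneg fun _ _ => by norm_num)
      (prod_nonneg fun _ _ => by norm_num)) (ind_nonneg _)
  refine le_trans (le_of_eq ?_) (single_le_sum h0 (mem_powerset.2 h))
  rw [ind_of hA, prod_const, prod_const, mul_one]
  have : (1 - 1/2:ℝ) = 1/2 := by norm_num
  rw [this, ← pow_add]
  congr 1
  have := card_sdiff_add_card_eq_card h
  omega

theorem RA_single (a : ℕ) : RA (0, 0) a ↑(RE 0 0 (-(12 * a)) 0) := by
  refine ⟨⟨(0, -(12 * a)), by simp, ?_⟩, ⟨(0, 12 * a), by simp, ?_⟩⟩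
  · have : ∀ n : ℕ, n ≤ 12 * a → Reach (↑(RE 0 0 (-(12 * a)) 0) ∩ ↑(PR (0, 0) a)) (0, 0)
        (0, -(n:ℤ)) := by
      intro n
      induction n with
      | zero => intro _; simpa using Reach.refl _ _
      | succ n ih =>
        intro hn
        refine (ih (by omega)).trans (Adj.reach ⟨(0, -((n:ℤ) + 1), false), ⟨?_, ?_⟩, Or.inr ⟨?_, ?_⟩⟩)
        · rw [mem_coe, mem_RE_false]; omega
        · simp only [PR, mem_coe, mem_RE_false]; omega
        · simp
        · simp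
    have h := this (12 * a) le_rfl
    push_cast at h
    exact h
  · have : ∀ n : ℕ, n ≤ 12 * a → DReach (dE (DR (0, 0) a) \ ↑(RE 0 0 (-(12 * a)) 0)) (0, 0)
        (0, (n:ℤ)) := by
      intro n
      induction n with
      | zero => intro _; simpa using DReach.refl _ _
      | succ n ih =>
        intro hn
        refine (ih (by omega)).trans (DAdj.reach ⟨(0, (n:ℤ) + 1, true), ⟨?_, ?_⟩, Or.inl ⟨?_, ?_⟩⟩)
        · simp only [dE, DR, Set.mem_ofPred_eq, dl_t, mem_RE_false]; omega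
        · rw [mem_coe, mem_RE_true]; omega
        · simp
        · simp
    have h := this (12 * a) le_rfl
    push_cast at h
    exact h

end LEV

theorem lowA_of_EV {B m0 : ℕ} {κ s : ℝ} (hκ : 0 < κ) (hs : 0 ≤ s) (h : EVlow B m0 κ s) :
    ∃ κ' : ℝ, 0 < κ' ∧ LowA κ' s := by
  obtain ⟨δ, hδ, hmain⟩ := LEV.main B
  set Sm : ℕ → Finset Edg := fun a =>
    RE (-(13 * a : ℕ)) (14 * a : ℕ) (-(13 * a : ℕ)) (14 * a : ℕ) with hSm
  refine ⟨min (κ * δ) ((1/2:ℝ)^(Sm m0).card), lt_min (mul_pos hκ hδ) (by positivity), ?_⟩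
  intro a ha
  have ha1 : (1:ℝ) ≤ a := by exact_mod_cast ha
  have hpow0 : 0 ≤ (a:ℝ) ^ (-s) := Real.rpow_nonneg (by linarith) _
  rcases Nat.lt_or_ge a m0 with hlt | hge
  · -- small scales
    have hpow1 : (a:ℝ) ^ (-s) ≤ 1 := Real.rpow_le_one_of_one_le_of_nonpos ha1 (by linarith)
    have hcard : (Sm a).card ≤ (Sm m0).card := by
      apply card_le_card
      simp only [hSm]
      rintro ⟨x, y, _ | _⟩ h
      · rw [mem_RE_false] at h ⊢; push_cast at h ⊢; omega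
      · rw [mem_RE_true] at h ⊢; push_cast at h ⊢; omega
    calc min (κ * δ) ((1/2:ℝ)^(Sm m0).card) * (a:ℝ) ^ (-s)
        ≤ (1/2:ℝ)^(Sm m0).card * 1 :=
          mul_le_mul (min_le_right _ _) hpow1 hpow0 (by positivity)
      _ ≤ (1/2:ℝ)^(Sm a).card := by
          rw [mul_one]
          exact pow_le_pow_of_le_one (by norm_num) (by norm_num) hcard
      _ ≤ _ := by
          apply LEV.pr_ge_single (F0 := RE 0 0 (-(12 * a)) 0)
          · simp only [hSm]
            rintro ⟨x, y, _ | _⟩ h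
            · rw [mem_RE_false] at h ⊢; push_cast; omega
            · rw [mem_RE_true] at h ⊢; push_cast; omega
          · exact LEV.RA_single a
  · -- large scales
    obtain ⟨ρ, c, sd, c', f0, hf0, hgeo, hpr⟩ := h a hge
    rw [LEV.pr_RA_local ha]
    calc min (κ * δ) ((1/2:ℝ)^(Sm m0).card) * (a:ℝ) ^ (-s)
        ≤ (κ * δ) * (a:ℝ) ^ (-s) := mul_le_mul_of_nonneg_right (min_le_left _ _) hpow0
      _ = (κ * (a:ℝ) ^ (-s)) * δ := by ring
      _ ≤ Pr (fun _ => (1/2:ℝ)) (H985T.EU a ρ c sd c') (H985T.EV a ρ c sd c' (f0, f0)) * δ :=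
          mul_le_mul_of_nonneg_right hpr hδ.le
      _ ≤ _ := by
          rcases hf0 with rfl | rfl
          · refine (hmain hgeo (by norm_num) (by norm_num)).trans ?_
            exact Pr_mono LEV.okh fun F _ hF => LEV.RA_of_RAg hF
          · obtain ⟨s', c'', hg', hle⟩ := LEV.refl_EV hgeo
            refine (mul_le_mul_of_nonneg_right hle hδ.le).trans ?_
            refine (hmain hg' (by norm_num) (by norm_num)).trans ?_
            have e := LSym.pr (rfx 0) (1/2) (LEV.S0 a) (fun F => RA (0, 0) a (↑F))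
            rw [LEV.rfx_S0] at e
            rw [e]
            exact Pr_mono LEV.okh fun F _ hF => LEV.RA_of_RAg' ha hF

end H984P
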