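import Pool.Agent.H984R3.Per.Defs
import Pool.Agent.H12R2.Sep.Markov

/-!
P10: Markov property.
-/

namespace H984P

open H974 Finset H342P

theorem markov_gen {E : Type*} [DecidableEq E] {p : E → ℝ} (hp : Ok p) {S : Finset E}
    {K : Finset E → Finset E} (hKS : ∀ F, F ⊆ S → K F ⊆ S) (hstop : H12S.Stop S K)
    {A B : Finset E → Prop}
    (hA : ∀ F F', F ⊆ S → F' ⊆ S → F ∩ K F = F' ∩ K F → A F → A F') {β : ℝ}
    (hβ : ∀ F0, F0 ⊆ S → A F0 → Pr p (S \ K F0) (fun G => B ((F0 ∩ K F0) ∪ G)) ≤ β) :
    Pr p S (fun F => A F ∧ B F) ≤ β * Pr p S A := by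
  classical
  set Q : Finset (Finset E × Finset E) := S.powerset ×ˢ S.powerset with hQ
  have hdec : ∀ (g : Finset E → ℝ), Ex p S g =
      ∑ ko ∈ Q, Ex p S (fun F => ind (K F = ko.1 ∧ F ∩ ko.1 = ko.2) * g F) := by
    intro g
    rw [← Ex_sum]
    apply Ex_congr
    intro F hF
    rw [← Finset.sum_mul]
    have h1 : ∑ ko ∈ Q, ind (K F = ko.1 ∧ F ∩ ko.1 = ko.2) = 1 := by
      rw [Finset.sum_eq_single (K F, F ∩ K F)]
      · exact ind_of ⟨rfl, rfl⟩
      · rintro ⟨k, o⟩ _ hne
        apply ind_not_of
        rintro ⟨h2, h3⟩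
        apply hne
        simp only at h2 h3
        rw [← h3, ← h2]
      · intro hne
        exfalso
        apply hne
        rw [hQ, Finset.mem_product, Finset.mem_powerset, Finset.mem_powerset]
        exact ⟨hKS F hF, Finset.inter_subset_left.trans hF⟩
    rw [h1, one_mul]
  have hterm : ∀ ko ∈ Q,
      Ex p S (fun F => ind (K F = ko.1 ∧ F ∩ ko.1 = ko.2) * ind (A F ∧ B F)) ≤
      β * Ex p S (fun F => ind (K F = ko.1 ∧ F ∩ ko.1 = ko.2) * ind (A F)) := by
    rintro ⟨k, o⟩ hko
    rw [hQ, Finset.mem_product, Finset.mem_powerset, Finset.mem_powerset] at hko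
    simp only at hko ⊢
    by_cases hgood : ∃ F0, F0 ⊆ S ∧ (K F0 = k ∧ F0 ∩ k = o) ∧ A F0
    · obtain ⟨F0, hF0, ⟨hk0, ho0⟩, hA0⟩ := hgood
      have key : ∀ F, F ⊆ S → ((K F = k ∧ F ∩ k = o) ↔ F ∩ k = o) := by
        intro F hF
        refine ⟨fun h => h.2, fun h => ⟨?_, h⟩⟩
        rw [← hk0]
        apply hstop F0 F hF0 hF
        rw [hk0, ho0, h]
      have keyA : ∀ F, F ⊆ S → F ∩ k = o → A F := by
        intro F hF h
        apply hA F0 F hF0 hF _ hA0
        rw [hk0, ho0, h]
      have hsplit : ∀ F : Finset E, F ∩ k = o → F = o ∪ (F \ k) := by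
        intro F h
        rw [← h]
        ext x
        simp only [Finset.mem_union, Finset.mem_inter, Finset.mem_sdiff]
        tauto
      have e1 : Ex p S (fun F => ind (K F = k ∧ F ∩ k = o) * ind (A F ∧ B F)) =
          Ex p S (fun F => ind (F ∩ k = o) * ind (B (o ∪ (F \ k)))) := by
        apply Ex_congr
        intro F hF
        by_cases h : F ∩ k = o
        · have h2 := (key F hF).mpr h
          have h3 := keyA F hF h
          rw [ind_of h2, ind_of h, ← hsplit F h]
          congr 1
          exact ind_congr ⟨fun h4 => h4.2, fun h4 => ⟨h3, h4⟩⟩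
        · rw [ind_not_of h, ind_not_of (fun h2 => h h2.2)]
          ring
      have e2 : Ex p S (fun F => ind (K F = k ∧ F ∩ k = o) * ind (A F)) =
          Ex p S (fun F => ind (F ∩ k = o)) := by
        apply Ex_congr
        intro F hF
        by_cases h : F ∩ k = o
        · have h2 := (key F hF).mpr h
          have h3 := keyA F hF h
          rw [ind_of h2, ind_of h, ind_of h3]
          ring
        · rw [ind_not_of h, ind_not_of (fun h2 => h h2.2)]
          ring
      rw [e1, e2]
      have hsd : ∀ F, F ⊆ S → (F ∩ (S \ k)) \ k = F \ k := by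
        intro F hF
        ext x
        simp only [Finset.mem_sdiff, Finset.mem_inter]
        constructor
        · rintro ⟨⟨h1, _⟩, h2⟩; exact ⟨h1, h2⟩
        · rintro ⟨h1, h2⟩; exact ⟨⟨h1, hF h1, h2⟩, h2⟩
      have e3 := Ex_mul_indep (p := p) (U := S) (S := k) (T := S \ k) hko.1 Finset.sdiff_subset
        Finset.disjoint_sdiff (f := fun F => ind (F ∩ k = o)) (g := fun F => ind (B (o ∪ (F \ k))))
        (by
          intro F _
          apply ind_congr
          rw [Finset.inter_assoc, Finset.inter_self])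
        (fun F hF => ind_congr (by rw [hsd F hF]))
      rw [e3]
      have e4 : Ex p S (fun F => ind (B (o ∪ (F \ k)))) = Pr p (S \ k) (fun G => B (o ∪ G)) := by
        rw [Ex_local (S := S) (S' := S \ k) Finset.sdiff_subset]
        · unfold Pr
          apply Ex_congr
          intro F hF
          apply ind_congr
          have : F \ k = F := by
            rw [Finset.sdiff_eq_self_iff_disjoint, Finset.disjoint_left]
            intro x hx hxk
            exact (Finset.mem_sdiff.mp (hF hx)).2 hxk
          rw [this]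
        · intro F hF
          apply ind_congr
          rw [hsd F hF]
      have hb := hβ F0 hF0 hA0
      rw [hk0, ho0] at hb
      rw [e4, mul_comm]
      exact mul_le_mul_of_nonneg_right hb (Ex_nonneg hp (fun _ _ => ind_nonneg _))
    · have z : ∀ F, F ⊆ S → ind (K F = k ∧ F ∩ k = o) * ind (A F) = 0 := by
        intro F hF
        by_cases h : (K F = k ∧ F ∩ k = o) ∧ A F
        · exact absurd ⟨F, hF, h.1, h.2⟩ hgood
        · rw [← ind_and, ind_not_of h]
      have e1 : Ex p S (fun F => ind (K F = k ∧ F ∩ k = o) * ind (A F ∧ B F)) = 0 := by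
        rw [Ex_congr (g := fun _ => (0:ℝ)), Ex_const]
        intro F hF
        rw [ind_and (A F)]
        rw [← mul_assoc, z F hF, zero_mul]
      have e2 : Ex p S (fun F => ind (K F = k ∧ F ∩ k = o) * ind (A F)) = 0 := by
        rw [Ex_congr (g := fun _ => (0:ℝ)) z, Ex_const]
      rw [e1, e2, mul_zero]
  unfold Pr
  rw [hdec, hdec (fun F => ind (A F)), Finset.mul_sum]
  exact Finset.sum_le_sum hterm

end H984P
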