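import Pool.Agent.H984R3.Per.Basic

/-!
P16: the outer perimeter dominates the number of pairs.
-/

namespace H984P

open H974 Finset H342P

/-- the side of the examined edge on which the face of the state lies -/
def p16sd (q : Q4) : Bool := match q with
  | .ne => true
  | .nw => false
  | .sw => false
  | .se => true

/-- the face of an edge on a side -/
def p16fc (e : Edg) (b : Bool) : Vtx := if b then dtgt e else dsrc e

theorem p16_face (σ : St) : face σ = p16fc (ae σ) (p16sd σ.2) := by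
  obtain ⟨⟨x, y⟩, q⟩ := σ
  cases q <;> simp [p16fc, p16sd]

theorem p16_inj {σ τ : St} (h1 : ae σ = ae τ) (h2 : p16sd σ.2 = p16sd τ.2) : σ = τ := by
  obtain ⟨⟨x, y⟩, q⟩ := σ
  obtain ⟨⟨x', y'⟩, q'⟩ := τ
  cases q <;> cases q' <;> simp_all [p16sd]

theorem p16_rt_inj : Function.Injective rt := by
  rintro ⟨v, q⟩ ⟨v', q'⟩ h
  cases q <;> cases q' <;> simp_all

theorem p16_dadj (σ : St) {G : Set Edg} (h : ae σ ∈ G) : DReach G (face (rt σ)) (face σ) := by
  refine DAdj.reach ⟨ae σ, h, ?_⟩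
  obtain ⟨⟨x, y⟩, q⟩ := σ
  cases q <;> simp

theorem p16_outer {F : Set Edg} {v : Vtx} {σ : St} (ho : Outer F v (face σ)) (h : ae σ ∉ F) :
    Outer F v (face (rt σ)) :=
  (p16_dadj σ (G := (EC F v)ᶜ) (fun he => h he.1)).trans ho

theorem p16_corner {F : Set Edg} {v' u : Vtx} (h : Reach F v' u) (hne : u ≠ v') :
    ∃ q : Q4, ae (v', q) ∈ F := by
  rcases Relation.ReflTransGen.cases_head h with h0 | ⟨c, ⟨e, he, hc⟩, _⟩
  · exact absurd h0.symm hne
  · obtain ⟨x, y, b⟩ := e
    rcases hc with ⟨h1, _⟩ | ⟨_, h2⟩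
    · subst h1
      cases b
      · exact ⟨.nw, he⟩
      · exact ⟨.ne, he⟩
    · subst h2
      cases b
      · refine ⟨.se, ?_⟩
        simpa using he
      · refine ⟨.sw, ?_⟩
        simpa using he

theorem p16_rot (v' : Vtx) (q q' : Q4) : ∃ k < 4, rt^[k] (v', q) = (v', q') := by
  cases q <;> cases q'
  all_goals first
    | exact ⟨0, by norm_num, rfl⟩
    | exact ⟨1, by norm_num, rfl⟩
    | exact ⟨2, by norm_num, rfl⟩
    | exact ⟨3, by norm_num, rfl⟩

theorem p16_turn {F : Set Edg} {v v' : Vtx} {q : Q4} (ho : Outer F v (face (v', q)))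
    (hex : ∃ q : Q4, ae (v', q) ∈ F) :
    ∃ k < 4, ae (rt^[k] (v', q)) ∈ F ∧ Outer F v (face (rt^[k] (v', q))) := by
  classical
  obtain ⟨q', hq'⟩ := hex
  obtain ⟨k0, hk0, hr⟩ := p16_rot v' q q'
  have hP : ∃ k, ae (rt^[k] (v', q)) ∈ F := ⟨k0, by rw [hr]; exact hq'⟩
  refine ⟨Nat.find hP, lt_of_le_of_lt (Nat.find_min' hP (by rw [hr]; exact hq')) hk0,
    Nat.find_spec hP, ?_⟩
  have key : ∀ j ≤ Nat.find hP, Outer F v (face (rt^[j] (v', q))) := by
    intro j
    induction j with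
    | zero => intro _; exact ho
    | succ j ih =>
      intro hj
      rw [Function.iterate_succ_apply']
      exact p16_outer (ih (by omega)) (Nat.find_min hP (by omega))
  exact key _ le_rfl

theorem p16_fst (v' : Vtx) (q : Q4) (k : ℕ) : (rt^[k] (v', q)).1 = v' := by
  induction k with
  | zero => rfl
  | succ k ih =>
    rw [Function.iterate_succ_apply']
    generalize rt^[k] (v', q) = τ at ih ⊢
    obtain ⟨w, q'⟩ := τ
    cases q' <;> exact ih

/-- the examined edge of a state of the cluster -/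
theorem p16_EC {F : Set Edg} {v : Vtx} {τ : St} (h : Reach F v τ.1) (he : ae τ ∈ F) :
    ae τ ∈ EC F v := by
  refine ⟨he, ?_⟩
  obtain ⟨⟨x, y⟩, q⟩ := τ
  cases q
  · exact h
  · exact h
  · refine h.trans (Adj.reach ⟨_, he, Or.inr ⟨rfl, ?_⟩⟩)
    simp
  · refine h.trans (Adj.reach ⟨_, he, Or.inr ⟨rfl, ?_⟩⟩)
    simp

open Classical in
theorem p16_per (n : ℕ) (F : Set Edg) (v : Vtx) : per n F v =
    ((RE 0 n 0 n ×ˢ (univ : Finset Bool)).filter
      (fun x => x.1 ∈ EC F v ∧ Outer F v (p16fc x.1 x.2))).card := by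
  unfold per
  rw [Finset.card_filter, Finset.sum_product]
  apply Finset.sum_congr rfl
  intro e _
  rw [Fintype.sum_bool]
  simp only [p16fc, if_true, Bool.false_eq_true, if_false]
  by_cases h : e ∈ EC F v
  · simp only [h, if_true, true_and]
    ring
  · simp [h]

open Classical in
theorem p16_nc4 (σ : St) (F : Set Edg) (B : Finset Vtx) : nc4 σ F B =
    ((B ×ˢ (univ : Finset Q4)).filter
      (fun x => Reach F σ.1 x.1 ∧ DReach Fᶜ (face σ) (face x))).card := by
  unfold nc4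
  rw [Finset.card_filter, Finset.sum_product_right]
  apply Finset.sum_congr rfl
  intro q _
  rw [Finset.card_filter]

theorem per_ge {n : ℕ} {F : Finset Edg} (hF : F ⊆ RE 0 n 0 n) {v : Vtx} {σ : St}
    (hσ : Reach (↑F) v σ.1) (hout : Outer (↑F) v (face σ))
    (hne : ∃ w, w ≠ v ∧ Reach (↑F : Set Edg) v w) :
    nc4 σ (↑F) (Bx 0 0 n) ≤ 8 * per n (↑F) v := by
  classical
  obtain ⟨w, hw, hvw⟩ := hne
  rw [p16_nc4, p16_per]
  set P := (Bx 0 0 n ×ˢ (univ : Finset Q4)).filter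
      (fun x => Reach (↑F : Set Edg) σ.1 x.1 ∧ DReach (↑F : Set Edg)ᶜ (face σ) (face x)) with hP
  set S := (RE 0 n 0 n ×ˢ (univ : Finset Bool)).filter
      (fun x => x.1 ∈ EC (↑F : Set Edg) v ∧ Outer (↑F : Set Edg) v (p16fc x.1 x.2)) with hS
  have hk : ∀ x ∈ P, ∃ k < 4, ae (rt^[k] x) ∈ (↑F : Set Edg) ∧
      Outer (↑F : Set Edg) v (face (rt^[k] x)) ∧ Reach (↑F : Set Edg) v (rt^[k] x).1 := by
    rintro ⟨v', q⟩ hx
    rw [hP, Finset.mem_filter] at hx
    obtain ⟨_, h1, h2⟩ := hx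
    have r1 : Reach (↑F : Set Edg) v v' := hσ.trans h1
    have o1 : Outer (↑F : Set Edg) v (face (v', q)) :=
      (h2.symm.mono (Set.compl_subset_compl.mpr (fun e he => he.1))).trans hout
    have hex : ∃ q : Q4, ae (v', q) ∈ (↑F : Set Edg) := by
      by_cases hv : v' = v
      · subst hv
        exact p16_corner hvw hw
      · exact p16_corner r1.symm (fun h => hv h.symm)
    obtain ⟨k, hk4, k1, k2⟩ := p16_turn o1 hex
    exact ⟨k, hk4, k1, k2, by rw [p16_fst]; exact r1⟩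
  choose! κ hκ4 hκ1 hκ2 hκ3 using hk
  have hle : P.card ≤ (S ×ˢ Finset.range 4).card := by
    apply Finset.card_le_card_of_injOn
      (fun x => ((ae (rt^[κ x] x), p16sd (rt^[κ x] x).2), κ x))
    · intro x hx
      rw [Finset.mem_coe] at hx ⊢
      rw [Finset.mem_product, Finset.mem_range]
      refine ⟨?_, hκ4 x hx⟩
      rw [hS, Finset.mem_filter, Finset.mem_product]
      refine ⟨⟨hF (Finset.mem_coe.mp (hκ1 x hx)), Finset.mem_univ _⟩, ?_, ?_⟩
      · exact p16_EC (hκ3 x hx) (hκ1 x hx)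
      · rw [← p16_face]
        exact hκ2 x hx
    · intro x hx y hy hxy
      simp only [Prod.mk.injEq] at hxy
      obtain ⟨⟨h1, h2⟩, h3⟩ := hxy
      have h4 := p16_inj h1 h2
      rw [h3] at h4
      exact (p16_rt_inj.iterate _) h4
  rw [Finset.card_product, Finset.card_range] at hle
  omega

end H984P
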