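import Pool.Agent.H984R3.Per.Inj
import Pool.Agent.H974R2.FourArm

/-!
S3: expected number of strands crossing a slab.
-/

namespace H984P

open H974 Finset H342P

/-- The edges of `S` in the slab. -/
noncomputable def SC_S (A X : ℤ) (S : Finset Edg) : Finset Edg :=
  S.filter (fun e => A ≤ e.1 ∧ e.1 < X)

theorem SC_coe {A X : ℤ} {S F : Finset Edg} (hF : F ⊆ S) :
    (↑(F ∩ SC_S A X S) : Set Edg) = ↑F ∩ slabE A X := by
  ext e
  simp only [SC_S, slabE, Finset.coe_inter, Finset.coe_filter, Set.mem_inter_iff, Finset.mem_coe,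
    Set.mem_setOf_eq]
  constructor
  · rintro ⟨h1, h2, h3⟩; exact ⟨h1, h3⟩
  · rintro ⟨h1, h3⟩; exact ⟨h1, hF h1, h3⟩

/-- The starts in the window. -/
noncomputable def SC_K (A y1 : ℤ) (a : ℕ) : Finset Vtx :=
  (Finset.Icc y1 (y1 + a)).image (fun y => (A, y))

open Classical in
theorem SC_le {A X y1 : ℤ} {a : ℕ} {S F : Finset Edg} (hF : F ⊆ S) :
    ∑ y0 ∈ Finset.Icc y1 (y1 + a),
      ind (∃ (Y : ℤ) (T : ℕ), Strand (↑F : Set Edg) A y0 X Y T) ≤
    ((NC src tgt (SC_K A y1 a) {v | X ≤ v.1} (↑(F ∩ SC_S A X S) : Set Edg) : ℕ) : ℝ) := by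
  have h1 : ∑ y0 ∈ Finset.Icc y1 (y1 + a),
      ind (∃ (Y : ℤ) (T : ℕ), Strand (↑F : Set Edg) A y0 X Y T) =
      (((Finset.Icc y1 (y1 + a)).filter
        (fun y0 => ∃ (Y : ℤ) (T : ℕ), Strand (↑F : Set Edg) A y0 X Y T)).card : ℝ) := by
    rw [Finset.card_filter]
    push_cast
    apply Finset.sum_congr rfl
    intro y _
    split_ifs with h
    · exact ind_of h
    · exact ind_not_of h
  rw [h1]
  have h2 : ((Finset.Icc y1 (y1 + a)).filter
      (fun y0 => ∃ (Y : ℤ) (T : ℕ), Strand (↑F : Set Edg) A y0 X Y T)).card ≤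
      NC src tgt (SC_K A y1 a) {v | X ≤ v.1} (↑(F ∩ SC_S A X S) : Set Edg) := by
    unfold NC
    apply Finset.card_le_card_of_injOn
      (fun y => clu src tgt (↑(F ∩ SC_S A X S) : Set Edg) (A, y))
    · intro y hy
      rw [Finset.mem_coe, Finset.mem_filter] at hy
      obtain ⟨hyw, Y, T, hst⟩ := hy
      rw [Finset.mem_coe, mem_TC]
      refine ⟨(A, y), ?_, ⟨(X, Y), ?_, ?_⟩, rfl⟩
      · unfold SC_K
        exact Finset.mem_image.2 ⟨y, hyw, rfl⟩
      · exact le_refl X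
      · rw [SC_coe hF]
        exact strand_reach hst
    · intro y hy y' hy' heq
      rw [Finset.mem_coe, Finset.mem_filter] at hy hy'
      obtain ⟨-, Y, T, hst⟩ := hy
      obtain ⟨-, Y', T', hst'⟩ := hy'
      apply strand_inj hst hst'
      have h3 : (A, y') ∈ clu src tgt (↑(F ∩ SC_S A X S) : Set Edg) (A, y) := by
        simp only at heq
        rw [heq]
        exact GR.refl _ _
      rw [← SC_coe hF]
      exact h3
  exact_mod_cast h2

/-- Expected number of strands which start in a window of length `a` and cross a slab of width at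
least `3 a`. -/
theorem strand_count : ∃ C : ℝ, 0 < C ∧ ∀ (A X y1 : ℤ) (a : ℕ) (S : Finset Edg), 5 ≤ a →
    A + 3 * a ≤ X →
    ∑ y0 ∈ Finset.Icc y1 (y1 + a), Pr (fun _ => (1/2:ℝ)) S
      (fun F => ∃ (Y : ℤ) (T : ℕ), Strand (↑F) A y0 X Y T) ≤ C := by
  refine ⟨2 / kap ^ 2, by have := kap_pos; positivity, ?_⟩
  intro A X y1 a S ha hX
  have hp : Ok (fun _ : Edg => (1/2:ℝ)) := fun _ => ⟨by norm_num, by norm_num⟩
  have hk := kap_pos
  have e1 : ∑ y0 ∈ Finset.Icc y1 (y1 + a), Pr (fun _ => (1/2:ℝ)) S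
      (fun F => ∃ (Y : ℤ) (T : ℕ), Strand (↑F) A y0 X Y T) =
      Ex (fun _ => (1/2:ℝ)) S (fun F => ∑ y0 ∈ Finset.Icc y1 (y1 + a),
        ind (∃ (Y : ℤ) (T : ℕ), Strand (↑F : Set Edg) A y0 X Y T)) := by
    rw [Ex_sum]
    rfl
  rw [e1]
  have e2 : Ex (fun _ => (1/2:ℝ)) S (fun F => ∑ y0 ∈ Finset.Icc y1 (y1 + a),
        ind (∃ (Y : ℤ) (T : ℕ), Strand (↑F : Set Edg) A y0 X Y T)) ≤
      Ex (fun _ => (1/2:ℝ)) S (fun F => ((NC src tgt (SC_K A y1 a) {v | X ≤ v.1}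
        (↑(F ∩ SC_S A X S) : Set Edg) : ℕ) : ℝ) ^ 2) := by
    apply Ex_mono hp
    intro F hF
    refine (SC_le hF).trans ?_
    have : ∀ n : ℕ, (n : ℝ) ≤ (n:ℝ) ^ 2 := by
      intro n
      rcases Nat.eq_zero_or_pos n with h | h
      · rw [h]; norm_num
      · have h1 : (1:ℝ) ≤ n := by exact_mod_cast h
        nlinarith
    exact this _
  refine e2.trans ?_
  have hsub : SC_S A X S ⊆ S := Finset.filter_subset _ _
  have e3 : Ex (fun _ => (1/2:ℝ)) S (fun F => ((NC src tgt (SC_K A y1 a) {v | X ≤ v.1}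
        (↑(F ∩ SC_S A X S) : Set Edg) : ℕ) : ℝ) ^ 2) =
      Ex (fun _ => (1/2:ℝ)) (SC_S A X S) (fun F => ((NC src tgt (SC_K A y1 a) {v | X ≤ v.1}
        (↑(F ∩ SC_S A X S) : Set Edg) : ℕ) : ℝ) ^ 2) := by
    apply Ex_local hsub
    intro F _
    rw [Finset.inter_assoc, Finset.inter_self]
  rw [e3]
  have e4 : Ex (fun _ => (1/2:ℝ)) (SC_S A X S) (fun F => ((NC src tgt (SC_K A y1 a)
        {v | X ≤ v.1} (↑(F ∩ SC_S A X S) : Set Edg) : ℕ) : ℝ) ^ 2) =
      Ex (fun _ => (1/2:ℝ)) (SC_S A X S) (fun F => ((NC src tgt (SC_K A y1 a)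
        {v | X ≤ v.1} (↑F : Set Edg) : ℕ) : ℝ) ^ 2) := by
    apply Ex_congr
    intro F hF
    rw [Finset.inter_eq_left.mpr hF]
  rw [e4]
  have e5 := NC_sq (p := fun _ : Edg => (1/2:ℝ)) hp (SC_S A X S) src tgt (SC_K A y1 a)
    {v | X ≤ v.1} (lam := 1 - kap) (by linarith) ?_
  · rwa [sub_sub_cancel] at e5
  · refine le_trans (Pr_mono hp ?_) (pr_Cr ha A y1 (SC_S A X S))
    rintro F _ ⟨x, hx, b, hb, hr⟩
    unfold SC_K at hx
    rw [Finset.mem_image] at hx
    obtain ⟨y, hy, rfl⟩ := hx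
    rw [Finset.mem_Icc] at hy
    refine ⟨(A, y), b, ?_, ?_, hr⟩
    · unfold inR
      simp only
      omega
    · have hb' : X ≤ b.1 := hb
      right; left
      omega

theorem strand_count_sum : ∃ C : ℝ, 0 < C ∧ ∀ (A X c : ℤ) (n a : ℕ) (S : Finset Edg), 5 ≤ a →
    A + 3 * a ≤ X →
    ∑ y0 ∈ Finset.Icc c (c + n), Pr (fun _ => (1/2:ℝ)) S
      (fun F => ∃ (Y : ℤ) (T : ℕ), Strand (↑F) A y0 X Y T) ≤ C * ((n:ℝ) / a + 1) := by
  obtain ⟨C, hC, h⟩ := strand_count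
  refine ⟨C, hC, ?_⟩
  intro A X c n a S ha hX
  have hp : Ok (fun _ : Edg => (1/2:ℝ)) := fun _ => ⟨by norm_num, by norm_num⟩
  have ha0 : (0:ℝ) < a := by
    have : (5:ℝ) ≤ a := by exact_mod_cast ha
    linarith
  set g : ℤ → ℝ := fun y0 => Pr (fun _ => (1/2:ℝ)) S
      (fun F => ∃ (Y : ℤ) (T : ℕ), Strand (↑F) A y0 X Y T) with hg
  have hg0 : ∀ y, 0 ≤ g y := fun y => Pr_nonneg hp _ _
  have key : ∀ k : ℕ, ∑ y0 ∈ Finset.Ico c (c + (k * a : ℕ)), g y0 ≤ C * k := by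
    intro k
    induction k with
    | zero => simp
    | succ k ih =>
      have e1 : Finset.Ico c (c + ((k + 1) * a : ℕ)) =
          Finset.Ico c (c + (k * a : ℕ)) ∪
            Finset.Ico (c + (k * a : ℕ)) (c + ((k + 1) * a : ℕ)) := by
        rw [Finset.Ico_union_Ico_eq_Ico]
        · push_cast
          nlinarith [Nat.zero_le k, Nat.zero_le a]
        · push_cast
          nlinarith
      rw [e1, Finset.sum_union (Finset.Ico_disjoint_Ico_consecutive _ _ _)]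
      have e2 : ∑ y0 ∈ Finset.Ico (c + (k * a : ℕ)) (c + ((k + 1) * a : ℕ)), g y0 ≤ C := by
        refine le_trans ?_ (h A X (c + (k * a : ℕ)) a S ha hX)
        apply Finset.sum_le_sum_of_subset_of_nonneg
        · intro y hy
          rw [Finset.mem_Ico] at hy
          rw [Finset.mem_Icc]
          push_cast at hy ⊢
          have : ((k:ℤ) + 1) * a = k * a + a := by ring
          omega
        · intro y _ _
          exact hg0 y
      push_cast
      push_cast at ih e2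
      nlinarith
  set k := n / a + 1 with hk
  have h1 : ∑ y0 ∈ Finset.Icc c (c + n), g y0 ≤ ∑ y0 ∈ Finset.Ico c (c + (k * a : ℕ)), g y0 := by
    apply Finset.sum_le_sum_of_subset_of_nonneg
    · intro y hy
      rw [Finset.mem_Icc] at hy
      rw [Finset.mem_Ico]
      have h2 : n < k * a := by
        rw [hk]
        have := Nat.div_add_mod n a
        have h3 := Nat.mod_lt n (show 0 < a by omega)
        nlinarith
      have h4 : (n:ℤ) < (k * a : ℕ) := by exact_mod_cast h2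
      omega
    · intro y _ _
      exact hg0 y
  refine h1.trans ((key k).trans ?_)
  apply mul_le_mul_of_nonneg_left _ hC.le
  rw [hk]
  push_cast
  have : ((n / a : ℕ) : ℝ) ≤ (n:ℝ) / a := Nat.cast_div_le
  linarith

end H984P
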