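import Pool.Agent.H984R3.Per.Defs
import Pool.Agent.H985R3.TA.Defs
import Pool.Agent.H984R3.Per.Rot

/-!
P22: from the upper bound for `H985T.pi2` to `H342P.TwoUp`.
-/

namespace H984P

open H974 Finset H342P

/-- A dual path which leaves a box can be stopped at the exit. -/
theorem p22_dexit {a b c d : ℤ} {F : Finset Edg} {f g : Vtx}
    (h : DReach (↑F : Set Edg)ᶜ f g) :
    DReach (↑(RE a b c d \ F) : Set Edg) f g ∨
      ∃ g', ¬ inF a b c d g' ∧ DReach (↑(RE a b c d \ F) : Set Edg) f g' := by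
  induction h with
  | refl => exact Or.inl (DReach.refl _ _)
  | @tail g g' _ hs ih =>
    rcases ih with ih | ih
    · by_cases hg : inF a b c d g
      · left
        refine ih.trans (DAdj.reach ?_)
        obtain ⟨e, he, h⟩ := hs
        refine ⟨e, ?_, h⟩
        rw [Finset.coe_sdiff]
        refine ⟨?_, he⟩
        rw [Finset.mem_coe]
        apply mem_RE_of_inF
        rcases h with ⟨h3, -⟩ | ⟨-, h3⟩
        · left; rw [h3]; exact hg
        · right; rw [h3]; exact hg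
      · exact Or.inr ⟨g, hg, ih⟩
    · exact Or.inr ih

theorem p22_A2 {m : ℕ} (hm : 1 ≤ m) {F : Finset Edg} (h : Two (0, 0) (0, 0) m (↑F : Set Edg)) :
    H985T.A2 m F := by
  obtain ⟨⟨w, hw1, hw2⟩, g, hg1, hg2⟩ := h
  constructor
  · obtain ⟨w', h1, h2, h3⟩ := first_exit (a := -(m:ℤ)) (b := m) (c := -(m:ℤ)) (d := m)
      (by unfold inR; simp only; omega) hw2 (by unfold Far at hw1; simp only at hw1; omega)
    exact ⟨w', ⟨h1, h2⟩, h3.mono Set.inter_subset_left⟩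
  · have key : ∀ g', ¬ inF (-(m:ℤ)) m (-(m:ℤ)) m g' →
        (g'.1 < -m ∨ (m:ℤ) ≤ g'.1 ∨ g'.2 < -m ∨ (m:ℤ) ≤ g'.2) := by
      intro g' h
      unfold inF at h
      omega
    have hg3 : ¬ inF (-(m:ℤ)) m (-(m:ℤ)) m g := by
      intro h
      apply hg1
      unfold inF at h ⊢
      simp only
      omega
    rcases p22_dexit (a := -(m:ℤ)) (b := m) (c := -(m:ℤ)) (d := m) hg2 with h1 | ⟨g', h1, h2⟩
    · exact ⟨g, key g hg3, h1⟩
    · exact ⟨g', key g' h1, h2⟩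

/-- the two-arm probability at the origin -/
noncomputable def P22 (m : ℤ) (f : Vtx) : ℝ :=
  Pr (fun _ => (1/2:ℝ)) (RE (-m) m (-m) m) (fun F => Two (0, 0) f m (↑F))

theorem p22_far {m : ℤ} {w : Vtx} : Far (0, 0) m (rV w) ↔ Far (0, 0) m w := by
  obtain ⟨x, y⟩ := w
  simp only [Far, rV, Equiv.coe_fn_mk]
  omega

theorem p22_farF {m : ℤ} {g : Vtx} : FarF (0, 0) m (rF g) ↔ FarF (0, 0) m g := by
  obtain ⟨x, y⟩ := g
  simp only [FarF, rF, Equiv.coe_fn_mk, inF]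
  omega

theorem p22_two {m : ℤ} {f : Vtx} {F : Finset Edg} :
    Two (0, 0) (rF f) m (↑(rM F) : Set Edg) ↔ Two (0, 0) f m (↑F : Set Edg) := by
  have h0 : rV (0, 0) = (0, 0) := by simp [rV]
  unfold Two
  constructor
  · rintro ⟨⟨w, hw1, hw2⟩, g, hg1, hg2⟩
    refine ⟨⟨rV.symm w, ?_, ?_⟩, rF.symm g, ?_, ?_⟩
    · rw [← p22_far, Equiv.apply_symm_apply]; exact hw1
    · rw [← rot_reach, Equiv.apply_symm_apply, h0]; exact hw2
    · rw [← p22_farF, Equiv.apply_symm_apply]; exact hg1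
    · rw [← rot_dreach, Equiv.apply_symm_apply]; exact hg2
  · rintro ⟨⟨w, hw1, hw2⟩, g, hg1, hg2⟩
    refine ⟨⟨rV w, ?_, ?_⟩, rF g, ?_, ?_⟩
    · rw [p22_far]; exact hw1
    · rw [← h0, rot_reach]; exact hw2
    · rw [p22_farF]; exact hg1
    · rw [rot_dreach]; exact hg2

theorem p22_rot (m : ℤ) (f : Vtx) : P22 m (rF f) = P22 m f := by
  unfold P22
  have h1 : rM (RE (-m) m (-m) m) = RE (-m) m (-m) m := by
    rw [rot_RE, neg_neg]
  conv_lhs => rw [← h1, rot_pr]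
  apply Pr_congr
  intro F _
  exact p22_two

theorem p22_corner (m : ℤ) {f : Vtx} (hf : Inc (0, 0) f) : P22 m f = P22 m (0, 0) := by
  have e1 : rF (0, 0) = (-1, 0) := by simp [rF]
  have e2 : rF (-1, 0) = (-1, -1) := by simp [rF]
  have e3 : rF (-1, -1) = (0, -1) := by simp [rF]
  have h1 : P22 m (-1, 0) = P22 m (0, 0) := by rw [← e1, p22_rot]
  have h2 : P22 m (-1, -1) = P22 m (0, 0) := by rw [← e2, p22_rot, h1]
  have h3 : P22 m (0, -1) = P22 m (0, 0) := by rw [← e3, p22_rot, h2]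
  obtain ⟨x, y⟩ := f
  unfold Inc at hf
  simp only at hf
  rcases hf with ⟨rfl | hx, rfl | hy⟩
  · rfl
  · have : y = -1 := by omega
    subst this; exact h3
  · have : x = -1 := by omega
    subst this; exact h1
  · have e4 : x = -1 := by omega
    have e5 : y = -1 := by omega
    subst e4; subst e5; exact h2

theorem p22_dadj (s t : ℤ) {F : Set Edg} {f g : Vtx} (h : DAdj Fᶜ f g) :
    DAdj ((trl s t).φ '' F)ᶜ (f.1 + s, f.2 + t) (g.1 + s, g.2 + t) := by
  obtain ⟨e, he, hc⟩ := h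
  refine ⟨(trl s t).φ e, ?_, ?_⟩
  · rintro ⟨e', he', h'⟩
    rw [(trl s t).φ.injective h'] at he'
    exact he he'
  · have h1 : dsrc ((trl s t).φ e) = ((dsrc e).1 + s, (dsrc e).2 + t) := by
      obtain ⟨x, y, _ | _⟩ := e
      · simp [trl]; ring
      · simp [trl]; ring
    have h2 : dtgt ((trl s t).φ e) = ((dtgt e).1 + s, (dtgt e).2 + t) := by
      obtain ⟨x, y, _ | _⟩ := e
      · simp [trl]
      · simp [trl]
    rcases hc with ⟨h3, h4⟩ | ⟨h3, h4⟩
    · left; rw [h1, h2, h3, h4]; exact ⟨rfl, rfl⟩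
    · right; rw [h1, h2, h3, h4]; exact ⟨rfl, rfl⟩

theorem p22_dreach (s t : ℤ) {F : Set Edg} {f g : Vtx} (h : DReach Fᶜ f g) :
    DReach ((trl s t).φ '' F)ᶜ (f.1 + s, f.2 + t) (g.1 + s, g.2 + t) := by
  induction h with
  | refl => exact DReach.refl _ _
  | tail _ hs ih => exact ih.trans (p22_dadj s t hs).reach

/-- a two-arm configuration is translated to the origin -/
theorem p22_trl {u f : Vtx} {m : ℤ} {F : Finset Edg} (h : Two u f m (↑F : Set Edg)) :
    Two (0, 0) (f.1 - u.1, f.2 - u.2) m (↑((trl (-u.1) (-u.2)).mp F) : Set Edg) := by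
  obtain ⟨⟨w, hw1, hw2⟩, g, hg1, hg2⟩ := h
  rw [LSym.coe_mp]
  refine ⟨⟨(trl (-u.1) (-u.2)).ψ w, ?_, ?_⟩, (g.1 + -u.1, g.2 + -u.2), ?_, ?_⟩
  · obtain ⟨x, y⟩ := w
    simp only [Far, trl, Equiv.coe_fn_mk] at hw1 ⊢
    omega
  · have h1 := (trl (-u.1) (-u.2)).reach hw2
    have h2 : (trl (-u.1) (-u.2)).ψ u = (0, 0) := by simp [trl]
    rw [h2] at h1
    exact h1
  · unfold FarF inF at hg1 ⊢
    simp only
    omega
  · exact p22_dreach (-u.1) (-u.2) hg2

theorem p22_shift (m : ℤ) (u f : Vtx) :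
    Pr (fun _ => (1/2:ℝ)) (RE (u.1 - m) (u.1 + m) (u.2 - m) (u.2 + m))
      (fun F => Two u f m (↑F)) ≤ P22 m (f.1 - u.1, f.2 - u.2) := by
  have h1 : (trl (-u.1) (-u.2)).mp (RE (u.1 - m) (u.1 + m) (u.2 - m) (u.2 + m)) =
      RE (-m) m (-m) m := by
    ext ⟨x, y, _ | _⟩
    · rw [LSym.mem_mp]
      simp only [trl, Equiv.coe_fn_symm_mk, mem_RE_false]
      omega
    · rw [LSym.mem_mp]
      simp only [trl, Equiv.coe_fn_symm_mk, mem_RE_true]
      omega
  unfold P22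
  rw [← h1, LSym.pr]
  apply Pr_mono
  · intro _; exact ⟨by norm_num, by norm_num⟩
  · intro F _ h
    exact p22_trl h

theorem twoUp_of_pi2 {C s : ℝ} (hC : 0 < C) (hs : 0 ≤ s)
    (h : ∀ m : ℕ, 1 ≤ m → H985T.pi2 m ≤ C * (m:ℝ) ^ (-s)) : TwoUp C s := by
  intro m u f hm hf
  obtain ⟨n, rfl⟩ := Int.eq_ofNat_of_zero_le hm.le
  have hn : 1 ≤ n := by omega
  refine (p22_shift _ u f).trans ?_
  rw [p22_corner]
  · refine le_trans ?_ ((h n hn).trans (le_of_eq ?_))
    · unfold P22 H985T.pi2 boxE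
      apply Pr_mono
      · intro _; exact ⟨by norm_num, by norm_num⟩
      · intro F _ h
        exact p22_A2 hn h
    · norm_cast
  · unfold Inc at hf ⊢
    simp only
    omega

end H984P
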